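import Mathlib

set_option autoImplicit false

/-!
# A quadratic function on pairs of integer matrices

`Q R S` is the sign of Kim, Roush and Wagoner attached to an elementary strong shift equivalence
`(R, S)` of integer matrices, and `Q_triangle` is its cocycle identity.
-/

namespace Pool.Agent.Helper817_sse

open Matrix Finset

/-- The binomial coefficient `x choose 2` modulo two. -/
def c2 (x : ℤ) : ZMod 2 := ((x * (x - 1) / 2 : ℤ) : ZMod 2)

theorem z2_mul_self (z : ZMod 2) : z * z = z := by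
  revert z; decide

theorem z2_add_self (z : ZMod 2) : z + z = 0 := by
  revert z; decide

theorem c2_eq {x a : ℤ} (h : x * (x - 1) = 2 * a) : c2 x = (a : ZMod 2) := by
  unfold c2
  rw [h, Int.mul_ediv_cancel_left _ (by norm_num)]

theorem exists_c2 (x : ℤ) : ∃ a : ℤ, x * (x - 1) = 2 * a := by
  obtain ⟨a, ha⟩ := Int.even_mul_pred_self x
  exact ⟨a, by rw [ha]; ring⟩

@[simp] theorem c2_zero : c2 0 = 0 := by simp [c2]

theorem c2_add (x y : ℤ) : c2 (x + y) = c2 x + c2 y + (x : ZMod 2) * (y : ZMod 2) := by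
  obtain ⟨a, ha⟩ := exists_c2 x
  obtain ⟨b, hb⟩ := exists_c2 y
  rw [c2_eq ha, c2_eq hb, c2_eq (a := a + b + x * y) (by linear_combination ha + hb)]
  push_cast; ring

theorem c2_mul (x y : ℤ) : c2 (x * y) = c2 x * (y : ZMod 2) + (x : ZMod 2) * c2 y := by
  obtain ⟨a, ha⟩ := exists_c2 x
  obtain ⟨b, hb⟩ := exists_c2 y
  rw [c2_eq ha, c2_eq hb, c2_eq (a := a * (y * y) + x * b) (by linear_combination y * y * ha + x * hb)]
  push_cast
  rw [z2_mul_self]

theorem c2_sum_finset {ι : Type*} [LinearOrder ι] (s : Finset ι) (f : ι → ℤ) :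
    c2 (∑ i ∈ s, f i) = ∑ i ∈ s, c2 (f i) +
      ∑ i ∈ s, ∑ j ∈ s, if i < j then (f i : ZMod 2) * (f j : ZMod 2) else 0 := by
  induction s using Finset.induction_on_max with
  | empty => simp
  | insert a s hs ih =>
    have ha : a ∉ s := fun h => lt_irrefl _ (hs a h)
    rw [sum_insert ha, c2_add, ih, sum_insert ha, sum_insert ha, sum_insert ha]
    rw [if_neg (lt_irrefl a)]
    have h1 : ∑ j ∈ s, (if a < j then (f a : ZMod 2) * (f j : ZMod 2) else 0) = 0 := by
      apply sum_eq_zero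
      intro j hj
      rw [if_neg (not_lt.mpr (hs j hj).le)]
    have h2 : ∑ i ∈ s, ∑ j ∈ insert a s, (if i < j then (f i : ZMod 2) * (f j : ZMod 2) else 0) =
        (f a : ZMod 2) * ((∑ i ∈ s, f i : ℤ) : ZMod 2) +
          ∑ i ∈ s, ∑ j ∈ s, (if i < j then (f i : ZMod 2) * (f j : ZMod 2) else 0) := by
      rw [Int.cast_sum, mul_sum, ← sum_add_distrib]
      apply sum_congr rfl
      intro i hi
      rw [sum_insert ha, if_pos (hs i hi), mul_comm (f a : ZMod 2)]
    rw [h1, h2]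
    ring

theorem c2_sum {ι : Type*} [Fintype ι] [LinearOrder ι] (f : ι → ℤ) :
    c2 (∑ i, f i) = ∑ i, c2 (f i) +
      ∑ i, ∑ j, if i < j then (f i : ZMod 2) * (f j : ZMod 2) else 0 :=
  c2_sum_finset univ f

section pairs

variable {α β γ : Type*} [LinearOrder α] [LinearOrder β] [LinearOrder γ]

/-- Indicator of increasing pairs. -/
def Lt (u : α × α) : ZMod 2 := if u.1 < u.2 then 1 else 0

/-- Indicator of decreasing pairs. -/
def Gt (u : α × α) : ZMod 2 := if u.2 < u.1 then 1 else 0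

/-- Indicator of diagonal pairs. -/
def Eqd (u : α × α) : ZMod 2 := if u.1 = u.2 then 1 else 0

theorem Lt_swap (u : α × α) : Lt u.swap = Gt u := rfl

theorem Gt_swap (u : α × α) : Gt u.swap = Lt u := rfl

theorem tri (u : α × α) : Lt u + Eqd u + Gt u = 1 := by
  unfold Lt Eqd Gt
  rcases lt_trichotomy u.1 u.2 with h | h | h
  · rw [if_pos h, if_neg h.ne, if_neg h.not_gt]; rfl
  · rw [if_neg h.not_lt, if_pos h, if_neg h.not_gt]; rfl
  · rw [if_neg h.not_gt, if_neg h.ne', if_pos h]; rfl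

variable [Fintype α] [Fintype β] [Fintype γ]

/-- The main part of `Q` for functions on pairs. -/
def Mn (A : α × α → γ × γ → ZMod 2) (B : γ × γ → α × α → ZMod 2) : ZMod 2 :=
  ∑ u, ∑ w, Lt u * Gt w * (A u w * (B w u + B w u.swap))

theorem coef_id (a b c d e f g h i : ZMod 2) (h1 : a + b + c = 1) (h2 : d + e + f = 1)
    (h3 : g + h + i = 1) :
    a * i + a * f + d * i + a * e * i = a * f * g + a * f * h + d * i * b + c * d * i := by
  revert a b c d e f g h i; decide

theorem main_id (X : α × α → β × β → ZMod 2) (Y : β × β → γ × γ → ZMod 2)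
    (Z : γ × γ → α × α → ZMod 2)
    (hX : ∀ u v, X u.swap v.swap = X u v) (hY : ∀ u v, Y u.swap v.swap = Y u v)
    (hZ : ∀ u v, Z u.swap v.swap = Z u v) :
    Mn (fun u w => ∑ v, X u v * Y v w) Z + Mn X (fun v u => ∑ w, Y v w * Z w u) +
      Mn Y (fun w v => ∑ u, Z w u * X u v) +
      ∑ u, ∑ v, ∑ w, Lt u * Eqd v * Gt w * (X u v * Y v w * (Z w u + Z w u.swap)) = 0 := by
  set t : α × α → β × β → γ × γ → ZMod 2 :=
    fun u v w => X u v * Y v w * (Z w u + Z w u.swap) with ht
  have hZ' : ∀ w u, Z w.swap u = Z w u.swap := by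
    intro w u
    have := hZ w u.swap
    rwa [Prod.swap_swap] at this
  have hX' : ∀ w u, X w.swap u = X w u.swap := by
    intro w u
    have := hX w u.swap
    rwa [Prod.swap_swap] at this
  have e1 : Mn (fun u w => ∑ v, X u v * Y v w) Z = ∑ u, ∑ v, ∑ w, (Lt u * Gt w) * t u v w := by
    unfold Mn
    apply sum_congr rfl; intro u _
    rw [sum_comm]
    apply sum_congr rfl; intro w _
    rw [sum_mul, mul_sum]
  have e2 : Mn X (fun v u => ∑ w, Y v w * Z w u) = ∑ u, ∑ v, ∑ w, (Lt u * Gt v) * t u v w := by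
    unfold Mn
    apply sum_congr rfl; intro u _
    apply sum_congr rfl; intro v _
    rw [← sum_add_distrib, mul_sum, mul_sum]
    apply sum_congr rfl; intro w _
    simp only [ht]; ring
  have e3 : Mn Y (fun w v => ∑ u, Z w u * X u v) = ∑ u, ∑ v, ∑ w, (Lt v * Gt w) * t u v w := by
    have hc : ∑ u, ∑ v, ∑ w, (Lt v * Gt w) * t u v w = ∑ v, ∑ w, ∑ u, (Lt v * Gt w) * t u v w := by
      rw [sum_comm]
      apply sum_congr rfl; intro v _
      rw [sum_comm]
    rw [hc]
    unfold Mn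
    apply sum_congr rfl; intro v _
    apply sum_congr rfl; intro w _
    rw [← mul_sum]
    congr 1
    have : ∑ u, Z w u * X u v.swap = ∑ u, Z w u.swap * X u v := by
      rw [← Equiv.sum_comp (Equiv.prodComm α α)]
      apply sum_congr rfl; intro u _
      rw [Equiv.prodComm_apply, hX', Prod.swap_swap]
    change Y v w * ((∑ u, Z w u * X u v) + (∑ u, Z w u * X u v.swap)) = _
    rw [this, ← sum_add_distrib, mul_sum]
    apply sum_congr rfl; intro u _
    simp only [ht]; ring
  have hsw : ∀ u v w, t u.swap v.swap w.swap = t u v w := by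
    intro u v w
    simp only [ht]
    rw [hX, hY, hZ, Prod.swap_swap, hZ' w u]
  have hw : ∀ u v w, Eqd w * t u v w = 0 := by
    intro u v w
    unfold Eqd
    split_ifs with h
    · simp only [ht]
      have : w.swap = w := by ext <;> simp [h]
      rw [← hZ' w u, this, z2_add_self, mul_zero, mul_zero]
    · rw [zero_mul]
  have hu : ∀ u v w, Eqd u * t u v w = 0 := by
    intro u v w
    unfold Eqd
    split_ifs with h
    · simp only [ht]
      have : u.swap = u := by ext <;> simp [h]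
      rw [this, z2_add_self, mul_zero, mul_zero]
    · rw [zero_mul]
  have e4 : ∑ u, ∑ v, ∑ w, Lt u * Eqd v * Gt w * (X u v * Y v w * (Z w u + Z w u.swap)) =
      ∑ u, ∑ v, ∑ w, (Lt u * Eqd v * Gt w) * t u v w := rfl
  rw [e1, e2, e3, e4, ← sum_add_distrib, ← sum_add_distrib, ← sum_add_distrib]
  have e5 : ∀ u : α × α, (∑ v, ∑ w, (Lt u * Gt w) * t u v w + ∑ v, ∑ w, (Lt u * Gt v) * t u v w +
      ∑ v, ∑ w, (Lt v * Gt w) * t u v w + ∑ v, ∑ w, (Lt u * Eqd v * Gt w) * t u v w) =
      ∑ v, ∑ w, (Lt u * Gt v * Lt w) * t u v w + ∑ v, ∑ w, (Gt u * Lt v * Gt w) * t u v w := by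
    intro u
    rw [← sum_add_distrib, ← sum_add_distrib, ← sum_add_distrib, ← sum_add_distrib]
    apply sum_congr rfl; intro v _
    rw [← sum_add_distrib, ← sum_add_distrib, ← sum_add_distrib, ← sum_add_distrib]
    apply sum_congr rfl; intro w _
    have h := coef_id _ _ _ _ _ _ _ _ _ (tri u) (tri v) (tri w)
    linear_combination t u v w * h + Lt u * Gt v * hw u v w + Lt v * Gt w * hu u v w
  rw [sum_congr rfl (fun u _ => e5 u), sum_add_distrib]
  have e6 : ∑ u, ∑ v, ∑ w, (Gt u * Lt v * Gt w) * t u v w =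
      ∑ u, ∑ v, ∑ w, (Lt u * Gt v * Lt w) * t u v w := by
    rw [← Equiv.sum_comp (Equiv.prodComm α α)]
    apply sum_congr rfl; intro u _
    rw [← Equiv.sum_comp (Equiv.prodComm β β)]
    apply sum_congr rfl; intro v _
    rw [← Equiv.sum_comp (Equiv.prodComm γ γ)]
    apply sum_congr rfl; intro w _
    simp only [Equiv.prodComm_apply]
    rw [hsw, Lt_swap, Gt_swap, Gt_swap]
  rw [e6, z2_add_self]

end pairs

section defQ

variable {α β γ : Type*} [LinearOrder α] [LinearOrder β] [LinearOrder γ]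
  [Fintype α] [Fintype β] [Fintype γ]

/-- The sign of an elementary strong shift equivalence. -/
def Q (R : Matrix α β ℤ) (S : Matrix β α ℤ) : ZMod 2 :=
  Mn (fun (u : α × α) (w : β × β) => ((R u.1 w.1 : ℤ) : ZMod 2) * ((R u.2 w.2 : ℤ) : ZMod 2))
      (fun (w : β × β) (u : α × α) => ((S w.1 u.1 : ℤ) : ZMod 2) * ((S w.2 u.2 : ℤ) : ZMod 2)) +
    ∑ k, c2 ((S * R) k k) + ∑ i, ∑ k, ((R i k : ℤ) : ZMod 2) * c2 (S k i)

theorem sum_mul_split {ι : Type*} [LinearOrder ι] [Fintype ι] (f g : ι → ZMod 2) :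
    (∑ i, f i) * (∑ j, g j) =
      ∑ i, f i * g i + ∑ i, ∑ j, if i < j then f i * g j + f j * g i else 0 := by
  have h1 : ∑ i, ∑ j, (if j < i then f i * g j else 0) = ∑ i, ∑ j, (if i < j then f j * g i else 0) := by
    rw [sum_comm]
  have h2 : ∑ i, f i * g i = ∑ i, ∑ j, (if i = j then f i * g j else 0) := by
    apply sum_congr rfl; intro i _
    rw [sum_ite_eq]; simp
  have h3 : ∀ i j, (if i < j then f i * g j + f j * g i else 0) =
      (if i < j then f i * g j else 0) + (if i < j then f j * g i else 0) := by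
    intro i j; split_ifs <;> simp
  simp_rw [h3]
  rw [sum_mul_sum, h2]
  simp_rw [sum_add_distrib]
  rw [← h1]
  simp_rw [← sum_add_distrib]
  apply sum_congr rfl; intro i _
  apply sum_congr rfl; intro j _
  rcases lt_trichotomy i j with h | h | h
  · simp [h, h.ne, h.not_gt]
  · subst h; simp
  · simp [h, h.ne', h.not_gt]

theorem cpart (P : Matrix α β ℤ) (R : Matrix β γ ℤ) (S : Matrix γ α ℤ) :
    ∑ k, c2 ((R * S * P) k k) + ∑ i, ∑ k, ((P i k : ℤ) : ZMod 2) * c2 ((R * S) k i) +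
      ∑ k, ∑ m, ((R k m : ℤ) : ZMod 2) * c2 ((S * P) m k) +
      ∑ i, ∑ m, (((P * R) i m : ℤ) : ZMod 2) * c2 (S m i) =
    ∑ u : α × α, ∑ v : β × β, ∑ w : γ × γ, Lt u * Eqd v * Gt w *
      (((P u.1 v.1 : ℤ) : ZMod 2) * ((P u.2 v.2 : ℤ) : ZMod 2) *
        (((R v.1 w.1 : ℤ) : ZMod 2) * ((R v.2 w.2 : ℤ) : ZMod 2)) *
        (((S w.1 u.1 : ℤ) : ZMod 2) * ((S w.2 u.2 : ℤ) : ZMod 2) +
          ((S w.1 u.2 : ℤ) : ZMod 2) * ((S w.2 u.1 : ℤ) : ZMod 2))) := by
  set p : α → β → ZMod 2 := fun i k => ((P i k : ℤ) : ZMod 2) with hp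
  set r : β → γ → ZMod 2 := fun i k => ((R i k : ℤ) : ZMod 2) with hr
  set s : γ → α → ZMod 2 := fun i k => ((S i k : ℤ) : ZMod 2) with hs
  have hsp : ∀ m k, (((S * P) m k : ℤ) : ZMod 2) = ∑ i, s m i * p i k := by
    intro m k; simp only [Matrix.mul_apply, Int.cast_sum, Int.cast_mul, hs, hp]
  have hpr : ∀ i m, (((P * R) i m : ℤ) : ZMod 2) = ∑ k, p i k * r k m := by
    intro m k; simp only [Matrix.mul_apply, Int.cast_sum, Int.cast_mul, hr, hp]
  have A1 : ∀ k, c2 ((R * S * P) k k) =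
      ∑ m, (c2 (R k m) * (∑ i, s m i * p i k) + r k m * c2 ((S * P) m k)) +
      ∑ m, ∑ n, if m < n then (r k m * (∑ i, s m i * p i k)) * (r k n * (∑ i, s n i * p i k)) else 0 := by
    intro k
    rw [Matrix.mul_assoc, Matrix.mul_apply, c2_sum]
    simp only [c2_mul, Int.cast_mul, hsp, hr]
  have A2 : ∀ i k, c2 ((R * S) k i) =
      ∑ m, (c2 (R k m) * s m i + r k m * c2 (S m i)) +
      ∑ m, ∑ n, if m < n then (r k m * s m i) * (r k n * s n i) else 0 := by
    intro i k
    rw [Matrix.mul_apply, c2_sum]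
    simp only [c2_mul, Int.cast_mul, hs, hr]
  have B1 : ∑ k, c2 ((R * S * P) k k) = ∑ k, ∑ m, c2 (R k m) * (∑ i, s m i * p i k) +
      ∑ k, ∑ m, r k m * c2 ((S * P) m k) +
      ∑ k, ∑ m, ∑ n, (if m < n then
        (r k m * (∑ i, s m i * p i k)) * (r k n * (∑ i, s n i * p i k)) else 0) := by
    simp only [A1, sum_add_distrib]
  have B2 : ∑ i, ∑ k, p i k * c2 ((R * S) k i) = ∑ i, ∑ k, p i k * ∑ m, c2 (R k m) * s m i +
      ∑ i, ∑ k, p i k * ∑ m, r k m * c2 (S m i) +
      ∑ i, ∑ k, p i k * ∑ m, ∑ n, (if m < n then (r k m * s m i) * (r k n * s n i) else 0) := by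
    simp only [A2, sum_add_distrib, mul_add]
  have C1 : ∑ i, ∑ k, p i k * ∑ m, c2 (R k m) * s m i = ∑ k, ∑ m, c2 (R k m) * (∑ i, s m i * p i k) := by
    rw [sum_comm]
    apply sum_congr rfl; intro k _
    simp only [mul_sum]
    rw [sum_comm]
    apply sum_congr rfl; intro m _
    apply sum_congr rfl; intro i _
    ring
  have C2 : ∑ i, ∑ m, (((P * R) i m : ℤ) : ZMod 2) * c2 (S m i) =
      ∑ i, ∑ k, p i k * ∑ m, r k m * c2 (S m i) := by
    apply sum_congr rfl; intro i _
    simp only [hpr, mul_sum, sum_mul]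
    rw [sum_comm]
    apply sum_congr rfl; intro m _
    apply sum_congr rfl; intro k _
    ring
  have D1 : ∑ k, ∑ m, ∑ n, (if m < n then
        (r k m * (∑ i, s m i * p i k)) * (r k n * (∑ i, s n i * p i k)) else 0) =
      ∑ i, ∑ k, p i k * ∑ m, ∑ n, (if m < n then (r k m * s m i) * (r k n * s n i) else 0) +
      ∑ k, ∑ m, ∑ n, (if m < n then r k m * r k n *
        ∑ i, ∑ j, (if i < j then p i k * p j k * (s m i * s n j + s m j * s n i) else 0) else 0) := by
    rw [sum_comm (s := (univ : Finset α)), ← sum_add_distrib]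
    apply sum_congr rfl; intro k _
    simp only [mul_sum]
    rw [sum_comm (s := (univ : Finset α)), ← sum_add_distrib]
    apply sum_congr rfl; intro m _
    rw [sum_comm (s := (univ : Finset α)), ← sum_add_distrib]
    apply sum_congr rfl; intro n _
    by_cases hmn : m < n
    · simp only [if_pos hmn]
      have h := sum_mul_split (fun i => s m i * p i k) (fun i => s n i * p i k)
      have h5 : ∀ i, p i k * ((r k m * s m i) * (r k n * s n i)) =
          r k m * r k n * ((s m i * p i k) * (s n i * p i k)) := by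
        intro i
        calc p i k * ((r k m * s m i) * (r k n * s n i))
            = (p i k * p i k) * ((r k m * s m i) * (r k n * s n i)) := by rw [z2_mul_self]
          _ = _ := by ring
      have h6 : ∀ i j, r k m * r k n * (if i < j then p i k * p j k * (s m i * s n j + s m j * s n i) else 0) =
          r k m * r k n * (if i < j then s m i * p i k * (s n j * p j k) + s m j * p j k * (s n i * p i k) else 0) := by
        intro i j
        split_ifs <;> ring
      simp only [h5, h6]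
      simp only [← mul_sum]
      rw [← mul_add, ← h]
      ring
    · simp only [if_neg hmn, mul_zero, sum_const_zero, add_zero]
  have E1 : ∑ u : α × α, ∑ v : β × β, ∑ w : γ × γ, Lt u * Eqd v * Gt w *
      (p u.1 v.1 * p u.2 v.2 * (r v.1 w.1 * r v.2 w.2) *
        (s w.1 u.1 * s w.2 u.2 + s w.1 u.2 * s w.2 u.1)) =
      ∑ k, ∑ m, ∑ n, (if m < n then r k m * r k n *
        ∑ i, ∑ j, (if i < j then p i k * p j k * (s m i * s n j + s m j * s n i) else 0) else 0) := by
    have e1 : ∀ u : α × α, ∑ v : β × β, ∑ w : γ × γ, Lt u * Eqd v * Gt w *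
      (p u.1 v.1 * p u.2 v.2 * (r v.1 w.1 * r v.2 w.2) *
        (s w.1 u.1 * s w.2 u.2 + s w.1 u.2 * s w.2 u.1)) =
        ∑ k, ∑ m, ∑ n, (if m < n then r k m * r k n * (if u.1 < u.2 then p u.1 k * p u.2 k *
          (s m u.1 * s n u.2 + s m u.2 * s n u.1) else 0) else 0) := by
      intro u
      rw [Fintype.sum_prod_type]
      apply sum_congr rfl; intro k _
      rw [sum_eq_single k]
      · rw [Fintype.sum_prod_type, sum_comm]
        apply sum_congr rfl; intro m _
        apply sum_congr rfl; intro n _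
        unfold Lt Eqd Gt
        simp only [if_true]
        split_ifs <;> ring
      · intro l _ hl
        apply sum_eq_zero; intro w _
        unfold Eqd
        simp only [if_neg (Ne.symm hl), mul_zero, zero_mul]
      · intro h; exact absurd (mem_univ _) h
    rw [sum_congr rfl (fun u _ => e1 u), sum_comm]
    apply sum_congr rfl; intro k _
    rw [sum_comm]
    apply sum_congr rfl; intro m _
    rw [sum_comm]
    apply sum_congr rfl; intro n _
    rw [Fintype.sum_prod_type]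
    by_cases hmn : m < n
    · simp only [if_pos hmn, mul_sum]
    · simp only [if_neg hmn, sum_const_zero]
  change ∑ k, c2 ((R * S * P) k k) + ∑ i, ∑ k, p i k * c2 ((R * S) k i) +
      ∑ k, ∑ m, r k m * c2 ((S * P) m k) +
      ∑ i, ∑ m, (((P * R) i m : ℤ) : ZMod 2) * c2 (S m i) = ∑ u : α × α, ∑ v : β × β, ∑ w : γ × γ, Lt u * Eqd v * Gt w *
      (p u.1 v.1 * p u.2 v.2 * (r v.1 w.1 * r v.2 w.2) *
        (s w.1 u.1 * s w.2 u.2 + s w.1 u.2 * s w.2 u.1))
  rw [E1, B1, B2, C1, C2, D1]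
  set a1 := ∑ k, ∑ m, c2 (R k m) * (∑ i, s m i * p i k)
  set a2 := ∑ k, ∑ m, r k m * c2 ((S * P) m k)
  set a3 := ∑ i, ∑ k, p i k * ∑ m, ∑ n, (if m < n then (r k m * s m i) * (r k n * s n i) else 0)
  set a4 := ∑ k, ∑ m, ∑ n, (if m < n then r k m * r k n *
        ∑ i, ∑ j, (if i < j then p i k * p j k * (s m i * s n j + s m j * s n i) else 0) else 0)
  set a5 := ∑ i, ∑ k, p i k * ∑ m, r k m * c2 (S m i)
  linear_combination z2_add_self a1 + z2_add_self a2 + z2_add_self a3 + z2_add_self a5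

/-- Entries of a product, on pairs of indices. -/
theorem pairs_mul {α β γ : Type*} [Fintype β] (A : Matrix α β ℤ) (B : Matrix β γ ℤ) :
    (fun (u : α × α) (w : γ × γ) => (((A * B) u.1 w.1 : ℤ) : ZMod 2) * (((A * B) u.2 w.2 : ℤ) : ZMod 2)) =
    fun u w => ∑ v : β × β, ((A u.1 v.1 : ℤ) : ZMod 2) * ((A u.2 v.2 : ℤ) : ZMod 2) *
        (((B v.1 w.1 : ℤ) : ZMod 2) * ((B v.2 w.2 : ℤ) : ZMod 2)) := by
  funext u w
  simp only [Matrix.mul_apply, Int.cast_sum, Int.cast_mul]
  rw [sum_mul_sum, Fintype.sum_prod_type]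
  apply sum_congr rfl; intro i _
  apply sum_congr rfl; intro j _
  ring

theorem Q_triangle (P : Matrix α β ℤ) (R : Matrix β γ ℤ) (S : Matrix γ α ℤ) :
    Q (P * R) S = Q P (R * S) + Q R (S * P) := by
  have h1 := cpart P R S
  have h2 := main_id
    (fun (u : α × α) (w : β × β) => ((P u.1 w.1 : ℤ) : ZMod 2) * ((P u.2 w.2 : ℤ) : ZMod 2))
    (fun (u : β × β) (w : γ × γ) => ((R u.1 w.1 : ℤ) : ZMod 2) * ((R u.2 w.2 : ℤ) : ZMod 2))
    (fun (u : γ × γ) (w : α × α) => ((S u.1 w.1 : ℤ) : ZMod 2) * ((S u.2 w.2 : ℤ) : ZMod 2))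
    (fun u v => mul_comm _ _) (fun u v => mul_comm _ _) (fun u v => mul_comm _ _)
  unfold Q
  rw [pairs_mul P R, pairs_mul R S, pairs_mul S P]
  rw [← Matrix.mul_assoc S P R]
  simp only [Prod.fst_swap, Prod.snd_swap] at h2
  rw [← h1] at h2
  have key : ∀ m1 m2 m3 b1 b2 b3 b4 b5 : ZMod 2, m1 + m2 + m3 + (b2 + b3 + b4 + b5) = 0 →
      m1 + b1 + b5 = (m2 + b2 + b3) + (m3 + b1 + b4) := by decide
  exact key _ _ _ _ _ _ _ _ h2

end defQ

end Pool.Agent.Helper817_sse
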