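import Mathlib
import Pool.Agent.Helper817_sse.Q

set_option autoImplicit false

/-!
# Elementary properties of `Q` for matrices indexed by `Fin n`
-/

namespace Pool.Agent.Helper817_sse

open Matrix Finset

section general

variable {α β : Type*} [LinearOrder α] [LinearOrder β] [Fintype α] [Fintype β]

theorem Q_eq_zero (R : Matrix α β ℤ) (S : Matrix β α ℤ)
    (h : ∀ i j k l, R i k * S k j * R j l * S l i = 0) : Q R S = 0 := by
  have h1 : ∀ i k, R i k * S k i = 0 := by
    intro i k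
    have := h i i k k
    have h2 : (R i k * S k i) * (R i k * S k i) = 0 := by rw [← this]; ring
    exact mul_self_eq_zero.mp h2
  have hc : ∀ i k, ((R i k : ℤ) : ZMod 2) * ((S k i : ℤ) : ZMod 2) = 0 := by
    intro i k; rw [← Int.cast_mul, h1, Int.cast_zero]
  have e1 : Mn (fun (u : α × α) (w : β × β) => ((R u.1 w.1 : ℤ) : ZMod 2) * ((R u.2 w.2 : ℤ) : ZMod 2))
      (fun (w : β × β) (u : α × α) => ((S w.1 u.1 : ℤ) : ZMod 2) * ((S w.2 u.2 : ℤ) : ZMod 2)) = 0 := by
    unfold Mn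
    apply sum_eq_zero; intro u _
    apply sum_eq_zero; intro w _
    have a1 : ((R u.1 w.1 : ℤ) : ZMod 2) * ((R u.2 w.2 : ℤ) : ZMod 2) *
        (((S w.1 u.1 : ℤ) : ZMod 2) * ((S w.2 u.2 : ℤ) : ZMod 2)) = 0 := by
      have := hc u.1 w.1
      linear_combination (((R u.2 w.2 : ℤ) : ZMod 2) * ((S w.2 u.2 : ℤ) : ZMod 2)) * this
    have a2 : ((R u.1 w.1 : ℤ) : ZMod 2) * ((R u.2 w.2 : ℤ) : ZMod 2) *
        (((S w.1 u.2 : ℤ) : ZMod 2) * ((S w.2 u.1 : ℤ) : ZMod 2)) = 0 := by
      have := congrArg (fun x : ℤ => (x : ZMod 2)) (h u.1 u.2 w.1 w.2)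
      simp only [Int.cast_mul, Int.cast_zero] at this
      linear_combination this
    simp only [Prod.fst_swap, Prod.snd_swap]
    rw [mul_add, a1, a2]
    ring
  have e2 : ∀ k, c2 ((S * R) k k) = 0 := by
    intro k
    have : (S * R) k k = 0 := by
      rw [Matrix.mul_apply]
      apply sum_eq_zero; intro i _
      rw [mul_comm, h1]
    rw [this, c2_zero]
  have e3 : ∀ i k, ((R i k : ℤ) : ZMod 2) * c2 (S k i) = 0 := by
    intro i k
    rcases mul_eq_zero.mp (h1 i k) with h0 | h0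
    · rw [h0]; simp
    · rw [h0]; simp
  unfold Q
  rw [e1, sum_eq_zero (fun k _ => e2 k)]
  simp only [e3, sum_const_zero, add_zero]

theorem Q_one (X : Matrix α α ℤ) : Q (1 : Matrix α α ℤ) X = 0 := by
  have e1 : Mn (fun (u : α × α) (w : α × α) => (((1 : Matrix α α ℤ) u.1 w.1 : ℤ) : ZMod 2) *
        (((1 : Matrix α α ℤ) u.2 w.2 : ℤ) : ZMod 2))
      (fun (w : α × α) (u : α × α) => ((X w.1 u.1 : ℤ) : ZMod 2) * ((X w.2 u.2 : ℤ) : ZMod 2)) = 0 := by
    unfold Mn
    apply sum_eq_zero; intro u _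
    apply sum_eq_zero; intro w _
    by_cases h1 : u.1 = w.1
    · by_cases h2 : u.2 = w.2
      · have : Lt u * Gt w = 0 := by
          unfold Lt Gt
          rw [← h1, ← h2]
          split_ifs with a b
          · exact absurd a b.not_gt
          · simp
          · simp
          · simp
        rw [this, zero_mul]
      · simp [Matrix.one_apply_ne h2]
    · simp [Matrix.one_apply_ne h1]
  unfold Q
  rw [e1, zero_add, Matrix.mul_one]
  have e2 : ∀ i : α, ∑ k, (((1 : Matrix α α ℤ) i k : ℤ) : ZMod 2) * c2 (X k i) = c2 (X i i) := by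
    intro i
    rw [sum_eq_single i]
    · simp
    · intro k _ hk
      rw [Matrix.one_apply_ne (Ne.symm hk)]; simp
    · intro h; exact absurd (mem_univ _) h
  rw [sum_congr rfl (fun i _ => e2 i), z2_add_self]

end general

section fin

variable {β : Type*} [LinearOrder β] [Fintype β] {n : ℕ}

theorem Lt_succ (i j : Fin n) : Lt (i.succ, j.succ) = Lt (i, j) := by
  unfold Lt; simp

theorem Gt_succ (i j : Fin n) : Gt (i.succ, j.succ) = Gt (i, j) := by
  unfold Gt; simp

theorem Q_rm1 (R : Matrix (Fin (n + 1)) β ℤ) (S : Matrix β (Fin (n + 1)) ℤ) (h : ∀ k, S k 0 = 0) :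
    Q R S = Q (R.submatrix Fin.succ id) (S.submatrix id Fin.succ) := by
  have e0 : S * R = S.submatrix id Fin.succ * R.submatrix Fin.succ id := by
    ext k l
    rw [Matrix.mul_apply, Matrix.mul_apply, Fin.sum_univ_succ, h]
    simp
  unfold Q
  rw [← e0]
  congr 1
  · congr 1
    unfold Mn
    rw [Fintype.sum_prod_type, Fintype.sum_prod_type, Fin.sum_univ_succ]
    have : ∑ y : Fin (n + 1), ∑ w : β × β, Lt ((0 : Fin (n + 1)), y) * Gt w *
        (((R 0 w.1 : ℤ) : ZMod 2) * ((R y w.2 : ℤ) : ZMod 2) *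
        (((S w.1 0 : ℤ) : ZMod 2) * ((S w.2 y : ℤ) : ZMod 2) +
          ((S w.1 y : ℤ) : ZMod 2) * ((S w.2 0 : ℤ) : ZMod 2))) = 0 := by
      apply sum_eq_zero; intro y _
      apply sum_eq_zero; intro w _
      rw [h, h]; simp
    simp only [Prod.fst_swap, Prod.snd_swap]
    rw [this, zero_add]
    apply sum_congr rfl; intro i _
    rw [Fin.sum_univ_succ]
    have : ∑ w : β × β, Lt (i.succ, (0 : Fin (n + 1))) * Gt w *
        (((R i.succ w.1 : ℤ) : ZMod 2) * ((R 0 w.2 : ℤ) : ZMod 2) *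
        (((S w.1 i.succ : ℤ) : ZMod 2) * ((S w.2 0 : ℤ) : ZMod 2) +
          ((S w.1 0 : ℤ) : ZMod 2) * ((S w.2 i.succ : ℤ) : ZMod 2))) = 0 := by
      apply sum_eq_zero; intro w _
      rw [h, h]; simp
    rw [this, zero_add]
    apply sum_congr rfl; intro j _
    apply sum_congr rfl; intro w _
    rw [Lt_succ]
    rfl
  · rw [Fin.sum_univ_succ]
    have : ∑ k, ((R 0 k : ℤ) : ZMod 2) * c2 (S k 0) = 0 := by
      apply sum_eq_zero; intro k _
      rw [h]; simp
    rw [this, zero_add]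
    rfl

theorem Q_rm2 (R : Matrix β (Fin (n + 1)) ℤ) (S : Matrix (Fin (n + 1)) β ℤ) (h : ∀ k, R k 0 = 0) :
    Q R S = Q (R.submatrix id Fin.succ) (S.submatrix Fin.succ id) := by
  unfold Q
  congr 1
  · congr 1
    · unfold Mn
      apply sum_congr rfl; intro u _
      rw [Fintype.sum_prod_type, Fintype.sum_prod_type, Fin.sum_univ_succ]
      have : ∑ y : Fin (n + 1), Lt u * Gt ((0 : Fin (n + 1)), y) *
          (((R u.1 0 : ℤ) : ZMod 2) * ((R u.2 y : ℤ) : ZMod 2) *
          (((S 0 u.1 : ℤ) : ZMod 2) * ((S y u.2 : ℤ) : ZMod 2) +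
            ((S 0 u.2 : ℤ) : ZMod 2) * ((S y u.1 : ℤ) : ZMod 2))) = 0 := by
        apply sum_eq_zero; intro y _
        rw [h]; simp
      simp only [Prod.fst_swap, Prod.snd_swap]
      rw [this, zero_add]
      apply sum_congr rfl; intro i _
      rw [Fin.sum_univ_succ]
      have : Lt u * Gt (i.succ, (0 : Fin (n + 1))) *
          (((R u.1 i.succ : ℤ) : ZMod 2) * ((R u.2 0 : ℤ) : ZMod 2) *
          (((S i.succ u.1 : ℤ) : ZMod 2) * ((S 0 u.2 : ℤ) : ZMod 2) +
            ((S i.succ u.2 : ℤ) : ZMod 2) * ((S 0 u.1 : ℤ) : ZMod 2))) = 0 := by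
        rw [h]; simp
      rw [this, zero_add]
      apply sum_congr rfl; intro j _
      rw [Gt_succ]
      rfl
    · rw [Fin.sum_univ_succ]
      have h1 : (S * R) 0 0 = 0 := by
        rw [Matrix.mul_apply]
        apply sum_eq_zero; intro i _
        rw [h, mul_zero]
      rw [h1, c2_zero, zero_add]
      rfl
  · apply sum_congr rfl; intro i _
    rw [Fin.sum_univ_succ, h]
    simp

end fin

end Pool.Agent.Helper817_sse
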