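import Mathlib

set_option autoImplicit false

/-!
# Unimodular integer matrices with a prescribed first column up to a factor
-/

namespace Pool.Agent.Helper817_sse

open Matrix Finset

variable {n : ℕ}

/-- The block diagonal matrix with blocks `1` and `M`. -/
def bd (M : Matrix (Fin n) (Fin n) ℤ) : Matrix (Fin (n + 1)) (Fin (n + 1)) ℤ :=
  Matrix.of (Fin.cons (Fin.cons 1 fun _ => 0) fun i => Fin.cons 0 (M i))

@[simp] theorem bd_zero_zero (M : Matrix (Fin n) (Fin n) ℤ) : bd M 0 0 = 1 := rfl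
@[simp] theorem bd_zero_succ (M : Matrix (Fin n) (Fin n) ℤ) (j : Fin n) : bd M 0 j.succ = 0 := rfl
@[simp] theorem bd_succ_zero (M : Matrix (Fin n) (Fin n) ℤ) (i : Fin n) : bd M i.succ 0 = 0 := rfl
@[simp] theorem bd_succ_succ (M : Matrix (Fin n) (Fin n) ℤ) (i j : Fin n) :
    bd M i.succ j.succ = M i j := rfl

theorem bd_mul (M N : Matrix (Fin n) (Fin n) ℤ) : bd (M * N) = bd M * bd N := by
  ext i j
  refine Fin.cases ?_ (fun i => ?_) i <;> refine Fin.cases ?_ (fun j => ?_) j <;>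
    simp [Matrix.mul_apply, Fin.sum_univ_succ]

theorem bd_one : bd (1 : Matrix (Fin n) (Fin n) ℤ) = 1 := by
  ext i j
  refine Fin.cases ?_ (fun i => ?_) i <;> refine Fin.cases ?_ (fun j => ?_) j <;>
    simp [Matrix.one_apply, Fin.succ_ne_zero, (Fin.succ_ne_zero _).symm]

/-- The block diagonal matrix with blocks `s` (of size two) and `1`. -/
def tw (s : Matrix (Fin 2) (Fin 2) ℤ) : Matrix (Fin (n + 2)) (Fin (n + 2)) ℤ :=
  Matrix.of (Fin.cons (Fin.cons (s 0 0) (Fin.cons (s 0 1) fun _ => 0))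
    (Fin.cons (Fin.cons (s 1 0) (Fin.cons (s 1 1) fun _ => 0))
      fun i => Fin.cons 0 (Fin.cons 0 ((1 : Matrix (Fin n) (Fin n) ℤ) i))))

section tw
variable (s : Matrix (Fin 2) (Fin 2) ℤ)
@[simp] theorem tw00 : (tw s : Matrix (Fin (n + 2)) (Fin (n + 2)) ℤ) 0 0 = s 0 0 := rfl
@[simp] theorem tw01 : (tw s : Matrix (Fin (n + 2)) (Fin (n + 2)) ℤ) 0 1 = s 0 1 := rfl
@[simp] theorem tw10 : (tw s : Matrix (Fin (n + 2)) (Fin (n + 2)) ℤ) 1 0 = s 1 0 := rfl
@[simp] theorem tw11 : (tw s : Matrix (Fin (n + 2)) (Fin (n + 2)) ℤ) 1 1 = s 1 1 := rfl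
@[simp] theorem tw01' : (tw s : Matrix (Fin (n + 2)) (Fin (n + 2)) ℤ) 0 (Fin.succ 0) = s 0 1 := rfl
@[simp] theorem tw10' : (tw s : Matrix (Fin (n + 2)) (Fin (n + 2)) ℤ) (Fin.succ 0) 0 = s 1 0 := rfl
@[simp] theorem tw11' :
    (tw s : Matrix (Fin (n + 2)) (Fin (n + 2)) ℤ) (Fin.succ 0) (Fin.succ 0) = s 1 1 := rfl
@[simp] theorem tw0s (j : Fin n) : tw s 0 j.succ.succ = 0 := rfl
@[simp] theorem tw1s (j : Fin n) : tw s 1 j.succ.succ = 0 := rfl
@[simp] theorem tw1s' (j : Fin n) : tw s (Fin.succ 0) j.succ.succ = 0 := rfl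
@[simp] theorem tws0 (i : Fin n) : tw s i.succ.succ 0 = 0 := rfl
@[simp] theorem tws1 (i : Fin n) : tw s i.succ.succ 1 = 0 := rfl
@[simp] theorem tws1' (i : Fin n) : tw s i.succ.succ (Fin.succ 0) = 0 := rfl
@[simp] theorem twss (i j : Fin n) : tw s i.succ.succ j.succ.succ = (1 : Matrix (Fin n) (Fin n) ℤ) i j := rfl
end tw

theorem tw_mul (s t : Matrix (Fin 2) (Fin 2) ℤ) :
    (tw (s * t) : Matrix (Fin (n + 2)) (Fin (n + 2)) ℤ) = tw s * tw t := by
  ext i j
  refine Fin.cases ?_ (fun i => ?_) i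
  · refine Fin.cases ?_ (fun j => ?_) j
    · simp [Matrix.mul_apply, Fin.sum_univ_succ]
    · refine Fin.cases ?_ (fun j => ?_) j <;> simp [Matrix.mul_apply, Fin.sum_univ_succ]
  · refine Fin.cases ?_ (fun i => ?_) i
    · refine Fin.cases ?_ (fun j => ?_) j
      · simp [Matrix.mul_apply, Fin.sum_univ_succ]
      · refine Fin.cases ?_ (fun j => ?_) j <;> simp [Matrix.mul_apply, Fin.sum_univ_succ]
    · refine Fin.cases ?_ (fun j => ?_) j
      · simp [Matrix.mul_apply, Fin.sum_univ_succ]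
      · refine Fin.cases ?_ (fun j => ?_) j <;>
          simp [Matrix.mul_apply, Fin.sum_univ_succ, Matrix.one_apply]

theorem tw_one : (tw (1 : Matrix (Fin 2) (Fin 2) ℤ) : Matrix (Fin (n + 2)) (Fin (n + 2)) ℤ) = 1 := by
  ext i j
  refine Fin.cases ?_ (fun i => ?_) i
  · refine Fin.cases ?_ (fun j => ?_) j
    · simp
    · refine Fin.cases ?_ (fun j => ?_) j
      · simp [Matrix.one_apply]
      · simp only [tw0s]
        rw [Matrix.one_apply_ne]
        exact (Fin.succ_ne_zero _).symm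
  · refine Fin.cases ?_ (fun i => ?_) i
    · refine Fin.cases ?_ (fun j => ?_) j
      · simp [Matrix.one_apply]
      · refine Fin.cases ?_ (fun j => ?_) j
        · simp
        · simp only [tw1s']
          rw [Matrix.one_apply_ne]
          intro h
          exact Fin.succ_ne_zero _ (Fin.succ_injective _ h).symm
    · refine Fin.cases ?_ (fun j => ?_) j
      · simp only [tws0]
        rw [Matrix.one_apply_ne]
        exact (Fin.succ_ne_zero _)
      · refine Fin.cases ?_ (fun j => ?_) j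
        · simp only [tws1']
          rw [Matrix.one_apply_ne]
          intro h
          exact Fin.succ_ne_zero _ (Fin.succ_injective _ h)
        · simp only [twss, Matrix.one_apply]
          simp

/-- Bezout in matrix form. -/
theorem two_uni (a b : ℤ) : ∃ (s s' : Matrix (Fin 2) (Fin 2) ℤ) (d : ℤ),
    s * s' = 1 ∧ s' * s = 1 ∧ a = d * s 0 0 ∧ b = d * s 1 0 := by
  by_cases h : a = 0 ∧ b = 0
  · exact ⟨1, 1, 0, by simp, by simp, by simp [h.1], by simp [h.2]⟩
  · have hg : (Int.gcd a b : ℤ) ≠ 0 := by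
      intro h0
      have : Int.gcd a b = 0 := by exact_mod_cast h0
      exact h (Int.gcd_eq_zero_iff.mp this)
    obtain ⟨a', ha⟩ := Int.gcd_dvd_left a b
    obtain ⟨b', hb⟩ := Int.gcd_dvd_right a b
    have hbez := Int.gcd_eq_gcd_ab a b
    set g : ℤ := (Int.gcd a b : ℤ) with hgdef
    set x := Int.gcdA a b
    set y := Int.gcdB a b
    have h1 : a' * x + b' * y = 1 := by
      have : g * (a' * x + b' * y) = g * 1 := by
        calc g * (a' * x + b' * y) = (g * a') * x + (g * b') * y := by ring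
          _ = a * x + b * y := by rw [← ha, ← hb]
          _ = g * 1 := by rw [mul_one]; exact hbez.symm
      exact mul_left_cancel₀ hg this
    refine ⟨!![a', -y; b', x], !![x, y; -b', a'], g, ?_, ?_, ?_, ?_⟩
    · ext i j
      fin_cases i <;> fin_cases j <;> simp [Matrix.mul_apply, Fin.sum_univ_succ] <;> linarith
    · ext i j
      fin_cases i <;> fin_cases j <;> simp [Matrix.mul_apply, Fin.sum_univ_succ] <;> linarith
    · simpa using ha
    · simpa using hb

theorem uni : ∀ (n : ℕ) (v : Fin (n + 1) → ℤ), ∃ (q q' : Matrix (Fin (n + 1)) (Fin (n + 1)) ℤ) (d : ℤ),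
    q * q' = 1 ∧ q' * q = 1 ∧ ∀ i, v i = d * q i 0 := by
  intro n
  induction n with
  | zero =>
    intro v
    refine ⟨1, 1, v 0, by simp, by simp, ?_⟩
    intro i
    refine Fin.cases ?_ (fun i => i.elim0) i
    simp
  | succ n ih =>
    intro v
    obtain ⟨r, r', e, h1, h2, h3⟩ := ih (fun i => v i.succ)
    obtain ⟨s, s', d, g1, g2, g3, g4⟩ := two_uni (v 0) e
    refine ⟨bd r * tw s, tw s' * bd r', d, ?_, ?_, ?_⟩
    · calc bd r * tw s * (tw s' * bd r') = bd r * (tw s * tw s') * bd r' := by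
            simp only [Matrix.mul_assoc]
        _ = 1 := by rw [← tw_mul, g1, tw_one, Matrix.mul_one, ← bd_mul, h1, bd_one]
    · calc tw s' * bd r' * (bd r * tw s) = tw s' * (bd r' * bd r) * tw s := by
            simp only [Matrix.mul_assoc]
        _ = 1 := by rw [← bd_mul, h2, bd_one, Matrix.mul_one, ← tw_mul, g2, tw_one]
    · intro i
      refine Fin.cases ?_ (fun i => ?_) i
      · rw [Matrix.mul_apply, Fin.sum_univ_succ]
        simp [g3]
      · have h5 : (bd r * tw s : Matrix (Fin (n + 2)) (Fin (n + 2)) ℤ) i.succ 0 = r i 0 * s 1 0 := by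
          rw [Matrix.mul_apply, Fin.sum_univ_succ, Fin.sum_univ_succ]
          simp only [bd_succ_zero, zero_mul, zero_add, tw10', bd_succ_succ, tws0, mul_zero,
            sum_const_zero, add_zero]
        rw [h3 i, h5, g4]
        ring

end Pool.Agent.Helper817_sse
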