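import Mathlib
import Pool.Agent.Helper817_sse.QFin
import Pool.Agent.Helper817_sse.Uni

set_option autoImplicit false

/-!
# A potential for the sign `Q` on nilpotent integer matrices

`F n N` is defined for all square integer matrices, and for nilpotent `R * S` we show
`F (S * R) = F (R * S) + Q R S`.
-/

namespace Pool.Agent.Helper817_sse

open Matrix Finset

variable {n : ℕ}

/-- Delete the first row and the first column. -/
def tl (N : Matrix (Fin (n + 1)) (Fin (n + 1)) ℤ) : Matrix (Fin n) (Fin n) ℤ :=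
  N.submatrix Fin.succ Fin.succ

theorem tl_apply (N : Matrix (Fin (n + 1)) (Fin (n + 1)) ℤ) (i j : Fin n) :
    tl N i j = N i.succ j.succ := rfl

theorem tl_mul (M X : Matrix (Fin (n + 1)) (Fin (n + 1)) ℤ) (h : ∀ i : Fin n, M i.succ 0 = 0) :
    tl (M * X) = tl M * tl X := by
  ext i j
  rw [tl_apply, Matrix.mul_apply, Fin.sum_univ_succ, h, zero_mul, zero_add]
  rfl

theorem tl_one : tl (1 : Matrix (Fin (n + 1)) (Fin (n + 1)) ℤ) = 1 := by
  ext i j
  rw [tl_apply, Matrix.one_apply, Matrix.one_apply]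
  simp

theorem tl_pow (M : Matrix (Fin (n + 1)) (Fin (n + 1)) ℤ) (h : ∀ i : Fin n, M i.succ 0 = 0) (k : ℕ) :
    tl (M ^ k) = tl M ^ k := by
  induction k with
  | zero => rw [pow_zero, pow_zero, tl_one]
  | succ k ih => rw [pow_succ', pow_succ', tl_mul _ _ h, ih]

theorem tl_nil {M : Matrix (Fin (n + 1)) (Fin (n + 1)) ℤ} (hM : IsNilpotent M)
    (h : ∀ i : Fin n, M i.succ 0 = 0) : IsNilpotent (tl M) := by
  obtain ⟨k, hk⟩ := hM
  refine ⟨k, ?_⟩
  rw [← tl_pow _ h, hk]
  rfl

theorem canc {R S : Matrix (Fin n) (Fin n) ℤ} (h : R * S = 1) {γ : Type*}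
    (X : Matrix (Fin n) γ ℤ) : R * (S * X) = X := by
  rw [← Matrix.mul_assoc, h, Matrix.one_mul]

/-- `q` is invertible with inverse `q'` and `q' N q` has zero first column. -/
def Adm (N q q' : Matrix (Fin (n + 1)) (Fin (n + 1)) ℤ) : Prop :=
  q * q' = 1 ∧ ∀ i, (q' * N * q) i 0 = 0

open Classical in
/-- The potential. -/
noncomputable def F : (n : ℕ) → Matrix (Fin n) (Fin n) ℤ → ZMod 2
  | 0, _ => 0
  | _ + 1, N => if h : ∃ p : Matrix _ _ ℤ × Matrix _ _ ℤ, Adm N p.1 p.2 then
      Q h.choose.1 (h.choose.2 * N) + F _ (tl (h.choose.2 * N * h.choose.1)) else 0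

theorem F_spec (N : Matrix (Fin (n + 1)) (Fin (n + 1)) ℤ)
    (h : ∃ q q', Adm N q q') : ∃ q q', Adm N q q' ∧
      F (n + 1) N = Q q (q' * N) + F n (tl (q' * N * q)) := by
  have h' : ∃ p : Matrix (Fin (n + 1)) (Fin (n + 1)) ℤ × Matrix (Fin (n + 1)) (Fin (n + 1)) ℤ,
      Adm N p.1 p.2 := by
    obtain ⟨q, q', hq⟩ := h
    exact ⟨(q, q'), hq⟩
  refine ⟨h'.choose.1, h'.choose.2, h'.choose_spec, ?_⟩
  rw [F, dif_pos h']

theorem exists_kernel (N : Matrix (Fin (n + 1)) (Fin (n + 1)) ℤ) (hN : IsNilpotent N) :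
    ∃ v : Fin (n + 1) → ℤ, v ≠ 0 ∧ N *ᵥ v = 0 := by
  have hd : N.det = 0 := by
    obtain ⟨k, hk⟩ := hN
    have h1 : IsNilpotent N.det := ⟨k, by rw [← Matrix.det_pow, hk, Matrix.det_zero]⟩
    exact h1.eq_zero
  exact Matrix.exists_mulVec_eq_zero_iff.mpr hd

/-- A kernel vector gives a column change killing the first column. -/
theorem col_of_kernel {γ : Type*} (N : Matrix γ (Fin (n + 1)) ℤ)
    {v : Fin (n + 1) → ℤ} (hv : v ≠ 0) (hN : N *ᵥ v = 0)
    (q : Matrix (Fin (n + 1)) (Fin (n + 1)) ℤ) (d : ℤ) (hq : ∀ i, v i = d * q i 0) :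
    ∀ i, (N * q) i 0 = 0 := by
  have hd : d ≠ 0 := by
    rintro rfl
    apply hv
    funext i
    rw [hq]; simp
  intro i
  have h1 : (N *ᵥ v) i = d * (N * q) i 0 := by
    rw [Matrix.mul_apply, mul_sum, Matrix.mulVec, dotProduct]
    apply sum_congr rfl; intro j _
    rw [hq]; ring
  rw [hN] at h1
  have : d * (N * q) i 0 = 0 := h1.symm
  exact (mul_eq_zero.mp this).resolve_left hd

theorem mul_col0 {α β : Type*} [Fintype α] (X : Matrix β α ℤ) (Y : Matrix α (Fin (n + 1)) ℤ)
    (h : ∀ i, Y i 0 = 0) : ∀ i, (X * Y) i 0 = 0 := by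
  intro i
  rw [Matrix.mul_apply]
  apply sum_eq_zero; intro j _
  rw [h, mul_zero]

theorem exists_adm (N : Matrix (Fin (n + 1)) (Fin (n + 1)) ℤ) (hN : IsNilpotent N) :
    ∃ q q', Adm N q q' := by
  obtain ⟨v, hv, hNv⟩ := exists_kernel N hN
  obtain ⟨q, q', d, h1, h2, h3⟩ := uni n v
  refine ⟨q, q', h1, ?_⟩
  rw [Matrix.mul_assoc]
  exact mul_col0 _ _ (col_of_kernel N hv hNv q d h3)

theorem nil_conj {N q q' : Matrix (Fin n) (Fin n) ℤ} (h : q * q' = 1) (hN : IsNilpotent N) :
    IsNilpotent (q' * N * q) := by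
  obtain ⟨k, hk⟩ := hN
  refine ⟨k, ?_⟩
  have h' : q' * q = 1 := mul_eq_one_comm.mp h
  have : ∀ k, (q' * N * q) ^ k = q' * N ^ k * q := by
    intro k
    induction k with
    | zero => rw [pow_zero, pow_zero, mul_one, h']
    | succ k ih =>
      rw [pow_succ, ih, pow_succ]
      simp only [Matrix.mul_assoc]
      rw [canc h]
  rw [this, hk]; simp

theorem Q_zero_right {α β : Type*} [LinearOrder α] [LinearOrder β] [Fintype α] [Fintype β]
    (R : Matrix α β ℤ) : Q R 0 = 0 := by
  apply Q_eq_zero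
  intro i j k l
  simp

/-- Statement `A`. -/
def SA (n : ℕ) : Prop := ∀ N q q' : Matrix (Fin n) (Fin n) ℤ, IsNilpotent N → q * q' = 1 →
  F n (q' * N * q) = F n N + Q q (q' * N)

/-- Statement `B`. -/
def SB (n : ℕ) : Prop := ∀ N q q' : Matrix (Fin (n + 1)) (Fin (n + 1)) ℤ, IsNilpotent N →
  Adm N q q' → F (n + 1) N = Q q (q' * N) + F n (tl (q' * N * q))

/-- Statement `C`. -/
def SC (n : ℕ) : Prop := ∀ M q q' : Matrix (Fin (n + 1)) (Fin (n + 1)) ℤ, IsNilpotent M →
  (∀ i, M i 0 = 0) → Adm M q q' → Q q (q' * M) + F n (tl (q' * M * q)) = F n (tl M)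

theorem SB_of_SC (h : SC n) : SB n := by
  intro N q q' hN hq
  obtain ⟨p, p', hp, hF⟩ := F_spec N ⟨q, q', hq⟩
  rw [hF]
  have hp1 : p * p' = 1 := hp.1
  have hp2 : p' * p = 1 := mul_eq_one_comm.mp hp1
  have hq1 : q * q' = 1 := hq.1
  have e1 : q' * p * (p' * N * p) * (p' * q) = q' * N * q := by
    simp only [Matrix.mul_assoc]
    rw [canc hp1, canc hp1]
  have hr : Adm (p' * N * p) (p' * q) (q' * p) := by
    refine ⟨?_, ?_⟩
    · rw [Matrix.mul_assoc, canc hq1, hp2]
    · rw [e1]; exact hq.2
  have hC := h (p' * N * p) (p' * q) (q' * p) (nil_conj hp1 hN) hp.2 hr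
  rw [e1] at hC
  have hT := Q_triangle p (p' * q) (q' * N)
  have e2 : p * (p' * q) = q := by rw [canc hp1]
  have e3 : p' * q * (q' * N) = p' * N := by
    rw [Matrix.mul_assoc, canc hq1]
  have e4 : q' * N * p = q' * p * (p' * N * p) := by
    simp only [Matrix.mul_assoc]
    rw [canc hp1]
  rw [e2, e3, e4] at hT
  rw [hT, ← hC]
  ring

theorem SA_succ_of_SB (h : SB n) : SA (n + 1) := by
  intro N q q' hN hq
  obtain ⟨p, p', hp⟩ := exists_adm N hN
  have hp1 : p * p' = 1 := hp.1
  have hq2 : q' * q = 1 := mul_eq_one_comm.mp hq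
  have e1 : p' * q * (q' * N * q) * (q' * p) = p' * N * p := by
    simp only [Matrix.mul_assoc]
    rw [canc hq, canc hq]
  have hr : Adm (q' * N * q) (q' * p) (p' * q) := by
    refine ⟨?_, ?_⟩
    · rw [Matrix.mul_assoc, canc hp1, hq2]
    · rw [e1]; exact hp.2
  have h1 := h _ _ _ (nil_conj hq hN) hr
  have h2 := h _ _ _ hN hp
  rw [e1] at h1
  have hT := Q_triangle q (q' * p) (p' * N)
  have e2 : q * (q' * p) = p := by rw [canc hq]
  have e3 : q' * p * (p' * N) = q' * N := by
    rw [Matrix.mul_assoc, canc hp1]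
  have e4 : p' * N * q = p' * q * (q' * N * q) := by
    simp only [Matrix.mul_assoc]
    rw [canc hq]
  rw [e2, e3, e4] at hT
  rw [h1, h2, hT]
  have := z2_add_self (Q q (q' * N))
  linear_combination (-1 : ZMod 2) * this

theorem SA_zero : SA 0 := by
  intro N q q' hN hq
  have : Q q (q' * N) = 0 := by
    apply Q_eq_zero
    intro i
    exact i.elim0
  rw [this]
  rfl

theorem SC_zero : SC 0 := by
  intro M q q' hN hM hq
  have hM0 : M = 0 := by
    ext i j
    have hj : j = 0 := Fin.fin_one_eq_zero j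
    rw [hj]; exact hM i
  have : Q q (q' * M) = 0 := by
    rw [hM0, Matrix.mul_zero]; exact Q_zero_right _
  rw [this]
  simp [F]

theorem case_one (hA : SA n) (M q q' : Matrix (Fin (n + 1)) (Fin (n + 1)) ℤ) (hM : IsNilpotent M)
    (h0 : ∀ i, M i 0 = 0) (hq : q * q' = 1) (hl : ∀ i : Fin n, q i.succ 0 = 0) :
    Q q (q' * M) + F n (tl (q' * M * q)) = F n (tl M) := by
  have hq2 : q' * q = 1 := mul_eq_one_comm.mp hq
  have hl' : ∀ i : Fin n, q' i.succ 0 = 0 := by
    have hne : q 0 0 ≠ 0 := by
      intro h00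
      have : (q' * q) 0 0 = 1 := by rw [hq2]; rfl
      rw [Matrix.mul_apply, Fin.sum_univ_succ, h00, mul_zero, zero_add] at this
      simp [hl] at this
    intro i
    have : (q' * q) i.succ 0 = 0 := by rw [hq2, Matrix.one_apply_ne (Fin.succ_ne_zero _)]
    rw [Matrix.mul_apply, Fin.sum_univ_succ] at this
    simp only [hl, mul_zero, sum_const_zero, add_zero] at this
    exact (mul_eq_zero.mp this).resolve_right hne
  have e1 : Q q (q' * M) = Q (tl q) (tl q' * tl M) := by
    rw [Q_rm1 _ _ (mul_col0 q' M h0), Q_rm2 (q.submatrix Fin.succ id)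
      ((q' * M).submatrix id Fin.succ) (fun k => hl k), ← tl_mul _ _ hl']
    rfl
  have e2 : tl (q' * M * q) = tl q' * tl M * tl q := by
    rw [tl_mul _ _ (fun i => mul_col0 q' M h0 i.succ), tl_mul _ _ hl']
  have e3 : tl q * tl q' = 1 := by
    rw [← tl_mul _ _ hl, hq, tl_one]
  have := hA (tl M) (tl q) (tl q') (tl_nil hM (fun i => h0 i.succ)) e3
  rw [e1, e2, this]
  have h2 := z2_add_self (Q (tl q) (tl q' * tl M))
  linear_combination h2

theorem tw_rows (s : Matrix (Fin 2) (Fin 2) ℤ) (i : Fin n) (j : Fin (n + 2)) :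
    (tw s : Matrix (Fin (n + 2)) (Fin (n + 2)) ℤ) i.succ.succ j =
      (1 : Matrix (Fin (n + 2)) (Fin (n + 2)) ℤ) i.succ.succ j := by
  refine Fin.cases ?_ (fun j => ?_) j
  · rw [tws0, Matrix.one_apply_ne (Fin.succ_ne_zero _)]
  · refine Fin.cases ?_ (fun j => ?_) j
    · rw [tws1', Matrix.one_apply_ne]
      intro h
      exact Fin.succ_ne_zero _ (Fin.succ_injective _ h)
    · rw [twss, Matrix.one_apply, Matrix.one_apply]; simp

theorem tw_cols (s : Matrix (Fin 2) (Fin 2) ℤ) (j : Fin n) (i : Fin (n + 2)) :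
    (tw s : Matrix (Fin (n + 2)) (Fin (n + 2)) ℤ) i j.succ.succ =
      (1 : Matrix (Fin (n + 2)) (Fin (n + 2)) ℤ) i j.succ.succ := by
  refine Fin.cases ?_ (fun i => ?_) i
  · rw [tw0s, Matrix.one_apply_ne (Fin.succ_ne_zero _).symm]
  · refine Fin.cases ?_ (fun i => ?_) i
    · rw [tw1s', Matrix.one_apply_ne]
      intro h
      exact Fin.succ_ne_zero _ (Fin.succ_injective _ h).symm
    · rw [twss, Matrix.one_apply, Matrix.one_apply]; simp

theorem Q_tw (s : Matrix (Fin 2) (Fin 2) ℤ) (X : Matrix (Fin (n + 2)) (Fin (n + 2)) ℤ)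
    (h0 : ∀ i, X i 0 = 0) (h1 : ∀ i, X i (Fin.succ 0) = 0) : Q (tw s) X = 0 := by
  rw [Q_rm1 _ _ h0, Q_rm1 (((tw s : Matrix (Fin (n + 2)) (Fin (n + 2)) ℤ)).submatrix Fin.succ id)
    (X.submatrix id Fin.succ) (fun k => h1 k), Q_rm2 ((((tw s : Matrix (Fin (n + 2)) (Fin (n + 2)) ℤ)).submatrix
      Fin.succ id).submatrix Fin.succ id) _ (fun i => tws0 s i),
    Q_rm2 (((((tw s : Matrix (Fin (n + 2)) (Fin (n + 2)) ℤ)).submatrix
      Fin.succ id).submatrix Fin.succ id).submatrix id Fin.succ) _ (fun i => tws1' s i)]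
  have : ((((((tw s : Matrix (Fin (n + 2)) (Fin (n + 2)) ℤ)).submatrix Fin.succ id).submatrix
      Fin.succ id).submatrix id Fin.succ).submatrix id Fin.succ) = 1 := by
    ext i j
    exact twss s i j
  rw [this, Q_one]

theorem SC_succ (hB : SB n) : SC (n + 1) := by
  have hA : SA (n + 1) := SA_succ_of_SB hB
  intro M q q' hM h0 hq
  have hq1 : q * q' = 1 := hq.1
  have hMq : ∀ i, (M * q) i 0 = 0 := by
    have : M * q = q * (q' * M * q) := by
      simp only [Matrix.mul_assoc]; rw [canc hq1]
    rw [this]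
    exact mul_col0 _ _ hq.2
  by_cases hv : (fun i : Fin (n + 1) => q i.succ 0) = 0
  · exact case_one hA M q q' hM h0 hq1 (fun i => congrFun hv i)
  · obtain ⟨q3, q3', e, g1, g2, g3⟩ := uni n (fun i => q i.succ 0)
    obtain ⟨s, s', d, k1, k2, k3, k4⟩ := two_uni (q 0 0) e
    have he : e ≠ 0 := by
      rintro rfl
      apply hv
      funext i
      rw [g3]; simp
    have hd : d ≠ 0 := by
      rintro rfl
      apply he
      rw [k4]; simp
    set r : Matrix (Fin (n + 2)) (Fin (n + 2)) ℤ := bd q3 with hr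
    set r' : Matrix (Fin (n + 2)) (Fin (n + 2)) ℤ := bd q3' with hr'
    set w : Matrix (Fin (n + 2)) (Fin (n + 2)) ℤ := tw s with hw
    set w' : Matrix (Fin (n + 2)) (Fin (n + 2)) ℤ := tw s' with hw'
    have r1 : r * r' = 1 := by rw [hr, hr', ← bd_mul, g1, bd_one]
    have r2 : r' * r = 1 := by rw [hr, hr', ← bd_mul, g2, bd_one]
    have w1 : w * w' = 1 := by rw [hw, hw', ← tw_mul, k1, tw_one]
    have w2 : w' * w = 1 := by rw [hw, hw', ← tw_mul, k2, tw_one]
    -- `q` factors as `(r * w) * p`
    set t := r * w with ht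
    set t' := w' * r' with ht'
    have t1 : t * t' = 1 := by
      rw [ht, ht', Matrix.mul_assoc, canc w1, r1]
    have t2 : t' * t = 1 := by
      rw [ht, ht', Matrix.mul_assoc, canc r2, w2]
    have hqt : ∀ i, q i 0 = d * t i 0 := by
      intro i
      refine Fin.cases ?_ (fun i => ?_) i
      · rw [ht, Matrix.mul_apply, Fin.sum_univ_succ]
        simp [hr, hw, k3]
      · have h5 : t i.succ 0 = q3 i 0 * s 1 0 := by
          rw [ht, Matrix.mul_apply, Fin.sum_univ_succ, Fin.sum_univ_succ]
          simp only [hr, hw, bd_succ_zero, zero_mul, zero_add, tw10', bd_succ_succ, tws0, mul_zero,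
            sum_const_zero, add_zero]
        have h6 : q i.succ 0 = e * q3 i 0 := g3 i
        rw [h6, h5, k4]; ring
    set p := t' * q with hp
    set p' := q' * t with hp'
    have p1 : p * p' = 1 := by
      rw [hp, hp', Matrix.mul_assoc, canc hq1, t2]
    have hpl : ∀ i : Fin (n + 1), p i.succ 0 = 0 := by
      intro i
      have h5 : p i.succ 0 = d * (t' * t) i.succ 0 := by
        rw [hp, Matrix.mul_apply, Matrix.mul_apply, mul_sum]
        apply sum_congr rfl; intro j _
        rw [hqt]; ring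
      rw [h5, t2, Matrix.one_apply_ne (Fin.succ_ne_zero _), mul_zero]
    have hMt : ∀ i, (M * t) i 0 = 0 := by
      intro i
      have h5 : (M * q) i 0 = d * (M * t) i 0 := by
        rw [Matrix.mul_apply, Matrix.mul_apply, mul_sum]
        apply sum_congr rfl; intro j _
        rw [hqt]; ring
      rw [hMq i] at h5
      exact (mul_eq_zero.mp h5.symm).resolve_left hd
    have c1 := case_one hA (t' * M * t) p p' (nil_conj t1 hM)
      (by rw [Matrix.mul_assoc]; exact mul_col0 _ _ hMt) p1 hpl
    have e1 : p' * (t' * M * t) * p = q' * M * q := by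
      rw [hp, hp']; simp only [Matrix.mul_assoc]; rw [canc t1, canc t1]
    rw [e1] at c1
    have T1 := Q_triangle t p (q' * M)
    have e2 : t * p = q := by rw [hp, canc t1]
    have e3 : p * (q' * M) = t' * M := by rw [hp, Matrix.mul_assoc, canc hq1]
    have e4 : q' * M * t = p' * (t' * M * t) := by
      rw [hp']; simp only [Matrix.mul_assoc]; rw [canc t1]
    rw [e2, e3, e4] at T1
    -- the first factor `r`
    have c2' := case_one hA M r r' hM h0 r1 (fun i => by rw [hr]; simp)
    -- the matrix after `r`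
    set M1 := r' * M * r with hM1
    have M1nil : IsNilpotent M1 := nil_conj r1 hM
    have M10 : ∀ i, M1 i 0 = 0 := by
      rw [hM1, Matrix.mul_assoc]
      apply mul_col0
      intro i
      rw [Matrix.mul_apply, Fin.sum_univ_succ, h0]
      simp [hr]
    have M11 : ∀ i, M1 i (Fin.succ 0) = 0 := by
      have h5 : ∀ i, (M * r) i (Fin.succ 0) = 0 := by
        intro i
        have h6 : (M * q) i 0 = M i 0 * q 0 0 + e * (M * r) i (Fin.succ 0) := by
          have h7 : (M * r) i (Fin.succ 0) = ∑ j : Fin (n + 1), M i j.succ * q3 j 0 := by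
            rw [Matrix.mul_apply, Fin.sum_univ_succ]
            simp only [hr, bd_zero_succ, mul_zero, zero_add, bd_succ_succ]
          rw [h7, Matrix.mul_apply, Fin.sum_univ_succ, mul_sum]
          congr 1
          apply sum_congr rfl; intro j _
          have h8 : q j.succ 0 = e * q3 j 0 := g3 j
          rw [h8]; ring
        rw [hMq, h0, zero_mul, zero_add] at h6
        exact (mul_eq_zero.mp h6.symm).resolve_left he
      intro i
      rw [hM1, Matrix.mul_assoc, Matrix.mul_apply]
      apply sum_eq_zero; intro j _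
      rw [h5, mul_zero]
    have T2 := Q_triangle r w (t' * M)
    have e5 : w * (t' * M) = r' * M := by rw [ht', Matrix.mul_assoc, canc w1]
    have e6 : t' * M * r = w' * M1 := by
      rw [ht', hM1]; simp only [Matrix.mul_assoc]
    rw [← ht, e5, e6] at T2
    have z1 : Q w (w' * M1) = 0 := by
      apply Q_tw
      · exact mul_col0 _ _ M10
      · intro i
        rw [Matrix.mul_apply]
        apply sum_eq_zero; intro j _
        rw [M11, mul_zero]
    -- compare the tails
    have z2 : ∀ X : Matrix (Fin (n + 1)) (Fin (n + 1)) ℤ, IsNilpotent X → (∀ i, X i 0 = 0) →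
        F (n + 1) X = F n (tl X) := by
      intro X hX hX0
      have := hB X 1 1 hX ⟨by simp, by simpa using hX0⟩
      rw [this]
      simp [Q_one]
    have e7 : t' * M * t = w' * M1 * w := by
      rw [ht, ht', hM1]; simp only [Matrix.mul_assoc]
    have t0 : ∀ i, (t' * M * t) i 0 = 0 := by
      rw [Matrix.mul_assoc]; exact mul_col0 _ _ hMt
    have z3 : F (n + 1) (tl (t' * M * t)) = F (n + 1) (tl M1) := by
      have a1 : ∀ i, (tl (t' * M * t)) i 0 = 0 := by
        intro i
        rw [e7, tl_apply, Matrix.mul_assoc, Matrix.mul_apply]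
        apply sum_eq_zero; intro j _
        have : (M1 * w) j (Fin.succ 0) = 0 := by
          rw [Matrix.mul_apply, Fin.sum_univ_succ, Fin.sum_univ_succ, M10, M11]
          simp [hw]
        rw [this, mul_zero]
      rw [z2 _ (tl_nil (nil_conj t1 hM) (fun i => t0 i.succ)) a1,
        z2 _ (tl_nil M1nil (fun i => M10 i.succ)) (fun i => M11 i.succ)]
      congr 1
      ext i j
      rw [tl_apply, tl_apply, tl_apply, tl_apply, e7, Matrix.mul_apply]
      have b1 : ∀ k, (w' * M1) i.succ.succ k = M1 i.succ.succ k := by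
        intro k
        rw [Matrix.mul_apply]
        have : ∀ l, w' i.succ.succ l * M1 l k = (1 : Matrix (Fin (n + 2)) (Fin (n + 2)) ℤ) i.succ.succ l * M1 l k := by
          intro l; rw [hw', tw_rows]
        rw [sum_congr rfl (fun l _ => this l), ← Matrix.mul_apply, Matrix.one_mul]
      have b2 : ∀ k, (w' * M1) i.succ.succ k * w k j.succ.succ =
          M1 i.succ.succ k * (1 : Matrix (Fin (n + 2)) (Fin (n + 2)) ℤ) k j.succ.succ := by
        intro k
        rw [b1, hw, tw_cols]
      rw [sum_congr rfl (fun l _ => b2 l), ← Matrix.mul_apply, Matrix.mul_one]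
    rw [T1, T2, z1, add_zero]
    rw [z3] at c1
    linear_combination c1 + c2'

theorem SB_all : ∀ n, SB n := by
  intro n
  induction n with
  | zero => exact SB_of_SC SC_zero
  | succ n ih => exact SB_of_SC (SC_succ ih)

theorem SA_all : ∀ n, SA n := by
  intro n
  cases n with
  | zero => exact SA_zero
  | succ n => exact SA_succ_of_SB (SB_all n)

theorem F_col0 (M : Matrix (Fin (n + 1)) (Fin (n + 1)) ℤ) (hM : IsNilpotent M)
    (h0 : ∀ i, M i 0 = 0) : F (n + 1) M = F n (tl M) := by
  have := SB_all n M 1 1 hM ⟨by simp, by simpa using h0⟩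
  rw [this]
  simp [Q_one]

theorem F_zero : ∀ n, F n 0 = 0 := by
  intro n
  induction n with
  | zero => rfl
  | succ n ih =>
    rw [F_col0 0 (IsNilpotent.zero) (fun i => rfl)]
    exact ih

theorem mul_pow_succ {α β : Type*} [Fintype α] [DecidableEq α] [Fintype β] [DecidableEq β]
    (R : Matrix α β ℤ) (S : Matrix β α ℤ) (k : ℕ) : (S * R) ^ (k + 1) = S * (R * S) ^ k * R := by
  induction k with
  | zero => simp
  | succ k ih =>
    rw [pow_succ, ih, pow_succ (R * S) k]
    simp only [Matrix.mul_assoc]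

theorem nil_swap {α β : Type*} [Fintype α] [DecidableEq α] [Fintype β] [DecidableEq β]
    {R : Matrix α β ℤ} {S : Matrix β α ℤ} (h : IsNilpotent (R * S)) : IsNilpotent (S * R) := by
  obtain ⟨k, hk⟩ := h
  refine ⟨k + 1, ?_⟩
  rw [mul_pow_succ, hk]; simp

/-- The potential property. -/
theorem F_elem_aux : ∀ (t a c : ℕ), a + c = t → ∀ (R : Matrix (Fin a) (Fin c) ℤ)
    (S : Matrix (Fin c) (Fin a) ℤ), IsNilpotent (R * S) → F c (S * R) = F a (R * S) + Q R S := by
  intro t
  induction t with
  | zero =>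
    intro a c hac R S _
    have ha : a = 0 := by omega
    have hc : c = 0 := by omega
    subst ha; subst hc
    have : Q R S = 0 := by
      apply Q_eq_zero
      intro i
      exact i.elim0
    rw [this]; rfl
  | succ t ih =>
    intro a c hac R S hRS
    cases a with
    | zero =>
      have h1 : Q R S = 0 := by
        apply Q_eq_zero
        intro i
        exact i.elim0
      have h2 : S * R = 0 := by
        ext i j
        rw [Matrix.mul_apply]; simp
      rw [h1, h2, F_zero]; rfl
    | succ a =>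
      obtain ⟨v, hv, hNv⟩ := exists_kernel (R * S) hRS
      by_cases hw : S *ᵥ v = 0
      · -- case A
        obtain ⟨p, p', d, h1, h2, h3⟩ := uni a v
        have hS : ∀ i, (S * p) i 0 = 0 := col_of_kernel S hv hw p d h3
        have hN : IsNilpotent ((p' * R) * (S * p)) := by
          have := nil_conj (q := p) (q' := p') h1 hRS
          simpa only [Matrix.mul_assoc] using this
        have hQ := Q_rm1 (p' * R) (S * p) hS
        have i1 := ih a c (by omega) ((p' * R).submatrix Fin.succ id) ((S * p).submatrix id Fin.succ)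
        have e1 : (p' * R).submatrix Fin.succ id * (S * p).submatrix id Fin.succ =
            tl ((p' * R) * (S * p)) := rfl
        have e2 : (S * p).submatrix id Fin.succ * (p' * R).submatrix Fin.succ id = S * R := by
          have : (S * p).submatrix id Fin.succ * (p' * R).submatrix Fin.succ id = (S * p) * (p' * R) := by
            ext i j
            rw [Matrix.mul_apply, Matrix.mul_apply, Fin.sum_univ_succ, hS, zero_mul, zero_add]
            rfl
          rw [this, Matrix.mul_assoc, canc h1]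
        have hc0 : ∀ i, ((p' * R) * (S * p)) i 0 = 0 := mul_col0 _ _ hS
        rw [e1, e2, ← hQ] at i1
        have i2 := i1 (tl_nil hN (fun i => hc0 i.succ))
        rw [← F_col0 _ hN hc0] at i2
        have e3 : (p' * R) * (S * p) = p' * (R * S) * p := by simp only [Matrix.mul_assoc]
        rw [e3, SA_all _ _ _ _ hRS h1] at i2
        have T1 := Q_triangle p' R (S * p)
        have T2 := Q_triangle p p' (R * S)
        rw [h1, Q_one] at T2
        have e4 : S * p * p' = S := by rw [Matrix.mul_assoc, h1, Matrix.mul_one]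
        rw [e4] at T1
        have e5 : R * (S * p) = R * S * p := by simp only [Matrix.mul_assoc]
        rw [e5] at T1
        rw [i2, T1]
        linear_combination (-1 : ZMod 2) * T2
      · -- case B
        cases c with
        | zero =>
          exfalso; apply hw
          funext i
          exact i.elim0
        | succ c =>
          have hRw : R *ᵥ (S *ᵥ v) = 0 := by
            rw [Matrix.mulVec_mulVec]; exact hNv
          obtain ⟨q, q', d, h1, h2, h3⟩ := uni c (S *ᵥ v)
          have hR : ∀ i, (R * q) i 0 = 0 := col_of_kernel R hw hRw q d h3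
          have hQ := Q_rm2 (R * q) (q' * S) hR
          have i1 := ih (a + 1) c (by omega) ((R * q).submatrix id Fin.succ) ((q' * S).submatrix Fin.succ id)
          have e1 : (R * q).submatrix id Fin.succ * (q' * S).submatrix Fin.succ id = R * S := by
            have : (R * q).submatrix id Fin.succ * (q' * S).submatrix Fin.succ id = (R * q) * (q' * S) := by
              ext i j
              rw [Matrix.mul_apply, Matrix.mul_apply, Fin.sum_univ_succ, hR, zero_mul, zero_add]
              rfl
            rw [this, Matrix.mul_assoc, canc h1]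
          have e2 : (q' * S).submatrix Fin.succ id * (R * q).submatrix id Fin.succ =
              tl ((q' * S) * (R * q)) := rfl
          rw [e1, e2, ← hQ] at i1
          have i2 := i1 hRS
          have hSR : IsNilpotent (S * R) := nil_swap hRS
          have e3 : (q' * S) * (R * q) = q' * (S * R) * q := by simp only [Matrix.mul_assoc]
          have hN : IsNilpotent ((q' * S) * (R * q)) := by
            rw [e3]; exact nil_conj h1 hSR
          have hc0 : ∀ i, ((q' * S) * (R * q)) i 0 = 0 := mul_col0 _ _ hR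
          rw [← F_col0 _ hN hc0, e3, SA_all _ _ _ _ hSR h1] at i2
          have T1 := Q_triangle R q (q' * S)
          rw [canc h1] at T1
          have e5 : q' * S * R = q' * (S * R) := by simp only [Matrix.mul_assoc]
          rw [e5] at T1
          rw [T1] at i2
          linear_combination i2

theorem F_elem {a c : ℕ} (R : Matrix (Fin a) (Fin c) ℤ) (S : Matrix (Fin c) (Fin a) ℤ)
    (h : IsNilpotent (R * S)) : F c (S * R) = F a (R * S) + Q R S :=
  F_elem_aux _ a c rfl R S h

end Pool.Agent.Helper817_sse
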