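import Mathlib
import Pool.Agent.Helper817_sse.F

set_option autoImplicit false
set_option linter.unusedSectionVars false

/-!
# The potential for matrices over arbitrary finite index types
-/

namespace Pool.Agent.Helper817_sse

open Matrix Finset

section submat

variable {α β : Type*} [Fintype α] [Fintype β] [DecidableEq α] [DecidableEq β]

theorem submatrix_pow_equiv (e : α ≃ β) (N : Matrix β β ℤ) (k : ℕ) :
    N.submatrix e e ^ k = (N ^ k).submatrix e e := by
  induction k with
  | zero => rw [pow_zero, pow_zero, submatrix_one_equiv]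
  | succ k ih => rw [pow_succ, pow_succ, ih, submatrix_mul_equiv]

theorem nil_submatrix (e : α ≃ β) {N : Matrix β β ℤ} (h : IsNilpotent N) :
    IsNilpotent (N.submatrix e e) := by
  obtain ⟨k, hk⟩ := h
  exact ⟨k, by rw [submatrix_pow_equiv, hk]; rfl⟩

end submat

section FI

variable {α β : Type*} [Fintype α] [Fintype β]

/-- The potential for an arbitrary finite index type, with the chosen enumeration. -/
noncomputable def FI (N : Matrix α α ℤ) : ZMod 2 :=
  F (Fintype.card α) (N.submatrix (Fintype.equivFin α).symm (Fintype.equivFin α).symm)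

theorem F_V {a c : ℕ} (R : Matrix (Fin a) (Fin c) ℤ) (S : Matrix (Fin c) (Fin a) ℤ)
    (hn : IsNilpotent (R * S)) (h : ∀ i j k l, R i k * S k j * R j l * S l i = 0) :
    F c (S * R) = F a (R * S) := by
  rw [F_elem R S hn, Q_eq_zero R S h, add_zero]

theorem F_V' [DecidableEq α] [DecidableEq β] {a c : ℕ} (e : Fin a ≃ α) (f : Fin c ≃ β)
    (R : Matrix α β ℤ) (S : Matrix β α ℤ)
    (hn : IsNilpotent (R * S)) (h : ∀ i j k l, R i k * S k j * R j l * S l i = 0) :
    F c ((S * R).submatrix f f) = F a ((R * S).submatrix e e) := by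
  rw [← submatrix_mul_equiv S R f e f, ← submatrix_mul_equiv R S e f e]
  apply F_V
  · rw [submatrix_mul_equiv]
    exact nil_submatrix e hn
  · intro i j k l
    exact h _ _ _ _

theorem FI_V [DecidableEq α] [DecidableEq β] (R : Matrix α β ℤ) (S : Matrix β α ℤ)
    (hn : IsNilpotent (R * S)) (h : ∀ i j k l, R i k * S k j * R j l * S l i = 0) :
    FI (S * R) = FI (R * S) :=
  F_V' _ _ R S hn h

/-- For matrices without cycles of length one and two the order of the indices is irrelevant. -/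
theorem F_order [DecidableEq α] {a c : ℕ} (e : Fin a ≃ α) (f : Fin c ≃ α) (N : Matrix α α ℤ)
    (hn : IsNilpotent N) (h : ∀ i j, N i j * N j i = 0) :
    F c (N.submatrix f f) = F a (N.submatrix e e) := by
  have := F_V' e f N (1 : Matrix α α ℤ) (by rwa [Matrix.mul_one]) ?_
  · rwa [Matrix.one_mul, Matrix.mul_one] at this
  · intro i j k l
    by_cases h1 : k = j
    · by_cases h2 : l = i
      · subst h1; subst h2
        rw [Matrix.one_apply_eq, Matrix.one_apply_eq, mul_one, mul_one, h]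
      · rw [Matrix.one_apply_ne h2, mul_zero]
    · rw [Matrix.one_apply_ne h1]; simp

theorem FI_eq_F [DecidableEq α] {a : ℕ} (e : Fin a ≃ α) (N : Matrix α α ℤ)
    (hn : IsNilpotent N) (h : ∀ i j, N i j * N j i = 0) :
    FI N = F a (N.submatrix e e) :=
  F_order _ _ N hn h

theorem FI_zero : FI (0 : Matrix α α ℤ) = 0 := F_zero _

end FI

section FO

variable {α β α' β' : Type*} [Fintype α] [Fintype β] [LinearOrder α] [LinearOrder β]
  [Fintype α'] [Fintype β'] [LinearOrder α'] [LinearOrder β']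

/-- The potential for an ordered finite index type. -/
noncomputable def FO (N : Matrix α α ℤ) : ZMod 2 :=
  F (Fintype.card α) (N.submatrix (Fintype.orderIsoFinOfCardEq α rfl)
    (Fintype.orderIsoFinOfCardEq α rfl))

theorem Lt_iso (e : α' ≃o α) (x y : α') : Lt (e x, e y) = Lt (x, y) := by
  unfold Lt
  simp only [e.lt_iff_lt]

theorem Gt_iso (e : α' ≃o α) (x y : α') : Gt (e x, e y) = Gt (x, y) := by
  unfold Gt
  simp only [e.lt_iff_lt]

theorem Q_iso (e : α' ≃o α) (f : β' ≃o β) (R : Matrix α β ℤ) (S : Matrix β α ℤ) :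
    Q (R.submatrix e f) (S.submatrix f e) = Q R S := by
  unfold Q
  congr 1
  · congr 1
    · unfold Mn
      rw [← Equiv.sum_comp (e.toEquiv.prodCongr e.toEquiv)]
      apply sum_congr rfl; intro u _
      rw [← Equiv.sum_comp (f.toEquiv.prodCongr f.toEquiv)]
      apply sum_congr rfl; intro w _
      have h1 : Lt ((e.toEquiv.prodCongr e.toEquiv) u) = Lt u := Lt_iso e u.1 u.2
      have h2 : Gt ((f.toEquiv.prodCongr f.toEquiv) w) = Gt w := Gt_iso f w.1 w.2
      rw [h1, h2]
      rfl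
    · have : S.submatrix f e * R.submatrix e f = (S * R).submatrix f f :=
        submatrix_mul_equiv S R f e.toEquiv f
      rw [this, ← Equiv.sum_comp f.toEquiv]
      rfl
  · rw [← Equiv.sum_comp e.toEquiv]
    apply sum_congr rfl; intro i _
    rw [← Equiv.sum_comp f.toEquiv]
    rfl

theorem FO_elem (R : Matrix α β ℤ) (S : Matrix β α ℤ) (h : IsNilpotent (R * S)) :
    FO (S * R) = FO (R * S) + Q R S := by
  set e : Fin (Fintype.card α) ≃o α := Fintype.orderIsoFinOfCardEq α rfl with he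
  set f : Fin (Fintype.card β) ≃o β := Fintype.orderIsoFinOfCardEq β rfl with hf
  have h1 : (S * R).submatrix f f = S.submatrix f e * R.submatrix e f :=
    (submatrix_mul_equiv S R f e.toEquiv f).symm
  have h2 : (R * S).submatrix e e = R.submatrix e f * S.submatrix f e :=
    (submatrix_mul_equiv R S e f.toEquiv e).symm
  have h3 : IsNilpotent (R.submatrix e f * S.submatrix f e) := by
    rw [← h2]; exact nil_submatrix e.toEquiv h
  have := F_elem _ _ h3
  rw [Q_iso, ← h1, ← h2] at this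
  exact this

theorem FO_zero : FO (0 : Matrix α α ℤ) = 0 := F_zero _

end FO

section lex

variable {α β γ δ : Type*}

/-- The tensor product of two matrices, indexed by lexicographic products. -/
def tens (N : Matrix α β ℤ) (B : Matrix γ δ ℤ) : Matrix (Lex (α × γ)) (Lex (β × δ)) ℤ :=
  Matrix.of fun x y => N (ofLex x).1 (ofLex y).1 * B (ofLex x).2 (ofLex y).2

theorem tens_apply (N : Matrix α β ℤ) (B : Matrix γ δ ℤ) (i : α) (a : γ) (k : β) (c : δ) :
    tens N B (toLex (i, a)) (toLex (k, c)) = N i k * B a c := rfl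

theorem sum_lex {M : Type*} [AddCommMonoid M] [Fintype α] [Fintype γ] (f : Lex (α × γ) → M) :
    ∑ x, f x = ∑ i, ∑ a, f (toLex (i, a)) := by
  rw [← Equiv.sum_comp toLex, Fintype.sum_prod_type]

theorem tens_mul {ε ζ : Type*} [Fintype β] [Fintype δ] (A : Matrix α β ℤ) (B : Matrix β ε ℤ)
    (C : Matrix γ δ ℤ) (D : Matrix δ ζ ℤ) : tens (A * B) (C * D) = tens A C * tens B D := by
  ext x y
  rw [Matrix.mul_apply, sum_lex]
  change (A * B) (ofLex x).1 (ofLex y).1 * (C * D) (ofLex x).2 (ofLex y).2 = _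
  rw [Matrix.mul_apply, Matrix.mul_apply, sum_mul_sum]
  apply sum_congr rfl; intro i _
  apply sum_congr rfl; intro j _
  change _ = (A (ofLex x).1 i * C (ofLex x).2 j) * (B i (ofLex y).1 * D j (ofLex y).2)
  ring

theorem tens_pow_succ [Fintype α] [Fintype γ] [DecidableEq α] [DecidableEq γ]
    [DecidableEq (Lex (α × γ))]
    (N : Matrix α α ℤ) (B : Matrix γ γ ℤ) (k : ℕ) : tens N B ^ (k + 1) = tens (N ^ (k + 1)) (B ^ (k + 1)) := by
  induction k with
  | zero => simp
  | succ k ih => rw [pow_succ, ih, ← tens_mul, ← pow_succ, ← pow_succ]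

theorem tens_nil [Fintype α] [Fintype γ] [DecidableEq α] [DecidableEq γ]
    [DecidableEq (Lex (α × γ))] {N : Matrix α α ℤ} (B : Matrix γ γ ℤ)
    (h : IsNilpotent N) : IsNilpotent (tens N B) := by
  obtain ⟨k, hk⟩ := h
  refine ⟨k + 1, ?_⟩
  rw [tens_pow_succ, pow_succ, hk, Matrix.zero_mul]
  ext x y
  change (0 : ℤ) * _ = 0
  rw [zero_mul]

end lex

section lexQ

variable {α β γ : Type*} [Fintype α] [Fintype β] [Fintype γ] [LinearOrder α] [LinearOrder β]
  [LinearOrder γ]

theorem Lt_lex (i j : α) (a b : γ) :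
    Lt (toLex (i, a), toLex (j, b)) = Lt (i, j) + Eqd (i, j) * Lt (a, b) := by
  unfold Lt Eqd
  simp only [Prod.Lex.toLex_lt_toLex]
  rcases lt_trichotomy i j with h | h | h
  · simp [h, h.ne]
  · subst h; simp
  · simp [h.not_gt, h.ne']

theorem Gt_lex (i j : α) (a b : γ) :
    Gt (toLex (i, a), toLex (j, b)) = Gt (i, j) + Eqd (i, j) * Gt (a, b) := by
  unfold Gt Eqd
  simp only [Prod.Lex.toLex_lt_toLex]
  rcases lt_trichotomy i j with h | h | h
  · simp [h.not_gt, h.ne, h.ne']
  · subst h; simp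
  · simp [h, h.ne']

/-- Sum of the principal two by two minors modulo two. -/
def e2 (B : Matrix γ γ ℤ) : ZMod 2 :=
  ∑ a, ∑ b, Lt (a, b) * (((B a a : ℤ) : ZMod 2) * ((B b b : ℤ) : ZMod 2) +
    ((B a b : ℤ) : ZMod 2) * ((B b a : ℤ) : ZMod 2))

theorem e2_gt (B : Matrix γ γ ℤ) : ∑ a, ∑ b, Gt (a, b) * (((B a a : ℤ) : ZMod 2) * ((B b b : ℤ) : ZMod 2) +
    ((B a b : ℤ) : ZMod 2) * ((B b a : ℤ) : ZMod 2)) = e2 B := by
  unfold e2
  rw [sum_comm]
  apply sum_congr rfl; intro a _
  apply sum_congr rfl; intro b _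
  have : Gt (b, a) = Lt (a, b) := rfl
  rw [this]; ring

theorem tr_sq (B : Matrix γ γ ℤ) : ∑ a, ∑ b, ((B a a : ℤ) : ZMod 2) * ((B b b : ℤ) : ZMod 2) =
    ((B.trace : ℤ) : ZMod 2) := by
  rw [← sum_mul_sum, z2_mul_self, Matrix.trace, Int.cast_sum]
  rfl

theorem tr_two (B : Matrix γ γ ℤ) : ∑ a, ∑ b, ((B a b : ℤ) : ZMod 2) * ((B b a : ℤ) : ZMod 2) =
    ((B.trace : ℤ) : ZMod 2) := by
  have h1 : ∀ a b, ((B a b : ℤ) : ZMod 2) * ((B b a : ℤ) : ZMod 2) =
      (if a = b then ((B a a : ℤ) : ZMod 2) else 0) +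
      (if a < b then ((B a b : ℤ) : ZMod 2) * ((B b a : ℤ) : ZMod 2) else 0) +
      (if b < a then ((B a b : ℤ) : ZMod 2) * ((B b a : ℤ) : ZMod 2) else 0) := by
    intro a b
    rcases lt_trichotomy a b with h | h | h
    · rw [if_neg h.ne, if_pos h, if_neg h.not_gt]; ring
    · subst h; simp [z2_mul_self]
    · rw [if_neg h.ne', if_neg h.not_gt, if_pos h]; ring
  rw [sum_congr rfl (fun a _ => sum_congr rfl (fun b _ => h1 a b))]
  simp only [sum_add_distrib]
  have h2 : ∑ a, ∑ b, (if b < a then ((B a b : ℤ) : ZMod 2) * ((B b a : ℤ) : ZMod 2) else 0) =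
      ∑ a, ∑ b, (if a < b then ((B a b : ℤ) : ZMod 2) * ((B b a : ℤ) : ZMod 2) else 0) := by
    rw [sum_comm]
    apply sum_congr rfl; intro a _
    apply sum_congr rfl; intro b _
    rw [mul_comm]
  rw [h2, add_assoc, z2_add_self, add_zero]
  simp [Matrix.trace, Int.cast_sum]

theorem c2_diag_sum (R : Matrix α β ℤ) (S : Matrix β α ℤ) :
    ∑ i, c2 ((R * S) i i) = ∑ i, ∑ k, c2 (R i k * S k i) +
      ∑ i, ∑ k, ∑ l, Lt (k, l) * (((R i k : ℤ) : ZMod 2) * ((S k i : ℤ) : ZMod 2) *
        (((R i l : ℤ) : ZMod 2) * ((S l i : ℤ) : ZMod 2))) := by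
  rw [← sum_add_distrib]
  apply sum_congr rfl; intro i _
  rw [Matrix.mul_apply, c2_sum]
  congr 1
  apply sum_congr rfl; intro k _
  apply sum_congr rfl; intro l _
  unfold Lt
  simp only [Int.cast_mul]
  split_ifs <;> simp

theorem Mn_tens (R : Matrix α β ℤ) (S : Matrix β α ℤ) (B : Matrix γ γ ℤ) :
    Mn (fun (u : Lex (α × γ) × Lex (α × γ)) (w : Lex (β × γ) × Lex (β × γ)) =>
        ((tens R (1 : Matrix γ γ ℤ) u.1 w.1 : ℤ) : ZMod 2) *
        ((tens R (1 : Matrix γ γ ℤ) u.2 w.2 : ℤ) : ZMod 2))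
      (fun (w : Lex (β × γ) × Lex (β × γ)) (u : Lex (α × γ) × Lex (α × γ)) =>
        ((tens S B w.1 u.1 : ℤ) : ZMod 2) * ((tens S B w.2 u.2 : ℤ) : ZMod 2)) =
    ((B.trace : ℤ) : ZMod 2) * Mn (fun (u : α × α) (w : β × β) =>
        ((R u.1 w.1 : ℤ) : ZMod 2) * ((R u.2 w.2 : ℤ) : ZMod 2))
      (fun (w : β × β) (u : α × α) => ((S w.1 u.1 : ℤ) : ZMod 2) * ((S w.2 u.2 : ℤ) : ZMod 2)) +
    e2 B * (∑ i, ∑ k, ∑ l, Lt (k, l) * (((R i k : ℤ) : ZMod 2) * ((S k i : ℤ) : ZMod 2) *
        (((R i l : ℤ) : ZMod 2) * ((S l i : ℤ) : ZMod 2))) +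
      ∑ k, ∑ i, ∑ j, Lt (i, j) * (((S k i : ℤ) : ZMod 2) * ((R i k : ℤ) : ZMod 2) *
        (((S k j : ℤ) : ZMod 2) * ((R j k : ℤ) : ZMod 2)))) := by
  set r : α → β → ZMod 2 := fun i k => ((R i k : ℤ) : ZMod 2) with hr
  set s : β → α → ZMod 2 := fun k i => ((S k i : ℤ) : ZMod 2) with hs
  set b : γ → γ → ZMod 2 := fun a c => ((B a c : ℤ) : ZMod 2) with hb
  have step1 : Mn (fun (u : Lex (α × γ) × Lex (α × γ)) (w : Lex (β × γ) × Lex (β × γ)) =>
        ((tens R (1 : Matrix γ γ ℤ) u.1 w.1 : ℤ) : ZMod 2) *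
        ((tens R (1 : Matrix γ γ ℤ) u.2 w.2 : ℤ) : ZMod 2))
      (fun (w : Lex (β × γ) × Lex (β × γ)) (u : Lex (α × γ) × Lex (α × γ)) =>
        ((tens S B w.1 u.1 : ℤ) : ZMod 2) * ((tens S B w.2 u.2 : ℤ) : ZMod 2)) =
      ∑ i, ∑ a, ∑ j, ∑ c, ∑ k, ∑ l, (Lt (i, j) + Eqd (i, j) * Lt (a, c)) *
        (Gt (k, l) + Eqd (k, l) * Gt (a, c)) * (r i k * r j l *
          (s k i * b a a * (s l j * b c c) + s k j * b a c * (s l i * b c a))) := by
    unfold Mn
    rw [Fintype.sum_prod_type, sum_lex]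
    apply sum_congr rfl; intro i _
    apply sum_congr rfl; intro a _
    rw [sum_lex]
    apply sum_congr rfl; intro j _
    apply sum_congr rfl; intro c _
    rw [Fintype.sum_prod_type, sum_lex]
    apply sum_congr rfl; intro k _
    rw [sum_eq_single a]
    · rw [sum_lex]
      apply sum_congr rfl; intro l _
      rw [sum_eq_single c]
      · simp only [tens_apply, Lt_lex, Gt_lex, Matrix.one_apply_eq, mul_one, Int.cast_mul,
          Prod.fst_swap, Prod.snd_swap, hr, hs, hb]
      · intro d _ hd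
        simp only [tens_apply, Matrix.one_apply_ne (Ne.symm hd)]
        simp
      · intro h; exact absurd (mem_univ _) h
    · intro d _ hd
      rw [sum_lex]
      apply sum_eq_zero; intro l _
      apply sum_eq_zero; intro e _
      simp only [tens_apply, Matrix.one_apply_ne (Ne.symm hd)]
      simp
    · intro h; exact absurd (mem_univ _) h
  have LG : ∀ a c : γ, Lt (a, c) * Gt (a, c) = 0 := by
    intro a c
    unfold Lt Gt
    simp only
    rcases lt_trichotomy a c with h | h | h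
    · simp [h.not_gt]
    · subst h; simp
    · simp [h.not_gt]
  set X1 : ZMod 2 := ∑ i, ∑ j, ∑ k, ∑ l, Lt (i, j) * Gt (k, l) * (r i k * r j l * (s k i * s l j)) with hX1
  set X2 : ZMod 2 := ∑ i, ∑ j, ∑ k, ∑ l, Lt (i, j) * Gt (k, l) * (r i k * r j l * (s k j * s l i)) with hX2
  set Y1 : ZMod 2 := ∑ i, ∑ j, ∑ k, Lt (i, j) * (s k i * r i k * (s k j * r j k)) with hY1
  set Y2 : ZMod 2 := ∑ i, ∑ k, ∑ l, Gt (k, l) * (r i k * s k i * (r i l * s l i)) with hY2
  have step2 : ∀ a c, ∑ i, ∑ j, ∑ k, ∑ l, (Lt (i, j) + Eqd (i, j) * Lt (a, c)) *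
        (Gt (k, l) + Eqd (k, l) * Gt (a, c)) * (r i k * r j l *
          (s k i * b a a * (s l j * b c c) + s k j * b a c * (s l i * b c a))) =
      b a a * b c c * X1 + b a c * b c a * X2 + Gt (a, c) * (b a a * b c c + b a c * b c a) * Y1 +
        Lt (a, c) * (b a a * b c c + b a c * b c a) * Y2 := by
    intro a c
    have t1 : ∀ i j k l, (Lt (i, j) + Eqd (i, j) * Lt (a, c)) *
        (Gt (k, l) + Eqd (k, l) * Gt (a, c)) * (r i k * r j l *
          (s k i * b a a * (s l j * b c c) + s k j * b a c * (s l i * b c a))) =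
        b a a * b c c * (Lt (i, j) * Gt (k, l) * (r i k * r j l * (s k i * s l j))) +
        b a c * b c a * (Lt (i, j) * Gt (k, l) * (r i k * r j l * (s k j * s l i))) +
        (if k = l then Gt (a, c) * (b a a * b c c + b a c * b c a) * (Lt (i, j) * (s k i * r i k * (s k j * r j k))) else 0) +
        (if i = j then Lt (a, c) * (b a a * b c c + b a c * b c a) * (Gt (k, l) * (r i k * s k i * (r i l * s l i))) else 0) := by
      intro i j k l
      have h0 := LG a c
      unfold Eqd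
      simp only
      by_cases h1 : k = l
      · subst h1
        by_cases h2 : i = j
        · subst h2
          have e1 : Lt (i, i) = 0 := by unfold Lt; simp
          have e2 : Gt (k, k) = 0 := by unfold Gt; simp
          simp only [if_true, e1, e2]
          linear_combination (r i k * r i k * (s k i * b a a * (s k i * b c c) + s k i * b a c * (s k i * b c a))) * h0
        · have e2 : Gt (k, k) = 0 := by unfold Gt; simp
          simp only [if_neg h2, if_true, e2]
          ring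
      · by_cases h2 : i = j
        · subst h2
          have e1 : Lt (i, i) = 0 := by unfold Lt; simp
          simp only [if_neg h1, if_true, e1]
          ring
        · simp only [if_neg h1, if_neg h2]
          ring
    simp only [t1, sum_add_distrib]
    have u1 : ∀ i j, ∑ k, ∑ l, (if k = l then Gt (a, c) * (b a a * b c c + b a c * b c a) * (Lt (i, j) * (s k i * r i k * (s k j * r j k))) else 0) =
        Gt (a, c) * (b a a * b c c + b a c * b c a) * ∑ k, Lt (i, j) * (s k i * r i k * (s k j * r j k)) := by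
      intro i j
      rw [mul_sum]
      apply sum_congr rfl; intro k _
      rw [sum_ite_eq]; simp
    have u2 : ∀ i, ∑ j, ∑ k, ∑ l, (if i = j then Lt (a, c) * (b a a * b c c + b a c * b c a) * (Gt (k, l) * (r i k * s k i * (r i l * s l i))) else 0) =
        Lt (a, c) * (b a a * b c c + b a c * b c a) * ∑ k, ∑ l, Gt (k, l) * (r i k * s k i * (r i l * s l i)) := by
      intro i
      rw [sum_eq_single i]
      · simp only [if_true, mul_sum]
      · intro j _ hj
        simp only [if_neg (Ne.symm hj), sum_const_zero]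
      · intro h; exact absurd (mem_univ _) h
    simp only [u1, u2, hX1, hX2, hY1, hY2, mul_sum]
  have step3 : ∑ i, ∑ a, ∑ j, ∑ c, ∑ k, ∑ l, (Lt (i, j) + Eqd (i, j) * Lt (a, c)) *
        (Gt (k, l) + Eqd (k, l) * Gt (a, c)) * (r i k * r j l *
          (s k i * b a a * (s l j * b c c) + s k j * b a c * (s l i * b c a))) =
      ∑ a, ∑ c, (b a a * b c c * X1 + b a c * b c a * X2 + Gt (a, c) * (b a a * b c c + b a c * b c a) * Y1 +
        Lt (a, c) * (b a a * b c c + b a c * b c a) * Y2) := by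
    rw [sum_comm]
    apply sum_congr rfl; intro a _
    have : ∀ i : α, ∑ j : α, ∑ c, ∑ k, ∑ l, (Lt (i, j) + Eqd (i, j) * Lt (a, c)) *
        (Gt (k, l) + Eqd (k, l) * Gt (a, c)) * (r i k * r j l *
          (s k i * b a a * (s l j * b c c) + s k j * b a c * (s l i * b c a))) =
        ∑ c, ∑ j : α, ∑ k, ∑ l, (Lt (i, j) + Eqd (i, j) * Lt (a, c)) *
        (Gt (k, l) + Eqd (k, l) * Gt (a, c)) * (r i k * r j l *
          (s k i * b a a * (s l j * b c c) + s k j * b a c * (s l i * b c a))) := by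
      intro i; rw [sum_comm]
    rw [sum_congr rfl (fun i _ => this i), sum_comm]
    apply sum_congr rfl; intro c _
    exact step2 a c
  have tA := tr_sq B
  have tB := tr_two B
  have eL : ∑ a, ∑ c, Lt (a, c) * (b a a * b c c + b a c * b c a) = e2 B := rfl
  have eG : ∑ a, ∑ c, Gt (a, c) * (b a a * b c c + b a c * b c a) = e2 B := e2_gt B
  have step4 : ∑ a, ∑ c, (b a a * b c c * X1 + b a c * b c a * X2 + Gt (a, c) * (b a a * b c c + b a c * b c a) * Y1 +
        Lt (a, c) * (b a a * b c c + b a c * b c a) * Y2) =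
      ((B.trace : ℤ) : ZMod 2) * (X1 + X2) + e2 B * (Y1 + Y2) := by
    simp only [sum_add_distrib, ← sum_mul]
    have q1 : ∑ a, ∑ c, b a a * b c c = ((B.trace : ℤ) : ZMod 2) := tA
    have q2 : ∑ a, ∑ c, b a c * b c a = ((B.trace : ℤ) : ZMod 2) := tB
    rw [q1, q2, eL, eG]
    ring
  rw [step1, step3, step4]
  congr 1
  · congr 1
    rw [hX1, hX2]
    unfold Mn
    rw [Fintype.sum_prod_type, ← sum_add_distrib]
    apply sum_congr rfl; intro i _
    rw [← sum_add_distrib]
    apply sum_congr rfl; intro j _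
    rw [Fintype.sum_prod_type, ← sum_add_distrib]
    apply sum_congr rfl; intro k _
    rw [← sum_add_distrib]
    apply sum_congr rfl; intro l _
    simp only [Prod.fst_swap, Prod.snd_swap, hr, hs]
    ring
  · congr 1
    rw [add_comm]
    congr 1
    · rw [hY2]
      apply sum_congr rfl; intro i _
      rw [sum_comm]
      apply sum_congr rfl; intro k _
      apply sum_congr rfl; intro l _
      have : Gt (l, k) = Lt (k, l) := rfl
      rw [this]; ring
    · rw [hY1]
      have : ∀ i : α, ∑ j : α, ∑ k, Lt (i, j) * (s k i * r i k * (s k j * r j k)) =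
        ∑ k, ∑ j : α, Lt (i, j) * (s k i * r i k * (s k j * r j k)) := by
        intro i; rw [sum_comm]
      rw [sum_congr rfl (fun i _ => this i), sum_comm]

theorem Q_tens (R : Matrix α β ℤ) (S : Matrix β α ℤ) (B : Matrix γ γ ℤ) :
    Q (tens R (1 : Matrix γ γ ℤ)) (tens S B) = ((B.trace : ℤ) : ZMod 2) * Q R S +
      e2 B * (∑ i, c2 ((R * S) i i) + ∑ k, c2 ((S * R) k k)) := by
  have hM := Mn_tens R S B
  have h1 : ∑ x, c2 ((tens S B * tens R (1 : Matrix γ γ ℤ)) x x) =
      ((B.trace : ℤ) : ZMod 2) * ∑ k, c2 ((S * R) k k) + (((S * R).trace : ℤ) : ZMod 2) * ∑ a, c2 (B a a) := by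
    rw [← tens_mul, Matrix.mul_one, sum_lex]
    have : ∀ k a, c2 (tens (S * R) B (toLex (k, a)) (toLex (k, a))) =
        c2 ((S * R) k k) * ((B a a : ℤ) : ZMod 2) + (((S * R) k k : ℤ) : ZMod 2) * c2 (B a a) := by
      intro k a
      rw [tens_apply, c2_mul]
    simp only [this, sum_add_distrib, ← mul_sum, ← sum_mul]
    have h2 : ∑ a, ((B a a : ℤ) : ZMod 2) = ((B.trace : ℤ) : ZMod 2) := by
      rw [Matrix.trace, Int.cast_sum]; rfl
    have h3 : ∑ k, (((S * R) k k : ℤ) : ZMod 2) = (((S * R).trace : ℤ) : ZMod 2) := by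
      rw [Matrix.trace, Int.cast_sum]; rfl
    rw [h2, h3]; ring
  have h2 : ∑ x, ∑ y, ((tens R (1 : Matrix γ γ ℤ) x y : ℤ) : ZMod 2) * c2 (tens S B y x) =
      ((B.trace : ℤ) : ZMod 2) * (∑ i, ∑ k, ((R i k : ℤ) : ZMod 2) * c2 (S k i)) +
      (((R * S).trace : ℤ) : ZMod 2) * ∑ a, c2 (B a a) := by
    rw [sum_lex]
    have e1 : ∀ i a, ∑ y, ((tens R (1 : Matrix γ γ ℤ) (toLex (i, a)) y : ℤ) : ZMod 2) *
        c2 (tens S B y (toLex (i, a))) = ∑ k, (((R i k : ℤ) : ZMod 2) * c2 (S k i) * ((B a a : ℤ) : ZMod 2) +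
          ((R i k : ℤ) : ZMod 2) * ((S k i : ℤ) : ZMod 2) * c2 (B a a)) := by
      intro i a
      rw [sum_lex]
      apply sum_congr rfl; intro k _
      rw [sum_eq_single a]
      · rw [tens_apply, tens_apply, Matrix.one_apply_eq, mul_one, c2_mul]; ring
      · intro d _ hd
        rw [tens_apply, Matrix.one_apply_ne (Ne.symm hd)]; simp
      · intro h; exact absurd (mem_univ _) h
    simp only [e1, sum_add_distrib, ← mul_sum, ← sum_mul]
    have h2 : ∑ a, ((B a a : ℤ) : ZMod 2) = ((B.trace : ℤ) : ZMod 2) := by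
      rw [Matrix.trace, Int.cast_sum]; rfl
    have h3 : ∑ i, ∑ k, ((R i k : ℤ) : ZMod 2) * ((S k i : ℤ) : ZMod 2) = (((R * S).trace : ℤ) : ZMod 2) := by
      rw [Matrix.trace, Int.cast_sum]
      apply sum_congr rfl; intro i _
      rw [Matrix.diag_apply, Matrix.mul_apply, Int.cast_sum]
      simp only [Int.cast_mul]
    rw [h2, h3]; ring
  have h3 : (R * S).trace = (S * R).trace := Matrix.trace_mul_comm R S
  have h4 := c2_diag_sum R S
  have h5 := c2_diag_sum S R
  have h6 : ∑ i, ∑ k, c2 (R i k * S k i) = ∑ k, ∑ i, c2 (S k i * R i k) := by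
    rw [sum_comm]
    apply sum_congr rfl; intro k _
    apply sum_congr rfl; intro i _
    rw [mul_comm]
  unfold Q
  rw [hM, h1, h2, h3, h4, h5, h6]
  set z := ∑ k, ∑ i, c2 (S k i * R i k)
  linear_combination z2_add_self ((((S * R).trace : ℤ) : ZMod 2) * ∑ a, c2 (B a a)) -
    e2 B * z2_add_self z

theorem FO_empty [IsEmpty α] (N : Matrix α α ℤ) : FO N = 0 := by
  have : N = 0 := by ext i; exact isEmptyElim i
  rw [this, FO_zero]

/-- The potential of a tensor product. -/
theorem FO_tens (B : Matrix γ γ ℤ) : ∀ (n : ℕ) (N : Matrix (Fin n) (Fin n) ℤ), IsNilpotent N →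
    FO (tens N B) = ((B.trace : ℤ) : ZMod 2) * F n N + e2 B * ∑ i, c2 (N i i) := by
  intro n
  induction n with
  | zero =>
    intro N _
    have : IsEmpty (Lex (Fin 0 × γ)) := ⟨fun x => (ofLex x).1.elim0⟩
    rw [FO_empty]
    simp [F]
  | succ n ih =>
    intro N hN
    obtain ⟨p, p', hp⟩ := exists_adm N hN
    have hp1 : p * p' = 1 := hp.1
    have hp2 : p' * p = 1 := mul_eq_one_comm.mp hp1
    set M := p' * N * p with hM
    have hMn : IsNilpotent M := nil_conj hp1 hN
    set R : Matrix (Fin (n + 1)) (Fin n) ℤ := (p * M).submatrix id Fin.succ with hR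
    set S : Matrix (Fin n) (Fin (n + 1)) ℤ := p'.submatrix Fin.succ id with hS
    have hRS : R * S = N := by
      have h1 : R * S = p * M * p' := by
        ext i j
        rw [Matrix.mul_apply, Matrix.mul_apply, Fin.sum_univ_succ, mul_col0 p M hp.2, zero_mul, zero_add]
        rfl
      rw [h1, hM]
      simp only [Matrix.mul_assoc]
      rw [hp1, Matrix.mul_one, canc hp1]
    have hSR : S * R = tl M := by
      have h1 : S * R = (p' * (p * M)).submatrix Fin.succ Fin.succ := rfl
      rw [h1, canc hp2]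
      rfl
    have k1 := F_elem R S (by rw [hRS]; exact hN)
    rw [hRS, hSR] at k1
    have k2 := FO_elem (tens R (1 : Matrix γ γ ℤ)) (tens S B) (by
      rw [← tens_mul, hRS]; exact tens_nil _ hN)
    rw [← tens_mul, ← tens_mul, Matrix.one_mul, Matrix.mul_one, hRS, hSR, Q_tens, hRS, hSR,
      ih (tl M) (tl_nil hMn (fun i => hp.2 i.succ)), k1] at k2
    linear_combination (-1 : ZMod 2) * k2 - z2_add_self (e2 B * ∑ i, c2 (N i i))

/-- The potential of a tensor product in the case without short cycles. -/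
theorem FI_tens {n : ℕ} (N : Matrix (Fin n) (Fin n) ℤ) (hN : IsNilpotent N)
    (h2 : ∀ i j, N i j * N j i = 0) (B : Matrix γ γ ℤ) :
    FI (tens N B) = ((B.trace : ℤ) : ZMod 2) * F n N := by
  have h1 : FI (tens N B) = FO (tens N B) := by
    apply FI_eq_F
    · exact tens_nil _ hN
    · intro x y
      change (N (ofLex x).1 (ofLex y).1 * B (ofLex x).2 (ofLex y).2) *
        (N (ofLex y).1 (ofLex x).1 * B (ofLex y).2 (ofLex x).2) = 0
      linear_combination (B (ofLex x).2 (ofLex y).2 * B (ofLex y).2 (ofLex x).2) * h2 (ofLex x).1 (ofLex y).1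
  have h3 : ∀ i, c2 (N i i) = 0 := by
    intro i
    have : N i i = 0 := mul_self_eq_zero.mp (h2 i i)
    rw [this, c2_zero]
  rw [h1, FO_tens B n N hN]
  simp [h3]

end lexQ

end Pool.Agent.Helper817_sse
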