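import Mathlib
import Pool.Agent.Helper817_sse.FI

set_option autoImplicit false
set_option linter.unusedSectionVars false

/-!
# Additivity of the potential
-/

namespace Pool.Agent.Helper817_sse

open Matrix Finset

section dsum

variable {α β γ δ : Type*}

/-- Direct sums, indexed by lexicographic sums. -/
def dsum (A : Matrix α β ℤ) (B : Matrix γ δ ℤ) : Matrix (Lex (α ⊕ γ)) (Lex (β ⊕ δ)) ℤ :=
  (Matrix.fromBlocks A 0 0 B).submatrix ofLex ofLex

@[simp] theorem dsum_ll (A : Matrix α β ℤ) (B : Matrix γ δ ℤ) (i : α) (j : β) :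
    dsum A B (toLex (Sum.inl i)) (toLex (Sum.inl j)) = A i j := rfl
@[simp] theorem dsum_lr (A : Matrix α β ℤ) (B : Matrix γ δ ℤ) (i : α) (j : δ) :
    dsum A B (toLex (Sum.inl i)) (toLex (Sum.inr j)) = 0 := rfl
@[simp] theorem dsum_rl (A : Matrix α β ℤ) (B : Matrix γ δ ℤ) (i : γ) (j : β) :
    dsum A B (toLex (Sum.inr i)) (toLex (Sum.inl j)) = 0 := rfl
@[simp] theorem dsum_rr (A : Matrix α β ℤ) (B : Matrix γ δ ℤ) (i : γ) (j : δ) :
    dsum A B (toLex (Sum.inr i)) (toLex (Sum.inr j)) = B i j := rfl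

theorem sum_lexs {M : Type*} [AddCommMonoid M] [Fintype α] [Fintype γ] (f : Lex (α ⊕ γ) → M) :
    ∑ x, f x = ∑ i, f (toLex (Sum.inl i)) + ∑ a, f (toLex (Sum.inr a)) := by
  rw [← Equiv.sum_comp toLex, Fintype.sum_sum_type]

theorem dsum_mul {ε ζ : Type*} [Fintype β] [Fintype δ] (A : Matrix α β ℤ) (B : Matrix β ε ℤ)
    (C : Matrix γ δ ℤ) (D : Matrix δ ζ ℤ) : dsum (A * B) (C * D) = dsum A C * dsum B D := by
  ext x y
  rw [Matrix.mul_apply, sum_lexs]
  induction x using Lex.rec with | _ x => ?_
  induction y using Lex.rec with | _ y => ?_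
  rcases x with x | x <;> rcases y with y | y <;> simp [Matrix.mul_apply]

variable [LinearOrder α] [LinearOrder β] [LinearOrder γ] [LinearOrder δ]

theorem Lt_ll (i j : α) : Lt ((toLex (Sum.inl i) : Lex (α ⊕ γ)), toLex (Sum.inl j)) = Lt (i, j) := by
  unfold Lt; simp
theorem Lt_rr (i j : γ) : Lt ((toLex (Sum.inr i) : Lex (α ⊕ γ)), toLex (Sum.inr j)) = Lt (i, j) := by
  unfold Lt; simp
theorem Lt_rl (i : γ) (j : α) : Lt ((toLex (Sum.inr i) : Lex (α ⊕ γ)), toLex (Sum.inl j)) = 0 := by
  unfold Lt; simp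
theorem Gt_ll (i j : α) : Gt ((toLex (Sum.inl i) : Lex (α ⊕ γ)), toLex (Sum.inl j)) = Gt (i, j) := by
  unfold Gt; simp
theorem Gt_rr (i j : γ) : Gt ((toLex (Sum.inr i) : Lex (α ⊕ γ)), toLex (Sum.inr j)) = Gt (i, j) := by
  unfold Gt; simp
theorem Gt_lr (i : α) (j : γ) : Gt ((toLex (Sum.inl i) : Lex (α ⊕ γ)), toLex (Sum.inr j)) = 0 := by
  unfold Gt; simp

variable [Fintype α] [Fintype β] [Fintype γ] [Fintype δ]

theorem Mn_dsum (R : Matrix α β ℤ) (S : Matrix β α ℤ) (Y : Matrix γ δ ℤ) (Z : Matrix δ γ ℤ) :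
    Mn (fun (u : Lex (α ⊕ γ) × Lex (α ⊕ γ)) (w : Lex (β ⊕ δ) × Lex (β ⊕ δ)) =>
        ((dsum R Y u.1 w.1 : ℤ) : ZMod 2) * ((dsum R Y u.2 w.2 : ℤ) : ZMod 2))
      (fun (w : Lex (β ⊕ δ) × Lex (β ⊕ δ)) (u : Lex (α ⊕ γ) × Lex (α ⊕ γ)) =>
        ((dsum S Z w.1 u.1 : ℤ) : ZMod 2) * ((dsum S Z w.2 u.2 : ℤ) : ZMod 2)) =
    Mn (fun (u : α × α) (w : β × β) => ((R u.1 w.1 : ℤ) : ZMod 2) * ((R u.2 w.2 : ℤ) : ZMod 2))
      (fun (w : β × β) (u : α × α) => ((S w.1 u.1 : ℤ) : ZMod 2) * ((S w.2 u.2 : ℤ) : ZMod 2)) +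
    Mn (fun (u : γ × γ) (w : δ × δ) => ((Y u.1 w.1 : ℤ) : ZMod 2) * ((Y u.2 w.2 : ℤ) : ZMod 2))
      (fun (w : δ × δ) (u : γ × γ) => ((Z w.1 u.1 : ℤ) : ZMod 2) * ((Z w.2 u.2 : ℤ) : ZMod 2)) := by
  unfold Mn
  simp only [Fintype.sum_prod_type, sum_lexs, Prod.fst_swap, Prod.snd_swap, dsum_ll, dsum_lr,
    dsum_rl, dsum_rr, Lt_ll, Lt_rr, Lt_rl, Gt_ll, Gt_rr, Gt_lr, Int.cast_zero, mul_zero, zero_mul,
    add_zero, zero_add, sum_const_zero]

theorem Q_dsum (R : Matrix α β ℤ) (S : Matrix β α ℤ) (Y : Matrix γ δ ℤ) (Z : Matrix δ γ ℤ) :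
    Q (dsum R Y) (dsum S Z) = Q R S + Q Y Z := by
  have h1 := Mn_dsum R S Y Z
  have h2 : ∑ k, c2 ((dsum S Z * dsum R Y) k k) = ∑ k, c2 ((S * R) k k) + ∑ k, c2 ((Z * Y) k k) := by
    rw [← dsum_mul, sum_lexs]
    rfl
  have h3 : ∑ i, ∑ k, ((dsum R Y i k : ℤ) : ZMod 2) * c2 (dsum S Z k i) =
      ∑ i, ∑ k, ((R i k : ℤ) : ZMod 2) * c2 (S k i) + ∑ i, ∑ k, ((Y i k : ℤ) : ZMod 2) * c2 (Z k i) := by
    simp only [sum_lexs, dsum_ll, dsum_lr, dsum_rl, dsum_rr, Int.cast_zero, zero_mul, sum_const_zero,
      add_zero, zero_add]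
  unfold Q
  rw [h1, h2, h3]
  ring

end dsum

section FO

variable {α β : Type*} [Fintype α] [Fintype β] [LinearOrder α] [LinearOrder β]

theorem Q_right_one (N : Matrix α α ℤ) (hN : IsNilpotent N) : Q N 1 = 0 := by
  have := FO_elem N 1 (by rwa [Matrix.mul_one])
  rw [Matrix.one_mul, Matrix.mul_one] at this
  linear_combination (-1 : ZMod 2) * this

theorem FO_iso (e : α ≃o β) (N : Matrix β β ℤ) (hN : IsNilpotent N) :
    FO (N.submatrix e e) = FO N := by
  have h1 : (N.submatrix e (OrderIso.refl β)) * ((1 : Matrix β β ℤ).submatrix (OrderIso.refl β) e) =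
      N.submatrix e e := by
    have := submatrix_mul_equiv N (1 : Matrix β β ℤ) e (Equiv.refl β) e
    rw [Matrix.mul_one] at this
    exact this
  have h2 : ((1 : Matrix β β ℤ).submatrix (OrderIso.refl β) e) * (N.submatrix e (OrderIso.refl β)) = N := by
    have := submatrix_mul_equiv (1 : Matrix β β ℤ) N (Equiv.refl β) e.toEquiv (Equiv.refl β)
    rw [Matrix.one_mul] at this
    exact this
  have h3 := FO_elem (N.submatrix e (OrderIso.refl β)) ((1 : Matrix β β ℤ).submatrix (OrderIso.refl β) e)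
    (by rw [h1]; exact nil_submatrix e.toEquiv hN)
  rw [h1, h2, Q_iso, Q_right_one N hN, add_zero] at h3
  exact h3.symm

theorem dsum_nil {N : Matrix α α ℤ} {Y : Matrix β β ℤ} (hN : IsNilpotent N) (hY : IsNilpotent Y) :
    IsNilpotent (dsum N Y) := by
  obtain ⟨k, hk⟩ := hN
  obtain ⟨l, hl⟩ := hY
  have hp : ∀ t : ℕ, (dsum N Y) ^ (t + 1) = dsum (N ^ (t + 1)) (Y ^ (t + 1)) := by
    intro t
    induction t with
    | zero => simp
    | succ t ih => rw [pow_succ, ih, ← dsum_mul, ← pow_succ, ← pow_succ]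
  refine ⟨(k + l) + 1, ?_⟩
  rw [hp, pow_add, pow_add, hk, Matrix.zero_mul, Matrix.zero_mul,
    show Y ^ (k + l + 1) = Y ^ k * Y ^ l * Y by rw [pow_succ, pow_add], hl, Matrix.mul_zero, Matrix.zero_mul]
  ext x y
  change (Matrix.fromBlocks 0 0 0 0 : Matrix (α ⊕ β) (α ⊕ β) ℤ) _ _ = 0
  rw [Matrix.fromBlocks_zero]; rfl

theorem FO_dsum (Y : Matrix β β ℤ) (hY : IsNilpotent Y) : ∀ (n : ℕ) (N : Matrix (Fin n) (Fin n) ℤ),
    IsNilpotent N → FO (dsum N Y) = F n N + FO Y := by
  intro n
  induction n with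
  | zero =>
    intro N _
    have hR : (0 : Matrix (Lex (Fin 0 ⊕ β)) (Lex (Fin 0 ⊕ β)) ℤ) = 0 := rfl
    let e : Lex (Fin 0 ⊕ β) ≃o β :=
      { toFun := fun x => Sum.elim (fun i => i.elim0) id (ofLex x)
        invFun := fun b => toLex (Sum.inr b)
        left_inv := by
          intro x
          induction x using Lex.rec with | _ x => ?_
          rcases x with x | x
          · exact x.elim0
          · rfl
        right_inv := fun b => rfl
        map_rel_iff' := by
          intro x y
          induction x using Lex.rec with | _ x => ?_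
          induction y using Lex.rec with | _ y => ?_
          rcases x with x | x
          · exact x.elim0
          rcases y with y | y
          · exact y.elim0
          change x ≤ y ↔ _
          simp }
    have h1 : dsum N Y = Y.submatrix e e := by
      ext x y
      induction x using Lex.rec with | _ x => ?_
      induction y using Lex.rec with | _ y => ?_
      rcases x with x | x
      · exact x.elim0
      rcases y with y | y
      · exact y.elim0
      rfl
    rw [h1, FO_iso e Y hY]
    simp [F]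
  | succ n ih =>
    intro N hN
    obtain ⟨p, p', hp⟩ := exists_adm N hN
    have hp1 : p * p' = 1 := hp.1
    have hp2 : p' * p = 1 := mul_eq_one_comm.mp hp1
    set M := p' * N * p with hM
    have hMn : IsNilpotent M := nil_conj hp1 hN
    set R : Matrix (Fin (n + 1)) (Fin n) ℤ := (p * M).submatrix id Fin.succ with hR
    set S : Matrix (Fin n) (Fin (n + 1)) ℤ := p'.submatrix Fin.succ id with hS
    have hRS : R * S = N := by
      have h1 : R * S = p * M * p' := by
        ext i j
        rw [Matrix.mul_apply, Matrix.mul_apply, Fin.sum_univ_succ, mul_col0 p M hp.2, zero_mul, zero_add]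
        rfl
      rw [h1, hM]
      simp only [Matrix.mul_assoc]
      rw [hp1, Matrix.mul_one, canc hp1]
    have hSR : S * R = tl M := by
      have h1 : S * R = (p' * (p * M)).submatrix Fin.succ Fin.succ := rfl
      rw [h1, canc hp2]
      rfl
    have k1 := F_elem R S (by rw [hRS]; exact hN)
    rw [hRS, hSR] at k1
    have k2 := FO_elem (dsum R Y) (dsum S (1 : Matrix β β ℤ)) (by
      rw [← dsum_mul, hRS, Matrix.mul_one]; exact dsum_nil hN hY)
    rw [← dsum_mul, ← dsum_mul, Matrix.one_mul, Matrix.mul_one, hRS, hSR, Q_dsum, Q_right_one Y hY,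
      ih (tl M) (tl_nil hMn (fun i => hp.2 i.succ)), k1] at k2
    linear_combination (-1 : ZMod 2) * k2

end FO

section FI

variable {α β γ : Type*} [Fintype α] [Fintype β] [Fintype γ] [DecidableEq α] [DecidableEq β]
  [DecidableEq γ]

theorem FI_equiv (e : α ≃ β) (N : Matrix β β ℤ) (hN : IsNilpotent N) (h : ∀ i j, N i j * N j i = 0) :
    FI (N.submatrix e e) = FI N := by
  have := FI_eq_F (a := Fintype.card α) ((Fintype.equivFin α).symm.trans e) N hN h
  rw [this]
  rfl

/-- Additivity for block diagonal matrices. -/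
theorem FI_blocks (M : Matrix α α ℤ) (Y : Matrix β β ℤ) (hM : IsNilpotent M) (hY : IsNilpotent Y)
    (h1 : ∀ i j, M i j * M j i = 0) (h2 : ∀ i j, Y i j * Y j i = 0) :
    FI (Matrix.fromBlocks M 0 0 Y) = FI M + FI Y := by
  set a := Fintype.card α
  set b := Fintype.card β
  set e : Fin a ≃ α := (Fintype.equivFin α).symm
  set f : Fin b ≃ β := (Fintype.equivFin β).symm
  set M' := M.submatrix e e
  set Y' := Y.submatrix f f
  have hM' : IsNilpotent M' := nil_submatrix e hM
  have hY' : IsNilpotent Y' := nil_submatrix f hY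
  have k1 := FO_dsum Y' hY' a M' hM'
  have k2 : FO Y' = F b Y' :=
    F_order (Equiv.refl _) _ Y' hY' (fun i j => h2 _ _)
  set o : Fin (Fintype.card (Lex (Fin a ⊕ Fin b))) ≃ Lex (Fin a ⊕ Fin b) :=
    (Fintype.orderIsoFinOfCardEq _ rfl).toEquiv
  set t : Lex (Fin a ⊕ Fin b) ≃ α ⊕ β := ofLex.trans (Equiv.sumCongr e f)
  have k3 : dsum M' Y' = (Matrix.fromBlocks M 0 0 Y).submatrix t t := by
    ext x y
    induction x using Lex.rec with | _ x => ?_
    induction y using Lex.rec with | _ y => ?_
    rcases x with x | x <;> rcases y with y | y <;> rfl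
  have hs : ∀ i j, (Matrix.fromBlocks M 0 0 Y) i j * (Matrix.fromBlocks M 0 0 Y) j i = 0 := by
    intro i j
    rcases i with i | i <;> rcases j with j | j <;> simp [h1, h2]
  have hn : IsNilpotent (Matrix.fromBlocks M 0 0 Y) := by
    have h3 : Matrix.fromBlocks M 0 0 Y = (dsum M' Y').submatrix t.symm t.symm := by
      rw [k3]
      ext i j
      simp
    rw [h3]
    exact nil_submatrix t.symm (dsum_nil hM' hY')
  have k4 : FO (dsum M' Y') = FI (Matrix.fromBlocks M 0 0 Y) := by
    rw [FI_eq_F (o.trans t) _ hn hs, k3]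
    rfl
  rw [← k4, k1, k2]
  rfl

/-- Extension by zero along an injection. -/
theorem FI_incl (ι : β → α) (hι : Function.Injective ι) (M : Matrix α α ℤ) (T : Matrix β β ℤ)
    (hMT : ∀ k l, M (ι k) (ι l) = T k l) (h0 : ∀ x y, (∀ k, x ≠ ι k) → M x y = 0)
    (hM : IsNilpotent M) (h1 : ∀ i j, M i j * M j i = 0) : FI T = FI M := by
  set R : Matrix α β ℤ := Matrix.of fun x k => if x = ι k then 1 else 0 with hR
  set S : Matrix β α ℤ := M.submatrix ι id with hS
  have e1 : R * S = M := by
    ext x y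
    rw [Matrix.mul_apply]
    by_cases h : ∃ k, x = ι k
    · obtain ⟨k, rfl⟩ := h
      rw [sum_eq_single k]
      · simp [hR, hS]
      · intro l _ hl
        simp only [hR, Matrix.of_apply]
        rw [if_neg, zero_mul]
        intro h; exact hl (hι h).symm
      · intro h; exact absurd (mem_univ _) h
    · have h' : ∀ k, x ≠ ι k := fun k hk => h ⟨k, hk⟩
      rw [h0 x y h']
      apply sum_eq_zero; intro k _
      simp only [hR, Matrix.of_apply, if_neg (h' k), zero_mul]
  have e2 : S * R = T := by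
    ext k l
    rw [Matrix.mul_apply, sum_eq_single (ι l)]
    · simp [hR, hS, hMT]
    · intro y _ hy
      simp only [hR, Matrix.of_apply, if_neg hy, mul_zero]
    · intro h; exact absurd (mem_univ _) h
  have := FI_V R S (by rw [e1]; exact hM) ?_
  · rwa [e1, e2] at this
  · intro i j k l
    simp only [hR, hS, Matrix.of_apply, Matrix.submatrix_apply, id]
    by_cases ha : i = ι k
    · by_cases hb : j = ι l
      · subst ha; subst hb
        have := h1 (ι k) (ι l)
        simp [this]
      · simp [hb]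
    · simp [ha]

/-- Additivity for matrices with disjoint supports. -/
theorem FI_disj (s : α → Prop) (M Y : Matrix α α ℤ)
    (hM : ∀ x y, M x y ≠ 0 → s x ∧ s y) (hY : ∀ x y, Y x y ≠ 0 → ¬ s x ∧ ¬ s y)
    (nM : IsNilpotent M) (nY : IsNilpotent Y)
    (h1 : ∀ i j, M i j * M j i = 0) (h2 : ∀ i j, Y i j * Y j i = 0) :
    FI (M + Y) = FI M + FI Y := by
  classical
  rw [← FI_blocks M Y nM nY h1 h2]
  set R : Matrix α (α ⊕ α) ℤ := Matrix.fromCols
    (Matrix.diagonal (fun x => if s x then (1 : ℤ) else 0))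
    (Matrix.diagonal (fun x => if s x then (0 : ℤ) else 1)) with hR
  set S : Matrix (α ⊕ α) α ℤ := Matrix.fromRows M Y with hS
  have hM0 : ∀ x y, ¬ s x → M x y = 0 := by
    intro x y h; by_contra h'; exact h (hM x y h').1
  have hM0' : ∀ x y, ¬ s y → M x y = 0 := by
    intro x y h; by_contra h'; exact h (hM x y h').2
  have hY0 : ∀ x y, s x → Y x y = 0 := by
    intro x y h; by_contra h'; exact (hY x y h').1 h
  have hY0' : ∀ x y, s y → Y x y = 0 := by
    intro x y h; by_contra h'; exact (hY x y h').2 h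
  have e1 : R * S = M + Y := by
    rw [hR, hS, Matrix.fromCols_mul_fromRows]
    ext x y
    rw [Matrix.add_apply, Matrix.diagonal_mul, Matrix.diagonal_mul, Matrix.add_apply]
    by_cases h : s x
    · simp [h, hY0 x y h]
    · simp [h, hM0 x y h]
  have e2 : S * R = Matrix.fromBlocks M 0 0 Y := by
    rw [hR, hS, Matrix.fromRows_mul_fromCols]
    congr 1
    · ext x y
      rw [Matrix.mul_diagonal]
      by_cases h : s y
      · simp [h]
      · simp [h, hM0' x y h]
    · ext x y
      rw [Matrix.mul_diagonal]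
      by_cases h : s y
      · simp [h]
      · simp [h, hM0' x y h]
    · ext x y
      rw [Matrix.mul_diagonal]
      by_cases h : s y
      · simp [h, hY0' x y h]
      · simp [h]
    · ext x y
      rw [Matrix.mul_diagonal]
      by_cases h : s y
      · simp [h, hY0' x y h]
      · simp [h]
  have hn : IsNilpotent (R * S) := by
    have hMY : M * Y = 0 := by
      ext x y
      rw [Matrix.mul_apply]
      apply sum_eq_zero; intro z _
      by_cases h : s z
      · rw [hY0 z y h, mul_zero]
      · rw [hM0' x z h, zero_mul]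
    have hYM : Y * M = 0 := by
      ext x y
      rw [Matrix.mul_apply]
      apply sum_eq_zero; intro z _
      by_cases h : s z
      · rw [hY0' x z h, zero_mul]
      · rw [hM0 z y h, mul_zero]
    rw [e1]
    exact Commute.isNilpotent_add (by rw [Commute, SemiconjBy, hMY, hYM]) nM nY
  have hV := FI_V R S hn ?_
  · rw [e1, e2] at hV
    exact hV.symm
  · intro i j k l
    rcases k with k | k <;> rcases l with l | l <;>
      simp only [hR, hS, Matrix.fromCols_apply_inl, Matrix.fromCols_apply_inr,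
        Matrix.fromRows_apply_inl, Matrix.fromRows_apply_inr, Matrix.diagonal_apply]
    · by_cases a : i = k
      · by_cases b : j = l
        · subst a; subst b
          have := h1 i j
          by_cases c : s i
          · by_cases d : s j
            · simpa [c, d] using this
            · simp [d]
          · simp [c]
        · simp [b]
      · simp [a]
    · by_cases a : i = k
      · by_cases b : j = l
        · subst a; subst b
          by_cases c : s j
          · simp [c]
          · simp [hM0' i j c]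
        · simp [b]
      · simp [a]
    · by_cases a : i = k
      · by_cases b : j = l
        · subst a; subst b
          by_cases c : s i
          · simp [c]
          · simp [hM0' j i c]
        · simp [b]
      · simp [a]
    · by_cases a : i = k
      · by_cases b : j = l
        · subst a; subst b
          have := h2 i j
          by_cases c : s i
          · simp [c]
          · by_cases d : s j
            · simp [d]
            · simp [c, d, this]
        · simp [b]
      · simp [a]

/-- The potential of a Kronecker product. -/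
theorem FI_kron (N : Matrix α α ℤ) (hN : IsNilpotent N) (h : ∀ i j, N i j * N j i = 0)
    (B : Matrix γ γ ℤ) : FI (Matrix.of fun (x y : α × γ) => N x.1 y.1 * B x.2 y.2) =
      ((B.trace : ℤ) : ZMod 2) * FI N := by
  set a := Fintype.card α
  set c := Fintype.card γ
  set e : Fin a ≃ α := (Fintype.equivFin α).symm with he
  set f : Fin c ≃ γ := (Fintype.equivFin γ).symm
  set N' := N.submatrix e e with hN'
  set B' := B.submatrix f f
  have nN' : IsNilpotent N' := nil_submatrix e hN
  have k1 := FI_tens N' nN' (fun i j => h _ _) B'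
  have k2 : B'.trace = B.trace := by
    rw [Matrix.trace, Matrix.trace, ← Equiv.sum_comp f]
    rfl
  rw [k2] at k1
  set t : Lex (Fin a × Fin c) ≃ α × γ := ofLex.trans (Equiv.prodCongr e f)
  set K : Matrix (α × γ) (α × γ) ℤ := Matrix.of fun (x y : α × γ) => N x.1 y.1 * B x.2 y.2
  have k3 : tens N' B' = K.submatrix t t := rfl
  have hs : ∀ i j, K i j * K j i = 0 := by
    intro i j
    change (N i.1 j.1 * B i.2 j.2) * (N j.1 i.1 * B j.2 i.2) = 0
    linear_combination (B i.2 j.2 * B j.2 i.2) * h i.1 j.1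
  have hn : IsNilpotent K := by
    have h3 : K = (tens N' B').submatrix t.symm t.symm := by
      rw [k3]
      ext i j
      simp
    rw [h3]
    exact nil_submatrix t.symm (tens_nil _ nN')
  rw [k3, FI_equiv t K hn hs] at k1
  rw [k1]
  rfl

end FI

end Pool.Agent.Helper817_sse
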