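import Mathlib
import Pool.Agent.Helper817_sse.Add

set_option autoImplicit false
set_option linter.unusedSectionVars false

/-!
# The potential of block triangular matrices
-/

namespace Pool.Agent.Helper817_sse

open Matrix Finset

section rank

variable {α β : Type*} [Fintype α] [Fintype β] [DecidableEq α] [DecidableEq β]

theorem pow_rank {A : Type*} [Ring A] (r : α → ℕ) (M : Matrix α α A)
    (h : ∀ x y, M x y ≠ 0 → r x < r y) :
    ∀ (k : ℕ) (x y : α), (M ^ k) x y ≠ 0 → r x + k ≤ r y := by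
  intro k
  induction k with
  | zero =>
    intro x y hxy
    by_contra h'
    apply hxy
    rw [pow_zero, Matrix.one_apply_ne]
    rintro rfl
    exact h' (by omega)
  | succ k ih =>
    intro x y hxy
    rw [pow_succ, Matrix.mul_apply] at hxy
    obtain ⟨z, _, hz⟩ := exists_ne_zero_of_sum_ne_zero hxy
    have a1 := ih x z (fun h0 => hz (by rw [h0, zero_mul]))
    have a2 := h z y (fun h0 => hz (by rw [h0, mul_zero]))
    omega

theorem nil_rank {A : Type*} [Ring A] (r : α → ℕ) (M : Matrix α α A)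
    (h : ∀ x y, M x y ≠ 0 → r x < r y) : IsNilpotent M := by
  refine ⟨univ.sup r + 1, ?_⟩
  ext1 x y
  by_contra h'
  have h1 := pow_rank r M h _ x y h'
  have h2 := Finset.le_sup (f := r) (mem_univ y)
  omega

theorem FI_rank_aux (r : α → ℕ) (m : ℕ) (hm : ∀ x, r x < m) :
    ∀ (d k : ℕ), k + d = m → ∀ (T : Matrix α α ℤ), (∀ x y, T x y ≠ 0 → r x < r y) →
      (∀ x y, T x y ≠ 0 → k ≤ r x) → FI T = 0 := by
  intro d
  induction d with
  | zero =>
    intro k hk T _ h2
    have : T = 0 := by
      ext1 x y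
      by_contra h
      have := h2 x y h
      have := hm x
      omega
    rw [this, FI_zero]
  | succ d ih =>
    intro k hk T h1 h2
    set e : Matrix α α ℤ := Matrix.diagonal (fun x => if k + 1 ≤ r x then 1 else 0) with he
    have hTe : T * e = T := by
      ext1 x y
      rw [he, Matrix.mul_diagonal]
      by_cases h : T x y = 0
      · rw [h, zero_mul]
      · have a1 := h1 x y h
        have a2 := h2 x y h
        rw [if_pos (by omega), mul_one]
    have hk1 : ∀ x y, (e * T) x y ≠ 0 → T x y ≠ 0 ∧ k + 1 ≤ r x := by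
      intro x y h
      rw [he, Matrix.diagonal_mul] at h
      refine ⟨fun h0 => h (by rw [h0, mul_zero]), ?_⟩
      by_contra h3
      exact h (by rw [if_neg h3, zero_mul])
    have s1 : FI (e * T) = FI (T * e) := by
      apply FI_V
      · rw [hTe]; exact nil_rank r T h1
      · intro i j a l
        rw [he]
        by_cases c1 : a = j
        · by_cases c2 : l = i
          · subst c1; subst c2
            by_cases c3 : T l a = 0
            · rw [c3]; ring
            · have b1 := h1 _ _ c3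
              have : T a l = 0 := by
                by_contra c4
                have := h1 _ _ c4
                omega
              rw [this]; ring
          · rw [Matrix.diagonal_apply_ne _ c2, mul_zero]
        · rw [Matrix.diagonal_apply_ne _ c1]; ring
    rw [← hTe, ← s1]
    exact ih (k + 1) (by omega) (e * T) (fun x y h => h1 x y (hk1 x y h).1)
      (fun x y h => (hk1 x y h).2)

theorem FI_rank (r : α → ℕ) (M : Matrix α α ℤ) (h : ∀ x y, M x y ≠ 0 → r x < r y) : FI M = 0 := by
  obtain ⟨m, hm⟩ : ∃ m, ∀ x, r x < m := by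
    refine ⟨univ.sup r + 1, fun x => ?_⟩
    have := Finset.le_sup (f := r) (mem_univ x)
    omega
  exact FI_rank_aux r m hm m 0 (by omega) M h (fun x y _ => Nat.zero_le _)

end rank

section tri

variable {α β : Type*} [Fintype α] [Fintype β] [DecidableEq α] [DecidableEq β]

theorem tri_pow {A : Type*} [Ring A] (M : Matrix α α A) (B : Matrix α β A) (D : Matrix β β A) (k : ℕ) :
    ∃ Y : Matrix α β A, (fromBlocks M B 0 D) ^ k = fromBlocks (M ^ k) Y 0 (D ^ k) := by
  induction k with
  | zero => exact ⟨0, by rw [pow_zero, pow_zero, pow_zero, fromBlocks_one]⟩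
  | succ k ih =>
    obtain ⟨Y, hY⟩ := ih
    refine ⟨M ^ k * B + Y * D, ?_⟩
    rw [pow_succ, hY, fromBlocks_multiply, pow_succ, pow_succ]
    simp

theorem nil_tri {A : Type*} [Ring A] {M : Matrix α α A} (B : Matrix α β A) {D : Matrix β β A}
    (hM : IsNilpotent M) (hD : IsNilpotent D) : IsNilpotent (fromBlocks M B 0 D) := by
  obtain ⟨a, ha⟩ := hM
  obtain ⟨b, hb⟩ := hD
  obtain ⟨Y, hY⟩ := tri_pow M B D (a + b)
  refine ⟨(a + b) * 2, ?_⟩
  rw [pow_mul, hY, pow_add, ha, zero_mul, pow_add D, hb, mul_zero, sq, fromBlocks_multiply]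
  simp

theorem FI_tri_step (M : Matrix α α ℤ) (B : Matrix α β ℤ) (D : Matrix β β ℤ)
    (hM : IsNilpotent M) (hD : IsNilpotent D)
    (h1 : ∀ i j, M i j * M j i = 0) (h2 : ∀ i j, D i j * D j i = 0) :
    FI (fromBlocks M B 0 D) = FI (fromBlocks M (B * D) 0 D) := by
  have e1 : fromBlocks M B 0 (1 : Matrix β β ℤ) * fromBlocks (1 : Matrix α α ℤ) 0 0 D =
      fromBlocks M (B * D) 0 D := by
    rw [fromBlocks_multiply]; simp
  have e2 : fromBlocks (1 : Matrix α α ℤ) 0 0 D * fromBlocks M B 0 (1 : Matrix β β ℤ) =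
      fromBlocks M B 0 D := by
    rw [fromBlocks_multiply]; simp
  rw [← e1, ← e2]
  apply FI_V
  · rw [e1]; exact nil_tri _ hM hD
  · intro i j k l
    rcases k with k | k <;> rcases j with j | j <;> rcases l with l | l <;> rcases i with i | i <;>
      simp only [fromBlocks_apply₁₁, fromBlocks_apply₁₂, fromBlocks_apply₂₁, fromBlocks_apply₂₂,
        Matrix.zero_apply, mul_zero, zero_mul]
    · by_cases c1 : k = j
      · by_cases c2 : l = i
        · subst c1; subst c2
          rw [Matrix.one_apply_eq, Matrix.one_apply_eq, mul_one, mul_one, h1]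
        · rw [Matrix.one_apply_ne c2, mul_zero]
      · rw [Matrix.one_apply_ne c1]; ring
    · by_cases c1 : i = k
      · by_cases c2 : j = l
        · subst c1; subst c2
          rw [Matrix.one_apply_eq, Matrix.one_apply_eq, mul_one, one_mul, h2]
        · rw [Matrix.one_apply_ne c2]; ring
      · rw [Matrix.one_apply_ne c1]; ring

theorem FI_tri (M : Matrix α α ℤ) (B : Matrix α β ℤ) (D : Matrix β β ℤ)
    (hM : IsNilpotent M) (hD : IsNilpotent D)
    (h1 : ∀ i j, M i j * M j i = 0) (h2 : ∀ i j, D i j * D j i = 0) :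
    FI (fromBlocks M B 0 D) = FI M + FI D := by
  have h3 : ∀ k : ℕ, FI (fromBlocks M B 0 D) = FI (fromBlocks M (B * D ^ k) 0 D) := by
    intro k
    induction k with
    | zero => rw [pow_zero, Matrix.mul_one]
    | succ k ih => rw [ih, FI_tri_step M _ D hM hD h1 h2, pow_succ, Matrix.mul_assoc]
  obtain ⟨k, hk⟩ := hD
  rw [h3 k, hk, Matrix.mul_zero]
  exact FI_blocks M D hM ⟨k, hk⟩ h1 h2

end tri

section two

variable {α β γ : Type*} [Fintype α] [Fintype β] [Fintype γ] [DecidableEq α] [DecidableEq β]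
  [DecidableEq γ]

/-- Additivity of the potential for a block triangular matrix, indexed by injections. -/
theorem FI_two (f : β → α) (g : γ → α) (hf : Function.Injective f) (hg : Function.Injective g)
    (hd : ∀ x y, f x ≠ g y) (hc : ∀ z, (∃ x, f x = z) ∨ ∃ y, g y = z)
    (M : Matrix α α ℤ) (h21 : ∀ x y, M (g y) (f x) = 0)
    (n1 : IsNilpotent (M.submatrix f f)) (n2 : IsNilpotent (M.submatrix g g))
    (h : ∀ i j, M i j * M j i = 0) :
    IsNilpotent M ∧ FI M = FI (M.submatrix f f) + FI (M.submatrix g g) := by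
  have hb : Function.Bijective (Sum.elim f g) := by
    constructor
    · intro x y hxy
      rcases x with x | x <;> rcases y with y | y <;> simp only [Sum.elim_inl, Sum.elim_inr] at hxy
      · rw [hf hxy]
      · exact absurd hxy (hd _ _)
      · exact absurd hxy.symm (hd _ _)
      · rw [hg hxy]
    · intro z
      rcases hc z with ⟨x, hx⟩ | ⟨y, hy⟩
      · exact ⟨Sum.inl x, hx⟩
      · exact ⟨Sum.inr y, hy⟩
  set e : β ⊕ γ ≃ α := Equiv.ofBijective _ hb
  have e1 : M.submatrix e e = fromBlocks (M.submatrix f f) (M.submatrix f g) 0 (M.submatrix g g) := by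
    ext i j
    rcases i with i | i <;> rcases j with j | j
    · rfl
    · rfl
    · exact h21 _ _
    · rfl
  have n3 : IsNilpotent (M.submatrix e e) := by
    rw [e1]; exact nil_tri _ n1 n2
  have n4 : IsNilpotent M := by
    have := nil_submatrix e.symm n3
    rw [submatrix_submatrix, Equiv.self_comp_symm, submatrix_id_id] at this
    exact this
  refine ⟨n4, ?_⟩
  rw [← FI_equiv e M n4 h, e1]
  exact FI_tri _ _ _ n1 n2 (fun _ _ => h _ _) (fun _ _ => h _ _)

end two

section graded

variable {Γ : Type*} {T : ℕ}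

/-- A relation describing the possible walks between vertices, with lengths. -/
def KA (K : Γ → Γ → ℕ → Prop) : Prop :=
  (∀ a, K a a 0) ∧ (∀ a b c m n, K a b m → K b c n → K a c (m + n)) ∧ ∀ a, ¬ K a a 2

/-- The entries of the matrix respect the relation. -/
def WP (K : Γ → Γ → ℕ → Prop) (τ : ℕ) (M : Matrix (Γ × Fin T) (Γ × Fin T) ℤ) : Prop :=
  ∀ x y, M x y ≠ 0 → ∃ l, K x.1 y.1 l ∧ x.2.val + τ = y.2.val + l

variable {K : Γ → Γ → ℕ → Prop}

theorem WP_add {τ : ℕ} {M N : Matrix (Γ × Fin T) (Γ × Fin T) ℤ} (hM : WP K τ M) (hN : WP K τ N) :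
    WP K τ (M + N) := by
  intro x y h
  by_cases h1 : M x y = 0
  · apply hN
    intro h2
    apply h
    rw [Matrix.add_apply, h1, h2, add_zero]
  · exact hM x y h1

theorem WP_zero (τ : ℕ) : WP K τ (0 : Matrix (Γ × Fin T) (Γ × Fin T) ℤ) :=
  fun _ _ h => absurd rfl h

theorem WP_sum {ι : Type*} (s : Finset ι) {τ : ℕ} (f : ι → Matrix (Γ × Fin T) (Γ × Fin T) ℤ)
    (h : ∀ i ∈ s, WP K τ (f i)) : WP K τ (∑ i ∈ s, f i) := by
  classical
  induction s using Finset.induction_on with
  | empty => rw [sum_empty]; exact WP_zero τ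
  | insert a s ha ih =>
    rw [sum_insert ha]
    exact WP_add (h a (mem_insert_self _ _)) (ih (fun i hi => h i (mem_insert_of_mem hi)))

variable [Fintype Γ] [DecidableEq Γ]

theorem WP_mul (hK : KA K) {σ τ : ℕ} {M N : Matrix (Γ × Fin T) (Γ × Fin T) ℤ}
    (hM : WP K σ M) (hN : WP K τ N) : WP K (σ + τ) (M * N) := by
  intro x y h
  rw [Matrix.mul_apply] at h
  obtain ⟨z, _, hz⟩ := exists_ne_zero_of_sum_ne_zero h
  obtain ⟨l1, k1, e1⟩ := hM x z (left_ne_zero_of_mul hz)
  obtain ⟨l2, k2, e2⟩ := hN z y (right_ne_zero_of_mul hz)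
  exact ⟨l1 + l2, hK.2.1 _ _ _ _ _ k1 k2, by omega⟩

theorem WP_one (hK : KA K) : WP K 0 (1 : Matrix (Γ × Fin T) (Γ × Fin T) ℤ) := by
  intro x y h
  by_cases hxy : x = y
  · subst hxy
    exact ⟨0, hK.1 _, by omega⟩
  · exact absurd (Matrix.one_apply_ne hxy) h

theorem WP_pow (hK : KA K) {M : Matrix (Γ × Fin T) (Γ × Fin T) ℤ} (hM : WP K 0 M) (k : ℕ) :
    WP K 0 (M ^ k) := by
  induction k with
  | zero => rw [pow_zero]; exact WP_one hK
  | succ k ih => rw [pow_succ]; exact WP_mul hK ih hM

/-- No cycles of length one and two. -/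
theorem WP_short (hK : KA K) {M : Matrix (Γ × Fin T) (Γ × Fin T) ℤ} (hM : WP K 1 M) :
    ∀ i j, M i j * M j i = 0 := by
  intro i j
  by_contra h
  obtain ⟨l1, k1, e1⟩ := hM i j (left_ne_zero_of_mul h)
  obtain ⟨l2, k2, e2⟩ := hM j i (right_ne_zero_of_mul h)
  have := hK.2.1 _ _ _ _ _ k1 k2
  have h3 : l1 + l2 = 2 := by omega
  rw [h3] at this
  exact hK.2.2 _ this

theorem FI_graded (hK : KA K) {U U' M M' : Matrix (Γ × Fin T) (Γ × Fin T) ℤ} (h1 : U * U' = 1)
    (hU : WP K 0 U) (hU' : WP K 0 U') (hM : WP K 1 M) (h2 : M * U = U * M') (hn : IsNilpotent M) :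
    FI M' = FI M := by
  have h1' : U' * U = 1 := mul_eq_one_comm.mp h1
  have e1 : U * (U' * M) = M := by rw [← Matrix.mul_assoc, h1, Matrix.one_mul]
  have e2 : (U' * M) * U = M' := by
    rw [Matrix.mul_assoc, h2, ← Matrix.mul_assoc, h1', Matrix.one_mul]
  have := FI_V U (U' * M) (by rw [e1]; exact hn) ?_
  · rwa [e1, e2] at this
  · intro i j k l
    by_contra h
    have hS : WP K 1 (U' * M) := by
      have := WP_mul hK hU' hM
      rwa [zero_add] at this
    have n1 : U i k ≠ 0 := by intro h0; apply h; rw [h0]; ring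
    have n2 : (U' * M) k j ≠ 0 := by intro h0; apply h; rw [h0]; ring
    have n3 : U j l ≠ 0 := by intro h0; apply h; rw [h0]; ring
    have n4 : (U' * M) l i ≠ 0 := by intro h0; apply h; rw [h0]; ring
    obtain ⟨l1, k1, a1⟩ := hU i k n1
    obtain ⟨l2, k2, a2⟩ := hS k j n2
    obtain ⟨l3, k3, a3⟩ := hU j l n3
    obtain ⟨l4, k4, a4⟩ := hS l i n4
    have := hK.2.1 _ _ _ _ _ (hK.2.1 _ _ _ _ _ (hK.2.1 _ _ _ _ _ k1 k2) k3) k4
    have h3 : l1 + l2 + l3 + l4 = 2 := by omega
    rw [h3] at this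
    exact hK.2.2 _ this

end graded

end Pool.Agent.Helper817_sse
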