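import Mathlib
import Pool.Agent.Helper817_sse.Tri

set_option autoImplicit false
set_option linter.unusedSectionVars false

/-!
# Companion matrices of matrix polynomials and the multiplicativity of the potential

A sequence `P : ℕ → Matrix Γ Γ ℤ` stands for the matrix polynomial `1 - ∑ P i t ^ (i + 1)`.
-/

namespace Pool.Agent.Helper817_sse

open Matrix Finset

section defs

variable {Γ : Type*} [Fintype Γ] [DecidableEq Γ]

/-- The companion matrix. -/
def Cm (T : ℕ) (P : ℕ → Matrix Γ Γ ℤ) : Matrix (Γ × Fin T) (Γ × Fin T) ℤ :=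
  Matrix.of fun x y => (if y.1 = x.1 ∧ y.2.val = x.2.val + 1 then 1 else 0) +
    (if y.2.val = 0 then P x.2.val x.1 y.1 else 0)

/-- The matrix describing a product. -/
def Mh (T2 T : ℕ) (P Z : ℕ → Matrix Γ Γ ℤ) : Matrix (Γ × Fin T) (Γ × Fin T) ℤ :=
  Matrix.of fun x y => (if y.1 = x.1 ∧ y.2.val = x.2.val + 1 then 1 else 0) +
    (if x.2.val < T2 then (if y.2.val = 0 then Z x.2.val x.1 y.1 else 0)
      else (if y.2.val = T2 then P (x.2.val - T2) x.1 y.1 else 0))

/-- The nilpotent part of the change of basis. -/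
def Nh (T2 T : ℕ) (P : ℕ → Matrix Γ Γ ℤ) : Matrix (Γ × Fin T) (Γ × Fin T) ℤ :=
  Matrix.of fun x y => if y.2.val < T2 ∧ y.2.val < x.2.val then P (x.2.val - y.2.val - 1) x.1 y.1 else 0

/-- The coefficients of a product. -/
def mulc (P Z : ℕ → Matrix Γ Γ ℤ) : ℕ → Matrix Γ Γ ℤ :=
  fun n => P n + Z n - ∑ j ∈ range n, P (n - 1 - j) * Z j

/-- Extension by zero of a vector. -/
def ex (T : ℕ) (φ : Γ × Fin T → ℤ) : ℕ → Γ → ℤ :=
  fun i a => if h : i < T then φ (a, ⟨i, h⟩) else 0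

variable {T T1 T2 : ℕ}

theorem sum_fin_eq (T n : ℕ) (f : Fin T → ℤ) :
    (∑ j : Fin T, if j.val = n then f j else 0) = if h : n < T then f ⟨n, h⟩ else 0 := by
  split_ifs with h
  · rw [sum_eq_single ⟨n, h⟩]
    · simp
    · intro b _ hb
      rw [if_neg (fun h' => hb (Fin.ext h'))]
    · intro h; exact absurd (mem_univ _) h
  · apply sum_eq_zero; intro j _
    rw [if_neg]
    rintro rfl
    exact h j.isLt

theorem ex_val (φ : Γ × Fin T → ℤ) (x : Γ × Fin T) : ex T φ x.2.val x.1 = φ x := by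
  unfold ex
  rw [dif_pos x.2.isLt]

theorem ex_of_le (φ : Γ × Fin T → ℤ) {i : ℕ} (h : T ≤ i) : ex T φ i = 0 := by
  funext a
  unfold ex
  rw [dif_neg (by omega)]; rfl

theorem sum_shift (φ : Γ × Fin T → ℤ) (a : Γ) (n : ℕ) :
    ∑ y : Γ × Fin T, (if y.1 = a ∧ y.2.val = n then (1 : ℤ) else 0) * φ y = ex T φ n a := by
  rw [Fintype.sum_prod_type, sum_eq_single a]
  · have := sum_fin_eq T n (fun j => φ (a, j))
    unfold ex
    rw [← this]
    apply sum_congr rfl; intro j _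
    by_cases h : j.val = n <;> simp [h]
  · intro b _ hb
    apply sum_eq_zero; intro j _
    simp [hb]
  · intro h; exact absurd (mem_univ _) h

theorem sum_exit (φ : Γ × Fin T → ℤ) (q : Γ → ℤ) (n : ℕ) :
    ∑ y : Γ × Fin T, (if y.2.val = n then q y.1 else 0) * φ y = ∑ b, q b * ex T φ n b := by
  rw [Fintype.sum_prod_type]
  apply sum_congr rfl; intro b _
  have := sum_fin_eq T n (fun j => q b * φ (b, j))
  unfold ex
  rw [mul_dite, mul_zero, ← this]
  apply sum_congr rfl; intro j _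
  by_cases h : j.val = n <;> simp [h]

theorem Cm_vec (P : ℕ → Matrix Γ Γ ℤ) (hP : ∀ i, T ≤ i → P i = 0) (φ : Γ × Fin T → ℤ) (i : ℕ) :
    ex T (Cm T P *ᵥ φ) i = ex T φ (i + 1) + P i *ᵥ (ex T φ 0) := by
  by_cases hi : i < T
  · funext a
    conv_lhs => unfold ex
    rw [dif_pos hi]
    change ∑ y, Cm T P (a, ⟨i, hi⟩) y * φ y = _
    simp only [Cm, Matrix.of_apply, add_mul, sum_add_distrib]
    rw [sum_shift, sum_exit φ (fun b => P i a b) 0]
    rfl
  · rw [ex_of_le _ (not_lt.mp hi), ex_of_le _ (by omega), hP i (not_lt.mp hi), Matrix.zero_mulVec,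
      add_zero]

theorem Mh_vec (P Z : ℕ → Matrix Γ Γ ℤ) (hT : T = T2 + T1) (hP : ∀ i, T1 ≤ i → P i = 0)
    (φ : Γ × Fin T → ℤ) (i : ℕ) :
    ex T (Mh T2 T P Z *ᵥ φ) i = ex T φ (i + 1) +
      (if i < T2 then Z i *ᵥ (ex T φ 0) else P (i - T2) *ᵥ (ex T φ T2)) := by
  by_cases hi : i < T
  · funext a
    conv_lhs => unfold ex
    rw [dif_pos hi]
    change ∑ y, Mh T2 T P Z (a, ⟨i, hi⟩) y * φ y = _
    simp only [Mh, Matrix.of_apply, add_mul, sum_add_distrib]
    rw [sum_shift]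
    by_cases h : i < T2
    · simp only [h, if_true]
      rw [sum_exit φ (fun b => Z i a b) 0]
      rfl
    · simp only [h, if_false]
      rw [sum_exit φ (fun b => P (i - T2) a b) T2]
      rfl
  · rw [ex_of_le _ (not_lt.mp hi), ex_of_le _ (by omega), if_neg (by omega),
      hP (i - T2) (by omega), Matrix.zero_mulVec, add_zero]

theorem Nh_vec (P : ℕ → Matrix Γ Γ ℤ) (hT : T = T2 + T1) (hP : ∀ i, T1 ≤ i → P i = 0)
    (φ : Γ × Fin T → ℤ) (i : ℕ) :
    ex T (Nh T2 T P *ᵥ φ) i = ∑ j ∈ range (min T2 i), P (i - j - 1) *ᵥ (ex T φ j) := by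
  by_cases hi : i < T
  · funext a
    conv_lhs => unfold ex
    rw [dif_pos hi]
    change ∑ y, Nh T2 T P (a, ⟨i, hi⟩) y * φ y = _
    simp only [Nh, Matrix.of_apply]
    rw [Finset.sum_apply, Fintype.sum_prod_type]
    rw [sum_comm]
    have h1 : ∀ j : Fin T, ∑ b, (if j.val < T2 ∧ j.val < i then P (i - j.val - 1) a b else 0) * φ (b, j) =
        if j.val < min T2 i then (P (i - j.val - 1) *ᵥ (ex T φ j.val)) a else 0 := by
      intro j
      have h2 : (j.val < T2 ∧ j.val < i) ↔ j.val < min T2 i := by omega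
      simp only [h2]
      split_ifs with h3
      · apply sum_congr rfl; intro b _
        rw [ex_val φ (b, j)]
      · simp
    rw [sum_congr rfl (fun j _ => h1 j),
      Fin.sum_univ_eq_sum_range (fun j => if j < min T2 i then (P (i - j - 1) *ᵥ (ex T φ j)) a else 0) T,
      ← sum_filter]
    apply sum_congr _ (fun _ _ => rfl)
    ext j
    simp only [mem_filter, mem_range]
    omega
  · rw [ex_of_le _ (not_lt.mp hi)]
    symm
    apply sum_eq_zero; intro j hj
    rw [mem_range] at hj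
    rw [hP _ (by omega), Matrix.zero_mulVec]

theorem ex_sub (φ ψ : Γ × Fin T → ℤ) (i : ℕ) : ex T (φ - ψ) i = ex T φ i - ex T ψ i := by
  funext a
  unfold ex
  by_cases h : i < T
  · simp [h]
  · simp [h]

theorem ex_inj {φ ψ : Γ × Fin T → ℤ} (h : ∀ i, ex T φ i = ex T ψ i) : φ = ψ := by
  funext x
  rw [← ex_val φ x, ← ex_val ψ x, h]

theorem mulc_supp (P Z : ℕ → Matrix Γ Γ ℤ) (hT2 : 1 ≤ T2) (hP : ∀ i, T1 ≤ i → P i = 0)
    (hZ : ∀ i, T2 ≤ i → Z i = 0) (i : ℕ) (hi : T2 + T1 ≤ i) : mulc P Z i = 0 := by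
  unfold mulc
  rw [hP i (by omega), hZ i (by omega), zero_add, zero_sub, neg_eq_zero]
  apply sum_eq_zero; intro j hj
  rw [mem_range] at hj
  by_cases h : j < T2
  · rw [hP (i - 1 - j) (by omega), zero_mul]
  · rw [hZ j (by omega), mul_zero]

/-- The intertwining relation. -/
theorem Cm_mulc (P Z : ℕ → Matrix Γ Γ ℤ) (hT : T = T2 + T1) (hT2 : 1 ≤ T2)
    (hP : ∀ i, T1 ≤ i → P i = 0) (hZ : ∀ i, T2 ≤ i → Z i = 0) :
    Cm T (mulc P Z) * (1 - Nh T2 T P) = (1 - Nh T2 T P) * Mh T2 T P Z := by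
  have key : ∀ φ : Γ × Fin T → ℤ, Cm T (mulc P Z) *ᵥ ((1 - Nh T2 T P) *ᵥ φ) =
      (1 - Nh T2 T P) *ᵥ (Mh T2 T P Z *ᵥ φ) := by
    intro φ
    apply ex_inj
    intro n
    have hm : ∀ i, T ≤ i → mulc P Z i = 0 := fun i hi => mulc_supp P Z hT2 hP hZ i (by omega)
    rw [Cm_vec _ hm, Matrix.sub_mulVec, Matrix.sub_mulVec, Matrix.one_mulVec, Matrix.one_mulVec,
      ex_sub, ex_sub, ex_sub, Nh_vec P hT hP, Nh_vec P hT hP, Nh_vec P hT hP, Mh_vec P Z hT hP]
    simp only [Mh_vec P Z hT hP, Matrix.mulVec_add]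
    set v := ex T φ with hv
    rw [Nat.min_zero, range_zero, sum_empty, sub_zero]
    have hmul : mulc P Z n *ᵥ v 0 = P n *ᵥ v 0 + Z n *ᵥ v 0 -
        ∑ j ∈ range n, P (n - 1 - j) *ᵥ (Z j *ᵥ v 0) := by
      unfold mulc
      rw [Matrix.sub_mulVec, Matrix.add_mulVec, Matrix.sum_mulVec]
      simp only [Matrix.mulVec_mulVec]
    rw [hmul]
    by_cases hn : n < T2
    · have e1 : min T2 (n + 1) = n + 1 := by omega
      have e2 : min T2 n = n := by omega
      rw [e1, e2, if_pos hn, sum_range_succ']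
      have e3 : ∑ k ∈ range n, P (n + 1 - (k + 1) - 1) *ᵥ v (k + 1) =
          ∑ k ∈ range n, P (n - k - 1) *ᵥ v (k + 1) := by
        apply sum_congr rfl; intro k _
        congr 2; omega
      have e4 : ∑ j ∈ range n, P (n - j - 1) *ᵥ (if j < T2 then Z j *ᵥ v 0 else P (j - T2) *ᵥ v T2) =
          ∑ j ∈ range n, P (n - 1 - j) *ᵥ (Z j *ᵥ v 0) := by
        apply sum_congr rfl; intro j hj
        rw [mem_range] at hj
        rw [if_pos (by omega)]
        congr 2; omega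
      rw [e3, sum_add_distrib, e4]
      have e5 : n + 1 - 0 - 1 = n := by omega
      rw [e5]
      abel
    · have e1 : min T2 (n + 1) = T2 := by omega
      have e2 : min T2 n = T2 := by omega
      rw [e1, e2, if_neg hn, hZ n (by omega), Matrix.zero_mulVec, add_zero, sum_add_distrib]
      have e3 : ∑ j ∈ range n, P (n - 1 - j) *ᵥ (Z j *ᵥ v 0) =
          ∑ j ∈ range T2, P (n - j - 1) *ᵥ (if j < T2 then Z j *ᵥ v 0 else P (j - T2) *ᵥ v T2) := by
        rw [← sum_subset (range_subset_range.mpr (not_lt.mp hn))]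
        · apply sum_congr rfl; intro j hj
          rw [mem_range] at hj
          rw [if_pos hj]
          congr 2; omega
        · intro j _ hj
          rw [mem_range] at hj
          rw [hZ j (by omega), Matrix.zero_mulVec, Matrix.mulVec_zero]
      have e4 : ∑ j ∈ range T2, P (n + 1 - j - 1) *ᵥ v j + P (n - T2) *ᵥ v T2 =
          P n *ᵥ v 0 + ∑ j ∈ range T2, P (n - j - 1) *ᵥ v (j + 1) := by
        have f1 : P (n - T2) *ᵥ v T2 = P (n + 1 - T2 - 1) *ᵥ v T2 := by
          congr 2; omega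
        rw [f1, ← sum_range_succ (fun j => P (n + 1 - j - 1) *ᵥ v j), sum_range_succ', add_comm]
        congr 1
        apply sum_congr rfl; intro k _
        congr 2; omega
      rw [e3]
      have e5 := e4
      linear_combination (exp := 1) (-1 : ℤ) • e5
  apply Matrix.ext_of_mulVec_single
  intro x
  rw [← Matrix.mulVec_mulVec, ← Matrix.mulVec_mulVec]
  exact key _

end defs

section mult

variable {Γ : Type*} [Fintype Γ] [DecidableEq Γ] {K : Γ → Γ → ℕ → Prop}

theorem Nh_nil (T2 T : ℕ) (P : ℕ → Matrix Γ Γ ℤ) : IsNilpotent (Nh T2 T P) := by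
  apply nil_rank (fun x : Γ × Fin T => T - x.2.val)
  intro x y h
  simp only [Nh, Matrix.of_apply] at h
  by_cases h1 : y.2.val < T2 ∧ y.2.val < x.2.val
  · have := x.2.isLt
    change T - x.2.val < T - y.2.val
    omega
  · rw [if_neg h1] at h; exact absurd rfl h

theorem WP_Nh (T2 T : ℕ) (P : ℕ → Matrix Γ Γ ℤ) (sP : ∀ i a b, P i a b ≠ 0 → K a b (i + 1)) :
    WP K 0 (Nh T2 T P) := by
  intro x y h
  simp only [Nh, Matrix.of_apply] at h
  by_cases h1 : y.2.val < T2 ∧ y.2.val < x.2.val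
  · rw [if_pos h1] at h
    exact ⟨_, sP _ _ _ h, by omega⟩
  · rw [if_neg h1] at h; exact absurd rfl h

theorem WP_Cm (hK : KA K) (T : ℕ) (P : ℕ → Matrix Γ Γ ℤ)
    (sP : ∀ i a b, P i a b ≠ 0 → K a b (i + 1)) : WP K 1 (Cm T P) := by
  intro x y h
  simp only [Cm, Matrix.of_apply] at h
  by_cases h1 : y.1 = x.1 ∧ y.2.val = x.2.val + 1
  · refine ⟨0, ?_, by omega⟩
    rw [h1.1]; exact hK.1 _
  · rw [if_neg h1, zero_add] at h
    by_cases h2 : y.2.val = 0
    · rw [if_pos h2] at h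
      exact ⟨_, sP _ _ _ h, by omega⟩
    · rw [if_neg h2] at h; exact absurd rfl h

theorem mulc_K (hK : KA K) (P Z : ℕ → Matrix Γ Γ ℤ) (sP : ∀ i a b, P i a b ≠ 0 → K a b (i + 1))
    (sZ : ∀ i a b, Z i a b ≠ 0 → K a b (i + 1)) :
    ∀ i a b, mulc P Z i a b ≠ 0 → K a b (i + 1) := by
  intro n a b h
  by_contra hc
  apply h
  have h1 : P n a b = 0 := by
    by_contra h1; exact hc (sP n a b h1)
  have h2 : Z n a b = 0 := by
    by_contra h2; exact hc (sZ n a b h2)
  unfold mulc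
  rw [Matrix.sub_apply, Matrix.add_apply, h1, h2, zero_add, zero_sub, neg_eq_zero, Matrix.sum_apply]
  apply sum_eq_zero; intro j hj
  rw [mem_range] at hj
  rw [Matrix.mul_apply]
  apply sum_eq_zero; intro c _
  by_contra h3
  have k1 := sP _ _ _ (left_ne_zero_of_mul h3)
  have k2 := sZ _ _ _ (right_ne_zero_of_mul h3)
  have k3 := hK.2.1 _ _ _ _ _ k1 k2
  have : n - 1 - j + 1 + (j + 1) = n + 1 := by omega
  rw [this] at k3
  exact hc k3

/-- Multiplicativity of the potential. -/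
theorem FI_mult (hK : KA K) (P Z : ℕ → Matrix Γ Γ ℤ) (T1 T2 : ℕ) (hT2 : 1 ≤ T2)
    (hP : ∀ i, T1 ≤ i → P i = 0) (hZ : ∀ i, T2 ≤ i → Z i = 0)
    (sP : ∀ i a b, P i a b ≠ 0 → K a b (i + 1)) (sZ : ∀ i a b, Z i a b ≠ 0 → K a b (i + 1))
    (nP : IsNilpotent (Cm T1 P)) (nZ : IsNilpotent (Cm T2 Z)) :
    IsNilpotent (Cm (T2 + T1) (mulc P Z)) ∧
      FI (Cm (T2 + T1) (mulc P Z)) = FI (Cm T1 P) + FI (Cm T2 Z) := by
  set T := T2 + T1 with hT
  set N := Nh T2 T P with hN
  obtain ⟨m, hm⟩ := Nh_nil T2 T P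
  set U' := ∑ i ∈ range m, N ^ i with hU'
  have h1 : (1 - N) * U' = 1 := by
    rw [hU', mul_neg_geom_sum, hN, hm, sub_zero]
  have h1' : U' * (1 - N) = 1 := mul_eq_one_comm.mp h1
  have wN : WP K 0 N := WP_Nh T2 T P sP
  have wU : WP K 0 (1 - N) := by
    rw [sub_eq_add_neg]
    apply WP_add (WP_one hK)
    intro x y h
    apply wN
    intro h0; apply h
    rw [Matrix.neg_apply, h0, neg_zero]
  have wU' : WP K 0 U' := WP_sum _ _ (fun i _ => WP_pow hK wN i)
  have hC := Cm_mulc P Z hT hT2 hP hZ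
  have hM : U' * Cm T (mulc P Z) * (1 - N) = Mh T2 T P Z := by
    rw [Matrix.mul_assoc, hC, ← Matrix.mul_assoc, h1', Matrix.one_mul]
  have hC' : Cm T (mulc P Z) = (1 - N) * Mh T2 T P Z * U' := by
    rw [← hC, Matrix.mul_assoc, h1, Matrix.mul_one]
  have wM : WP K 1 (Mh T2 T P Z) := by
    rw [← hM]
    have := WP_mul hK (WP_mul hK wU' (WP_Cm hK T _ (mulc_K hK P Z sP sZ))) wU
    exact this
  -- the blocks
  set f : Γ × Fin T2 → Γ × Fin T := fun x => (x.1, Fin.castAdd T1 x.2) with hf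
  set g : Γ × Fin T1 → Γ × Fin T := fun x => (x.1, Fin.natAdd T2 x.2) with hg
  have b1 : (Mh T2 T P Z).submatrix f f = Cm T2 Z := by
    ext x y
    simp only [Mh, Cm, Matrix.submatrix_apply, Matrix.of_apply, hf, Fin.val_castAdd,
      if_pos x.2.isLt]
  have b2 : (Mh T2 T P Z).submatrix g g = Cm T1 P := by
    ext x y
    simp only [Mh, Cm, Matrix.submatrix_apply, Matrix.of_apply, hg, Fin.val_natAdd]
    rw [if_neg (by omega : ¬ (T2 + x.2.val < T2))]
    have e1 : (T2 + y.2.val = T2 + x.2.val + 1) ↔ (y.2.val = x.2.val + 1) := by omega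
    have e2 : (T2 + y.2.val = T2) ↔ (y.2.val = 0) := by omega
    have e3 : T2 + x.2.val - T2 = x.2.val := by omega
    simp only [e1, e2, e3]
  have key := FI_two f g ?_ ?_ ?_ ?_ (Mh T2 T P Z) ?_ (by rw [b1]; exact nZ) (by rw [b2]; exact nP)
    (WP_short hK wM)
  · obtain ⟨nM, vM⟩ := key
    have nC : IsNilpotent (Cm T (mulc P Z)) := by
      obtain ⟨k, hk⟩ := nM
      refine ⟨k, ?_⟩
      rw [hC']
      have : ∀ k : ℕ, ((1 - N) * Mh T2 T P Z * U') ^ k = (1 - N) * (Mh T2 T P Z) ^ k * U' := by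
        intro k
        induction k with
        | zero => rw [pow_zero, pow_zero, Matrix.mul_one, h1]
        | succ k ih =>
          rw [pow_succ, ih, pow_succ]
          calc (1 - N) * Mh T2 T P Z ^ k * U' * ((1 - N) * Mh T2 T P Z * U') =
              (1 - N) * Mh T2 T P Z ^ k * (U' * (1 - N)) * Mh T2 T P Z * U' := by
                simp only [Matrix.mul_assoc]
            _ = _ := by rw [h1', Matrix.mul_one]; simp only [Matrix.mul_assoc]
      rw [this, hk]; simp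
    refine ⟨nC, ?_⟩
    rw [← FI_graded hK h1 wU wU' (WP_Cm hK T _ (mulc_K hK P Z sP sZ)) hC nC, vM, b1, b2, add_comm]
  · intro x y h
    simp only [hf, Prod.mk.injEq] at h
    exact Prod.ext h.1 (Fin.castAdd_injective _ _ h.2)
  · intro x y h
    simp only [hg, Prod.mk.injEq] at h
    exact Prod.ext h.1 (Fin.natAdd_injective _ _ h.2)
  · intro x y h
    simp only [hf, hg, Prod.mk.injEq] at h
    have := congrArg Fin.val h.2
    simp only [Fin.val_castAdd, Fin.val_natAdd] at this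
    omega
  · intro z
    by_cases hz : z.2.val < T2
    · left
      exact ⟨(z.1, ⟨z.2.val, hz⟩), rfl⟩
    · right
      have := z.2.isLt
      refine ⟨(z.1, ⟨z.2.val - T2, by omega⟩), ?_⟩
      simp only [hg]
      ext
      · rfl
      · simp only [Fin.val_natAdd]; omega
  · intro x y
    simp only [Mh, Matrix.of_apply, hf, hg, Fin.val_castAdd, Fin.val_natAdd]
    rw [if_neg (by omega), if_neg (by omega), if_neg (by omega), zero_add]

end mult

end Pool.Agent.Helper817_sse
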