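import Mathlib
import Pool.Agent.Helper817_sse.Comp

set_option autoImplicit false
set_option linter.unusedSectionVars false

/-!
# The base of the family of gadgets
-/

namespace Pool.Agent.Helper817_sse

open Matrix Finset

/-- The base matrix. -/
def M8 : Matrix (Fin 8) (Fin 8) ℤ :=
  !![0, 1, 0, 0, 0, 0, 0, 0; 0, 0, 1, 0, -1, 0, 0, 0; 1, 0, 0, 1, 1, 0, 0, 0; 1, 0, 0, 0, 1, 0, 0, 0; -1, 0, 0, 0, 0, 1, 0, 0; -1, 0, 0, 0, 0, 0, 1, 0; -2, 0, 0, 0, -2, 0, 0, 1; -1, 0, 0, 0, -1, 0, 0, 0]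

/-- Left factor. -/
def g8R1 : Matrix (Fin 8) (Fin 7) ℤ :=
  !![1, 0, 0, 0, 0, 0, 0; 0, 1, 0, -1, 0, 0, 0; 0, 0, 1, 1, 0, 0, 0; 0, 0, 0, 1, 0, 0, 0; 0, 0, 0, 0, 1, 0, 0; 0, 0, 0, 0, 0, 1, 0; 0, 0, 0, -2, 0, 0, 1; 0, 0, 0, -1, 0, 0, 0]
/-- Right factor. -/
def g8S1 : Matrix (Fin 7) (Fin 8) ℤ :=
  !![0, 1, 0, 0, 0, 0, 0, 0; 1, 0, 1, 0, 0, 0, 0, 0; 0, 0, 0, 1, 0, 0, 0, 0; 1, 0, 0, 0, 1, 0, 0, 0; -1, 0, 0, 0, 0, 1, 0, 0; -1, 0, 0, 0, 0, 0, 1, 0; 0, 0, 0, 0, 0, 0, 0, 1]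
/-- Left factor. -/
def g8R2 : Matrix (Fin 7) (Fin 6) ℤ :=
  !![1, 0, -1, 0, 0, 0; 0, 1, 1, 0, 0, 0; 0, 0, 1, 0, 0, 0; 0, 0, 0, 1, 0, 0; 0, 0, 0, 0, 1, 0; 0, 0, -2, 0, 0, 1; 0, 0, -1, 0, 0, 0]
/-- Right factor. -/
def g8S2 : Matrix (Fin 6) (Fin 7) ℤ :=
  !![0, 1, 0, 0, 0, 0, 0; 1, 0, 1, 0, 0, 0, 0; 0, 0, 0, 1, 0, 0, 0; 1, 0, 0, 0, 1, 0, 0; -1, 0, 0, 0, 0, 1, 0; -1, 0, 0, 0, 0, 0, 1]
/-- Left factor. -/
def g8R3 : Matrix (Fin 6) (Fin 5) ℤ :=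
  !![0, 1, 0, 0, 0; 1, 0, 0, 0, 0; 0, 0, 1, 0, 0; 1, -1, 0, 1, 0; -1, -1, 0, 0, 1; -1, 0, 0, 0, 0]
/-- Right factor. -/
def g8S3 : Matrix (Fin 5) (Fin 6) ℤ :=
  !![1, 0, 0, 0, 0, 0; 0, 1, 1, 0, 0, 0; 0, 0, 0, 1, 0, 0; 0, 1, 0, 0, 1, 0; 0, 1, 0, 0, 0, 1]
/-- Left factor. -/
def g8R4 : Matrix (Fin 5) (Fin 4) ℤ :=
  !![1, 0, 0, 0; 0, 1, 0, 0; -1, 0, 1, 0; -1, 0, 0, 1; 0, 0, 0, 0]
/-- Right factor. -/
def g8S4 : Matrix (Fin 4) (Fin 5) ℤ :=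
  !![0, 1, 0, 0, 0; 1, 0, 1, 0, 0; 1, 0, 0, 1, 0; 0, 0, 0, 0, 1]
/-- Left factor. -/
def g8R5 : Matrix (Fin 4) (Fin 3) ℤ :=
  !![1, 0, 0; 0, 1, 0; 0, 0, 1; 0, 0, 0]
/-- Right factor. -/
def g8S5 : Matrix (Fin 3) (Fin 4) ℤ :=
  !![0, 1, 0, 0; 0, 0, 1, 0; 0, 0, 0, 1]
/-- Left factor. -/
def g8R6 : Matrix (Fin 3) (Fin 2) ℤ :=
  !![1, 0; 0, 1; 0, 0]
/-- Right factor. -/
def g8S6 : Matrix (Fin 2) (Fin 3) ℤ :=
  !![0, 1, 0; 0, 0, 1]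
/-- Left factor. -/
def g8R7 : Matrix (Fin 2) (Fin 1) ℤ :=
  !![1; 0]
/-- Right factor. -/
def g8S7 : Matrix (Fin 1) (Fin 2) ℤ :=
  !![0, 1]

theorem M8_nil : IsNilpotent M8 := ⟨8, by decide +kernel⟩
theorem M8_short : ∀ i j, M8 i j * M8 j i = 0 := by decide +kernel

theorem F_M8 : F 8 M8 = 1 := by
  have e1 : g8R1 * g8S1 = M8 := by decide +kernel
  have e2 : g8R2 * g8S2 = g8S1 * g8R1 := by decide +kernel
  have e3 : g8R3 * g8S3 = g8S2 * g8R2 := by decide +kernel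
  have e4 : g8R4 * g8S4 = g8S3 * g8R3 := by decide +kernel
  have e5 : g8R5 * g8S5 = g8S4 * g8R4 := by decide +kernel
  have e6 : g8R6 * g8S6 = g8S5 * g8R5 := by decide +kernel
  have e7 : g8R7 * g8S7 = g8S6 * g8R6 := by decide +kernel
  have e8 : g8S7 * g8R7 = 0 := by decide +kernel
  have q1 : Q g8R1 g8S1 = 0 := by decide +kernel
  have q2 : Q g8R2 g8S2 = 0 := by decide +kernel
  have q3 : Q g8R3 g8S3 = 0 := by decide +kernel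
  have q4 : Q g8R4 g8S4 = 1 := by decide +kernel
  have q5 : Q g8R5 g8S5 = 0 := by decide +kernel
  have q6 : Q g8R6 g8S6 = 0 := by decide +kernel
  have q7 : Q g8R7 g8S7 = 0 := by decide +kernel
  have n1 : IsNilpotent (g8R1 * g8S1) := by rw [e1]; exact M8_nil
  have n2 : IsNilpotent (g8R2 * g8S2) := by rw [e2]; exact nil_swap n1
  have n3 : IsNilpotent (g8R3 * g8S3) := by rw [e3]; exact nil_swap n2
  have n4 : IsNilpotent (g8R4 * g8S4) := by rw [e4]; exact nil_swap n3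
  have n5 : IsNilpotent (g8R5 * g8S5) := by rw [e5]; exact nil_swap n4
  have n6 : IsNilpotent (g8R6 * g8S6) := by rw [e6]; exact nil_swap n5
  have n7 : IsNilpotent (g8R7 * g8S7) := by rw [e7]; exact nil_swap n6
  have f1 := F_elem g8R1 g8S1 n1
  have f2 := F_elem g8R2 g8S2 n2
  have f3 := F_elem g8R3 g8S3 n3
  have f4 := F_elem g8R4 g8S4 n4
  have f5 := F_elem g8R5 g8S5 n5
  have f6 := F_elem g8R6 g8S6 n6
  have f7 := F_elem g8R7 g8S7 n7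
  rw [e8, F_zero, q7, e7] at f7
  rw [q6, e6] at f6
  rw [q5, e5] at f5
  rw [q4, e4] at f4
  rw [q3, e3] at f3
  rw [q2, e2] at f2
  rw [q1, e1] at f1
  have h1 : (1 : ZMod 2) + 1 = 0 := by decide
  linear_combination (-1 : ZMod 2) * f1 - f2 - f3 - f4 - f5 - f6 - f7 - h1

/-- Coefficients of the base polynomial. -/
def P4 : ℕ → Matrix (Fin 2) (Fin 2) ℤ
  | 0 => !![0, 0; -1, 0]
  | 1 => !![0, -1; -1, 0]
  | 2 => !![1, 1; -2, -2]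
  | 3 => !![1, 1; -1, -1]
  | _ => 0

theorem Cm_P4 : (Cm 4 P4).submatrix (finProdFinEquiv (m := 2) (n := 4)).symm
    (finProdFinEquiv (m := 2) (n := 4)).symm = M8 := by
  decide +kernel

theorem nil_P4 : IsNilpotent (Cm 4 P4) := by
  have h := nil_submatrix (finProdFinEquiv (m := 2) (n := 4)) M8_nil
  rw [← Cm_P4, submatrix_submatrix, Equiv.symm_comp_self, submatrix_id_id] at h
  exact h

theorem short_P4 : ∀ i j, Cm 4 P4 i j * Cm 4 P4 j i = 0 := by decide +kernel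

theorem FI_P4 : FI (Cm 4 P4) = 1 := by
  rw [FI_eq_F (finProdFinEquiv (m := 2) (n := 4)).symm _ nil_P4 short_P4, Cm_P4]
  exact F_M8

end Pool.Agent.Helper817_sse
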