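import Mathlib
import Pool.Agent.Helper817_sse.Base8

set_option autoImplicit false
set_option linter.unusedSectionVars false

/-!
# A family of gadgets with long cycles
-/

namespace Pool.Agent.Helper817_sse

open Matrix Finset Polynomial

/-- Square matrices of size two over the integral polynomials. -/
abbrev PM : Type := Matrix (Fin 2) (Fin 2) ℤ[X]

/-- Coefficient matrices. -/
def cM (Y : PM) (n : ℕ) : Matrix (Fin 2) (Fin 2) ℤ := Matrix.of fun a b => (Y a b).coeff n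

/-- Coefficients of `1 - Y`, shifted. -/
def cf (Y : PM) (i : ℕ) : Matrix (Fin 2) (Fin 2) ℤ := -cM Y (i + 1)

theorem cM_mul (Y Z : PM) (n : ℕ) :
    cM (Y * Z) n = ∑ p ∈ antidiagonal n, cM Y p.1 * cM Z p.2 := by
  ext a b
  rw [Matrix.sum_apply]
  simp only [cM, Matrix.of_apply, Matrix.mul_apply, finsetSum_coeff, coeff_mul]
  rw [sum_comm]

theorem cf_mul (Y Z : PM) (hY : cM Y 0 = 1) (hZ : cM Z 0 = 1) : cf (Y * Z) = mulc (cf Y) (cf Z) := by
  funext n
  unfold cf mulc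
  rw [cM_mul, ← Finset.Nat.sum_antidiagonal_swap, Finset.Nat.sum_antidiagonal_eq_sum_range_succ_mk,
    sum_range_succ', sum_range_succ]
  simp only [Prod.swap, Nat.sub_self, Nat.sub_zero, hY, hZ, Matrix.one_mul, Matrix.mul_one]
  have e1 : ∑ k ∈ range n, cM Y (n.succ - (k + 1)) * cM Z (k + 1) =
      ∑ j ∈ range n, -cM Y (n - 1 - j + 1) * -cM Z (j + 1) := by
    apply sum_congr rfl; intro k hk
    rw [mem_range] at hk
    rw [neg_mul_neg]
    congr 2
    omega
  rw [e1]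
  abel

/-- The value of the potential of a polynomial matrix. -/
def Val (Y : PM) (c : ZMod 2) : Prop :=
  cM Y 0 = 1 ∧ ∃ T, 1 ≤ T ∧ (∀ i, T ≤ i → cf Y i = 0) ∧ IsNilpotent (Cm T (cf Y)) ∧
    FI (Cm T (cf Y)) = c

/-- Support condition. -/
def Sup (K : Fin 2 → Fin 2 → ℕ → Prop) (Y : PM) : Prop := ∀ i a b, cf Y i a b ≠ 0 → K a b (i + 1)

theorem Val_mul {K : Fin 2 → Fin 2 → ℕ → Prop} (hK : KA K) {Y Z : PM} {c d : ZMod 2}
    (hY : Val Y c) (hZ : Val Z d) (sY : Sup K Y) (sZ : Sup K Z) :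
    Val (Y * Z) (c + d) ∧ Sup K (Y * Z) := by
  obtain ⟨y0, T1, y1, y2, y3, y4⟩ := hY
  obtain ⟨z0, T2, z1, z2, z3, z4⟩ := hZ
  have h1 := cf_mul Y Z y0 z0
  have h2 := FI_mult hK (cf Y) (cf Z) T1 T2 z1 y2 z2 sY sZ y3 z3
  have h3 := mulc_K hK (cf Y) (cf Z) sY sZ
  rw [← h1] at h2 h3
  refine ⟨⟨?_, T2 + T1, by omega, ?_, h2.1, ?_⟩, h3⟩
  · rw [cM_mul]
    simp [y0, z0]
  · intro i hi
    rw [h1]
    exact mulc_supp _ _ z1 y2 z2 i hi
  · rw [h2.2, y4, z4]

/-- Elementary matrices. -/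
def e12 {R : Type*} [CommRing R] (p : R) : Matrix (Fin 2) (Fin 2) R := !![1, p; 0, 1]

/-- Elementary matrices. -/
def e21 {R : Type*} [CommRing R] (p : R) : Matrix (Fin 2) (Fin 2) R := !![1, 0; p, 1]

theorem cf_e12 (z : ℤ[X]) (i : ℕ) (a b : Fin 2) :
    cf (e12 z) i a b = if a = 0 ∧ b = 1 then -z.coeff (i + 1) else 0 := by
  fin_cases a <;> fin_cases b <;> simp [cf, cM, e12, coeff_one]

theorem cf_e21 (z : ℤ[X]) (i : ℕ) (a b : Fin 2) :
    cf (e21 z) i a b = if a = 1 ∧ b = 0 then -z.coeff (i + 1) else 0 := by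
  fin_cases a <;> fin_cases b <;> simp [cf, cM, e21, coeff_one]

theorem Val_rank (Y : PM) (h0 : cM Y 0 = 1) (T : ℕ) (hT : 1 ≤ T) (h1 : ∀ i, T ≤ i → cf Y i = 0)
    (r : Fin 2 → ℕ) (h2 : ∀ i a b, cf Y i a b ≠ 0 → r a < r b) : Val Y 0 := by
  have key : ∀ x y, Cm T (cf Y) x y ≠ 0 → r x.1 * T + x.2.val < r y.1 * T + y.2.val := by
    intro x y h
    simp only [Cm, Matrix.of_apply] at h
    by_cases c1 : y.1 = x.1 ∧ y.2.val = x.2.val + 1
    · rw [c1.1, c1.2]; omega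
    · rw [if_neg c1, zero_add] at h
      by_cases c2 : y.2.val = 0
      · rw [if_pos c2] at h
        have h3 : r x.1 + 1 ≤ r y.1 := h2 _ _ _ h
        have h4 := Nat.mul_le_mul_right T h3
        have h5 := x.2.isLt
        rw [add_mul, one_mul] at h4
        omega
      · rw [if_neg c2] at h; exact absurd rfl h
  exact ⟨h0, T, hT, h1, nil_rank (fun x : Fin 2 × Fin T => r x.1 * T + x.2.val) _ key,
    FI_rank (fun x : Fin 2 × Fin T => r x.1 * T + x.2.val) _ key⟩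

theorem Val_e12 (z : ℤ[X]) (hz : z.coeff 0 = 0) : Val (e12 z) 0 := by
  apply Val_rank _ _ (z.natDegree + 1) (by omega) _ (fun a => a.val)
  · intro i a b h
    rw [cf_e12] at h
    by_cases c : a = 0 ∧ b = 1
    · rw [c.1, c.2]; decide
    · rw [if_neg c] at h; exact absurd rfl h
  · ext a b
    fin_cases a <;> fin_cases b <;> simp [cM, e12, hz]
  · intro i hi
    ext a b
    rw [cf_e12, coeff_eq_zero_of_natDegree_lt (by omega)]
    simp

theorem Val_e21 (z : ℤ[X]) (hz : z.coeff 0 = 0) : Val (e21 z) 0 := by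
  apply Val_rank _ _ (z.natDegree + 1) (by omega) _ (fun a => 1 - a.val)
  · intro i a b h
    rw [cf_e21] at h
    by_cases c : a = 1 ∧ b = 0
    · rw [c.1, c.2]; decide
    · rw [if_neg c] at h; exact absurd rfl h
  · ext a b
    fin_cases a <;> fin_cases b <;> simp [cM, e21, hz]
  · intro i hi
    ext a b
    rw [cf_e21, coeff_eq_zero_of_natDegree_lt (by omega)]
    simp

/-- Congruent to the identity modulo `X ^ k`. -/
def Dk (k : ℕ) (Y : PM) : Prop := ∀ a b, (X : ℤ[X]) ^ k ∣ (Y - 1) a b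

theorem Dk_mono {k l : ℕ} (h : k ≤ l) {Y : PM} (hY : Dk l Y) : Dk k Y :=
  fun a b => dvd_trans (pow_dvd_pow _ h) (hY a b)

theorem Dk_conj {k : ℕ} {Y g g' : PM} (hY : Dk k Y) (h : g * g' = 1) : Dk k (g * Y * g') := by
  intro a b
  have : g * Y * g' - 1 = g * (Y - 1) * g' := by
    rw [mul_sub, sub_mul, mul_one, h]
  rw [this, Matrix.mul_apply]
  apply dvd_sum; intro c _
  apply Dvd.dvd.mul_right
  rw [Matrix.mul_apply]
  apply dvd_sum; intro d _
  exact Dvd.dvd.mul_left (hY _ _) _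

theorem Dk_mul {k : ℕ} {Y Z : PM} (hY : Dk k Y) (hZ : Dk k Z) : Dk k (Y * Z) := by
  intro a b
  have : Y * Z - 1 = (Y - 1) * Z + (Z - 1) := by
    rw [sub_mul, one_mul]; abel
  rw [this, Matrix.add_apply, Matrix.mul_apply]
  apply dvd_add
  · apply dvd_sum; intro c _
    exact Dvd.dvd.mul_right (hY _ _) _
  · exact hZ _ _

theorem Dk_e12 {k : ℕ} {z : ℤ[X]} (h : X ^ k ∣ z) : Dk k (e12 z) := by
  intro a b
  fin_cases a <;> fin_cases b <;> simp [e12, h]

theorem Dk_e21 {k : ℕ} {z : ℤ[X]} (h : X ^ k ∣ z) : Dk k (e21 z) := by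
  intro a b
  fin_cases a <;> fin_cases b <;> simp [e21, h]

theorem Dk_cf {k : ℕ} {Y : PM} (hY : Dk k Y) (i : ℕ) (hi : i + 1 < k) : cf Y i = 0 := by
  ext a b
  have h1 := (X_pow_dvd_iff.mp (hY a b)) (i + 1) hi
  have h2 : (1 : PM) a b = C ((1 : Matrix (Fin 2) (Fin 2) ℤ) a b) := by
    by_cases h : a = b
    · subst h; simp
    · simp [Matrix.one_apply_ne h]
  rw [Matrix.sub_apply, coeff_sub, h2, coeff_C_succ, sub_zero] at h1
  simp [cf, cM, h1]

theorem Dk_cM {k : ℕ} {Y : PM} (hY : Dk k Y) (hk : 0 < k) : cM Y 0 = 1 := by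
  ext a b
  have h1 := (X_pow_dvd_iff.mp (hY a b)) 0 hk
  have h2 : (1 : PM) a b = C ((1 : Matrix (Fin 2) (Fin 2) ℤ) a b) := by
    by_cases h : a = b
    · subst h; simp
    · simp [Matrix.one_apply_ne h]
  rw [Matrix.sub_apply, coeff_sub, h2, coeff_C_zero, sub_eq_zero] at h1
  exact h1

/-- First relation. -/
def K0 (a b : Fin 2) (l : ℕ) : Prop :=
  if a = b then l = 0 ∨ 3 ≤ l else if a = 0 then 2 ≤ l else 1 ≤ l

/-- Second relation. -/
def K1 (_ _ : Fin 2) (l : ℕ) : Prop := l = 0 ∨ 3 ≤ l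

theorem KA_K0 : KA K0 := by
  refine ⟨?_, ?_, ?_⟩
  · intro a; simp [K0]
  · intro a b c m n
    unfold K0
    fin_cases a <;> fin_cases b <;> fin_cases c <;> simp <;> omega
  · intro a; simp [K0]

theorem KA_K1 : KA K1 := by
  refine ⟨?_, ?_, ?_⟩
  · intro a; simp [K1]
  · intro a b c m n
    unfold K1
    omega
  · intro a; simp [K1]

theorem Sup_K0 {Y : PM} (hY : Dk 3 Y) : Sup K0 Y := by
  intro i a b h
  have h1 : 3 ≤ i + 1 := by
    by_contra h2
    apply h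
    rw [Dk_cf hY i (by omega)]; rfl
  unfold K0
  split_ifs
  · right; exact h1
  · omega
  · omega

theorem Sup_K1 {Y : PM} (hY : Dk 3 Y) : Sup K1 Y := by
  intro i a b h
  right
  by_contra h2
  apply h
  rw [Dk_cf hY i (by omega)]; rfl

section const

/-- Constant matrices. -/
noncomputable def cst2 (u : Matrix (Fin 2) (Fin 2) ℤ) : PM := u.map C

theorem cf_const (u u' : Matrix (Fin 2) (Fin 2) ℤ) (Y : PM) (n : ℕ) :
    cM (cst2 u * Y * cst2 u') n = u * cM Y n * u' := by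
  ext a b
  simp only [cM, cst2, Matrix.of_apply, Matrix.mul_apply, Matrix.map_apply, finsetSum_coeff,
    coeff_mul_C, coeff_C_mul]

/-- Blow-up of a constant matrix. -/
def bl (T : ℕ) (u : Matrix (Fin 2) (Fin 2) ℤ) : Matrix (Fin 2 × Fin T) (Fin 2 × Fin T) ℤ :=
  Matrix.of fun x y => if x.2 = y.2 then u x.1 y.1 else 0

theorem bl_mul (T : ℕ) (u v : Matrix (Fin 2) (Fin 2) ℤ) : bl T u * bl T v = bl T (u * v) := by
  ext x y
  rw [Matrix.mul_apply, Fintype.sum_prod_type]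
  simp only [bl, Matrix.of_apply, Matrix.mul_apply]
  split_ifs with h
  · apply sum_congr rfl; intro l _
    rw [sum_eq_single x.2]
    · simp [h]
    · intro b _ hb
      simp [Ne.symm hb]
    · intro h; exact absurd (mem_univ _) h
  · symm
    symm
    apply sum_eq_zero; intro l _
    apply sum_eq_zero; intro b _
    by_cases h1 : x.2 = b
    · have : ¬ b = y.2 := by rw [← h1]; exact h
      simp [this]
    · simp [h1]

theorem bl_one (T : ℕ) : bl T 1 = 1 := by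
  ext x y
  simp only [bl, Matrix.of_apply, Matrix.one_apply, Prod.ext_iff]
  by_cases h1 : x.1 = y.1 <;> by_cases h2 : x.2 = y.2 <;> simp [h1, h2]

theorem Cm_bl (T : ℕ) (u : Matrix (Fin 2) (Fin 2) ℤ) (P P' : ℕ → Matrix (Fin 2) (Fin 2) ℤ)
    (h : ∀ i, P i * u = u * P' i) : Cm T P * bl T u = bl T u * Cm T P' := by
  ext x y
  rw [Matrix.mul_apply, Matrix.mul_apply, Fintype.sum_prod_type, Fintype.sum_prod_type]
  have e1 : ∀ c, ∑ j, Cm T P x (c, j) * bl T u (c, j) y =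
      (if c = x.1 ∧ y.2.val = x.2.val + 1 then u x.1 y.1 else 0) +
        (if y.2.val = 0 then P x.2.val x.1 c * u c y.1 else 0) := by
    intro c
    rw [sum_eq_single y.2]
    · simp only [Cm, bl, Matrix.of_apply, if_true]
      by_cases h1 : c = x.1 ∧ y.2.val = x.2.val + 1
      · rw [if_pos h1, if_pos h1, if_neg (by omega), if_neg (by omega), h1.1]; ring
      · rw [if_neg h1, if_neg h1]
        split_ifs <;> ring
    · intro j _ hj
      simp [bl, hj]
    · intro h; exact absurd (mem_univ _) h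
  have e2 : ∀ c, ∑ j, bl T u x (c, j) * Cm T P' (c, j) y =
      (if y.1 = c ∧ y.2.val = x.2.val + 1 then u x.1 y.1 else 0) +
        (if y.2.val = 0 then u x.1 c * P' x.2.val c y.1 else 0) := by
    intro c
    rw [sum_eq_single x.2]
    · simp only [Cm, bl, Matrix.of_apply, if_true]
      by_cases h1 : y.1 = c ∧ y.2.val = x.2.val + 1
      · rw [if_pos h1, if_pos h1, if_neg (by omega), if_neg (by omega), h1.1]; ring
      · rw [if_neg h1, if_neg h1]
        split_ifs <;> ring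
    · intro j _ hj
      simp [bl, Ne.symm hj]
    · intro h; exact absurd (mem_univ _) h
  rw [sum_congr rfl (fun c _ => e1 c), sum_congr rfl (fun c _ => e2 c), sum_add_distrib,
    sum_add_distrib]
  congr 1
  · by_cases h1 : y.2.val = x.2.val + 1
    · simp [h1]
    · simp [h1]
  · by_cases h1 : y.2.val = 0
    · simp only [h1, if_true]
      have := congrFun (congrFun (h x.2.val) x.1) y.1
      rw [Matrix.mul_apply, Matrix.mul_apply] at this
      exact this
    · simp [h1]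

theorem Val_const {Y : PM} {c : ZMod 2} (hY : Val Y c) (h3 : Dk 3 Y) (u u' : Matrix (Fin 2) (Fin 2) ℤ)
    (h : u * u' = 1) : Val (cst2 u * Y * cst2 u') c := by
  have h' : u' * u = 1 := mul_eq_one_comm.mp h
  obtain ⟨y0, T, y1, y2, y3, y4⟩ := hY
  have e0 : ∀ i, cf (cst2 u * Y * cst2 u') i = u * cf Y i * u' := by
    intro i
    unfold cf
    rw [cf_const]; simp
  have e1 : Cm T (cf Y) * bl T u' = bl T u' * Cm T (cf (cst2 u * Y * cst2 u')) := by
    apply Cm_bl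
    intro i
    rw [e0, ← Matrix.mul_assoc, ← Matrix.mul_assoc, h', Matrix.one_mul]
  have e2 : bl T u' * bl T u = 1 := by rw [bl_mul, h', bl_one]
  have e2' : bl T u * bl T u' = 1 := by rw [bl_mul, h, bl_one]
  have w : ∀ v, WP K1 0 (bl T v) := by
    intro v x y hxy
    simp only [bl, Matrix.of_apply] at hxy
    by_cases h1 : x.2 = y.2
    · exact ⟨0, Or.inl rfl, by rw [h1]⟩
    · rw [if_neg h1] at hxy; exact absurd rfl hxy
  refine ⟨?_, T, y1, ?_, ?_, ?_⟩
  · rw [cf_const, y0, Matrix.mul_one, h]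
  · intro i hi
    rw [e0, y2 i hi]; simp
  · have e3 : Cm T (cf (cst2 u * Y * cst2 u')) = bl T u * Cm T (cf Y) * bl T u' := by
      rw [Matrix.mul_assoc (bl T u), e1, ← Matrix.mul_assoc, e2', Matrix.one_mul]
    obtain ⟨k, hk⟩ := y3
    refine ⟨k, ?_⟩
    rw [e3]
    have : ∀ k : ℕ, (bl T u * Cm T (cf Y) * bl T u') ^ k = bl T u * (Cm T (cf Y)) ^ k * bl T u' := by
      intro k
      induction k with
      | zero => rw [pow_zero, pow_zero, Matrix.mul_one, e2']
      | succ k ih =>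
        rw [pow_succ, ih, pow_succ]
        calc bl T u * Cm T (cf Y) ^ k * bl T u' * (bl T u * Cm T (cf Y) * bl T u') =
            bl T u * Cm T (cf Y) ^ k * (bl T u' * bl T u) * Cm T (cf Y) * bl T u' := by
              simp only [Matrix.mul_assoc]
          _ = _ := by rw [e2, Matrix.mul_one]; simp only [Matrix.mul_assoc]
    rw [this, hk]; simp
  · rw [FI_graded KA_K1 e2 (w _) (w _) (WP_Cm KA_K1 T _ (Sup_K1 h3)) e1 y3, y4]

end const

section family

variable {R : Type*} [CommRing R]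

theorem e12_mul (a b : R) : e12 a * e12 b = e12 (a + b) := by
  unfold e12
  rw [Matrix.mul_fin_two]
  simp [add_comm]

theorem e21_mul (a b : R) : e21 a * e21 b = e21 (a + b) := by
  unfold e21
  rw [Matrix.mul_fin_two]
  simp

theorem e12_zero : e12 (0 : R) = 1 := by
  unfold e12
  rw [Matrix.one_fin_two]

theorem e21_zero : e21 (0 : R) = 1 := by
  unfold e21
  rw [Matrix.one_fin_two]

/-- The family, in terms of `t` and `w`. -/
def XX (t w : R) : Matrix (Fin 2) (Fin 2) R :=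
  e21 (-w) * e12 (-t) * e21 t * e12 (w - 1) * e21 1 * e12 (-t ^ 2)

theorem XX_explicit (t w s : R) (h : (1 - t) * w = 1 - s) : XX t w =
    !![1 - s * (1 + t), -(s * (1 + t - t ^ 2 - t ^ 3)); s * (1 + (1 + t) * w),
      1 + s * (1 + t) - s * s * (1 + 2 * t + t ^ 2)] := by
  unfold XX e12 e21
  simp only [Matrix.mul_fin_two]
  ext i j
  fin_cases i <;> fin_cases j
  · simp
    linear_combination (1 + t) * h
  · simp
    linear_combination (1 + t - t ^ 2 - t ^ 3) * h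
  · simp
    linear_combination (-1 - (1 + t) * w) * h
  · simp
    linear_combination (s + 2 * t * s + t ^ 2 * s + t - w - t * w + t ^ 2 * w + t ^ 2 + t ^ 3 * w) * h

theorem XX_step (t w s : R) : XX t (w + s) = e21 (-s) * (XX t w *
    (e12 (t ^ 2) * (e21 (-1) * (e12 s * (e21 1 * e12 (-t ^ 2)))))) := by
  have h1 : e12 (-t ^ 2) * e12 (t ^ 2) = 1 := by
    rw [e12_mul, ← e12_zero]; congr 1; ring
  have h2 : e21 (1 : R) * e21 (-1) = 1 := by
    rw [e21_mul, ← e21_zero]; congr 1; ring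
  have h3 : e21 (-(w + s)) = e21 (-s) * e21 (-w) := by
    rw [e21_mul]; congr 1; ring
  have h4 : e12 (w + s - 1) = e12 (w - 1) * e12 s := by
    rw [e12_mul]; congr 1; ring
  unfold XX
  rw [h3, h4]
  simp only [mul_assoc]
  rw [← mul_assoc (e12 (-t ^ 2)) (e12 (t ^ 2)), h1, one_mul, ← mul_assoc (e21 1) (e21 (-1)), h2, one_mul]

/-- The geometric sum. -/
noncomputable def Wk' (k : ℕ) : ℤ[X] := ∑ i ∈ range k, X ^ i

theorem Wk'_eq (k : ℕ) : (1 - X) * Wk' k = 1 - X ^ k := mul_neg_geom_sum _ _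

theorem Dk_XX (k : ℕ) : Dk k (XX X (Wk' k)) := by
  rw [XX_explicit X (Wk' k) (X ^ k) (Wk'_eq k)]
  intro a b
  fin_cases a <;> fin_cases b
  · refine ⟨-(1 + X), ?_⟩
    simp; ring
  · refine ⟨-(1 + X - X ^ 2 - X ^ 3), ?_⟩
    simp; ring
  · refine ⟨1 + (1 + X) * Wk' k, ?_⟩
    simp
  · refine ⟨(1 + X) - X ^ k * (1 + 2 * X + X ^ 2), ?_⟩
    simp; ring

theorem cst2_e21 (z : ℤ) : cst2 (e21 z) = e21 (C z) := by
  ext a b
  fin_cases a <;> fin_cases b <;> simp [cst2, e21]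

theorem Val_step (k : ℕ) (hk : 3 ≤ k) (h : Val (XX X (Wk' k)) 1) : Val (XX X (Wk' (k + 1))) 1 := by
  have hW : Wk' (k + 1) = Wk' k + X ^ k := sum_range_succ _ _
  rw [hW, XX_step]
  set s : ℤ[X] := X ^ k with hs
  set Y0 : PM := XX X (Wk' k) with hY0
  have d0 : Dk 3 Y0 := Dk_mono hk (Dk_XX k)
  have ds : (X : ℤ[X]) ^ 3 ∣ s := pow_dvd_pow _ hk
  have s0 : s.coeff 0 = 0 := by
    rw [hs, coeff_X_pow, if_neg (by omega)]
  have A1 : e12 (-(X : ℤ[X]) ^ 2) * e12 (X ^ 2) = 1 := by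
    rw [e12_mul, ← e12_zero]; congr 1; ring
  have A2 : e12 ((X : ℤ[X]) ^ 2) * e12 (-X ^ 2) = 1 := by
    rw [e12_mul, ← e12_zero]; congr 1; ring
  have B1 : e21 (1 : ℤ[X]) * e21 (-1) = 1 := by
    rw [e21_mul, ← e21_zero]; congr 1; ring
  have B2 : e21 (-1 : ℤ[X]) * e21 1 = 1 := by
    rw [e21_mul, ← e21_zero]; congr 1; ring
  have u1 : (e21 (1 : ℤ)) * e21 (-1) = 1 := by
    rw [e21_mul, ← e21_zero]; congr 1
  have u2 : (e21 (-1 : ℤ)) * e21 1 = 1 := by
    rw [e21_mul, ← e21_zero]; congr 1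
  have c1 : cst2 (e21 1) = e21 (1 : ℤ[X]) := by rw [cst2_e21]; simp
  have c2 : cst2 (e21 (-1)) = e21 (-1 : ℤ[X]) := by rw [cst2_e21]; simp
  have k12 : ∀ z : ℤ[X], X ^ 2 ∣ z → Sup K0 (e12 z) := by
    intro z hz i a b h
    rw [cf_e12] at h
    by_cases c : a = 0 ∧ b = 1
    · rw [if_pos c] at h
      rw [c.1, c.2]
      unfold K0
      rw [if_neg (by decide), if_pos rfl]
      by_contra h2
      apply h
      rw [X_pow_dvd_iff.mp hz (i + 1) (by omega), neg_zero]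
    · rw [if_neg c] at h; exact absurd rfl h
  have x2 : ((X : ℤ[X]) ^ 2).coeff 0 = 0 := by simp
  have x2' : (-(X : ℤ[X]) ^ 2).coeff 0 = 0 := by simp
  have v1 := Val_mul KA_K0 (Val_e12 _ x2') h (k12 _ (by rw [dvd_neg])) (Sup_K0 d0)
  have v2 := Val_mul KA_K0 v1.1 (Val_e12 _ x2) v1.2 (k12 _ dvd_rfl)
  have d2 : Dk 3 (e12 (-X ^ 2) * Y0 * e12 (X ^ 2)) := Dk_conj d0 A1
  have v3 := Val_const v2.1 d2 (e21 1) (e21 (-1)) u1
  rw [c1, c2] at v3
  have d3 := Dk_conj d2 B1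
  have v4 := Val_mul KA_K0 v3 (Val_e12 s s0) (Sup_K0 d3) (Sup_K0 (Dk_e12 ds))
  have d4 := Dk_mul d3 (Dk_e12 ds)
  have v5 := Val_const v4.1 d4 (e21 (-1)) (e21 1) u2
  rw [c1, c2] at v5
  have d5 := Dk_conj d4 B2
  have v6 := Val_mul KA_K0 (Val_e12 _ x2) v5 (k12 _ dvd_rfl) (Sup_K0 d5)
  have v7 := Val_mul KA_K0 v6.1 (Val_e12 _ x2') v6.2 (k12 _ (by rw [dvd_neg]))
  have hs' : (-s).coeff 0 = 0 := by rw [coeff_neg, s0, neg_zero]
  have v8 := Val_mul KA_K0 (Val_e21 (-s) hs') v7.1 (Sup_K0 (Dk_e21 ((dvd_neg).mpr ds))) v7.2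
  have e : e21 (-s) * (e12 (X ^ 2) * (e21 (-1) * (e21 1 * (e12 (-X ^ 2) * Y0 * e12 (X ^ 2)) * e21 (-1) *
      e12 s) * e21 1) * e12 (-X ^ 2)) =
      e21 (-s) * (Y0 * (e12 (X ^ 2) * (e21 (-1) * (e12 s * (e21 1 * e12 (-X ^ 2)))))) := by
    simp only [mul_assoc]
    rw [← mul_assoc (e21 (-1)) (e21 1), B2, one_mul, ← mul_assoc (e12 (X ^ 2)) (e12 (-X ^ 2)), A2, one_mul]
  have v9 := v8.1
  rw [e] at v9
  simpa using v9

/-- The base of the family. -/
noncomputable def Xe : PM := !![1 - X ^ 3 - X ^ 4, X ^ 2 - X ^ 3 - X ^ 4;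
  X + X ^ 2 + 2 * X ^ 3 + X ^ 4, 1 + 2 * X ^ 3 + X ^ 4]

theorem two_coeff (n : ℕ) : (2 : ℤ[X]).coeff n = if n = 0 then 2 else 0 := by
  have : (2 : ℤ[X]) = C 2 := by simp
  rw [this, coeff_C]

theorem two_mul_coeff (p : ℤ[X]) (n : ℕ) : (2 * p).coeff n = 2 * p.coeff n := by
  have : (2 : ℤ[X]) = C 2 := by simp
  rw [this, coeff_C_mul]

theorem cM_Xe (n : ℕ) : cM Xe (n + 1) =
    !![-(if n = 2 then 1 else 0) - (if n = 3 then 1 else 0),
      (if n = 1 then 1 else 0) - (if n = 2 then 1 else 0) - (if n = 3 then 1 else 0);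
      (if n = 0 then 1 else 0) + (if n = 1 then 1 else 0) + 2 * (if n = 2 then 1 else 0) +
        (if n = 3 then 1 else 0), 2 * (if n = 2 then 1 else 0) + (if n = 3 then 1 else 0)] := by
  ext a b
  fin_cases a <;> fin_cases b <;>
    simp [cM, Xe, coeff_X_pow, coeff_X, coeff_one, two_mul_coeff]

theorem cf_Xe : cf Xe = P4 := by
  funext n
  unfold cf
  rw [cM_Xe]
  match n with
  | 0 => ext a b; fin_cases a <;> fin_cases b <;> simp [P4]
  | 1 => ext a b; fin_cases a <;> fin_cases b <;> simp [P4]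
  | 2 => ext a b; fin_cases a <;> fin_cases b <;> simp [P4]
  | 3 => ext a b; fin_cases a <;> fin_cases b <;> simp [P4]
  | n + 4 =>
    have h0 : n + 4 ≠ 0 := by omega
    have h1 : n + 4 ≠ 1 := by omega
    have h2 : n + 4 ≠ 2 := by omega
    have h3 : n + 4 ≠ 3 := by omega
    ext a b; fin_cases a <;> fin_cases b <;> simp [P4, h1, h2, h3]

theorem P4_ge (i : ℕ) (hi : 4 ≤ i) : P4 i = 0 := by
  obtain ⟨j, rfl⟩ := Nat.exists_eq_add_of_le hi
  rw [add_comm]
  rfl

theorem Val_Xe : Val Xe 1 := by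
  refine ⟨?_, 4, by norm_num, ?_, ?_, ?_⟩
  · ext a b
    fin_cases a <;> fin_cases b <;> simp [cM, Xe]
  · rw [cf_Xe]; exact P4_ge
  · rw [cf_Xe]; exact nil_P4
  · rw [cf_Xe]; exact FI_P4

theorem Sup_Xe : Sup K0 Xe := by
  intro i a b h
  rw [cf_Xe] at h
  match i with
  | 0 => fin_cases a <;> fin_cases b <;> simp [P4, K0] at h ⊢
  | 1 => fin_cases a <;> fin_cases b <;> simp [P4, K0] at h ⊢
  | 2 => fin_cases a <;> fin_cases b <;> simp [P4, K0] at h ⊢
  | 3 => fin_cases a <;> fin_cases b <;> simp [P4, K0] at h ⊢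
  | n + 4 => exact absurd (by rw [P4_ge _ (by omega)]; rfl) h

theorem Val_three : Val (XX X (Wk' 3)) 1 := by
  have k12 : Sup K0 (e12 (-X ^ 2)) := by
    intro i a b h
    rw [cf_e12] at h
    by_cases c : a = 0 ∧ b = 1
    · rw [if_pos c] at h
      rw [c.1, c.2]
      unfold K0
      rw [if_neg (by decide), if_pos rfl]
      by_contra h2
      apply h
      rw [coeff_neg, coeff_X_pow, if_neg (by omega)]
      simp
    · rw [if_neg c] at h; exact absurd rfl h
  have k21 : Sup K0 (e21 (-(X + X ^ 2))) := by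
    intro i a b h
    rw [cf_e21] at h
    by_cases c : a = 1 ∧ b = 0
    · rw [c.1, c.2]
      unfold K0
      rw [if_neg (by decide), if_neg (by decide)]
      omega
    · rw [if_neg c] at h; exact absurd rfl h
  have v1 := Val_mul KA_K0 (Val_e21 (-(X + X ^ 2)) (by simp)) Val_Xe k21 Sup_Xe
  have v2 := Val_mul KA_K0 v1.1 (Val_e12 (-X ^ 2) (by simp)) v1.2 k12
  have e : XX X (Wk' 3) = e21 (-(X + X ^ 2)) * Xe * e12 (-X ^ 2) := by
    have hW : Wk' 3 = 1 + X + X ^ 2 := by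
      unfold Wk'
      rw [sum_range_succ, sum_range_succ, sum_range_succ]
      simp
    rw [XX_explicit X (Wk' 3) (X ^ 3) (Wk'_eq 3), hW]
    unfold e21 e12 Xe
    simp only [Matrix.mul_fin_two]
    apply Matrix.ext
    intro a b
    fin_cases a <;> fin_cases b <;> simp <;> ring
  rw [e]
  have := v2.1
  simpa using this

/-- The potential of all members of the family is nonzero. -/
theorem Val_XX (k : ℕ) (hk : 3 ≤ k) : Val (XX X (Wk' k)) 1 := by
  induction k, hk using Nat.le_induction with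
  | base => exact Val_three
  | succ k hk ih => exact Val_step k hk ih

end family

end Pool.Agent.Helper817_sse
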