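import Mathlib
import Pool.Agent.Helper817_sse.FI

set_option autoImplicit false
set_option linter.unusedSectionVars false

/-!
# Invariance of the potential of powers under strong shift equivalence over the positive cone
-/

namespace Pool.Agent.Helper817_sse

open Matrix Finset

section cv

variable {G : Type*} [Group G] [Fintype G]

/-- The convolution product of matrices with entries in the group ring, as functions. -/
def cv {α β γ : Type*} [Fintype β] (A : α → β → G → ℤ) (B : β → γ → G → ℤ) : α → γ → G → ℤ :=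
  fun i l g => ∑ j, ∑ h : G, A i j h * B j l (h⁻¹ * g)

/-- The augmentation. -/
def eps {α β : Type*} (A : α → β → G → ℤ) : Matrix α β ℤ := Matrix.of fun i j => ∑ g, A i j g

theorem eps_apply {α β : Type*} (A : α → β → G → ℤ) (i : α) (j : β) : eps A i j = ∑ g, A i j g := rfl

theorem eps_cv {α β γ : Type*} [Fintype β] (A : α → β → G → ℤ) (B : β → γ → G → ℤ) :
    eps (cv A B) = eps A * eps B := by
  ext i l
  rw [Matrix.mul_apply, eps_apply]
  unfold cv
  rw [sum_comm]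
  apply sum_congr rfl; intro j _
  rw [sum_comm, eps_apply, eps_apply, sum_mul_sum]
  apply sum_congr rfl; intro h _
  rw [← Equiv.sum_comp (Equiv.mulLeft h)]
  apply sum_congr rfl; intro k _
  simp

variable {X : Type*} [Fintype X] [DecidableEq X] [MulAction G X]

/-- The action matrix relative to the base point. -/
def rr (x0 : X) (g : G) (a c : X) : ℤ :=
  (if g • c = a then 1 else 0) - (if g • c = x0 then 1 else 0)

theorem rr_sum (x0 : X) (g : G) (a : X) : ∑ b, rr x0 g a b = 0 := by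
  unfold rr
  rw [sum_sub_distrib]
  have : ∀ a : X, ∑ b, (if g • b = a then (1 : ℤ) else 0) = 1 := by
    intro a
    rw [sum_eq_single (g⁻¹ • a)]
    · simp
    · intro b _ hb
      rw [if_neg]
      intro h
      apply hb
      rw [← h]; simp
    · intro h; exact absurd (mem_univ _) h
  rw [this, this, sub_self]

theorem rr_mul (x0 : X) (g h : G) (a c : X) :
    ∑ b, rr x0 g a b * rr x0 h b c = rr x0 (g * h) a c := by
  have h1 : ∀ b, rr x0 g a b * rr x0 h b c =
      (if h • c = b then rr x0 g a b else 0) - rr x0 g a b * (if h • c = x0 then 1 else 0) := by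
    intro b
    conv_lhs => rw [rr.eq_def x0 h b c]
    split_ifs <;> ring
  rw [sum_congr rfl (fun b _ => h1 b), sum_sub_distrib, ← sum_mul, rr_sum, zero_mul, sub_zero,
    sum_ite_eq]
  simp [rr, mul_smul]

/-- The reduced permutation representation on matrices. -/
def rho {α β : Type*} (x0 : X) (A : α → β → G → ℤ) : Matrix (α × X) (β × X) ℤ :=
  Matrix.of fun u v => ∑ g, A u.1 v.1 g * rr x0 g u.2 v.2

theorem rho_apply {α β : Type*} (x0 : X) (A : α → β → G → ℤ) (u : α × X) (v : β × X) :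
    rho x0 A u v = ∑ g, A u.1 v.1 g * rr x0 g u.2 v.2 := rfl

theorem rho_cv {α β γ : Type*} [Fintype β] (x0 : X) (A : α → β → G → ℤ) (B : β → γ → G → ℤ) :
    rho x0 (cv A B) = rho x0 A * rho x0 B := by
  ext u w
  rw [Matrix.mul_apply, Fintype.sum_prod_type, rho_apply]
  unfold cv
  have h1 : ∀ g, (∑ j, ∑ h : G, A u.1 j h * B j w.1 (h⁻¹ * g)) * rr x0 g u.2 w.2 =
      ∑ j, ∑ h : G, A u.1 j h * B j w.1 (h⁻¹ * g) * rr x0 g u.2 w.2 := by
    intro g
    rw [sum_mul]
    apply sum_congr rfl; intro j _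
    rw [sum_mul]
  rw [sum_congr rfl (fun g _ => h1 g), sum_comm]
  apply sum_congr rfl; intro j _
  have h2 : ∀ b, rho x0 A u (j, b) * rho x0 B (j, b) w =
      ∑ h, ∑ k, A u.1 j h * B j w.1 k * (rr x0 h u.2 b * rr x0 k b w.2) := by
    intro b
    rw [rho_apply, rho_apply, sum_mul_sum]
    apply sum_congr rfl; intro h _
    apply sum_congr rfl; intro k _
    ring
  rw [sum_congr rfl (fun b _ => h2 b)]
  have h3 : ∑ b, ∑ h, ∑ k, A u.1 j h * B j w.1 k * (rr x0 h u.2 b * rr x0 k b w.2) =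
      ∑ h, ∑ b, ∑ k, A u.1 j h * B j w.1 k * (rr x0 h u.2 b * rr x0 k b w.2) := sum_comm
  rw [h3, sum_comm]
  apply sum_congr rfl; intro h _
  rw [sum_comm, ← Equiv.sum_comp (Equiv.mulLeft h)]
  apply sum_congr rfl; intro k _
  rw [← mul_sum, rr_mul]
  simp

theorem rho_add {α β : Type*} (x0 : X) (A B : α → β → G → ℤ) :
    rho x0 (A + B) = rho x0 A + rho x0 B := by
  ext u w
  rw [Matrix.add_apply, rho_apply, rho_apply, rho_apply, ← sum_add_distrib]
  apply sum_congr rfl; intro g _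
  change (A u.1 w.1 g + B u.1 w.1 g) * _ = _
  ring

theorem rho_const [MulAction.IsPretransitive G X] {α β : Type*} (x0 : X) (A : α → β → G → ℤ)
    (h : ∀ i j g g', A i j g = A i j g') : rho x0 A = 0 := by
  ext u w
  rw [rho_apply]
  have h1 : ∀ g, A u.1 w.1 g * rr x0 g u.2 w.2 = A u.1 w.1 1 * rr x0 g u.2 w.2 := by
    intro g; rw [h _ _ g 1]
  rw [sum_congr rfl (fun g _ => h1 g), ← mul_sum]
  have h2 : ∑ g : G, rr x0 g u.2 w.2 = 0 := by
    obtain ⟨t, ht⟩ := MulAction.exists_smul_eq G u.2 x0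
    unfold rr
    rw [sum_sub_distrib, sub_eq_zero, ← Equiv.sum_comp (Equiv.mulLeft t)
      (fun g => if g • w.2 = x0 then (1 : ℤ) else 0)]
    apply sum_congr rfl; intro g _
    have : ((Equiv.mulLeft t) g • w.2 = x0) ↔ (g • w.2 = u.2) := by
      rw [Equiv.coe_mulLeft, mul_smul, ← ht]
      exact smul_left_cancel_iff t
    simp only [this]
  rw [h2, mul_zero]; rfl

/-- Support domination. -/
def Dom {α β : Type*} (U : Matrix (α × X) (β × X) ℤ) (W : Matrix α β ℤ) : Prop :=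
  ∀ x y, W x.1 y.1 = 0 → U x y = 0

theorem dom_rho {α β : Type*} (x0 : X) (A : α → β → G → ℤ) (h : ∀ i j g, 0 ≤ A i j g) :
    Dom (rho x0 A) (eps A) := by
  intro x y hxy
  rw [eps_apply] at hxy
  have := (sum_eq_zero_iff_of_nonneg (fun g _ => h x.1 y.1 g)).mp hxy
  rw [rho_apply]
  apply sum_eq_zero; intro g hg
  rw [this g hg, zero_mul]

theorem eps_nonneg {α β : Type*} (A : α → β → G → ℤ) (h : ∀ i j g, 0 ≤ A i j g) :
    ∀ i j, 0 ≤ eps A i j := fun i j => sum_nonneg (fun g _ => h i j g)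

end cv

section nonneg

theorem nn_mul {α β γ : Type*} [Fintype β] {A : Matrix α β ℤ} {B : Matrix β γ ℤ}
    (hA : ∀ i j, 0 ≤ A i j) (hB : ∀ i j, 0 ≤ B i j) : ∀ i j, 0 ≤ (A * B) i j := by
  intro i j
  rw [Matrix.mul_apply]
  exact sum_nonneg (fun k _ => mul_nonneg (hA i k) (hB k j))

theorem nn_pow {α : Type*} [Fintype α] [DecidableEq α] {A : Matrix α α ℤ}
    (hA : ∀ i j, 0 ≤ A i j) (k : ℕ) : ∀ i j, 0 ≤ (A ^ k) i j := by
  induction k with
  | zero =>
    intro i j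
    rw [pow_zero, Matrix.one_apply]
    split_ifs <;> norm_num
  | succ k ih => rw [pow_succ]; exact nn_mul ih hA

theorem pos_mul {α β γ : Type*} [Fintype β] {A : Matrix α β ℤ} {B : Matrix β γ ℤ}
    (hA : ∀ i j, 0 ≤ A i j) (hB : ∀ i j, 0 ≤ B i j) {i : α} {k : β} {j : γ}
    (h1 : 0 < A i k) (h2 : 0 < B k j) : 0 < (A * B) i j := by
  rw [Matrix.mul_apply]
  exact sum_pos' (fun k _ => mul_nonneg (hA i k) (hB k j)) ⟨k, mem_univ _, mul_pos h1 h2⟩

variable {X : Type*} [Fintype X] [DecidableEq X]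

theorem dom_mul {α β γ : Type*} [Fintype β] {U : Matrix (α × X) (β × X) ℤ}
    {V : Matrix (β × X) (γ × X) ℤ} {A : Matrix α β ℤ} {B : Matrix β γ ℤ}
    (hU : Dom U A) (hV : Dom V B) (hA : ∀ i j, 0 ≤ A i j) (hB : ∀ i j, 0 ≤ B i j) :
    Dom (U * V) (A * B) := by
  intro x y hxy
  rw [Matrix.mul_apply] at hxy ⊢
  have := (sum_eq_zero_iff_of_nonneg (fun k _ => mul_nonneg (hA x.1 k) (hB k y.1))).mp hxy
  apply sum_eq_zero; intro z _
  rcases mul_eq_zero.mp (this z.1 (mem_univ _)) with h | h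
  · rw [hU x z h, zero_mul]
  · rw [hV z y h, mul_zero]

theorem dom_one {α : Type*} [DecidableEq α] : Dom (1 : Matrix (α × X) (α × X) ℤ) (1 : Matrix α α ℤ) := by
  intro x y hxy
  by_cases h : x = y
  · subst h; rw [Matrix.one_apply_eq] at hxy; exact absurd hxy one_ne_zero
  · rw [Matrix.one_apply_ne h]

theorem dom_pow {α : Type*} [Fintype α] [DecidableEq α] {U : Matrix (α × X) (α × X) ℤ}
    {A : Matrix α α ℤ} (hU : Dom U A) (hA : ∀ i j, 0 ≤ A i j) (k : ℕ) : Dom (U ^ k) (A ^ k) := by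
  induction k with
  | zero => rw [pow_zero, pow_zero]; exact dom_one
  | succ k ih => rw [pow_succ, pow_succ]; exact dom_mul ih hU (nn_pow hA k) hA

end nonneg

section inv

variable {G : Type*} [Group G] [Fintype G]
variable {X : Type*} [Fintype X] [DecidableEq X] [MulAction G X]

theorem inv_step {α β : Type*} [Fintype α] [Fintype β] [DecidableEq α] [DecidableEq β]
    (x0 : X) (R : α → β → G → ℤ) (S : β → α → G → ℤ)
    (hR : ∀ i j g, 0 ≤ R i j g) (hS : ∀ i j g, 0 ≤ S i j g) (m : ℕ)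
    (htr : ((eps (cv R S)) ^ (2 * (m + 1))).trace = 0) (hn : IsNilpotent (rho x0 (cv R S))) :
    FI ((rho x0 (cv S R)) ^ (m + 1)) = FI ((rho x0 (cv R S)) ^ (m + 1)) := by
  rw [rho_cv] at hn
  rw [rho_cv, rho_cv]
  rw [eps_cv] at htr
  set r := rho x0 R
  set s := rho x0 S
  set a := eps R
  set b := eps S
  have ha : ∀ i j, 0 ≤ a i j := eps_nonneg R hR
  have hb : ∀ i j, 0 ≤ b i j := eps_nonneg S hS
  have hra : Dom r a := dom_rho x0 R hR
  have hsb : Dom s b := dom_rho x0 S hS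
  set U := r * (s * r) ^ m with hU
  have e1 : (r * s) ^ (m + 1) = U * s := mul_pow_succ s r m
  have e2 : (s * r) ^ (m + 1) = s * U := by rw [pow_succ', hU, Matrix.mul_assoc]
  have e3 : (a * b) ^ (m + 1) = (a * (b * a) ^ m) * b := mul_pow_succ b a m
  have hba : ∀ i j, 0 ≤ (b * a) i j := nn_mul hb ha
  have hc : ∀ i j, 0 ≤ (a * (b * a) ^ m) i j := nn_mul ha (nn_pow hba m)
  have hUd : Dom U (a * (b * a) ^ m) :=
    dom_mul hra (dom_pow (dom_mul hsb hra hb ha) hba m) ha (nn_pow hba m)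
  rw [e1, e2]
  apply FI_V
  · rw [← e1]
    obtain ⟨k, hk⟩ := hn
    refine ⟨k, ?_⟩
    rw [← pow_mul, mul_comm, pow_mul, hk, zero_pow (Nat.succ_ne_zero m)]
  · intro i j k l
    by_contra hne
    have n1 : U i k ≠ 0 := by intro h; apply hne; rw [h]; ring
    have n2 : s k j ≠ 0 := by intro h; apply hne; rw [h]; ring
    have n3 : U j l ≠ 0 := by intro h; apply hne; rw [h]; ring
    have n4 : s l i ≠ 0 := by intro h; apply hne; rw [h]; ring
    have p1 : 0 < (a * (b * a) ^ m) i.1 k.1 := lt_of_le_of_ne (hc _ _) (fun h => n1 (hUd _ _ h.symm))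
    have p2 : 0 < b k.1 j.1 := lt_of_le_of_ne (hb _ _) (fun h => n2 (hsb _ _ h.symm))
    have p3 : 0 < (a * (b * a) ^ m) j.1 l.1 := lt_of_le_of_ne (hc _ _) (fun h => n3 (hUd _ _ h.symm))
    have p4 : 0 < b l.1 i.1 := lt_of_le_of_ne (hb _ _) (fun h => n4 (hsb _ _ h.symm))
    have q1 : 0 < ((a * b) ^ (m + 1)) i.1 j.1 := by rw [e3]; exact pos_mul hc hb p1 p2
    have q2 : 0 < ((a * b) ^ (m + 1)) j.1 i.1 := by rw [e3]; exact pos_mul hc hb p3 p4
    have hab : ∀ i j, 0 ≤ (a * b) i j := nn_mul ha hb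
    have q3 : 0 < ((a * b) ^ (2 * (m + 1))) i.1 i.1 := by
      rw [two_mul, pow_add]
      exact pos_mul (nn_pow hab _) (nn_pow hab _) q1 q2
    have q4 : 0 < ((a * b) ^ (2 * (m + 1))).trace := by
      rw [Matrix.trace]
      exact sum_pos' (fun k _ => nn_pow hab _ k k) ⟨i.1, mem_univ _, q3⟩
    rw [htr] at q4
    exact lt_irrefl _ q4

theorem trace_pow_swap {α β : Type*} [Fintype α] [Fintype β] [DecidableEq α] [DecidableEq β]
    (R : Matrix α β ℤ) (S : Matrix β α ℤ) (k : ℕ) :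
    ((S * R) ^ (k + 1)).trace = ((R * S) ^ (k + 1)).trace := by
  rw [mul_pow_succ, Matrix.mul_assoc, Matrix.trace_mul_comm, Matrix.mul_assoc, ← pow_succ]

/-- The space of all matrices over the group ring, as functions. -/
abbrev SM (G : Type) : Type := Σ n : ℕ, (Fin n → Fin n → G → ℤ)

end inv

section eqv

variable {G : Type} [Group G] [Fintype G]
variable {X : Type*} [Fintype X] [DecidableEq X] [MulAction G X]

/-- Elementary equivalence over the positive cone. -/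
def EP (P Q : SM G) : Prop :=
  ∃ (R : Fin P.1 → Fin Q.1 → G → ℤ) (S : Fin Q.1 → Fin P.1 → G → ℤ),
    (∀ i j g, 0 ≤ R i j g) ∧ (∀ i j g, 0 ≤ S i j g) ∧ P.2 = cv R S ∧ Q.2 = cv S R

/-- The condition under which the invariant is defined. -/
def Good (x0 : X) (m : ℕ) (P : SM G) : Prop :=
  ((eps P.2) ^ (2 * (m + 1))).trace = 0 ∧ IsNilpotent (rho x0 P.2)

theorem EP_good (x0 : X) (m : ℕ) (P Q : SM G) (h : EP P Q) (hP : Good x0 m P) :
    Good x0 m Q ∧ FI ((rho x0 Q.2) ^ (m + 1)) = FI ((rho x0 P.2) ^ (m + 1)) := by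
  obtain ⟨R, S, hR, hS, e1, e2⟩ := h
  obtain ⟨h1, h2⟩ := hP
  rw [e1] at h1 h2
  refine ⟨⟨?_, ?_⟩, ?_⟩
  · rw [e2, eps_cv]
    rw [eps_cv] at h1
    have : 2 * (m + 1) = (2 * m + 1) + 1 := by ring
    rw [this] at h1 ⊢
    rw [trace_pow_swap, h1]
  · rw [e2, rho_cv]
    rw [rho_cv] at h2
    exact nil_swap h2
  · rw [e1, e2]
    exact inv_step x0 R S hR hS m h1 h2

theorem EP_symm (P Q : SM G) (h : EP P Q) : EP Q P := by
  obtain ⟨R, S, hR, hS, e1, e2⟩ := h
  exact ⟨S, R, hS, hR, e2, e1⟩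

theorem eqv_good (x0 : X) (m : ℕ) (P Q : SM G) (h : Relation.EqvGen EP P Q) :
    (Good x0 m P ↔ Good x0 m Q) ∧
      (Good x0 m P → FI ((rho x0 Q.2) ^ (m + 1)) = FI ((rho x0 P.2) ^ (m + 1))) := by
  induction h with
  | rel P Q h =>
    exact ⟨⟨fun hP => (EP_good x0 m P Q h hP).1, fun hQ => (EP_good x0 m Q P (EP_symm _ _ h) hQ).1⟩,
      fun hP => (EP_good x0 m P Q h hP).2⟩
  | refl P => exact ⟨Iff.rfl, fun _ => rfl⟩
  | symm P Q _ ih => exact ⟨ih.1.symm, fun hQ => (ih.2 (ih.1.mpr hQ)).symm⟩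
  | trans P Q T _ _ ih1 ih2 =>
    exact ⟨ih1.1.trans ih2.1, fun hP => (ih2.2 (ih1.1.mp hP)).trans (ih1.2 hP)⟩

end eqv

end Pool.Agent.Helper817_sse
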