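import Mathlib
import Pool.Agent.Helper817_sse.Rep

set_option autoImplicit false
set_option linter.unusedSectionVars false

/-!
# Strong shift equivalence over the integral group ring
-/

namespace Pool.Agent.Helper817_sse

open Matrix Finset

variable {G : Type} [Group G] [Fintype G]

/-- The integral group ring. -/
abbrev Lam (G : Type) [Group G] : Type := MonoidAlgebra ℤ G

/-- The coefficient functions of a matrix over the group ring. -/
def fn {α β : Type*} (A : Matrix α β (Lam G)) : α → β → G → ℤ := fun i j g => (A i j).coeff g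

theorem fn_mul {α β γ : Type*} [Fintype β] (A : Matrix α β (Lam G)) (B : Matrix β γ (Lam G)) :
    fn (A * B) = cv (fn A) (fn B) := by
  funext i l g
  unfold fn cv
  rw [Matrix.mul_apply]
  have h1 : (∑ j, A i j * B j l).coeff g = ∑ j, (A i j * B j l).coeff g := by
    rw [MonoidAlgebra.coeff_sum, Finsupp.finsetSum_apply]
  rw [h1]
  apply sum_congr rfl; intro j _
  rw [MonoidAlgebra.coeff_mul_apply_left, Finsupp.sum_fintype]
  intro h
  rw [zero_mul]

/-- Elementary equivalence over the group ring. -/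
def EZ (P Q : SM G) : Prop :=
  ∃ (R : Fin P.1 → Fin Q.1 → G → ℤ) (S : Fin Q.1 → Fin P.1 → G → ℤ),
    P.2 = cv R S ∧ Q.2 = cv S R

/-- The matrix over `Fin n` attached to a matrix with arbitrary finite index type. -/
noncomputable def sig {α : Type*} [Fintype α] (A : Matrix α α (Lam G)) : SM G :=
  ⟨Fintype.card α, fun i j => fn A ((Fintype.equivFin α).symm i) ((Fintype.equivFin α).symm j)⟩

/-- Strong shift equivalence over the group ring. -/
def SZ {α β : Type*} [Fintype α] [Fintype β] (A : Matrix α α (Lam G)) (B : Matrix β β (Lam G)) :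
    Prop := Relation.EqvGen EZ (sig A) (sig B)

section
variable {α β γ : Type*} [Fintype α] [Fintype β] [Fintype γ]

theorem SZ.trans {A : Matrix α α (Lam G)} {B : Matrix β β (Lam G)} {C : Matrix γ γ (Lam G)}
    (h1 : SZ A B) (h2 : SZ B C) : SZ A C := Relation.EqvGen.trans _ _ _ h1 h2

theorem SZ.symm {A : Matrix α α (Lam G)} {B : Matrix β β (Lam G)} (h : SZ A B) : SZ B A :=
  Relation.EqvGen.symm _ _ h

theorem SZ.refl (A : Matrix α α (Lam G)) : SZ A A := Relation.EqvGen.refl _

theorem fn_mul_sub {a b : ℕ} (e : Fin a ≃ α) (f : Fin b ≃ β) (R : Matrix α β (Lam G))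
    (S : Matrix β α (Lam G)) : (fun i j => fn (R * S) (e i) (e j)) =
      cv (fn (R.submatrix e f)) (fn (S.submatrix f e)) := by
  rw [← fn_mul, submatrix_mul_equiv]
  rfl

theorem SZ_mul (R : Matrix α β (Lam G)) (S : Matrix β α (Lam G)) : SZ (R * S) (S * R) := by
  apply Relation.EqvGen.rel
  exact ⟨fn (R.submatrix (Fintype.equivFin α).symm (Fintype.equivFin β).symm),
    fn (S.submatrix (Fintype.equivFin β).symm (Fintype.equivFin α).symm),
    fn_mul_sub (Fintype.equivFin α).symm (Fintype.equivFin β).symm R S,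
    fn_mul_sub (Fintype.equivFin β).symm (Fintype.equivFin α).symm S R⟩

theorem SZ_of_mul {A : Matrix α α (Lam G)} {B : Matrix β β (Lam G)} (R : Matrix α β (Lam G))
    (S : Matrix β α (Lam G)) (h1 : A = R * S) (h2 : B = S * R) : SZ A B := by
  rw [h1, h2]; exact SZ_mul R S

variable [DecidableEq α] [DecidableEq β]

theorem SZ_add (C T : Matrix α α (Lam G)) (h : C * T = 0) :
    SZ (T + C) (Matrix.fromBlocks T 1 0 C) := by
  apply SZ_of_mul (Matrix.fromCols T 1) (Matrix.fromRows 1 C)
  · rw [Matrix.fromCols_mul_fromRows, Matrix.mul_one, Matrix.one_mul]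
  · rw [Matrix.fromRows_mul_fromCols, Matrix.one_mul, Matrix.one_mul, h, Matrix.mul_one]

theorem SZ_conj (T P P' : Matrix α α (Lam G)) (X : Matrix α β (Lam G)) (C : Matrix β β (Lam G))
    (h : P * P' = 1) :
    SZ (Matrix.fromBlocks T X 0 C) (Matrix.fromBlocks (P' * T * P) (P' * X) 0 C) := by
  apply SZ_of_mul (Matrix.fromBlocks P 0 0 1) (Matrix.fromBlocks (P' * T) (P' * X) 0 C)
  · rw [Matrix.fromBlocks_multiply]
    simp only [Matrix.zero_mul, add_zero, Matrix.mul_zero, zero_add, Matrix.one_mul]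
    rw [← Matrix.mul_assoc, ← Matrix.mul_assoc, h, Matrix.one_mul, Matrix.one_mul]
  · rw [Matrix.fromBlocks_multiply]
    simp only [Matrix.zero_mul, add_zero, Matrix.mul_zero, zero_add, Matrix.mul_one]

theorem SZ_zero (X : Matrix α β (Lam G)) (C : Matrix β β (Lam G)) :
    SZ (Matrix.fromBlocks (0 : Matrix α α (Lam G)) X 0 C) C := by
  apply SZ_of_mul (Matrix.fromRows X C) (Matrix.fromCols (0 : Matrix β α (Lam G)) 1)
  · rw [Matrix.fromRows_mul_fromCols]
    simp only [Matrix.mul_zero, Matrix.mul_one]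
  · rw [Matrix.fromCols_mul_fromRows, Matrix.zero_mul, zero_add, Matrix.one_mul]

theorem SZ_rank_aux (r : α → ℕ) (m : ℕ) (hm : ∀ x, r x < m) (C : Matrix β β (Lam G)) :
    ∀ (d k : ℕ), k + d = m → ∀ (T : Matrix α α (Lam G)), (∀ x y, T x y ≠ 0 → r x < r y) →
      (∀ x y, T x y ≠ 0 → k ≤ r x) → ∀ X : Matrix α β (Lam G),
      SZ (Matrix.fromBlocks T X 0 C) C := by
  intro d
  induction d with
  | zero =>
    intro k hk T _ h2 X
    have : T = 0 := by
      ext1 x y
      by_contra h
      have := h2 x y h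
      have := hm x
      omega
    rw [this]
    exact SZ_zero X C
  | succ d ih =>
    intro k hk T h1 h2 X
    set e : Matrix α α (Lam G) := Matrix.diagonal (fun x => if k + 1 ≤ r x then 1 else 0) with he
    have hTe : T * e = T := by
      ext1 x y
      rw [he, Matrix.mul_diagonal]
      by_cases h : T x y = 0
      · rw [h, zero_mul]
      · have a1 := h1 x y h
        have a2 := h2 x y h
        rw [if_pos (by omega), mul_one]
    have s1 : SZ (Matrix.fromBlocks T X 0 C) (Matrix.fromBlocks (e * T) (e * X) 0 C) := by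
      apply SZ_of_mul (Matrix.fromBlocks T X 0 C) (Matrix.fromBlocks e 0 0 1)
      · rw [Matrix.fromBlocks_multiply]
        simp only [Matrix.zero_mul, add_zero, Matrix.mul_zero, zero_add, Matrix.mul_one, hTe]
      · rw [Matrix.fromBlocks_multiply]
        simp only [Matrix.zero_mul, add_zero, Matrix.mul_zero, zero_add, Matrix.one_mul]
    have hk1 : ∀ x y, (e * T) x y ≠ 0 → T x y ≠ 0 ∧ k + 1 ≤ r x := by
      intro x y h
      rw [he, Matrix.diagonal_mul] at h
      refine ⟨fun h0 => h (by rw [h0, mul_zero]), ?_⟩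
      by_contra h3
      exact h (by rw [if_neg h3, zero_mul])
    exact s1.trans (ih (k + 1) (by omega) (e * T) (fun x y h => h1 x y (hk1 x y h).1)
      (fun x y h => (hk1 x y h).2) (e * X))

theorem SZ_rank (r : α → ℕ) (C : Matrix β β (Lam G)) (T : Matrix α α (Lam G))
    (h1 : ∀ x y, T x y ≠ 0 → r x < r y) (X : Matrix α β (Lam G)) :
    SZ (Matrix.fromBlocks T X 0 C) C := by
  obtain ⟨m, hm⟩ : ∃ m, ∀ x, r x < m := by
    refine ⟨univ.sup r + 1, fun x => ?_⟩
    have := Finset.le_sup (f := r) (mem_univ x)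
    omega
  exact SZ_rank_aux r m hm C m 0 (by omega) T h1 (fun x y _ => Nat.zero_le _) X

/-- Adding a triangularizable nilpotent matrix `T` with `C * T = 0` does not change the class. -/
theorem SZ_nil (C T P P' : Matrix α α (Lam G)) (h : C * T = 0) (hP : P * P' = 1) (r : α → ℕ)
    (h1 : ∀ x y, (P' * T * P) x y ≠ 0 → r x < r y) : SZ (T + C) C :=
  ((SZ_add C T h).trans (SZ_conj T P P' 1 C hP)).trans (SZ_rank r C _ h1 _)

end

end Pool.Agent.Helper817_sse
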