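import Mathlib
import Pool.Agent.Helper817_sse.SZ
import Pool.Agent.Helper817_sse.Tri

set_option autoImplicit false
set_option linter.unusedSectionVars false

/-!
# The invariants attached to an integral representation
-/

namespace Pool.Agent.Helper817_sse

open Matrix Finset

section th

variable {G : Type*} [Group G] [Fintype G] {δ : Type*} [Fintype δ] [DecidableEq δ]

/-- The integer matrix obtained by applying a representation to the coefficients. -/
def thf {α β : Type*} (θ : G →* Matrix δ δ ℤ) (A : α → β → G → ℤ) : Matrix (α × δ) (β × δ) ℤ :=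
  Matrix.of fun u v => ∑ g, A u.1 v.1 g * θ g u.2 v.2

theorem thf_apply {α β : Type*} (θ : G →* Matrix δ δ ℤ) (A : α → β → G → ℤ) (u : α × δ) (v : β × δ) :
    thf θ A u v = ∑ g, A u.1 v.1 g * θ g u.2 v.2 := rfl

theorem thf_cv {α β γ : Type*} [Fintype β] (θ : G →* Matrix δ δ ℤ) (A : α → β → G → ℤ)
    (B : β → γ → G → ℤ) : thf θ (cv A B) = thf θ A * thf θ B := by
  ext u w
  rw [Matrix.mul_apply, Fintype.sum_prod_type, thf_apply]
  unfold cv
  have h1 : ∀ g, (∑ j, ∑ h : G, A u.1 j h * B j w.1 (h⁻¹ * g)) * θ g u.2 w.2 =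
      ∑ j, ∑ h : G, A u.1 j h * B j w.1 (h⁻¹ * g) * θ g u.2 w.2 := by
    intro g
    rw [sum_mul]
    apply sum_congr rfl; intro j _
    rw [sum_mul]
  rw [sum_congr rfl (fun g _ => h1 g), sum_comm]
  apply sum_congr rfl; intro j _
  have h2 : ∀ b, thf θ A u (j, b) * thf θ B (j, b) w =
      ∑ h, ∑ k, A u.1 j h * B j w.1 k * (θ h u.2 b * θ k b w.2) := by
    intro b
    rw [thf_apply, thf_apply, sum_mul_sum]
    apply sum_congr rfl; intro h _
    apply sum_congr rfl; intro k _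
    ring
  rw [sum_congr rfl (fun b _ => h2 b)]
  have h3 : ∑ b, ∑ h, ∑ k, A u.1 j h * B j w.1 k * (θ h u.2 b * θ k b w.2) =
      ∑ h, ∑ b, ∑ k, A u.1 j h * B j w.1 k * (θ h u.2 b * θ k b w.2) := sum_comm
  rw [h3, sum_comm]
  apply sum_congr rfl; intro h _
  rw [sum_comm, ← Equiv.sum_comp (Equiv.mulLeft h)]
  apply sum_congr rfl; intro k _
  rw [← mul_sum, ← Matrix.mul_apply, ← map_mul]
  simp

theorem dom_thf {α β : Type*} (θ : G →* Matrix δ δ ℤ) (A : α → β → G → ℤ)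
    (h : ∀ i j g, 0 ≤ A i j g) : Dom (thf θ A) (eps A) := by
  intro x y hxy
  rw [eps_apply] at hxy
  have := (sum_eq_zero_iff_of_nonneg (fun g _ => h x.1 y.1 g)).mp hxy
  rw [thf_apply]
  apply sum_eq_zero; intro g hg
  rw [this g hg, zero_mul]

theorem inv_step2 {α β : Type*} [Fintype α] [Fintype β] [DecidableEq α] [DecidableEq β]
    (θ : G →* Matrix δ δ ℤ) (R : α → β → G → ℤ) (S : β → α → G → ℤ)
    (hR : ∀ i j g, 0 ≤ R i j g) (hS : ∀ i j g, 0 ≤ S i j g) (m : ℕ)
    (htr : ((eps (cv R S)) ^ (2 * (m + 1))).trace = 0) (hn : IsNilpotent (thf θ (cv R S))) :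
    FI ((thf θ (cv S R)) ^ (m + 1)) = FI ((thf θ (cv R S)) ^ (m + 1)) := by
  rw [thf_cv] at hn
  rw [thf_cv, thf_cv]
  rw [eps_cv] at htr
  set r := thf θ R
  set s := thf θ S
  set a := eps R
  set b := eps S
  have ha : ∀ i j, 0 ≤ a i j := eps_nonneg R hR
  have hb : ∀ i j, 0 ≤ b i j := eps_nonneg S hS
  have hra : Dom r a := dom_thf θ R hR
  have hsb : Dom s b := dom_thf θ S hS
  set U := r * (s * r) ^ m with hU
  have e1 : (r * s) ^ (m + 1) = U * s := mul_pow_succ s r m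
  have e2 : (s * r) ^ (m + 1) = s * U := by rw [pow_succ', hU, Matrix.mul_assoc]
  have e3 : (a * b) ^ (m + 1) = (a * (b * a) ^ m) * b := mul_pow_succ b a m
  have hba : ∀ i j, 0 ≤ (b * a) i j := nn_mul hb ha
  have hc : ∀ i j, 0 ≤ (a * (b * a) ^ m) i j := nn_mul ha (nn_pow hba m)
  have hUd : Dom U (a * (b * a) ^ m) :=
    dom_mul hra (dom_pow (dom_mul hsb hra hb ha) hba m) ha (nn_pow hba m)
  rw [e1, e2]
  apply FI_V
  · rw [← e1]
    obtain ⟨k, hk⟩ := hn
    refine ⟨k, ?_⟩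
    rw [← pow_mul, mul_comm, pow_mul, hk, zero_pow (Nat.succ_ne_zero m)]
  · intro i j k l
    by_contra hne
    have n1 : U i k ≠ 0 := by intro h; apply hne; rw [h]; ring
    have n2 : s k j ≠ 0 := by intro h; apply hne; rw [h]; ring
    have n3 : U j l ≠ 0 := by intro h; apply hne; rw [h]; ring
    have n4 : s l i ≠ 0 := by intro h; apply hne; rw [h]; ring
    have p1 : 0 < (a * (b * a) ^ m) i.1 k.1 := lt_of_le_of_ne (hc _ _) (fun h => n1 (hUd _ _ h.symm))
    have p2 : 0 < b k.1 j.1 := lt_of_le_of_ne (hb _ _) (fun h => n2 (hsb _ _ h.symm))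
    have p3 : 0 < (a * (b * a) ^ m) j.1 l.1 := lt_of_le_of_ne (hc _ _) (fun h => n3 (hUd _ _ h.symm))
    have p4 : 0 < b l.1 i.1 := lt_of_le_of_ne (hb _ _) (fun h => n4 (hsb _ _ h.symm))
    have q1 : 0 < ((a * b) ^ (m + 1)) i.1 j.1 := by rw [e3]; exact pos_mul hc hb p1 p2
    have q2 : 0 < ((a * b) ^ (m + 1)) j.1 i.1 := by rw [e3]; exact pos_mul hc hb p3 p4
    have hab : ∀ i j, 0 ≤ (a * b) i j := nn_mul ha hb
    have q3 : 0 < ((a * b) ^ (2 * (m + 1))) i.1 i.1 := by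
      rw [two_mul, pow_add]
      exact pos_mul (nn_pow hab _) (nn_pow hab _) q1 q2
    have q4 : 0 < ((a * b) ^ (2 * (m + 1))).trace := by
      rw [Matrix.trace]
      exact sum_pos' (fun k _ => nn_pow hab _ k k) ⟨i.1, mem_univ _, q3⟩
    rw [htr] at q4
    exact lt_irrefl _ q4

end th

section eqv

variable {G : Type} [Group G] [Fintype G] {δ : Type*} [Fintype δ] [DecidableEq δ]

/-- The invariants. -/
noncomputable def FQ (θ : G →* Matrix δ δ ℤ) (q : ℕ) (P : SM G) : ZMod 2 := FI ((thf θ P.2) ^ q)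

/-- The traces of the powers of the augmentation. -/
def trq (q : ℕ) (P : SM G) : ℤ := ((eps P.2) ^ q).trace

/-- Nilpotency of the image. -/
def NilT (θ : G →* Matrix δ δ ℤ) (P : SM G) : Prop := IsNilpotent (thf θ P.2)

theorem EZ_tr (q : ℕ) (P Q : SM G) (h : EZ P Q) : trq (q + 1) P = trq (q + 1) Q := by
  obtain ⟨R, S, e1, e2⟩ := h
  unfold trq
  rw [e1, e2, eps_cv, eps_cv, trace_pow_swap]

theorem EZ_nil (θ : G →* Matrix δ δ ℤ) (P Q : SM G) (h : EZ P Q) : NilT θ P ↔ NilT θ Q := by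
  obtain ⟨R, S, e1, e2⟩ := h
  unfold NilT
  rw [e1, e2, thf_cv, thf_cv]
  exact ⟨nil_swap, nil_swap⟩

theorem eqv_tr (q : ℕ) (P Q : SM G) (h : Relation.EqvGen EZ P Q) : trq (q + 1) P = trq (q + 1) Q := by
  induction h with
  | rel P Q h => exact EZ_tr q P Q h
  | refl P => rfl
  | symm P Q _ ih => exact ih.symm
  | trans P Q T _ _ ih1 ih2 => exact ih1.trans ih2

theorem eqv_nil (θ : G →* Matrix δ δ ℤ) (P Q : SM G) (h : Relation.EqvGen EZ P Q) :
    NilT θ P ↔ NilT θ Q := by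
  induction h with
  | rel P Q h => exact EZ_nil θ P Q h
  | refl P => rfl
  | symm P Q _ ih => exact ih.symm
  | trans P Q T _ _ ih1 ih2 => exact ih1.trans ih2

theorem EP_EZ (P Q : SM G) (h : EP P Q) : EZ P Q := by
  obtain ⟨R, S, _, _, e1, e2⟩ := h
  exact ⟨R, S, e1, e2⟩

theorem eqv_EZ (P Q : SM G) (h : Relation.EqvGen EP P Q) : Relation.EqvGen EZ P Q := by
  induction h with
  | rel P Q h => exact Relation.EqvGen.rel _ _ (EP_EZ P Q h)
  | refl P => exact Relation.EqvGen.refl _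
  | symm P Q _ ih => exact Relation.EqvGen.symm _ _ ih
  | trans P Q T _ _ ih1 ih2 => exact Relation.EqvGen.trans _ _ _ ih1 ih2

theorem EP_FQ (θ : G →* Matrix δ δ ℤ) (m : ℕ) (P Q : SM G) (h : EP P Q)
    (h1 : trq (2 * (m + 1)) P = 0) (h2 : NilT θ P) : FQ θ (m + 1) Q = FQ θ (m + 1) P := by
  obtain ⟨R, S, hR, hS, e1, e2⟩ := h
  unfold FQ
  unfold trq at h1
  unfold NilT at h2
  rw [e1] at h1 h2
  rw [e1, e2]
  exact inv_step2 θ R S hR hS m h1 h2

/-- Invariance under strong shift equivalence over the positive cone. -/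
theorem eqv_FQ (θ : G →* Matrix δ δ ℤ) (m : ℕ) (P Q : SM G) (h : Relation.EqvGen EP P Q) :
    trq (2 * (m + 1)) P = 0 → NilT θ P → FQ θ (m + 1) Q = FQ θ (m + 1) P := by
  induction h with
  | rel P Q h => exact EP_FQ θ m P Q h
  | refl P => intro _ _; rfl
  | symm P Q h ih =>
    intro h1 h2
    have e := eqv_EZ _ _ h
    have h3 : 2 * (m + 1) = (2 * m + 1) + 1 := by ring
    rw [h3] at h1 ih
    exact (ih ((eqv_tr _ _ _ e).trans h1) ((eqv_nil θ _ _ e).mpr h2)).symm
  | trans P Q T ha hb ih1 ih2 =>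
    intro h1 h2
    have e := eqv_EZ _ _ ha
    have h3 : 2 * (m + 1) = (2 * m + 1) + 1 := by ring
    rw [ih2 (by rw [h3, ← eqv_tr _ _ _ e, ← h3]; exact h1) ((eqv_nil θ _ _ e).mp h2)]
    exact ih1 h1 h2

end eqv

section mat

variable {G : Type} [Group G] [Fintype G] {δ : Type*} [Fintype δ] [DecidableEq δ]

/-- The integer matrix attached to a matrix over the group ring. -/
def th {α β : Type*} (θ : G →* Matrix δ δ ℤ) (A : Matrix α β (Lam G)) : Matrix (α × δ) (β × δ) ℤ :=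
  thf θ (fn A)

theorem th_apply {α β : Type*} (θ : G →* Matrix δ δ ℤ) (A : Matrix α β (Lam G)) (u : α × δ)
    (v : β × δ) : th θ A u v = ∑ g, (A u.1 v.1).coeff g * θ g u.2 v.2 := rfl

theorem th_mul {α β γ : Type*} [Fintype β] (θ : G →* Matrix δ δ ℤ) (A : Matrix α β (Lam G))
    (B : Matrix β γ (Lam G)) : th θ (A * B) = th θ A * th θ B := by
  unfold th
  rw [fn_mul, thf_cv]

theorem th_ne {α β : Type*} (θ : G →* Matrix δ δ ℤ) (A : Matrix α β (Lam G)) (u : α × δ)
    (v : β × δ) (h : th θ A u v ≠ 0) : A u.1 v.1 ≠ 0 := by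
  intro h0
  apply h
  rw [th_apply]
  apply sum_eq_zero; intro g _
  rw [h0]
  change (0 : ℤ) * _ = 0
  rw [zero_mul]

theorem th_one {α : Type*} [DecidableEq α] (θ : G →* Matrix δ δ ℤ) :
    th θ (1 : Matrix α α (Lam G)) = 1 := by
  classical
  ext u v
  rw [th_apply]
  by_cases h : u.1 = v.1
  · rw [h, Matrix.one_apply_eq, sum_eq_single 1]
    · rw [MonoidAlgebra.one_def, MonoidAlgebra.coeff_single, Finsupp.single_eq_same, one_mul, map_one]
      by_cases h2 : u.2 = v.2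
      · rw [h2, Matrix.one_apply_eq, Prod.ext h h2, Matrix.one_apply_eq]
      · rw [Matrix.one_apply_ne h2, Matrix.one_apply_ne (fun e => h2 (by rw [e]))]
    · intro g _ hg
      rw [MonoidAlgebra.one_def, MonoidAlgebra.coeff_single, Finsupp.single_eq_of_ne hg, zero_mul]
    · intro h; exact absurd (mem_univ _) h
  · rw [Matrix.one_apply_ne h, Matrix.one_apply_ne (fun e => h (by rw [e]))]
    apply sum_eq_zero; intro g _
    change (0 : ℤ) * _ = 0
    rw [zero_mul]

theorem th_pow {α : Type*} [Fintype α] [DecidableEq α] (θ : G →* Matrix δ δ ℤ)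
    (A : Matrix α α (Lam G)) (k : ℕ) : th θ (A ^ k) = (th θ A) ^ k := by
  induction k with
  | zero => rw [pow_zero, pow_zero, th_one]
  | succ k ih => rw [pow_succ, th_mul, ih, ← pow_succ]

theorem th_sub {α β α' β' : Type*} (θ : G →* Matrix δ δ ℤ) (A : Matrix α β (Lam G)) (e : α' → α)
    (f : β' → β) : th θ (A.submatrix e f) =
      (th θ A).submatrix (Prod.map e id) (Prod.map f id) := rfl

end mat

end Pool.Agent.Helper817_sse
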