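import Mathlib
import Pool.Agent.Helper817_sse.Fam
import Pool.Agent.Helper817_sse.Rep2

set_option autoImplicit false
set_option linter.unusedSectionVars false

/-!
# Gadgets over the group ring
-/

namespace Pool.Agent.Helper817_sse

open Matrix Finset

section bound

open Polynomial

/-- All coefficients are bounded. -/
def Bd (p : ℤ[X]) (c : ℤ) : Prop := ∀ n, |p.coeff n| ≤ c

theorem Bd_add {p q : ℤ[X]} {c d : ℤ} (hp : Bd p c) (hq : Bd q d) : Bd (p + q) (c + d) := by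
  intro n
  rw [coeff_add]
  exact (abs_add_le _ _).trans (add_le_add (hp n) (hq n))

theorem Bd_neg {p : ℤ[X]} {c : ℤ} (hp : Bd p c) : Bd (-p) c := by
  intro n
  rw [coeff_neg, abs_neg]
  exact hp n

theorem Bd_sub {p q : ℤ[X]} {c d : ℤ} (hp : Bd p c) (hq : Bd q d) : Bd (p - q) (c + d) := by
  rw [sub_eq_add_neg]
  exact Bd_add hp (Bd_neg hq)

theorem Bd_Xpow_mul {p : ℤ[X]} {c : ℤ} (k : ℕ) (hc : 0 ≤ c) (hp : Bd p c) : Bd (X ^ k * p) c := by
  intro n
  rw [coeff_X_pow_mul']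
  split_ifs
  · exact hp _
  · simpa using hc

theorem Bd_X_mul {p : ℤ[X]} {c : ℤ} (hc : 0 ≤ c) (hp : Bd p c) : Bd (X * p) c := by
  have := Bd_Xpow_mul 1 hc hp
  rwa [pow_one] at this

theorem Bd_one : Bd (1 : ℤ[X]) 1 := by
  intro n
  rw [coeff_one]
  split_ifs <;> simp

theorem Bd_Xpow (k : ℕ) : Bd ((X : ℤ[X]) ^ k) 1 := by
  have := Bd_Xpow_mul k (by norm_num) Bd_one
  rwa [mul_one] at this

theorem Bd_X : Bd (X : ℤ[X]) 1 := by
  have := Bd_Xpow 1
  rwa [pow_one] at this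

theorem Bd_W (k : ℕ) : Bd (Wk' k) 1 := by
  intro n
  unfold Wk'
  rw [finsetSum_coeff]
  simp only [coeff_X_pow]
  rw [sum_ite_eq]
  split_ifs <;> simp

theorem Bd_mono {p : ℤ[X]} {c d : ℤ} (h : c ≤ d) (hp : Bd p c) : Bd p d := fun n => (hp n).trans h

theorem cf_bound (k i : ℕ) (a b : Fin 2) : |cf (XX X (Wk' k)) i a b| ≤ 6 := by
  have E := XX_explicit X (Wk' k) (X ^ k) (Wk'_eq k)
  have e00 : (XX X (Wk' k)) 0 0 = 1 + -(X ^ k * (1 + X)) := by rw [E]; simp; ring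
  have e01 : (XX X (Wk' k)) 0 1 = -(X ^ k * (1 + X - X ^ 2 - X ^ 3)) := by rw [E]; simp
  have e10 : (XX X (Wk' k)) 1 0 = X ^ k * (1 + Wk' k + X * Wk' k) := by rw [E]; simp; ring
  have e11 : (XX X (Wk' k)) 1 1 = 1 + (X ^ k * (1 + X) - X ^ k * (X ^ k * (1 + X + X * (1 + X)))) := by
    rw [E]; simp; ring
  have b00 : Bd (-(X ^ k * (1 + X))) 6 :=
    Bd_mono (by norm_num) (Bd_neg (Bd_Xpow_mul k (by norm_num) (Bd_add Bd_one Bd_X)))
  have b01 : Bd (-(X ^ k * (1 + X - X ^ 2 - X ^ 3))) 6 :=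
    Bd_mono (by norm_num) (Bd_neg (Bd_Xpow_mul k (by norm_num)
        (Bd_sub (Bd_sub (Bd_add Bd_one Bd_X) (Bd_Xpow 2)) (Bd_Xpow 3))))
  have b10 : Bd (X ^ k * (1 + Wk' k + X * Wk' k)) 6 :=
    Bd_mono (by norm_num) (Bd_Xpow_mul k (by norm_num)
        (Bd_add (Bd_add Bd_one (Bd_W k)) (Bd_X_mul (by norm_num) (Bd_W k))))
  have b11 : Bd (X ^ k * (1 + X) - X ^ k * (X ^ k * (1 + X + X * (1 + X)))) 6 :=
    Bd_mono (by norm_num) (Bd_sub (Bd_Xpow_mul k (by norm_num) (Bd_add Bd_one Bd_X))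
        (Bd_Xpow_mul k (by norm_num) (Bd_Xpow_mul k (by norm_num)
          (Bd_add (Bd_add Bd_one Bd_X) (Bd_X_mul (by norm_num) (Bd_add Bd_one Bd_X))))))
  have hb : ∀ a b : Fin 2, ∃ p : ℤ[X], Bd p 6 ∧ ((XX X (Wk' k)) a b = p ∨ (XX X (Wk' k)) a b = 1 + p) := by
    intro a b
    match a, b with
    | 0, 0 => exact ⟨_, b00, Or.inr e00⟩
    | 0, 1 => exact ⟨_, b01, Or.inl e01⟩
    | 1, 0 => exact ⟨_, b10, Or.inl e10⟩
    | 1, 1 => exact ⟨_, b11, Or.inr e11⟩
  change |-((XX X (Wk' k)) a b).coeff (i + 1)| ≤ 6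
  rw [abs_neg]
  obtain ⟨p, hp, e | e⟩ := hb a b
  · rw [e]; exact hp _
  · rw [e, coeff_add, coeff_one, if_neg (by omega), zero_add]
    exact hp _

end bound

/-- Gadgets with arbitrarily long cycles and bounded coefficients. -/
theorem gadget_exists (k0 : ℕ) : ∃ (w : ℕ → Matrix (Fin 2) (Fin 2) ℤ) (T : ℕ), 1 ≤ T ∧
    (∀ i, i < k0 → w i = 0) ∧ (∀ i, T ≤ i → w i = 0) ∧ (∀ i a b, |w i a b| ≤ 6) ∧
    IsNilpotent (Cm T w) ∧ (∀ i j, Cm T w i j * Cm T w j i = 0) ∧ FI (Cm T w) = 1 := by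
  set k := k0 + 4 with hk
  have hD := Dk_XX k
  obtain ⟨_, T, h1, h2, h3, h4⟩ := Val_XX k (by omega)
  refine ⟨cf (XX Polynomial.X (Wk' k)), T, h1, ?_, h2, cf_bound k, h3, ?_, h4⟩
  · intro i hi
    exact Dk_cf hD i (by omega)
  · exact WP_short KA_K1 (WP_Cm KA_K1 T _ (Sup_K1 (Dk_mono (by omega) hD)))

section tn

theorem TN_int : ∀ (n : ℕ) (M : Matrix (Fin n) (Fin n) ℤ), IsNilpotent M →
    ∃ P P' : Matrix (Fin n) (Fin n) ℤ, P * P' = 1 ∧ P' * P = 1 ∧
      ∀ k l, (P' * M * P) k l ≠ 0 → k < l := by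
  intro n
  induction n with
  | zero =>
    intro M _
    exact ⟨1, 1, by simp, by simp, fun k => k.elim0⟩
  | succ n ih =>
    intro M hM
    obtain ⟨v, hv, hNv⟩ := exists_kernel M hM
    obtain ⟨q, q', d, h1, h2, h3⟩ := uni n v
    set M1 := q' * M * q with hM1
    have hc : ∀ i, M1 i 0 = 0 := by
      rw [hM1, Matrix.mul_assoc]
      exact mul_col0 _ _ (col_of_kernel M hv hNv q d h3)
    have hn : IsNilpotent (tl M1) := tl_nil (nil_conj h1 hM) (fun i => hc i.succ)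
    obtain ⟨P, P', p1, p2, p3⟩ := ih (tl M1) hn
    refine ⟨q * bd P, bd P' * q', ?_, ?_, ?_⟩
    · calc q * bd P * (bd P' * q') = q * (bd P * bd P') * q' := by simp only [Matrix.mul_assoc]
        _ = 1 := by rw [← bd_mul, p1, bd_one, Matrix.mul_one, h1]
    · calc bd P' * q' * (q * bd P) = bd P' * (q' * q) * bd P := by simp only [Matrix.mul_assoc]
        _ = 1 := by rw [h2, Matrix.mul_one, ← bd_mul, p2, bd_one]
    · have e : bd P' * q' * M * (q * bd P) = bd P' * M1 * bd P := by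
        rw [hM1]; simp only [Matrix.mul_assoc]
      rw [e]
      intro k l hkl
      by_contra hlt
      apply hkl
      rcases Fin.eq_zero_or_eq_succ l with rfl | ⟨l, rfl⟩
      · rw [Matrix.mul_apply, Fin.sum_univ_succ]
        have : (bd P' * M1) k 0 = 0 := mul_col0 _ _ hc k
        rw [this, zero_mul, zero_add]
        apply sum_eq_zero; intro j _
        rw [bd_succ_zero, mul_zero]
      · rcases Fin.eq_zero_or_eq_succ k with rfl | ⟨k, rfl⟩
        · exact absurd (Fin.succ_pos l) hlt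
        · have h5 : (bd P' * M1 * bd P) k.succ l.succ = (P' * tl M1 * P) k l := by
            rw [Matrix.mul_apply, Fin.sum_univ_succ, Matrix.mul_apply]
            rw [bd_zero_succ, mul_zero, zero_add]
            apply sum_congr rfl; intro j _
            rw [bd_succ_succ, Matrix.mul_apply, Fin.sum_univ_succ, bd_succ_zero, zero_mul, zero_add]
            change _ = (P' * tl M1) k j * P j l
            rw [Matrix.mul_apply]
            rfl
          rw [h5]
          by_contra h6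
          exact hlt (Fin.succ_lt_succ_iff.mpr (p3 k l h6))

/-- Nilpotent integer matrices are triangularizable. -/
theorem TN_gen {α : Type*} [Fintype α] [DecidableEq α] (M : Matrix α α ℤ) (h : IsNilpotent M) :
    ∃ (P P' : Matrix α α ℤ) (r : α → ℕ), P * P' = 1 ∧ P' * P = 1 ∧
      ∀ x y, (P' * M * P) x y ≠ 0 → r x < r y := by
  set e : Fin (Fintype.card α) ≃ α := (Fintype.equivFin α).symm
  obtain ⟨P, P', h1, h2, h3⟩ := TN_int _ (M.submatrix e e) (nil_submatrix e h)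
  refine ⟨P.submatrix e.symm e.symm, P'.submatrix e.symm e.symm, fun x => (e.symm x).val, ?_, ?_, ?_⟩
  · rw [submatrix_mul_equiv, h1, submatrix_one_equiv]
  · rw [submatrix_mul_equiv, h2, submatrix_one_equiv]
  · intro x y hxy
    have h4 : P'.submatrix e.symm e.symm * M * P.submatrix e.symm e.symm =
        (P' * M.submatrix e e * P).submatrix e.symm e.symm := by
      rw [← submatrix_mul_equiv _ _ e.symm e.symm e.symm, ← submatrix_mul_equiv _ _ e.symm e.symm e.symm,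
        submatrix_submatrix, Equiv.self_comp_symm, submatrix_id_id]
    rw [h4] at hxy
    exact h3 _ _ hxy

end tn

end Pool.Agent.Helper817_sse
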