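import Mathlib
import Pool.Agent.Helper817_sse.FI

set_option autoImplicit false

/-!
# A nilpotent matrix without short cycles and with nonzero potential
-/

namespace Pool.Agent.Helper817_sse

open Matrix Finset

/-- The gadget. -/
def N6 : Matrix (Fin 6) (Fin 6) ℤ :=
  !![0, -1, 0, 0, 1, 0; 0, 0, 0, 0, -1, -1; -1, -1, 0, 0, 0, -1; 1, 0, -1, 0, 0, 0;
    0, 0, 1, 0, 0, 0; -1, 0, 0, 1, 0, 0]

theorem N6_pow : N6 ^ 6 = 0 := by decide +kernel

theorem N6_nil : IsNilpotent N6 := ⟨6, N6_pow⟩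

theorem N6_short : ∀ i j, N6 i j * N6 j i = 0 := by decide +kernel

/-- First step, left factor. -/
def R1 : Matrix (Fin 6) (Fin 5) ℤ :=
  !![0, 0, 0, 1, 0; 0, 0, 0, -1, -1; -1, 0, 0, 0, -1; 1, -1, 0, 0, 0; 0, 1, 0, 0, 0; -1, 0, 1, 0, 0]
/-- First step, right factor. -/
def S1 : Matrix (Fin 5) (Fin 6) ℤ :=
  !![1, 0, 0, 0, 0, 0; 0, 0, 1, 0, 0, 0; 0, 0, 0, 1, 0, 0; 0, -1, 0, 0, 1, 0; 0, 1, 0, 0, 0, 1]
/-- Second step, left factor. -/
def R2 : Matrix (Fin 5) (Fin 4) ℤ :=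
  !![0, 0, 1, 0; 0, 0, 0, -1; -1, 0, 0, 0; 1, 0, 1, 1; 0, 1, -1, -1]
/-- Second step, right factor. -/
def S2 : Matrix (Fin 4) (Fin 5) ℤ :=
  !![-1, 1, 0, 0, 0; 0, 0, 1, 0, 0; 0, 0, 0, 1, 0; 1, 0, 0, 0, 1]
/-- Third step, left factor. -/
def R3 : Matrix (Fin 4) (Fin 3) ℤ :=
  !![0, -1, -1; -1, 0, 0; 1, 1, 1; 0, 0, -1]
/-- Third step, right factor. -/
def S3 : Matrix (Fin 3) (Fin 4) ℤ :=
  !![1, 0, 0, 0; 0, 1, 1, 0; 0, -1, 0, 1]
/-- Fourth step, left factor. -/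
def R4 : Matrix (Fin 3) (Fin 2) ℤ := !![-1, -1; 1, 1; 0, -1]
/-- Fourth step, right factor. -/
def S4 : Matrix (Fin 2) (Fin 3) ℤ := !![1, 1, 0; -1, 0, 1]
/-- Fifth step, left factor. -/
def R5 : Matrix (Fin 2) (Fin 1) ℤ := !![0; 1]
/-- Fifth step, right factor. -/
def S5 : Matrix (Fin 1) (Fin 2) ℤ := !![1, 0]

theorem e1 : R1 * S1 = N6 := by decide +kernel
theorem e2' : R2 * S2 = S1 * R1 := by decide +kernel
theorem e3 : R3 * S3 = S2 * R2 := by decide +kernel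
theorem e4 : R4 * S4 = S3 * R3 := by decide +kernel
theorem e5 : R5 * S5 = S4 * R4 := by decide +kernel
theorem e6 : S5 * R5 = 0 := by decide +kernel

theorem q1 : Q R1 S1 = 0 := by decide +kernel
theorem q2 : Q R2 S2 = 1 := by decide +kernel
theorem q3 : Q R3 S3 = 0 := by decide +kernel
theorem q4 : Q R4 S4 = 0 := by decide +kernel
theorem q5 : Q R5 S5 = 0 := by decide +kernel

theorem F_N6 : F 6 N6 = 1 := by
  have n1 : IsNilpotent (R1 * S1) := by rw [e1]; exact N6_nil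
  have n2 : IsNilpotent (R2 * S2) := by rw [e2']; exact nil_swap n1
  have n3 : IsNilpotent (R3 * S3) := by rw [e3]; exact nil_swap n2
  have n4 : IsNilpotent (R4 * S4) := by rw [e4]; exact nil_swap n3
  have n5 : IsNilpotent (R5 * S5) := by rw [e5]; exact nil_swap n4
  have f1 := F_elem R1 S1 n1
  have f2 := F_elem R2 S2 n2
  have f3 := F_elem R3 S3 n3
  have f4 := F_elem R4 S4 n4
  have f5 := F_elem R5 S5 n5
  rw [e6, F_zero, q5, e5] at f5
  rw [q4, e4] at f4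
  rw [q3, e3] at f3
  rw [q2, e2'] at f2
  rw [q1, e1] at f1
  have h1 : (1 : ZMod 2) + 1 = 0 := by decide
  linear_combination (-1 : ZMod 2) * f1 - f2 - f3 - f4 - f5 - h1

end Pool.Agent.Helper817_sse
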