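import Mathlib

set_option autoImplicit false
set_option linter.unusedSectionVars false

/-!
# Walks in the support graph
-/

namespace Pool.Agent.Helper817_sse

open Finset

section walks

variable {V : Type*}

/-- There is a walk of the given length. -/
def Wk (E : V → V → Prop) : ℕ → V → V → Prop
  | 0, x, y => x = y
  | n + 1, x, y => ∃ z, Wk E n x z ∧ E z y

theorem Wk_trans {E : V → V → Prop} {a : ℕ} {x y : V} (h1 : Wk E a x y) :
    ∀ (b : ℕ) (z : V), Wk E b y z → Wk E (a + b) x z := by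
  intro b
  induction b with
  | zero => intro z h; cases h; exact h1
  | succ b ih =>
    rintro z ⟨w, hw, hz⟩
    exact ⟨w, ih w hw, hz⟩

theorem Wk_one {E : V → V → Prop} {x y : V} (h : E x y) : Wk E 1 x y := ⟨x, rfl, h⟩

theorem Wk_of_pow {A : Type*} [Semiring A] [Fintype V] [DecidableEq V] {E : V → V → Prop}
    {M : Matrix V V A} (hM : ∀ x y, M x y ≠ 0 → E x y) :
    ∀ (n : ℕ) (x y : V), (M ^ n) x y ≠ 0 → Wk E n x y := by
  intro n
  induction n with
  | zero =>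
    intro x y h
    by_contra h'
    exact h (by rw [pow_zero, Matrix.one_apply_ne h'])
  | succ n ih =>
    intro x y h
    rw [pow_succ, Matrix.mul_apply] at h
    obtain ⟨z, _, hz⟩ := exists_ne_zero_of_sum_ne_zero h
    refine ⟨z, ih x z ?_, hM z y ?_⟩
    · intro h0; exact hz (by rw [h0, zero_mul])
    · intro h0; exact hz (by rw [h0, mul_zero])

end walks

section graph

/-- The vertices of the blocks. -/
abbrev WW (K n0 Q : ℕ) : Type := Fin K × Fin n0 × Fin Q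

/-- The vertices of the graph. -/
abbrev VV (K n0 Q L : ℕ) : Type := WW K n0 Q ⊕ Fin L

variable {K n0 Q L : ℕ} (q : Fin K → ℕ) (Sup : Fin n0 → Fin n0 → Prop)

/-- Edges inside the blocks. -/
def EW (x y : WW K n0 Q) : Prop :=
  x.1 = y.1 ∧ ((x.2.2.val + 1 < q x.1 ∧ y.2.2.val = x.2.2.val + 1 ∧ x.2.1 = y.2.1) ∨
    (x.2.2.val + 1 = q x.1 ∧ y.2.2.val = 0 ∧ Sup x.2.1 y.2.1))

/-- All edges. -/
def EV : VV K n0 Q L → VV K n0 Q L → Prop
  | Sum.inl x, Sum.inl y => EW q Sup x y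
  | Sum.inl _, Sum.inr b => b.val = 0
  | Sum.inr a, Sum.inr b => b.val = a.val + 1
  | Sum.inr a, Sum.inl _ => a.val + 1 = L

variable {q Sup}

theorem walk_W : ∀ (n : ℕ) (x y : WW K n0 Q), Wk (EW q Sup) n x y → y.1 = x.1 ∧
    ∃ t, x.2.2.val + n = t * q x.1 + y.2.2.val ∧ Wk Sup t x.2.1 y.2.1 := by
  intro n
  induction n with
  | zero =>
    intro x y h
    cases h
    exact ⟨rfl, 0, by simp, rfl⟩
  | succ n ih =>
    rintro x y ⟨z, hz, h1, h2⟩
    obtain ⟨i1, t, i2, i3⟩ := ih x z hz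
    refine ⟨h1.symm.trans i1, ?_⟩
    rcases h2 with ⟨_, h3, h4⟩ | ⟨h2, h3, h4⟩
    · exact ⟨t, by omega, h4 ▸ i3⟩
    · refine ⟨t + 1, ?_, ⟨_, i3, h4⟩⟩
      rw [i1] at h2
      rw [add_mul]
      omega

theorem no_closed_W (hpos : ∀ i, 0 < q i) (hcop : ∀ i j, i ≠ j → ¬ (q i ∣ 2 * q j))
    (hsup : ∀ k l, Sup k l → ¬ Sup l k) (j : Fin K) (x : WW K n0 Q) :
    ¬ Wk (EW q Sup) (2 * q j) x x := by
  intro h
  obtain ⟨_, t, h1, h2⟩ := walk_W _ _ _ h
  have h3 : 2 * q j = t * q x.1 := by omega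
  by_cases hj : x.1 = j
  · rw [hj] at h3
    have ht : t = 2 := (Nat.eq_of_mul_eq_mul_right (hpos j) h3).symm
    subst ht
    obtain ⟨z, ⟨w, hw, h4⟩, h5⟩ := h2
    cases hw
    exact hsup _ _ h4 h5
  · exact hcop x.1 j hj ⟨t, by rw [h3, mul_comm]⟩

/-- The position of a vertex. -/
def pv : VV K n0 Q L → ℕ
  | Sum.inl _ => 0
  | Sum.inr a => a.val + 1

theorem walk_V : ∀ (n : ℕ) (v v' : VV K n0 Q L), Wk (EV q Sup) n v v' →
    ∃ m, m ≤ n ∧ pv v' ≡ pv v + m [MOD L + 1] ∧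
      (m = 0 → ∀ x, v = Sum.inl x → ∃ y, v' = Sum.inl y ∧ Wk (EW q Sup) n x y) ∧
      (m = 0 → ∀ a, v = Sum.inr a → n = 0) := by
  intro n
  induction n with
  | zero =>
    intro v v' h
    cases h
    exact ⟨0, le_rfl, rfl, fun _ x hx => ⟨x, hx, rfl⟩, fun _ _ _ => rfl⟩
  | succ n ih =>
    rintro v v' ⟨z, hz, h1⟩
    obtain ⟨m, i1, i2, i3, i4⟩ := ih v z hz
    rcases z with z | a
    · rcases v' with y | b
      · refine ⟨m, by omega, i2, ?_, ?_⟩
        · intro hm x hx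
          obtain ⟨y', e1, e2⟩ := i3 hm x hx
          refine ⟨y, rfl, z, ?_, h1⟩
          cases e1
          exact e2
        · intro hm a ha
          have hn := i4 hm a ha
          subst hn
          cases hz
          cases ha
      · refine ⟨m + 1, by omega, ?_, fun h => absurd h (Nat.succ_ne_zero m),
          fun h => absurd h (Nat.succ_ne_zero m)⟩
        change b.val = 0 at h1
        change b.val + 1 ≡ pv v + (m + 1) [MOD L + 1]
        rw [h1, ← add_assoc]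
        exact Nat.ModEq.add_right 1 i2
    · rcases v' with y | b
      · refine ⟨m + 1, by omega, ?_, fun h => absurd h (Nat.succ_ne_zero m),
          fun h => absurd h (Nat.succ_ne_zero m)⟩
        change a.val + 1 = L at h1
        change 0 ≡ pv v + (m + 1) [MOD L + 1]
        have h2 : a.val + 1 + 1 ≡ pv v + m + 1 [MOD L + 1] := Nat.ModEq.add_right 1 i2
        rw [h1] at h2
        rw [← add_assoc]
        refine Nat.ModEq.trans ?_ h2
        simp [Nat.ModEq]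
      · refine ⟨m + 1, by omega, ?_, fun h => absurd h (Nat.succ_ne_zero m),
          fun h => absurd h (Nat.succ_ne_zero m)⟩
        change b.val = a.val + 1 at h1
        change b.val + 1 ≡ pv v + (m + 1) [MOD L + 1]
        rw [h1, ← add_assoc]
        exact Nat.ModEq.add_right 1 i2

theorem no_closed_V (hpos : ∀ i, 0 < q i) (hcop : ∀ i j, i ≠ j → ¬ (q i ∣ 2 * q j))
    (hsup : ∀ k l, Sup k l → ¬ Sup l k) (j : Fin K) (hL : 2 * q j ≤ L) (v : VV K n0 Q L) :
    ¬ Wk (EV q Sup) (2 * q j) v v := by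
  intro h
  obtain ⟨m, h1, h2, h3, h4⟩ := walk_V _ _ _ h
  have hm : m = 0 := by
    have h5 : pv v + 0 ≡ pv v + m [MOD L + 1] := h2
    have h6 := Nat.ModEq.add_left_cancel' _ h5
    have h7 : m % (L + 1) = 0 := by rw [← h6]; simp
    rwa [Nat.mod_eq_of_lt (by omega)] at h7
  rcases v with x | a
  · obtain ⟨y, e1, e2⟩ := h3 hm x rfl
    cases e1
    exact no_closed_W hpos hcop hsup j x e2
  · have := h4 hm a rfl
    have := hpos j
    omega

theorem hub_walk : ∀ (c : ℕ) (a b : Fin L), b.val = a.val + c →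
    Wk (EV q Sup) c (Sum.inr a : VV K n0 Q L) (Sum.inr b) := by
  intro c
  induction c with
  | zero =>
    intro a b h
    have : a = b := Fin.ext (by omega)
    rw [this]; rfl
  | succ c ih =>
    intro a b h
    have hb := b.isLt
    refine ⟨Sum.inr ⟨a.val + c, by omega⟩, ih a _ rfl, ?_⟩
    change b.val = a.val + c + 1
    omega

theorem frob (L n : ℕ) (h : L * (L + 1) ≤ n) : ∃ a b, n = a * (L + 1) + b * (L + 2) := by
  refine ⟨n / (L + 1) - n % (L + 1), n % (L + 1), ?_⟩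
  have h1 := Nat.div_add_mod n (L + 1)
  have h2 : n % (L + 1) < L + 1 := Nat.mod_lt _ (by omega)
  have h3 : L ≤ n / (L + 1) := (Nat.le_div_iff_mul_le (by omega)).mpr h
  obtain ⟨c, hc⟩ : ∃ c, n / (L + 1) = n % (L + 1) + c := ⟨n / (L + 1) - n % (L + 1), by omega⟩
  rw [hc] at h1
  rw [hc, Nat.add_sub_cancel_left]
  set r := n % (L + 1)
  calc n = (L + 1) * (r + c) + r := h1.symm
    _ = c * (L + 1) + r * (L + 2) := by ring

theorem prim_V (hK : 0 < K) (hn : 0 < n0) (hQ : 1 < Q) (hL : 0 < L) (hq : 1 < q ⟨0, hK⟩) :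
    ∃ k, 0 < k ∧ ∀ v v' : VV K n0 Q L, Wk (EV q Sup) k v v' := by
  set y0 : WW K n0 Q := (⟨0, hK⟩, ⟨0, hn⟩, ⟨0, by omega⟩) with hy0
  set y1 : WW K n0 Q := (⟨0, hK⟩, ⟨0, hn⟩, ⟨1, hQ⟩) with hy1
  set h0 : VV K n0 Q L := Sum.inr ⟨0, hL⟩ with hh0
  set hl : Fin L := ⟨L - 1, by omega⟩ with hhl
  have toW : ∀ y : WW K n0 Q, EV q Sup (Sum.inr hl) (Sum.inl y) := by
    intro y
    change L - 1 + 1 = L
    omega
  have toH : ∀ y : WW K n0 Q, EV q Sup (Sum.inl y) h0 := fun y => rfl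
  have w1 : Wk (EV q Sup) (L - 1) h0 (Sum.inr hl) := hub_walk _ _ _ (by simp [hhl])
  have w2 : ∀ y : WW K n0 Q, Wk (EV q Sup) L h0 (Sum.inl y) := by
    intro y
    have := Wk_trans w1 1 _ (Wk_one (toW y))
    rwa [show L - 1 + 1 = L by omega] at this
  have c1 : Wk (EV q Sup) (L + 1) h0 h0 := Wk_trans (w2 y0) 1 _ (Wk_one (toH y0))
  have c2 : Wk (EV q Sup) (L + 2) h0 h0 := by
    have e : EV q Sup (Sum.inl y0 : VV K n0 Q L) (Sum.inl y1) := by
      refine ⟨rfl, Or.inl ⟨?_, rfl, rfl⟩⟩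
      change 0 + 1 < q ⟨0, hK⟩
      omega
    have := Wk_trans (w2 y0) 2 h0 ⟨Sum.inl y1, Wk_one e, toH y1⟩
    exact this
  have c3 : ∀ a : ℕ, Wk (EV q Sup) (a * (L + 1)) h0 h0 := by
    intro a
    induction a with
    | zero => rw [zero_mul]; rfl
    | succ a ih => rw [add_mul, one_mul]; exact Wk_trans ih _ _ c1
  have c4 : ∀ a : ℕ, Wk (EV q Sup) (a * (L + 2)) h0 h0 := by
    intro a
    induction a with
    | zero => rw [zero_mul]; rfl
    | succ a ih => rw [add_mul, one_mul]; exact Wk_trans ih _ _ c2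
  have c5 : ∀ n, L * (L + 1) ≤ n → Wk (EV q Sup) n h0 h0 := by
    intro n hn
    obtain ⟨a, b, hab⟩ := frob L n hn
    rw [hab]
    exact Wk_trans (c3 a) _ _ (c4 b)
  have t1 : ∀ v : VV K n0 Q L, ∃ τ, τ ≤ L + 1 ∧ Wk (EV q Sup) τ v h0 := by
    intro v
    rcases v with x | a
    · exact ⟨1, by omega, Wk_one (toH x)⟩
    · have ha := a.isLt
      refine ⟨(L - 1 - a.val) + 2, by omega, ?_⟩
      have u1 : Wk (EV q Sup) (L - 1 - a.val) (Sum.inr a : VV K n0 Q L) (Sum.inr hl) :=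
        hub_walk _ _ _ (by simp only [hhl]; omega)
      exact Wk_trans u1 2 _ ⟨Sum.inl y0, Wk_one (toW y0), toH y0⟩
  have t2 : ∀ v : VV K n0 Q L, ∃ σ, σ ≤ L ∧ Wk (EV q Sup) σ h0 v := by
    intro v
    rcases v with x | b
    · exact ⟨L, le_rfl, w2 x⟩
    · exact ⟨b.val, b.isLt.le, hub_walk _ _ _ (by simp)⟩
  refine ⟨L * (L + 1) + (L + 1) + L, by omega, ?_⟩
  intro v v'
  obtain ⟨τ, hτ, u1⟩ := t1 v
  obtain ⟨σ, hσ, u2⟩ := t2 v'
  have u3 := c5 (L * (L + 1) + (L + 1) + L - τ - σ) (by omega)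
  have u4 := Wk_trans (Wk_trans u1 _ _ u3) _ _ u2
  rwa [show τ + (L * (L + 1) + (L + 1) + L - τ - σ) + σ = L * (L + 1) + (L + 1) + L by omega] at u4

end graph

end Pool.Agent.Helper817_sse
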