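import Mathlib
import Pool.Agent.Helper817_sse.Walk

set_option autoImplicit false
set_option linter.unusedSectionVars false

/-!
# Delayed matrices
-/

namespace Pool.Agent.Helper817_sse

open Matrix Finset

section blocks

variable {A : Type*} [Ring A] {n0 Q : ℕ}

/-- The matrix of a tower of height `c` with transitions `U` and exit `W`. -/
def Bk2 (Q c : ℕ) (U W : Matrix (Fin n0) (Fin n0) A) : Matrix (Fin n0 × Fin Q) (Fin n0 × Fin Q) A :=
  Matrix.of fun x y => if x.2.val + 1 < c then (if y.2.val = x.2.val + 1 then U x.1 y.1 else 0)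
    else if x.2.val + 1 = c ∧ y.2.val = 0 then W x.1 y.1 else 0

theorem Bk2_apply (Q c : ℕ) (U W : Matrix (Fin n0) (Fin n0) A) (x y : Fin n0 × Fin Q) :
    Bk2 Q c U W x y = if x.2.val + 1 < c then (if y.2.val = x.2.val + 1 then U x.1 y.1 else 0)
    else if x.2.val + 1 = c ∧ y.2.val = 0 then W x.1 y.1 else 0 := rfl

/-- The delayed matrix. -/
def Bk (Q c : ℕ) (W : Matrix (Fin n0) (Fin n0) A) : Matrix (Fin n0 × Fin Q) (Fin n0 × Fin Q) A :=
  Bk2 Q c 1 W

/-- Constant in the height. -/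
def PF (Q : ℕ) (P : Matrix (Fin n0) (Fin n0) A) : Matrix (Fin n0 × Fin Q) (Fin n0 × Fin Q) A :=
  Matrix.of fun x y => if x.2 = y.2 then P x.1 y.1 else 0

/-- Truncated diagonal in the height. -/
def Dg (Q c : ℕ) (W : Matrix (Fin n0) (Fin n0) A) : Matrix (Fin n0 × Fin Q) (Fin n0 × Fin Q) A :=
  Matrix.of fun x y => if x.2.val < c ∧ x.2 = y.2 then W x.1 y.1 else 0

theorem PF_mul (P P' : Matrix (Fin n0) (Fin n0) A) : PF Q (P * P') = PF Q P * PF Q P' := by
  ext x y
  rw [Matrix.mul_apply, Fintype.sum_prod_type]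
  simp only [PF, Matrix.of_apply, Matrix.mul_apply]
  split_ifs with h
  · apply sum_congr rfl; intro l _
    rw [sum_eq_single x.2]
    · simp [h]
    · intro b _ hb
      simp [Ne.symm hb]
    · intro h; exact absurd (mem_univ _) h
  · symm
    apply sum_eq_zero; intro l _
    apply sum_eq_zero; intro b _
    by_cases h1 : x.2 = b
    · have : b ≠ y.2 := by rw [← h1]; exact h
      simp [this]
    · simp [h1]

theorem PF_one : PF Q (1 : Matrix (Fin n0) (Fin n0) A) = 1 := by
  ext x y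
  simp only [PF, Matrix.of_apply, Matrix.one_apply, Prod.ext_iff]
  by_cases h1 : x.1 = y.1 <;> by_cases h2 : x.2 = y.2 <;> simp [h1, h2]

theorem PF_mul_Bk2 (c : ℕ) (P U W : Matrix (Fin n0) (Fin n0) A) :
    PF Q P * Bk2 Q c U W = Bk2 Q c (P * U) (P * W) := by
  ext x y
  rw [Matrix.mul_apply, Fintype.sum_prod_type]
  have h1 : ∀ l, ∑ b, PF Q P x (l, b) * Bk2 Q c U W (l, b) y = P x.1 l * Bk2 Q c U W (l, x.2) y := by
    intro l
    rw [sum_eq_single x.2]
    · simp [PF]
    · intro b _ hb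
      simp [PF, Ne.symm hb]
    · intro h; exact absurd (mem_univ _) h
  rw [sum_congr rfl (fun l _ => h1 l)]
  simp only [Bk2_apply]
  split_ifs <;> simp [Matrix.mul_apply]

theorem Bk2_mul_PF (c : ℕ) (P U W : Matrix (Fin n0) (Fin n0) A) :
    Bk2 Q c U W * PF Q P = Bk2 Q c (U * P) (W * P) := by
  ext x y
  rw [Matrix.mul_apply, Fintype.sum_prod_type]
  have h1 : ∀ l, ∑ b, Bk2 Q c U W x (l, b) * PF Q P (l, b) y = Bk2 Q c U W x (l, y.2) * P l y.1 := by
    intro l
    rw [sum_eq_single y.2]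
    · simp [PF]
    · intro b _ hb
      simp [PF, hb]
    · intro h; exact absurd (mem_univ _) h
  rw [sum_congr rfl (fun l _ => h1 l)]
  simp only [Bk2_apply]
  split_ifs <;> simp [Matrix.mul_apply]

theorem Bk_conj (c : ℕ) (P P' W : Matrix (Fin n0) (Fin n0) A) (h : P' * P = 1) :
    PF Q P' * Bk Q c W * PF Q P = Bk Q c (P' * W * P) := by
  unfold Bk
  rw [PF_mul_Bk2, Bk2_mul_PF, Matrix.mul_one, h]

theorem Bk_pow (c : ℕ) (hc : c ≤ Q) (W : Matrix (Fin n0) (Fin n0) A) : ∀ (a : ℕ), a + 1 ≤ c →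
    ∀ x y : Fin n0 × Fin Q, ((Bk Q c W) ^ (a + 1)) x y =
      if x.2.val + (a + 1) < c then (if y.2.val = x.2.val + (a + 1) then (1 : Matrix (Fin n0) (Fin n0) A) x.1 y.1 else 0)
      else if x.2.val < c ∧ y.2.val + c = x.2.val + (a + 1) then W x.1 y.1 else 0 := by
  intro a
  induction a with
  | zero =>
    intro _ x y
    rw [zero_add, pow_one]
    simp only [Bk, Bk2_apply]
    by_cases h1 : x.2.val + 1 < c
    · simp [h1]
    · rw [if_neg h1, if_neg h1]
      have : (x.2.val + 1 = c ∧ y.2.val = 0) ↔ (x.2.val < c ∧ y.2.val + c = x.2.val + 1) := by omega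
      simp only [this]
  | succ a ih =>
    intro ha x y
    have hx := x.2.isLt
    rw [pow_succ', Matrix.mul_apply, Fintype.sum_prod_type]
    by_cases h1 : x.2.val + 1 < c
    · have hlt : x.2.val + 1 < Q := by omega
      have h2 : ∀ l, ∑ b, Bk Q c W x (l, b) * ((Bk Q c W) ^ (a + 1)) (l, b) y =
          (1 : Matrix (Fin n0) (Fin n0) A) x.1 l * ((Bk Q c W) ^ (a + 1)) (l, ⟨x.2.val + 1, hlt⟩) y := by
        intro l
        rw [sum_eq_single ⟨x.2.val + 1, hlt⟩]
        · simp only [Bk, Bk2_apply, if_pos h1, if_true]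
        · intro b _ hb
          have hb' : b.val ≠ x.2.val + 1 := fun h => hb (Fin.ext h)
          simp only [Bk, Bk2_apply, if_pos h1, if_neg hb', zero_mul]
        · intro h; exact absurd (mem_univ _) h
      rw [sum_congr rfl (fun l _ => h2 l), sum_eq_single x.1]
      · rw [Matrix.one_apply_eq, one_mul, ih (by omega)]
        simp only
        by_cases h3 : x.2.val + (a + 1 + 1) < c
        · rw [if_pos h3, if_pos (by omega)]
          have : (y.2.val = x.2.val + 1 + (a + 1)) ↔ (y.2.val = x.2.val + (a + 1 + 1)) := by omega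
          simp only [this]
        · rw [if_neg h3, if_neg (by omega)]
          have : (x.2.val + 1 < c ∧ y.2.val + c = x.2.val + 1 + (a + 1)) ↔
            (x.2.val < c ∧ y.2.val + c = x.2.val + (a + 1 + 1)) := by omega
          simp only [this]
      · intro l _ hl
        rw [Matrix.one_apply_ne (Ne.symm hl), zero_mul]
      · intro h; exact absurd (mem_univ _) h
    · by_cases h4 : x.2.val + 1 = c
      · have hQ : 0 < Q := by omega
        have h2 : ∀ l, ∑ b, Bk Q c W x (l, b) * ((Bk Q c W) ^ (a + 1)) (l, b) y =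
            W x.1 l * ((Bk Q c W) ^ (a + 1)) (l, ⟨0, hQ⟩) y := by
          intro l
          rw [sum_eq_single ⟨0, hQ⟩]
          · simp only [Bk, Bk2_apply, if_neg h1, and_true, if_pos h4]
          · intro b _ hb
            have hb' : ¬ (x.2.val + 1 = c ∧ b.val = 0) := fun h => hb (Fin.ext h.2)
            simp only [Bk, Bk2_apply, if_neg h1, if_neg hb', zero_mul]
          · intro h; exact absurd (mem_univ _) h
        rw [sum_congr rfl (fun l _ => h2 l), if_neg (by omega : ¬ x.2.val + (a + 1 + 1) < c)]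
        have h3 : ∀ l, ((Bk Q c W) ^ (a + 1)) (l, ⟨0, hQ⟩) y =
            if y.2.val = a + 1 then (1 : Matrix (Fin n0) (Fin n0) A) l y.1 else 0 := by
          intro l
          rw [ih (by omega)]
          simp only
          rw [if_pos (by omega), zero_add]
        simp only [h3]
        have : (x.2.val < c ∧ y.2.val + c = x.2.val + (a + 1 + 1)) ↔ (y.2.val = a + 1) := by omega
        simp only [this]
        by_cases h5 : y.2.val = a + 1
        · simp only [if_pos h5]
          rw [← Matrix.mul_apply, Matrix.mul_one]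
        · simp [h5]
      · have h2 : ∀ z, Bk Q c W x z = 0 := by
          intro z
          simp only [Bk, Bk2_apply, if_neg h1]
          rw [if_neg (fun h => h4 h.1)]
        simp only [h2, zero_mul, sum_const_zero]
        rw [if_neg (by omega), if_neg (by omega)]

theorem Bk_pow_full (c : ℕ) (h0 : 0 < c) (hc : c ≤ Q) (W : Matrix (Fin n0) (Fin n0) A) :
    (Bk Q c W) ^ c = Dg Q c W := by
  obtain ⟨a, rfl⟩ : ∃ a, c = a + 1 := ⟨c - 1, by omega⟩
  ext x y
  rw [Bk_pow (a + 1) hc W a le_rfl, if_neg (by omega)]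
  simp only [Dg, Matrix.of_apply]
  have : (x.2.val < a + 1 ∧ y.2.val + (a + 1) = x.2.val + (a + 1)) ↔ (x.2.val < a + 1 ∧ x.2 = y.2) := by
    rw [Fin.ext_iff]; omega
  simp only [this]

theorem Dg_mul (c : ℕ) (P P' : Matrix (Fin n0) (Fin n0) A) :
    Dg Q c (P * P') = Dg Q c P * Dg Q c P' := by
  ext x y
  rw [Matrix.mul_apply, Fintype.sum_prod_type]
  simp only [Dg, Matrix.of_apply, Matrix.mul_apply]
  split_ifs with h
  · apply sum_congr rfl; intro l _
    rw [sum_eq_single x.2]
    · have h1 : x.2.val < c := h.1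
      simp [h.2, h.2 ▸ h1]
    · intro b _ hb
      simp [Ne.symm hb]
    · intro h; exact absurd (mem_univ _) h
  · symm
    apply sum_eq_zero; intro l _
    apply sum_eq_zero; intro b _
    by_cases h1 : x.2.val < c ∧ x.2 = b
    · have : ¬ (b.val < c ∧ b = y.2) := by
        rw [← h1.2]; exact h
      rw [if_neg this, mul_zero]
    · rw [if_neg h1, zero_mul]

theorem Dg_pow (c : ℕ) (W : Matrix (Fin n0) (Fin n0) A) (k : ℕ) :
    (Dg Q c W) ^ (k + 1) = Dg Q c (W ^ (k + 1)) := by
  induction k with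
  | zero => simp
  | succ k ih => rw [pow_succ, ih, ← Dg_mul, ← pow_succ]

theorem Dg_zero (c : ℕ) : Dg Q c (0 : Matrix (Fin n0) (Fin n0) A) = 0 := by
  ext x y
  simp [Dg]

theorem Bk_pow_zero (c : ℕ) (h0 : 0 < c) (hc : c ≤ Q) (W : Matrix (Fin n0) (Fin n0) A) (d : ℕ)
    (hW : W ^ (d + 1) = 0) (m : ℕ) (hm : (d + 1) * c ≤ m) : (Bk Q c W) ^ m = 0 := by
  have h1 : (Bk Q c W) ^ (c * (d + 1)) = 0 := by
    rw [pow_mul, Bk_pow_full c h0 hc, Dg_pow, hW, Dg_zero]
  obtain ⟨e, rfl⟩ := Nat.exists_eq_add_of_le hm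
  rw [pow_add, mul_comm, h1, zero_mul]

end blocks

section bdg

variable {A : Type*} [Ring A] {K n0 Q L : ℕ}

/-- Block diagonal matrices on the vertices. -/
def bdg (L : ℕ) (M : Fin K → Matrix (Fin n0 × Fin Q) (Fin n0 × Fin Q) A) :
    Matrix (VV K n0 Q L) (VV K n0 Q L) A :=
  Matrix.of fun x y => match x, y with
    | Sum.inl x, Sum.inl y => if x.1 = y.1 then M x.1 x.2 y.2 else 0
    | _, _ => 0

@[simp] theorem bdg_ll (M : Fin K → Matrix (Fin n0 × Fin Q) (Fin n0 × Fin Q) A) (x y : WW K n0 Q) :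
    bdg L M (Sum.inl x) (Sum.inl y) = if x.1 = y.1 then M x.1 x.2 y.2 else 0 := rfl
@[simp] theorem bdg_lr (M : Fin K → Matrix (Fin n0 × Fin Q) (Fin n0 × Fin Q) A) (x : WW K n0 Q)
    (b : Fin L) : bdg L M (Sum.inl x) (Sum.inr b) = 0 := rfl
@[simp] theorem bdg_rl (M : Fin K → Matrix (Fin n0 × Fin Q) (Fin n0 × Fin Q) A) (x : Fin L)
    (b : WW K n0 Q) : bdg L M (Sum.inr x) (Sum.inl b) = 0 := rfl
@[simp] theorem bdg_rr (M : Fin K → Matrix (Fin n0 × Fin Q) (Fin n0 × Fin Q) A) (x : Fin L)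
    (b : Fin L) : bdg L M (Sum.inr x) (Sum.inr b) = 0 := rfl

theorem bdg_mul (M N : Fin K → Matrix (Fin n0 × Fin Q) (Fin n0 × Fin Q) A) :
    bdg L M * bdg L N = bdg L (fun i => M i * N i) := by
  ext x y
  rw [Matrix.mul_apply, Fintype.sum_sum_type]
  rcases x with x | a <;> rcases y with y | b <;> simp only [bdg_ll, bdg_lr, bdg_rl, bdg_rr, mul_zero,
    zero_mul, sum_const_zero, add_zero]
  rw [Fintype.sum_prod_type]
  simp only
  rw [sum_eq_single x.1]
  · simp only [if_true]
    by_cases h : x.1 = y.1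
    · simp only [if_pos h]
      rw [Matrix.mul_apply]
    · simp only [if_neg h, mul_zero, sum_const_zero]
  · intro i _ hi
    simp [Ne.symm hi]
  · intro h; exact absurd (mem_univ _) h

theorem bdg_pow (M : Fin K → Matrix (Fin n0 × Fin Q) (Fin n0 × Fin Q) A) (m : ℕ) :
    (bdg L M) ^ (m + 1) = bdg L (fun i => (M i) ^ (m + 1)) := by
  induction m with
  | zero => simp
  | succ m ih => rw [pow_succ, ih, bdg_mul]; simp only [← pow_succ]

theorem bdg_add (M N : Fin K → Matrix (Fin n0 × Fin Q) (Fin n0 × Fin Q) A) :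
    bdg L (fun i => M i + N i) = bdg L M + bdg L N := by
  ext x y
  rcases x with x | a <;> rcases y with y | b <;> simp only [bdg_ll, bdg_lr, bdg_rl, bdg_rr,
    Matrix.add_apply, add_zero]
  split_ifs <;> simp

/-- Change of basis on the vertices. -/
def PV (L Q : ℕ) (P : Fin K → Matrix (Fin n0) (Fin n0) A) : Matrix (VV K n0 Q L) (VV K n0 Q L) A :=
  bdg L (fun i => PF Q (P i)) + Matrix.diagonal (Sum.elim (fun _ => 0) (fun _ => 1))

theorem PV_mul_aux (M : Fin K → Matrix (Fin n0 × Fin Q) (Fin n0 × Fin Q) A) :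
    bdg L M * Matrix.diagonal (Sum.elim (fun _ => 0) (fun _ => 1)) = 0 := by
  ext x y
  rw [Matrix.mul_diagonal]
  rcases x with x | a <;> rcases y with y | b <;> simp

theorem PV_mul_aux' (M : Fin K → Matrix (Fin n0 × Fin Q) (Fin n0 × Fin Q) A) :
    Matrix.diagonal (Sum.elim (fun _ => 0) (fun _ => 1)) * bdg L M = 0 := by
  ext x y
  rw [Matrix.diagonal_mul]
  rcases x with x | a <;> rcases y with y | b <;> simp

theorem PV_mul (P P' : Fin K → Matrix (Fin n0) (Fin n0) A) :
    PV L Q P * PV L Q P' = PV L Q (fun i => P i * P' i) := by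
  unfold PV
  rw [add_mul, mul_add, mul_add, PV_mul_aux, PV_mul_aux', bdg_mul, Matrix.diagonal_mul_diagonal]
  simp only [PF_mul, add_zero, zero_add]
  congr 2
  funext x
  rcases x with x | a <;> simp

theorem PV_one : PV L Q (fun _ : Fin K => (1 : Matrix (Fin n0) (Fin n0) A)) = 1 := by
  ext x y
  unfold PV
  rw [Matrix.add_apply]
  simp only [PF_one]
  rcases x with x | a <;> rcases y with y | b
  · simp only [bdg_ll, Matrix.diagonal_apply, Matrix.one_apply, Sum.inl.injEq, Sum.elim_inl]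
    by_cases h : x = y
    · subst h; simp
    · by_cases h1 : x.1 = y.1
      · have h2 : x.2 ≠ y.2 := fun h2 => h (Prod.ext h1 h2)
        simp [h1, h2, h]
      · simp [h1, h]
  · simp
  · simp
  · simp [Matrix.diagonal_apply, Matrix.one_apply]

theorem PV_conj (q : Fin K → ℕ) (P P' W : Fin K → Matrix (Fin n0) (Fin n0) A)
    (h : ∀ i, P' i * P i = 1) :
    PV L Q P' * bdg L (fun i => Bk Q (q i) (W i)) * PV L Q P =
      bdg L (fun i => Bk Q (q i) (P' i * W i * P i)) := by
  unfold PV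
  rw [add_mul, PV_mul_aux', add_zero, mul_add, bdg_mul, PV_mul_aux, add_zero, bdg_mul]
  congr 1
  funext i
  exact Bk_conj (q i) (P i) (P' i) (W i) (h i)

/-- The rank function. -/
def rk (K n0 Q L : ℕ) : VV K n0 Q L → ℕ
  | Sum.inl x => x.2.1.val * Q + x.2.2.val
  | Sum.inr _ => 0

theorem rk_lt (q : Fin K → ℕ) (U : Fin K → Matrix (Fin n0) (Fin n0) A)
    (hU : ∀ i k l, U i k l ≠ 0 → k < l) (x y : VV K n0 Q L)
    (h : bdg L (fun i => Bk Q (q i) (U i)) x y ≠ 0) : rk K n0 Q L x < rk K n0 Q L y := by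
  rcases x with x | a <;> rcases y with y | b <;> simp only [bdg_ll, bdg_lr, bdg_rl, bdg_rr, ne_eq,
    not_true_eq_false] at h
  change x.2.1.val * Q + x.2.2.val < y.2.1.val * Q + y.2.2.val
  by_cases h1 : x.1 = y.1
  · rw [if_pos h1] at h
    simp only [Bk, Bk2_apply] at h
    by_cases h2 : x.2.2.val + 1 < q x.1
    · rw [if_pos h2] at h
      by_cases h3 : y.2.2.val = x.2.2.val + 1
      · rw [if_pos h3] at h
        have h4 : x.2.1 = y.2.1 := by
          by_contra h4
          exact h (Matrix.one_apply_ne h4)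
        rw [h4, h3]; omega
      · rw [if_neg h3] at h; exact absurd rfl h
    · rw [if_neg h2] at h
      by_cases h3 : x.2.2.val + 1 = q x.1 ∧ y.2.2.val = 0
      · rw [if_pos h3] at h
        have h4 := hU _ _ _ h
        have h5 : x.2.1.val + 1 ≤ y.2.1.val := h4
        have h6 := x.2.2.isLt
        have h7 : (x.2.1.val + 1) * Q ≤ y.2.1.val * Q := Nat.mul_le_mul_right Q h5
        rw [add_mul, one_mul] at h7
        omega
      · rw [if_neg h3] at h; exact absurd rfl h
  · rw [if_neg h1] at h; exact absurd rfl h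

theorem bdg_supp (q : Fin K → ℕ) (Sup : Fin n0 → Fin n0 → Prop)
    (W : Fin K → Matrix (Fin n0) (Fin n0) A) (hW : ∀ i k l, W i k l ≠ 0 → Sup k l)
    (x y : VV K n0 Q L) (h : bdg L (fun i => Bk Q (q i) (W i)) x y ≠ 0) : EV q Sup x y := by
  rcases x with x | a <;> rcases y with y | b <;> simp only [bdg_ll, bdg_lr, bdg_rl, bdg_rr, ne_eq,
    not_true_eq_false] at h
  change EW q Sup x y
  by_cases h1 : x.1 = y.1
  · rw [if_pos h1] at h
    refine ⟨h1, ?_⟩
    simp only [Bk, Bk2_apply] at h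
    by_cases h2 : x.2.2.val + 1 < q x.1
    · rw [if_pos h2] at h
      by_cases h3 : y.2.2.val = x.2.2.val + 1
      · rw [if_pos h3] at h
        have h4 : x.2.1 = y.2.1 := by
          by_contra h4
          exact h (Matrix.one_apply_ne h4)
        exact Or.inl ⟨h2, h3, h4⟩
      · rw [if_neg h3] at h; exact absurd rfl h
    · rw [if_neg h2] at h
      by_cases h3 : x.2.2.val + 1 = q x.1 ∧ y.2.2.val = 0
      · rw [if_pos h3] at h
        exact Or.inr ⟨h3.1, h3.2, hW _ _ _ h⟩
      · rw [if_neg h3] at h; exact absurd rfl h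
  · rw [if_neg h1] at h; exact absurd rfl h

end bdg

section kr

variable {A : Type*} [Ring A] {V ι : Type*}

/-- Kronecker product with an integer matrix. -/
def kr (M : Matrix V V A) (E : Matrix ι ι ℤ) : Matrix (V × ι) (V × ι) A :=
  Matrix.of fun x y => E x.2 y.2 • M x.1 y.1

theorem kr_apply (M : Matrix V V A) (E : Matrix ι ι ℤ) (x y : V × ι) :
    kr M E x y = E x.2 y.2 • M x.1 y.1 := rfl

theorem kr_mul [Fintype V] [Fintype ι] (M N : Matrix V V A) (E F : Matrix ι ι ℤ) :
    kr M E * kr N F = kr (M * N) (E * F) := by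
  ext x y
  rw [Matrix.mul_apply, Fintype.sum_prod_type, kr_apply, Matrix.mul_apply, Matrix.mul_apply,
    sum_smul_sum]
  rw [sum_comm]
  apply sum_congr rfl; intro i _
  apply sum_congr rfl; intro v _
  rw [kr_apply, kr_apply]
  simp only
  rw [smul_mul_smul_comm]

theorem kr_one [DecidableEq V] [DecidableEq ι] : kr (1 : Matrix V V A) (1 : Matrix ι ι ℤ) = 1 := by
  ext x y
  rw [kr_apply]
  simp only [Matrix.one_apply, Prod.ext_iff]
  by_cases h1 : x.1 = y.1 <;> by_cases h2 : x.2 = y.2 <;> simp [h1, h2]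

theorem kr_zero_right (M : Matrix V V A) : kr M (0 : Matrix ι ι ℤ) = 0 := by
  ext x y
  rw [kr_apply]; simp

theorem kr_add_left (M N : Matrix V V A) (E : Matrix ι ι ℤ) : kr (M + N) E = kr M E + kr N E := by
  ext x y
  simp only [kr_apply, Matrix.add_apply, smul_add]

theorem kr_pow [Fintype V] [Fintype ι] [DecidableEq V] [DecidableEq ι] (M : Matrix V V A)
    (E : Matrix ι ι ℤ) (hE : E * E = E) (m : ℕ) : (kr M E) ^ (m + 1) = kr (M ^ (m + 1)) E := by
  induction m with
  | zero => simp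
  | succ m ih => rw [pow_succ, ih, kr_mul, ← pow_succ, hE]

/-- The idempotent of rank one used for doubling. -/
def E0 : Matrix (Fin 2) (Fin 2) ℤ := !![1, 0; -1, 0]

/-- The all-ones matrix. -/
def J2 : Matrix (Fin 2) (Fin 2) ℤ := !![1, 1; 1, 1]

theorem E0_sq : E0 * E0 = E0 := by decide +kernel
theorem J2_E0 : J2 * E0 = 0 := by decide +kernel

end kr

end Pool.Agent.Helper817_sse
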