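import Mathlib
import Pool.Agent.Helper817_sse.Add
import Pool.Agent.Helper817_sse.SZ
import Pool.Agent.Helper817_sse.Stretch

set_option autoImplicit false
set_option linter.unusedSectionVars false
set_option synthInstance.maxSize 4000

/-!
# The family of matrices attached to a pair of gadgets
-/

namespace Pool.Agent.Helper817_sse

open Matrix Finset

section prim

variable {G : Type} [Group G] [Fintype G]

/-- `G`-primitivity. -/
def GPrim (P : SM G) : Prop :=
  0 < P.1 ∧ (∀ i j g, 0 ≤ P.2 i j g) ∧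
    ∃ k : ℕ, ∀ i j g, 0 < ((fun M : Fin P.1 → Fin P.1 → G → ℤ => cv M P.2)^[k] P.2) i j g

theorem iter_pos {n : ℕ} (M : Fin n → Fin n → G → ℤ) (E : Fin n → Fin n → Prop)
    (h0 : ∀ i j g, 0 ≤ M i j g) (h1 : ∀ i j g, E i j → 0 < M i j g) : ∀ k : ℕ,
    (∀ i j g, 0 ≤ ((fun M' : Fin n → Fin n → G → ℤ => cv M' M)^[k] M) i j g) ∧
    (∀ i j g, Wk E (k + 1) i j → 0 < ((fun M' : Fin n → Fin n → G → ℤ => cv M' M)^[k] M) i j g) := by
  intro k
  induction k with
  | zero =>
    refine ⟨h0, ?_⟩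
    rintro i j g ⟨z, hz, h⟩
    cases hz
    exact h1 i j g h
  | succ k ih =>
    rw [Function.iterate_succ_apply']
    set Y := ((fun M' : Fin n → Fin n → G → ℤ => cv M' M)^[k] M)
    refine ⟨?_, ?_⟩
    · intro i j g
      exact sum_nonneg (fun l _ => sum_nonneg (fun h _ => mul_nonneg (ih.1 i l h) (h0 l j _)))
    · rintro i j g ⟨z, hz, h⟩
      change 0 < ∑ l, ∑ h : G, Y i l h * M l j (h⁻¹ * g)
      refine sum_pos' (fun l _ => sum_nonneg (fun h _ => mul_nonneg (ih.1 i l h) (h0 l j _)))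
        ⟨z, mem_univ _, ?_⟩
      exact sum_pos' (fun h _ => mul_nonneg (ih.1 i z h) (h0 z j _))
        ⟨1, mem_univ _, mul_pos (ih.2 i z 1 hz) (h1 z j _ h)⟩

theorem Wk_lift {V V' : Type*} (E : V → V → Prop) (π : V' → V) (hπ : Function.Surjective π) :
    ∀ (k : ℕ) (i j : V'), Wk E (k + 1) (π i) (π j) → Wk (fun i j => E (π i) (π j)) (k + 1) i j := by
  intro k
  induction k with
  | zero =>
    rintro i j ⟨z, hz, h⟩
    cases hz
    exact ⟨i, rfl, h⟩
  | succ k ih =>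
    rintro i j ⟨z, hz, h⟩
    obtain ⟨z', rfl⟩ := hπ z
    exact ⟨z', ih i z' hz, h⟩

theorem Wk_proj {V V' : Type*} (E : V → V → Prop) (π : V' → V) :
    ∀ (k : ℕ) (i j : V'), Wk (fun i j => E (π i) (π j)) k i j → Wk E k (π i) (π j) := by
  intro k
  induction k with
  | zero => intro i j h; cases h; rfl
  | succ k ih =>
    rintro i j ⟨z, hz, h⟩
    exact ⟨π z, ih i z hz, h⟩

end prim

section coeffs

variable {G : Type} [Group G] [Fintype G]

/-- The element all of whose coefficients are `c`. -/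
noncomputable def cst (c : ℤ) : Lam G :=
  MonoidAlgebra.ofCoeff (Finsupp.equivFunOnFinite.symm (fun _ => c))

theorem coeff_cst (c : ℤ) (g : G) : (cst c : Lam G).coeff g = c := by
  unfold cst
  rw [MonoidAlgebra.coeff_ofCoeff]
  rfl

theorem coeff_zsmul (z : ℤ) (a : Lam G) (g : G) : (z • a).coeff g = z * a.coeff g := by
  rw [MonoidAlgebra.coeff_smul_apply]
  rfl

theorem eq_zero_of_coeff (a : Lam G) (h : ∀ g, a.coeff g = 0) : a = 0 := by
  have : a.coeff = 0 := Finsupp.ext h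
  exact MonoidAlgebra.coeff_injective (by rw [this]; rfl)

end coeffs

section rep

variable {G : Type} [Group G] [Fintype G]
variable {X : Type*} [Fintype X] [DecidableEq X] [MulAction G X]

theorem rho_pow {α : Type*} [Fintype α] [DecidableEq α] (x0 : X) (M : Matrix α α (Lam G)) (k : ℕ) :
    rho x0 (fn (M ^ (k + 1))) = (rho x0 (fn M)) ^ (k + 1) := by
  induction k with
  | zero => simp
  | succ k ih => rw [pow_succ, fn_mul, rho_cv, ih, ← pow_succ]

theorem rho_kr {V ι : Type*} (x0 : X) (M : Matrix V V (Lam G)) (E : Matrix ι ι ℤ)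
    (z w : (V × ι) × X) : rho x0 (fn (kr M E)) z w =
      E z.1.2 w.1.2 * rho x0 (fn M) (z.1.1, z.2) (w.1.1, w.2) := by
  rw [rho_apply, rho_apply, mul_sum]
  apply sum_congr rfl; intro g _
  change (kr M E z.1 w.1).coeff g * _ = _ * ((M z.1.1 w.1.1).coeff g * _)
  rw [kr_apply, coeff_zsmul]
  ring

theorem rho_ne {α : Type*} (x0 : X) (M : Matrix α α (Lam G)) (z w : α × X)
    (h : rho x0 (fn M) z w ≠ 0) : M z.1 w.1 ≠ 0 := by
  intro h0
  apply h
  rw [rho_apply]
  apply sum_eq_zero; intro g _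
  have : fn M z.1 w.1 g = 0 := by
    unfold fn; rw [h0]; rfl
  rw [this, zero_mul]

theorem rho_fn_add {α : Type*} (x0 : X) (M N : Matrix α α (Lam G)) :
    rho x0 (fn (M + N)) = rho x0 (fn M) + rho x0 (fn N) := by
  rw [← rho_add]
  rfl

end rep

section nil

/-- Triangularizable nilpotent matrices. -/
def TN {A : Type*} [Ring A] {n0 : ℕ} (W : Matrix (Fin n0) (Fin n0) A) : Prop :=
  ∃ P P' : Matrix (Fin n0) (Fin n0) A, P * P' = 1 ∧ P' * P = 1 ∧ ∀ k l, (P' * W * P) k l ≠ 0 → k < l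

theorem TN_pow {A : Type*} [Ring A] {n0 : ℕ} (W : Matrix (Fin n0) (Fin n0) A) (h : TN W) :
    W ^ (n0 + 1) = 0 := by
  obtain ⟨P, P', h1, h2, h3⟩ := h
  set U := P' * W * P with hU
  have h4 : ∀ (k : ℕ) (x y : Fin n0), (U ^ k) x y ≠ 0 → x.val + k ≤ y.val := by
    intro k
    induction k with
    | zero =>
      intro x y h
      by_contra h'
      apply h
      rw [pow_zero, Matrix.one_apply_ne]
      intro e
      rw [e] at h'
      exact h' (by omega)
    | succ k ih =>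
      intro x y h
      rw [pow_succ, Matrix.mul_apply] at h
      obtain ⟨z, _, hz⟩ := exists_ne_zero_of_sum_ne_zero h
      have a1 := ih x z (fun h0 => hz (by rw [h0, zero_mul]))
      have a2 : z < y := h3 z y (fun h0 => hz (by rw [h0, mul_zero]))
      have a3 : z.val < y.val := a2
      omega
  have h5 : U ^ (n0 + 1) = 0 := by
    ext1 x y
    by_contra h
    have := h4 _ x y h
    have := y.isLt
    omega
  have h6 : W = P * U * P' := by
    rw [hU]
    calc W = (P * P') * W * (P * P') := by rw [h1, one_mul, mul_one]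
      _ = _ := by simp only [mul_assoc]
  have h7 : ∀ k : ℕ, (P * U * P') ^ k = P * U ^ k * P' := by
    intro k
    induction k with
    | zero => rw [pow_zero, pow_zero, mul_one, h1]
    | succ k ih =>
      rw [pow_succ, ih, pow_succ]
      calc P * U ^ k * P' * (P * U * P') = P * U ^ k * (P' * P) * U * P' := by simp only [mul_assoc]
        _ = _ := by rw [h2, mul_one]; simp only [mul_assoc]
  rw [h6, h7, h5, mul_zero, zero_mul]

theorem nil_left {α : Type*} [Fintype α] [DecidableEq α] {M Y : Matrix α α ℤ} (h : M * Y = 0)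
    (hn : IsNilpotent (M + Y)) : IsNilpotent M := by
  obtain ⟨k, hk⟩ := hn
  refine ⟨k + 1, ?_⟩
  have : ∀ k : ℕ, M * (M + Y) ^ k = M ^ (k + 1) := by
    intro k
    induction k with
    | zero => simp
    | succ k ih =>
      have h1 : M ^ (k + 1) * Y = 0 := by rw [pow_succ, Matrix.mul_assoc, h, Matrix.mul_zero]
      rw [pow_succ, ← Matrix.mul_assoc, ih, Matrix.mul_add, h1, add_zero, ← pow_succ]
  rw [← this, hk, Matrix.mul_zero]

end nil

section family

variable {G : Type} [Group G] [Fintype G]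
variable {X : Type} [Fintype X] [DecidableEq X] [MulAction G X]

variable {K n0 Q L : ℕ} (q : Fin K → ℕ) (Sup : Fin n0 → Fin n0 → Prop)

open Classical in
/-- The base matrix on the vertices. -/
noncomputable def DD (Q L : ℕ) (c : ℤ) : Matrix (VV K n0 Q L) (VV K n0 Q L) (Lam G) :=
  Matrix.of fun x y => if EV q Sup x y then cst c else 0

/-- The delayed gadgets. -/
noncomputable def TT (Q L : ℕ) (Wf : Fin K → Matrix (Fin n0) (Fin n0) (Lam G)) :
    Matrix (VV K n0 Q L) (VV K n0 Q L) (Lam G) :=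
  bdg L (fun i => Bk Q (q i) (Wf i))

/-- The matrices of the family. -/
noncomputable def AA (Q L : ℕ) (c : ℤ) (Wf : Fin K → Matrix (Fin n0) (Fin n0) (Lam G)) :
    Matrix (VV K n0 Q L × Fin 2) (VV K n0 Q L × Fin 2) (Lam G) :=
  kr (TT q Q L Wf) E0 + kr (DD q Sup Q L c) J2

variable {q Sup}

theorem J2_apply (a b : Fin 2) : J2 a b = 1 := by
  fin_cases a <;> fin_cases b <;> rfl

theorem E0_abs (a b : Fin 2) : |E0 a b| ≤ 1 := by
  revert a b; decide

theorem TT_supp {Wf : Fin K → Matrix (Fin n0) (Fin n0) (Lam G)}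
    (hS : ∀ i k l, Wf i k l ≠ 0 → Sup k l) (x y : VV K n0 Q L) (h : TT q Q L Wf x y ≠ 0) :
    EV q Sup x y := bdg_supp q Sup Wf hS x y h

theorem TT_coeff {Wf : Fin K → Matrix (Fin n0) (Fin n0) (Lam G)} {c : ℤ} (hc : 1 < c)
    (hW : ∀ i k l g, |(Wf i k l).coeff g| < c) (x y : VV K n0 Q L) (g : G) :
    |(TT q Q L Wf x y).coeff g| < c := by
  have h0 : |(0 : Lam G).coeff g| < c := by
    change |(0 : ℤ)| < c
    rw [abs_zero]; omega
  have h1 : ∀ k l : Fin n0, |((1 : Matrix (Fin n0) (Fin n0) (Lam G)) k l).coeff g| < c := by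
    classical
    intro k l
    by_cases h : k = l
    · subst h
      rw [Matrix.one_apply_eq, MonoidAlgebra.one_def, MonoidAlgebra.coeff_single, Finsupp.single_apply]
      split_ifs
      · rw [abs_one]; exact hc
      · rw [abs_zero]; omega
    · rw [Matrix.one_apply_ne h]; exact h0
  unfold TT
  rcases x with x | a <;> rcases y with y | b <;> simp only [bdg_ll, bdg_lr, bdg_rl, bdg_rr]
  · split_ifs
    · simp only [Bk, Bk2_apply]
      split_ifs
      · exact h1 _ _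
      · exact h0
      · exact hW _ _ _ _
      · exact h0
    · exact h0
  · exact h0
  · exact h0
  · exact h0

theorem AA_coeff (c : ℤ) (Wf : Fin K → Matrix (Fin n0) (Fin n0) (Lam G))
    (x y : VV K n0 Q L × Fin 2) (g : G) : fn (AA q Sup Q L c Wf) x y g =
      E0 x.2 y.2 * (TT q Q L Wf x.1 y.1).coeff g + (DD q Sup Q L c x.1 y.1).coeff g := by
  change ((AA q Sup Q L c Wf) x y).coeff g = _
  unfold AA
  rw [Matrix.add_apply, MonoidAlgebra.coeff_add, Finsupp.add_apply, kr_apply, kr_apply, coeff_zsmul,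
    coeff_zsmul, J2_apply, one_mul]

theorem DD_pos (c : ℤ) (x y : VV K n0 Q L) (g : G) (h : EV q Sup x y) :
    (DD q Sup Q L c x y : Lam G).coeff g = c := by
  simp only [DD, Matrix.of_apply, if_pos h, coeff_cst]

theorem DD_neg (c : ℤ) (x y : VV K n0 Q L) (g : G) (h : ¬ EV q Sup x y) :
    (DD q Sup Q L c x y : Lam G).coeff g = 0 := by
  simp only [DD, Matrix.of_apply, if_neg h]
  rfl

theorem AA_pos {c : ℤ} {Wf : Fin K → Matrix (Fin n0) (Fin n0) (Lam G)} (hc : 1 < c)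
    (hW : ∀ i k l g, |(Wf i k l).coeff g| < c) (x y : VV K n0 Q L × Fin 2) (g : G)
    (h : EV q Sup x.1 y.1) : 0 < fn (AA q Sup Q L c Wf) x y g := by
  rw [AA_coeff, DD_pos c _ _ g h]
  have h1 := TT_coeff (Q := Q) (L := L) (q := q) hc hW x.1 y.1 g
  have h2 := E0_abs x.2 y.2
  have h3 : |E0 x.2 y.2 * (TT q Q L Wf x.1 y.1).coeff g| < c := by
    rw [abs_mul]
    calc |E0 x.2 y.2| * |(TT q Q L Wf x.1 y.1).coeff g| ≤ 1 * |(TT q Q L Wf x.1 y.1).coeff g| :=
          mul_le_mul_of_nonneg_right h2 (abs_nonneg _)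
      _ < c := by rw [one_mul]; exact h1
  have := (abs_lt.mp h3).1
  linarith

theorem AA_zero {c : ℤ} {Wf : Fin K → Matrix (Fin n0) (Fin n0) (Lam G)}
    (hS : ∀ i k l, Wf i k l ≠ 0 → Sup k l) (x y : VV K n0 Q L × Fin 2) (g : G)
    (h : ¬ EV q Sup x.1 y.1) : fn (AA q Sup Q L c Wf) x y g = 0 := by
  rw [AA_coeff, DD_neg c _ _ g h]
  have : TT q Q L Wf x.1 y.1 = 0 := by
    by_contra h'
    exact h (TT_supp hS _ _ h')
  rw [this]
  simp

theorem prim_of (A : Matrix (VV K n0 Q L × Fin 2) (VV K n0 Q L × Fin 2) (Lam G))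
    (hpos : ∀ x y g, EV q Sup x.1 y.1 → 0 < fn A x y g) (hnn : ∀ x y g, 0 ≤ fn A x y g)
    (hK : 0 < K) (hn : 0 < n0) (hQ : 1 < Q) (hL : 0 < L) (hq : 1 < q ⟨0, hK⟩) :
    GPrim (sig A) := by
  let e : Fin (Fintype.card (VV K n0 Q L × Fin 2)) ≃ VV K n0 Q L × Fin 2 :=
    (Fintype.equivFin (VV K n0 Q L × Fin 2)).symm
  obtain ⟨k, hk, hw⟩ := prim_V (q := q) (Sup := Sup) (n0 := n0) hK hn hQ hL hq
  obtain ⟨k, rfl⟩ : ∃ k', k = k' + 1 := ⟨k - 1, by omega⟩
  refine ⟨?_, ?_, k, ?_⟩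
  · change 0 < Fintype.card (VV K n0 Q L × Fin 2)
    exact Fintype.card_pos_iff.mpr ⟨(Sum.inr ⟨0, hL⟩, 0)⟩
  · intro i j g
    exact hnn _ _ g
  · intro i j g
    have hsurj : Function.Surjective
        (fun i : Fin (Fintype.card (VV K n0 Q L × Fin 2)) => (e i).1) := by
      intro v
      obtain ⟨i, hi⟩ := e.surjective (v, 0)
      refine ⟨i, ?_⟩
      change (e i).1 = v
      rw [hi]
    have := (iter_pos (fun i j => fn A (e i) (e j))
      (fun i j => EV q Sup (e i).1 (e j).1) (fun i j g => hnn _ _ g)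
      (fun i j g h => hpos _ _ g h) k).2 i j g
    exact this (Wk_lift (EV q Sup) (fun i => (e i).1) hsurj k i j (hw _ _))

theorem AA_nn {c : ℤ} {Wf : Fin K → Matrix (Fin n0) (Fin n0) (Lam G)} (hc : 1 < c)
    (hW : ∀ i k l g, |(Wf i k l).coeff g| < c) (hS : ∀ i k l, Wf i k l ≠ 0 → Sup k l)
    (x y : VV K n0 Q L × Fin 2) (g : G) : 0 ≤ fn (AA q Sup Q L c Wf) x y g := by
  by_cases h : EV q Sup x.1 y.1
  · exact (AA_pos hc hW x y g h).le
  · exact (AA_zero hS x y g h).ge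

theorem AA_prim {c : ℤ} {Wf : Fin K → Matrix (Fin n0) (Fin n0) (Lam G)} (hc : 1 < c)
    (hW : ∀ i k l g, |(Wf i k l).coeff g| < c) (hS : ∀ i k l, Wf i k l ≠ 0 → Sup k l)
    (hK : 0 < K) (hn : 0 < n0) (hQ : 1 < Q) (hL : 0 < L) (hq : 1 < q ⟨0, hK⟩) :
    GPrim (sig (AA q Sup Q L c Wf)) :=
  prim_of _ (fun x y g h => AA_pos hc hW x y g h) (AA_nn hc hW hS) hK hn hQ hL hq

theorem AA_SZ {c : ℤ} {Wf : Fin K → Matrix (Fin n0) (Fin n0) (Lam G)} (hT : ∀ i, TN (Wf i)) :
    SZ (AA q Sup Q L c Wf) (kr (DD q Sup Q L c : Matrix (VV K n0 Q L) (VV K n0 Q L) (Lam G)) J2) := by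
  choose P P' h1 h2 h3 using hT
  refine SZ_nil _ _ (kr (PV L Q P) 1) (kr (PV L Q P') 1) ?_ ?_ (fun x => rk K n0 Q L x.1) ?_
  · rw [kr_mul, J2_E0, kr_zero_right]
  · rw [kr_mul, PV_mul, Matrix.one_mul]
    simp only [h1]
    rw [PV_one, kr_one]
  · intro x y h
    rw [kr_mul, kr_mul, Matrix.one_mul, Matrix.mul_one, TT, PV_conj q P P' Wf h2, kr_apply] at h
    apply rk_lt q (fun i => P' i * Wf i * P i) (fun i k l h => h3 i k l h)
    intro h0
    exact h (by rw [h0, smul_zero])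

theorem AA_rho [MulAction.IsPretransitive G X] (x0 : X) (c : ℤ)
    (Wf : Fin K → Matrix (Fin n0) (Fin n0) (Lam G)) :
    rho x0 (fn (AA q Sup Q L c Wf)) = rho x0 (fn (kr (TT q Q L Wf) E0)) := by
  unfold AA
  rw [rho_fn_add]
  have : rho x0 (fn (kr (DD q Sup Q L c : Matrix (VV K n0 Q L) (VV K n0 Q L) (Lam G)) J2)) = 0 := by
    apply rho_const
    intro i j g g'
    change (kr (DD q Sup Q L c) J2 i j).coeff g = (kr (DD q Sup Q L c) J2 i j).coeff g'
    rw [kr_apply, coeff_zsmul, coeff_zsmul]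
    by_cases h : EV q Sup i.1 j.1
    · rw [DD_pos c _ _ _ h, DD_pos c _ _ _ h]
    · rw [DD_neg c _ _ _ h, DD_neg c _ _ _ h]
  rw [this, add_zero]

theorem AA_rho_pow [MulAction.IsPretransitive G X] (x0 : X) (c : ℤ)
    (Wf : Fin K → Matrix (Fin n0) (Fin n0) (Lam G)) (m : ℕ) :
    (rho x0 (fn (AA q Sup Q L c Wf))) ^ (m + 1) =
      rho x0 (fn (kr (bdg L (fun i => (Bk Q (q i) (Wf i)) ^ (m + 1))) E0)) := by
  rw [AA_rho, ← rho_pow, kr_pow _ _ E0_sq, TT, bdg_pow]

theorem AA_nil [MulAction.IsPretransitive G X] (x0 : X) (c : ℤ)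
    {Wf : Fin K → Matrix (Fin n0) (Fin n0) (Lam G)} (hT : ∀ i, TN (Wf i))
    (hpos : ∀ i, 0 < q i) (hq : ∀ i, q i ≤ Q) : IsNilpotent (rho x0 (fn (AA q Sup Q L c Wf))) := by
  refine ⟨(n0 + 1) * Q + 1, ?_⟩
  rw [AA_rho_pow]
  have : (fun i => (Bk Q (q i) (Wf i)) ^ ((n0 + 1) * Q + 1)) =
      (fun _ => (0 : Matrix (Fin n0 × Fin Q) (Fin n0 × Fin Q) (Lam G))) := by
    funext i
    apply Bk_pow_zero (q i) (hpos i) (hq i) (Wf i) n0 (TN_pow _ (hT i))
    have := Nat.mul_le_mul_left (n0 + 1) (hq i)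
    omega
  rw [this]
  ext z w
  rw [rho_kr]
  have h0 : (bdg L (fun _ => (0 : Matrix (Fin n0 × Fin Q) (Fin n0 × Fin Q) (Lam G))) :
      Matrix (VV K n0 Q L) (VV K n0 Q L) (Lam G)) = 0 := by
    ext1 x y
    rcases x with x | a <;> rcases y with y | b <;> simp
  rw [h0]
  have : rho x0 (fn (0 : Matrix (VV K n0 Q L) (VV K n0 Q L) (Lam G))) = 0 := by
    apply rho_const
    intro i j g g'
    rfl
  rw [this]
  simp

/-- The relevant integer matrix. -/
noncomputable def Ph (L : ℕ) (x0 : X) (N : Fin K → Matrix (Fin n0 × Fin Q) (Fin n0 × Fin Q) (Lam G)) :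
    Matrix ((VV K n0 Q L × Fin 2) × X) ((VV K n0 Q L × Fin 2) × X) ℤ :=
  rho x0 (fn (kr (bdg L N) E0))

theorem Ph_add (x0 : X) (M N : Fin K → Matrix (Fin n0 × Fin Q) (Fin n0 × Fin Q) (Lam G)) :
    Ph L x0 (fun i => M i + N i) = Ph L x0 M + Ph L x0 N := by
  unfold Ph
  rw [bdg_add, kr_add_left, rho_fn_add]

theorem Ph_ne (x0 : X) (N : Fin K → Matrix (Fin n0 × Fin Q) (Fin n0 × Fin Q) (Lam G))
    (z w : (VV K n0 Q L × Fin 2) × X) (h : Ph L x0 N z w ≠ 0) : bdg L N z.1.1 w.1.1 ≠ 0 := by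
  unfold Ph at h
  rw [rho_kr] at h
  exact rho_ne x0 (bdg L N) _ _ (right_ne_zero_of_mul h)

theorem card_lt (Q c : ℕ) (h : c ≤ Q) : (∑ s : Fin Q, if s.val < c then (1 : ℤ) else 0) = c := by
  rw [Fin.sum_univ_eq_sum_range (fun s => if s < c then (1 : ℤ) else 0) Q, ← sum_filter,
    sum_const, nsmul_eq_mul, mul_one]
  congr 1
  have : (range Q).filter (fun s => s < c) = range c := by
    ext s
    simp only [mem_filter, mem_range]
    omega
  rw [this, card_range]

/-- The contribution of the active block. -/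
theorem FI_active [MulAction.IsPretransitive G X] (x0 : X) (j : Fin K) (W : Matrix (Fin n0) (Fin n0) (Lam G)) (c : ℕ)
    (hc : c ≤ Q) (hodd : c % 2 = 1) (hT : TN W) (hW : ∀ k l, W k l ≠ 0 → Sup k l)
    (hsup : ∀ k l, Sup k l → ¬ Sup l k)
    (hn : IsNilpotent (Ph (K := K) L x0 (fun i => if i = j then Dg Q c W else 0)))
    (hs : ∀ z w, Ph (K := K) L x0 (fun i => if i = j then Dg Q c W else 0) z w *
      Ph (K := K) L x0 (fun i => if i = j then Dg Q c W else 0) w z = 0) :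
    FI (Ph (K := K) L x0 (fun i => if i = j then Dg Q c W else 0)) = FI (rho x0 (fn W)) := by
  set Cq : Matrix (Fin Q × Fin 2) (Fin Q × Fin 2) ℤ :=
    Matrix.of fun s s' => (if s.1.val < c ∧ s.1 = s'.1 then 1 else 0) * E0 s.2 s'.2 with hCq
  set ι : (Fin n0 × X) × (Fin Q × Fin 2) → (VV K n0 Q L × Fin 2) × X :=
    fun p => ((Sum.inl (j, p.1.1, p.2.1), p.2.2), p.1.2) with hι
  have hinj : Function.Injective ι := by
    rintro ⟨⟨a, b⟩, ⟨s, t⟩⟩ ⟨⟨a', b'⟩, ⟨s', t'⟩⟩ h
    simp only [hι, Prod.mk.injEq, Sum.inl.injEq, true_and] at h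
    obtain ⟨⟨⟨rfl, rfl⟩, rfl⟩, rfl⟩ := h
    rfl
  have nW : IsNilpotent (rho x0 (fn W)) := by
    refine ⟨n0 + 1, ?_⟩
    rw [← rho_pow, TN_pow W hT]
    apply rho_const
    intro i j g g'
    rfl
  have sW : ∀ i j, (rho x0 (fn W)) i j * (rho x0 (fn W)) j i = 0 := by
    intro i j
    by_contra h
    have h1 := hW _ _ (rho_ne x0 W i j (left_ne_zero_of_mul h))
    have h2 := hW _ _ (rho_ne x0 W j i (right_ne_zero_of_mul h))
    exact hsup _ _ h1 h2
  have k1 := FI_kron (rho x0 (fn W)) nW sW Cq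
  have k2 : ((Cq.trace : ℤ) : ZMod 2) = 1 := by
    have : Cq.trace = c := by
      rw [Matrix.trace, Fintype.sum_prod_type]
      have : ∀ s : Fin Q, ∑ t : Fin 2, Cq.diag (s, t) = if s.val < c then 1 else 0 := by
        intro s
        rw [Fin.sum_univ_two]
        simp [hCq, Matrix.diag, E0]
      rw [sum_congr rfl (fun s _ => this s), card_lt Q c hc]
    rw [this]
    have h2 : c = 2 * (c / 2) + 1 := by omega
    rw [h2]
    push_cast
    have : (2 : ZMod 2) = 0 := by decide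
    rw [this]; ring
  rw [k2, one_mul] at k1
  rw [← k1]
  symm
  apply FI_incl ι hinj _ _ _ _ hn hs
  · intro p p'
    change Ph L x0 _ (ι p) (ι p') = rho x0 (fn W) p.1 p'.1 * Cq p.2 p'.2
    unfold Ph
    rw [rho_kr]
    simp only [hι, hCq, Matrix.of_apply]
    have : rho x0 (fn (bdg L (fun i => if i = j then Dg Q c W else 0) :
        Matrix (VV K n0 Q L) (VV K n0 Q L) (Lam G)))
        (Sum.inl (j, p.1.1, p.2.1), p.1.2) (Sum.inl (j, p'.1.1, p'.2.1), p'.1.2) =
        rho x0 (fn W) p.1 p'.1 * (if p.2.1.val < c ∧ p.2.1 = p'.2.1 then 1 else 0) := by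
      rw [rho_apply, rho_apply, sum_mul]
      apply sum_congr rfl; intro g _
      change ((bdg L (fun i => if i = j then Dg Q c W else 0) :
        Matrix (VV K n0 Q L) (VV K n0 Q L) (Lam G)) (Sum.inl (j, p.1.1, p.2.1))
          (Sum.inl (j, p'.1.1, p'.2.1))).coeff g * _ = (W p.1.1 p'.1.1).coeff g * _ * _
      simp only [bdg_ll, if_true, Dg, Matrix.of_apply]
      split_ifs
      · ring
      · change (0 : ℤ) * _ = _
        ring
    rw [this]
    ring
  · intro z w hz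
    by_contra h
    have h1 := Ph_ne x0 _ _ _ h
    rcases hz1 : z.1.1 with x | a
    · rcases hw1 : w.1.1 with y | b
      · rw [hz1, hw1, bdg_ll] at h1
        by_cases h2 : x.1 = j
        · apply hz ((x.2.1, z.2), (x.2.2, z.1.2))
          simp only [hι]
          rw [← h2]
          ext1
          · ext1
            · rw [hz1]
            · rfl
          · rfl
        · simp [h2] at h1
      · rw [hz1, hw1] at h1; simp at h1
    · rcases hw1 : w.1.1 with y | b
      · rw [hz1, hw1] at h1; simp at h1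
      · rw [hz1, hw1] at h1; simp at h1

end family

end Pool.Agent.Helper817_sse
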