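import Mathlib
import Pool.Agent.Helper817_sse.Family

set_option autoImplicit false
set_option linter.unusedSectionVars false
set_option synthInstance.maxSize 4000

/-!
# Many classes from a pair of gadgets
-/

namespace Pool.Agent.Helper817_sse

open Matrix Finset

section seq

theorem exists_seq (d : ℕ) (hd : 1 ≤ d) : ∃ q : ℕ → ℕ, (∀ i, (q i).Prime) ∧ (∀ i, 3 ≤ q i) ∧
    StrictMono q ∧ ∀ i j, i < j → d * q i ≤ q j := by
  choose f hf1 hf2 using Nat.exists_infinite_primes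
  let q : ℕ → ℕ := fun i => Nat.rec (f 3) (fun _ r => f (d * r + 1)) i
  have hs : ∀ i, q (i + 1) = f (d * q i + 1) := fun i => rfl
  have hp : ∀ i, (q i).Prime := by
    intro i
    cases i with
    | zero => exact hf2 3
    | succ i => rw [hs]; exact hf2 _
  have hl : ∀ i, d * q i < q (i + 1) := by
    intro i
    rw [hs]
    exact hf1 (d * q i + 1)
  have hm : StrictMono q := by
    apply strictMono_nat_of_lt_succ
    intro i
    calc q i ≤ d * q i := Nat.le_mul_of_pos_left _ hd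
      _ < q (i + 1) := hl i
  refine ⟨q, hp, ?_, hm, ?_⟩
  · intro i
    calc 3 ≤ q 0 := hf1 3
      _ ≤ q i := hm.monotone (Nat.zero_le i)
  · intro i j hij
    exact (hl i).le.trans (hm.monotone hij)

end seq

section family

variable {G : Type} [Group G] [Fintype G]
variable {X : Type} [Fintype X] [DecidableEq X] [MulAction G X] [MulAction.IsPretransitive G X]
variable {K n0 Q L : ℕ} {q : Fin K → ℕ} {Sup : Fin n0 → Fin n0 → Prop}

theorem walk_of_bdg {Wf : Fin K → Matrix (Fin n0) (Fin n0) (Lam G)}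
    (hS : ∀ i k l, Wf i k l ≠ 0 → Sup k l) (m : ℕ) (x y : VV K n0 Q L)
    (h : bdg L (fun i => (Bk Q (q i) (Wf i)) ^ (m + 1)) x y ≠ 0) : Wk (EV q Sup) (m + 1) x y := by
  rw [← bdg_pow] at h
  exact Wk_of_pow (M := TT q Q L Wf) (TT_supp hS) (m + 1) x y h

theorem short_of_walk (hpos : ∀ i, 0 < q i) (hcop : ∀ i j, i ≠ j → ¬ (q i ∣ 2 * q j))
    (hsup : ∀ k l, Sup k l → ¬ Sup l k) (j : Fin K) (hL : 2 * q j ≤ L) (x y : VV K n0 Q L)
    (h1 : Wk (EV q Sup) (q j) x y) (h2 : Wk (EV q Sup) (q j) y x) : False := by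
  have := Wk_trans h1 _ _ h2
  rw [← two_mul] at this
  exact no_closed_V hpos hcop hsup j hL x this

theorem FI_split (x0 : X) (c : ℤ) {Wf : Fin K → Matrix (Fin n0) (Fin n0) (Lam G)}
    (hS : ∀ i k l, Wf i k l ≠ 0 → Sup k l) (hT : ∀ i, TN (Wf i))
    (hpos : ∀ i, 0 < q i) (hQ : ∀ i, q i ≤ Q) (hcop : ∀ i j, i ≠ j → ¬ (q i ∣ 2 * q j))
    (hgrow : ∀ i j, i < j → (n0 + 1) * q i ≤ q j)
    (hsup : ∀ k l, Sup k l → ¬ Sup l k) (j : Fin K) (hL : 2 * q j ≤ L) (hodd : q j % 2 = 1) :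
    FI ((rho x0 (fn (AA q Sup Q L c Wf))) ^ (q j)) = FI (rho x0 (fn (Wf j))) +
      FI (Ph L x0 (fun i => if i ≤ j then 0 else (Bk Q (q i) (Wf i)) ^ (q j))) := by
  have hnil := AA_nil (q := q) (Sup := Sup) (L := L) x0 c hT hpos hQ
  obtain ⟨m, hm⟩ : ∃ m, q j = m + 1 := ⟨q j - 1, by have := hpos j; omega⟩
  have e1 : (rho x0 (fn (AA q Sup Q L c Wf))) ^ (q j) =
      Ph L x0 (fun i => (Bk Q (q i) (Wf i)) ^ (q j)) := by
    rw [hm, AA_rho_pow]; rfl
  have e2 : (fun i => (Bk Q (q i) (Wf i)) ^ (q j)) = (fun i => (if i = j then Dg Q (q j) (Wf j) else 0) +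
      (if i ≤ j then 0 else (Bk Q (q i) (Wf i)) ^ (q j))) := by
    funext i
    rcases lt_trichotomy i j with h | h | h
    · rw [if_neg h.ne, if_pos h.le, add_zero]
      exact Bk_pow_zero (q i) (hpos i) (hQ i) (Wf i) n0 (TN_pow _ (hT i)) _ (hgrow i j h)
    · subst h
      rw [if_pos rfl, if_pos le_rfl, add_zero]
      exact Bk_pow_full (q i) (hpos i) (hQ i) (Wf i)
    · rw [if_neg h.ne', if_neg h.not_ge, zero_add]
  set M := Ph L x0 (fun i => if i = j then Dg Q (q j) (Wf j) else 0) with hM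
  set Y := Ph L x0 (fun i => if i ≤ j then 0 else (Bk Q (q i) (Wf i)) ^ (q j)) with hY
  have e3 : (rho x0 (fn (AA q Sup Q L c Wf))) ^ (q j) = M + Y := by
    rw [e1, e2, Ph_add]
  have hsum : IsNilpotent (M + Y) := by
    rw [← e3]
    obtain ⟨k, hk⟩ := hnil
    refine ⟨k, ?_⟩
    rw [← pow_mul, mul_comm, pow_mul, hk, zero_pow (hpos j).ne']
  -- supports
  have sM : ∀ z w, M z w ≠ 0 → (∃ x : WW K n0 Q, z.1.1 = Sum.inl x ∧ x.1 = j) ∧
      (∃ x : WW K n0 Q, w.1.1 = Sum.inl x ∧ x.1 = j) ∧ Wk (EV q Sup) (q j) z.1.1 w.1.1 := by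
    intro z w h
    have h1 := Ph_ne x0 _ _ _ h
    have h2 : bdg L (fun i => (Bk Q (q i) (Wf i)) ^ (q j)) z.1.1 w.1.1 ≠ 0 := by
      rcases hz : z.1.1 with x | a <;> rcases hw : w.1.1 with y | b <;> rw [hz, hw] at h1 <;>
        simp only [bdg_ll, bdg_lr, bdg_rl, bdg_rr, ne_eq, not_true_eq_false] at h1 ⊢
      by_cases hxy : x.1 = y.1
      · rw [if_pos hxy] at h1 ⊢
        by_cases hxj : x.1 = j
        · rw [if_pos hxj] at h1
          rw [hxj, Bk_pow_full (q j) (hpos j) (hQ j)]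
          exact h1
        · rw [if_neg hxj] at h1; exact absurd rfl h1
      · rw [if_neg hxy] at h1; exact absurd rfl h1
    refine ⟨?_, ?_, ?_⟩
    · rcases hz : z.1.1 with x | a <;> rcases hw : w.1.1 with y | b <;> rw [hz, hw] at h1 <;>
        simp only [bdg_ll, bdg_lr, bdg_rl, bdg_rr, ne_eq, not_true_eq_false] at h1
      refine ⟨x, rfl, ?_⟩
      by_contra hxj
      by_cases hxy : x.1 = y.1
      · rw [if_pos hxy, if_neg hxj] at h1; exact h1 rfl
      · rw [if_neg hxy] at h1; exact h1 rfl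
    · rcases hz : z.1.1 with x | a <;> rcases hw : w.1.1 with y | b <;> rw [hz, hw] at h1 <;>
        simp only [bdg_ll, bdg_lr, bdg_rl, bdg_rr, ne_eq, not_true_eq_false] at h1
      refine ⟨y, rfl, ?_⟩
      by_contra hxj
      by_cases hxy : x.1 = y.1
      · rw [if_pos hxy, if_neg (by rw [hxy]; exact hxj)] at h1; exact h1 rfl
      · rw [if_neg hxy] at h1; exact h1 rfl
    · rw [hm] at h2 ⊢
      exact walk_of_bdg hS m _ _ h2
  have sY : ∀ z w, Y z w ≠ 0 → (¬ ∃ x : WW K n0 Q, z.1.1 = Sum.inl x ∧ x.1 = j) ∧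
      (¬ ∃ x : WW K n0 Q, w.1.1 = Sum.inl x ∧ x.1 = j) ∧ Wk (EV q Sup) (q j) z.1.1 w.1.1 := by
    intro z w h
    have h1 := Ph_ne x0 _ _ _ h
    have h2 : bdg L (fun i => (Bk Q (q i) (Wf i)) ^ (q j)) z.1.1 w.1.1 ≠ 0 := by
      rcases hz : z.1.1 with x | a <;> rcases hw : w.1.1 with y | b <;> rw [hz, hw] at h1 <;>
        simp only [bdg_ll, bdg_lr, bdg_rl, bdg_rr, ne_eq, not_true_eq_false] at h1 ⊢
      by_cases hxy : x.1 = y.1
      · rw [if_pos hxy] at h1 ⊢
        by_cases hxj : x.1 ≤ j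
        · rw [if_pos hxj] at h1; exact absurd rfl h1
        · rw [if_neg hxj] at h1
          exact h1
      · rw [if_neg hxy] at h1; exact absurd rfl h1
    refine ⟨?_, ?_, ?_⟩
    · rintro ⟨x, hz, hxj⟩
      rw [hz] at h1
      rcases hw : w.1.1 with y | b <;> rw [hw] at h1 <;>
        simp only [bdg_ll, bdg_lr, bdg_rl, bdg_rr, ne_eq, not_true_eq_false] at h1
      by_cases hxy : x.1 = y.1
      · rw [if_pos hxy, if_pos hxj.le] at h1; exact h1 rfl
      · rw [if_neg hxy] at h1; exact h1 rfl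
    · rintro ⟨y, hw, hyj⟩
      rw [hw] at h1
      rcases hz : z.1.1 with x | b <;> rw [hz] at h1 <;>
        simp only [bdg_ll, bdg_lr, bdg_rl, bdg_rr, ne_eq, not_true_eq_false] at h1
      by_cases hxy : x.1 = y.1
      · rw [if_pos hxy, if_pos (by rw [hxy]; exact hyj.le)] at h1; exact h1 rfl
      · rw [if_neg hxy] at h1; exact h1 rfl
    · rw [hm] at h2 ⊢
      exact walk_of_bdg hS m _ _ h2
  have shM : ∀ z w, M z w * M w z = 0 := by
    intro z w
    by_contra h
    exact short_of_walk hpos hcop hsup j hL _ _ (sM z w (left_ne_zero_of_mul h)).2.2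
      (sM w z (right_ne_zero_of_mul h)).2.2
  have shY : ∀ z w, Y z w * Y w z = 0 := by
    intro z w
    by_contra h
    exact short_of_walk hpos hcop hsup j hL _ _ (sY z w (left_ne_zero_of_mul h)).2.2
      (sY w z (right_ne_zero_of_mul h)).2.2
  have hMY : M * Y = 0 := by
    ext z w
    rw [Matrix.mul_apply]
    apply sum_eq_zero; intro v _
    by_contra h
    exact (sY v w (right_ne_zero_of_mul h)).1 (sM z v (left_ne_zero_of_mul h)).2.1
  have hYM : Y * M = 0 := by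
    ext z w
    rw [Matrix.mul_apply]
    apply sum_eq_zero; intro v _
    by_contra h
    exact (sY z v (left_ne_zero_of_mul h)).2.1 (sM v w (right_ne_zero_of_mul h)).1
  have nM : IsNilpotent M := nil_left hMY hsum
  have nY : IsNilpotent Y := nil_left hYM (by rw [add_comm]; exact hsum)
  rw [e3, FI_disj (fun z => ∃ x : WW K n0 Q, z.1.1 = Sum.inl x ∧ x.1 = j) M Y
    (fun z w h => ⟨(sM z w h).1, (sM z w h).2.1⟩) (fun z w h => ⟨(sY z w h).1, (sY z w h).2.1⟩)
    nM nY shM shY]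
  congr 1
  exact FI_active (Sup := Sup) x0 j (Wf j) (q j) (hQ j) hodd (hT j) (hS j) hsup nM shM

theorem pow_short (x0 : X) (c : ℤ) {Wf : Fin K → Matrix (Fin n0) (Fin n0) (Lam G)}
    (hS : ∀ i k l, Wf i k l ≠ 0 → Sup k l)
    (hpos : ∀ i, 0 < q i) (hcop : ∀ i j, i ≠ j → ¬ (q i ∣ 2 * q j))
    (hsup : ∀ k l, Sup k l → ¬ Sup l k) (j : Fin K) (hL : 2 * q j ≤ L)
    (z w : (VV K n0 Q L × Fin 2) × X) :
    ((rho x0 (fn (AA q Sup Q L c Wf))) ^ (q j)) z w * ((rho x0 (fn (AA q Sup Q L c Wf))) ^ (q j)) w z = 0 := by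
  obtain ⟨m, hm⟩ : ∃ m, q j = m + 1 := ⟨q j - 1, by have := hpos j; omega⟩
  have e1 : (rho x0 (fn (AA q Sup Q L c Wf))) ^ (q j) =
      Ph L x0 (fun i => (Bk Q (q i) (Wf i)) ^ (q j)) := by
    rw [hm, AA_rho_pow]; rfl
  rw [e1]
  by_contra h
  have h1 := Ph_ne x0 _ _ _ (left_ne_zero_of_mul h)
  have h2 := Ph_ne x0 _ _ _ (right_ne_zero_of_mul h)
  rw [hm] at h1 h2
  have k1 := walk_of_bdg hS m _ _ h1
  have k2 := walk_of_bdg hS m _ _ h2
  rw [← hm] at k1 k2
  exact short_of_walk hpos hcop hsup j hL _ _ k1 k2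

theorem good_AA (x0 : X) {c : ℤ} {Wf : Fin K → Matrix (Fin n0) (Fin n0) (Lam G)}
    (hS : ∀ i k l, Wf i k l ≠ 0 → Sup k l) (hT : ∀ i, TN (Wf i))
    (hpos : ∀ i, 0 < q i) (hQ : ∀ i, q i ≤ Q) (hcop : ∀ i j, i ≠ j → ¬ (q i ∣ 2 * q j))
    (hsup : ∀ k l, Sup k l → ¬ Sup l k) (j : Fin K) (hL : 2 * q j ≤ L) (m : ℕ) (hm : q j = m + 1) :
    Good x0 m (sig (AA q Sup Q L c Wf)) := by
  set V' := VV K n0 Q L × Fin 2
  set e : Fin (Fintype.card V') ≃ V' := (Fintype.equivFin V').symm with he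
  refine ⟨?_, ?_⟩
  · rw [Matrix.trace]
    apply sum_eq_zero
    intro i _
    rw [Matrix.diag_apply]
    by_contra h
    have hE : ∀ i j, (eps (sig (AA q Sup Q L c Wf)).2) i j ≠ 0 → EV q Sup (e i).1 (e j).1 := by
      intro i j hij
      by_contra h'
      apply hij
      rw [eps_apply]
      apply sum_eq_zero; intro g _
      exact AA_zero hS _ _ g h'
    have h1 := Wk_of_pow hE _ _ _ h
    have h2 := Wk_proj (EV q Sup) (fun i => (e i).1) _ _ _ h1
    rw [← hm] at h2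
    exact no_closed_V hpos hcop hsup j hL _ h2
  · have hnil := AA_nil (q := q) (Sup := Sup) (L := L) x0 c hT hpos hQ
    exact nil_submatrix (Equiv.prodCongr e (Equiv.refl X)) hnil

theorem FI_sig (x0 : X) (c : ℤ) {Wf : Fin K → Matrix (Fin n0) (Fin n0) (Lam G)}
    (hS : ∀ i k l, Wf i k l ≠ 0 → Sup k l) (hT : ∀ i, TN (Wf i))
    (hpos : ∀ i, 0 < q i) (hQ : ∀ i, q i ≤ Q) (hcop : ∀ i j, i ≠ j → ¬ (q i ∣ 2 * q j))
    (hsup : ∀ k l, Sup k l → ¬ Sup l k) (j : Fin K) (hL : 2 * q j ≤ L) :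
    FI ((rho x0 (sig (AA q Sup Q L c Wf)).2) ^ (q j)) = FI ((rho x0 (fn (AA q Sup Q L c Wf))) ^ (q j)) := by
  set V' := VV K n0 Q L × Fin 2
  set e : Fin (Fintype.card V') ≃ V' := (Fintype.equivFin V').symm with he
  have h1 : rho x0 (sig (AA q Sup Q L c Wf)).2 =
      (rho x0 (fn (AA q Sup Q L c Wf))).submatrix (Equiv.prodCongr e (Equiv.refl X))
        (Equiv.prodCongr e (Equiv.refl X)) := rfl
  have hnil := AA_nil (q := q) (Sup := Sup) (L := L) x0 c hT hpos hQ
  have h2 : IsNilpotent ((rho x0 (fn (AA q Sup Q L c Wf))) ^ (q j)) := by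
    obtain ⟨k, hk⟩ := hnil
    refine ⟨k, ?_⟩
    rw [← pow_mul, mul_comm, pow_mul, hk, zero_pow (hpos j).ne']
  have h3 := FI_equiv (Equiv.prodCongr e (Equiv.refl X)) _ h2
    (fun z w => pow_short x0 c hS hpos hcop hsup j hL z w)
  rw [← h3, ← submatrix_pow_equiv]
  rfl

end family

section main

variable {G : Type} [Group G] [Fintype G]
variable {X : Type} [Fintype X] [DecidableEq X] [MulAction G X] [MulAction.IsPretransitive G X]

theorem family_main (x0 : X) {n0 : ℕ} (hn : 0 < n0) (Wa Wb : Matrix (Fin n0) (Fin n0) (Lam G))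
    (Sup : Fin n0 → Fin n0 → Prop) (ha : ∀ k l, Wa k l ≠ 0 → Sup k l)
    (hb : ∀ k l, Wb k l ≠ 0 → Sup k l) (hsup : ∀ k l, Sup k l → ¬ Sup l k)
    (hTa : TN Wa) (hTb : TN Wb) (hne : FI (rho x0 (fn Wa)) ≠ FI (rho x0 (fn Wb))) (N : ℕ) :
    ∃ (n : ℕ) (A : Fin n → Fin n → G → ℤ) (f : Fin N → Fin n → Fin n → G → ℤ),
      GPrim (⟨n, A⟩ : SM G) ∧
      (∀ m, GPrim (⟨n, f m⟩ : SM G) ∧ Relation.EqvGen EZ (⟨n, f m⟩ : SM G) ⟨n, A⟩) ∧
      (∀ m m', m ≠ m' → ¬ Relation.EqvGen EP (⟨n, f m⟩ : SM G) ⟨n, f m'⟩) ∧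
      ((∀ k l, ∑ g, (Wa k l).coeff g = ∑ g, (Wb k l).coeff g) →
        ∀ m i j, ∑ g, f m i j g = ∑ g, A i j g) := by
  classical
  obtain ⟨q0, hp, h3, hmono, hgr⟩ := exists_seq (n0 + 1) (by omega)
  set K := N + 1 with hK
  set q : Fin K → ℕ := fun i => q0 i.val with hq
  set Q := q0 N with hQd
  set L := 2 * Q with hLd
  have hpos : ∀ i, 0 < q i := fun i => (hp i.val).pos
  have hQ : ∀ i, q i ≤ Q := by
    intro i
    apply hmono.monotone
    have := i.isLt
    omega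
  have hL : ∀ j, 2 * q j ≤ L := fun j => Nat.mul_le_mul_left 2 (hQ j)
  have hodd : ∀ j, q j % 2 = 1 := by
    intro j
    rcases (hp j.val).eq_two_or_odd with h | h
    · have := h3 j.val; omega
    · exact h
  have hcop : ∀ i j : Fin K, i ≠ j → ¬ (q i ∣ 2 * q j) := by
    intro i j hij hd
    rcases (Nat.Prime.dvd_mul (hp i.val)).mp hd with h | h
    · have h1 := Nat.le_of_dvd (by norm_num) h
      have := h3 i.val
      omega
    · have h1 := (Nat.prime_dvd_prime_iff_eq (hp i.val) (hp j.val)).mp h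
      exact hij (Fin.ext (hmono.injective h1))
  have hgrow : ∀ i j : Fin K, i < j → (n0 + 1) * q i ≤ q j := fun i j hij => hgr i.val j.val hij
  have hK0 : 0 < K := by omega
  have hQ1 : 1 < Q := by have := h3 N; omega
  have hL0 : 0 < L := by omega
  have hq1 : 1 < q ⟨0, hK0⟩ := by have := h3 0; change 1 < q0 0; omega
  -- the bound on the coefficients
  set c : ℤ := 2 + ∑ k, ∑ l, ∑ g, (|(Wa k l).coeff g| + |(Wb k l).coeff g|) with hc
  have hnnk : ∀ k l g, 0 ≤ |(Wa k l).coeff g| + |(Wb k l).coeff g| := fun k l g =>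
    add_nonneg (abs_nonneg _) (abs_nonneg _)
  have hc1 : 1 < c := by
    have : 0 ≤ ∑ k, ∑ l, ∑ g, (|(Wa k l).coeff g| + |(Wb k l).coeff g|) :=
      sum_nonneg (fun k _ => sum_nonneg (fun l _ => sum_nonneg (fun g _ => hnnk k l g)))
    omega
  have hbd : ∀ k l g, |(Wa k l).coeff g| + |(Wb k l).coeff g| < c := by
    intro k l g
    have s1 := single_le_sum (f := fun g => |(Wa k l).coeff g| + |(Wb k l).coeff g|)
      (fun g _ => hnnk k l g) (mem_univ g)
    have s2 := single_le_sum (f := fun l => ∑ g, (|(Wa k l).coeff g| + |(Wb k l).coeff g|))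
      (fun l _ => sum_nonneg (fun g _ => hnnk k l g)) (mem_univ l)
    have s3 := single_le_sum (f := fun k => ∑ l, ∑ g, (|(Wa k l).coeff g| + |(Wb k l).coeff g|))
      (fun k _ => sum_nonneg (fun l _ => sum_nonneg (fun g _ => hnnk k l g))) (mem_univ k)
    have s4 : |(Wa k l).coeff g| + |(Wb k l).coeff g| ≤
        ∑ k, ∑ l, ∑ g, (|(Wa k l).coeff g| + |(Wb k l).coeff g|) := le_trans (le_trans s1 s2) s3
    omega
  have hca : ∀ k l g, |(Wa k l).coeff g| < c := fun k l g => by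
    have := hbd k l g
    have := abs_nonneg ((Wb k l).coeff g)
    omega
  have hcb : ∀ k l g, |(Wb k l).coeff g| < c := fun k l g => by
    have := hbd k l g
    have := abs_nonneg ((Wa k l).coeff g)
    omega
  -- the weights
  set Wf : Fin N → Fin K → Matrix (Fin n0) (Fin n0) (Lam G) :=
    fun m i => if i = m.castSucc then Wa else Wb with hWf
  have W1 : ∀ m i k l g, |(Wf m i k l).coeff g| < c := by
    intro m i k l g
    simp only [hWf]
    split_ifs
    · exact hca k l g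
    · exact hcb k l g
  have W2 : ∀ m i k l, Wf m i k l ≠ 0 → Sup k l := by
    intro m i k l
    simp only [hWf]
    split_ifs
    · exact ha k l
    · exact hb k l
  have W3 : ∀ m i, TN (Wf m i) := by
    intro m i
    simp only [hWf]
    split_ifs
    · exact hTa
    · exact hTb
  refine ⟨Fintype.card (VV K n0 Q L × Fin 2), (sig (AA q Sup Q L c (fun _ => Wb))).2,
    fun m => (sig (AA q Sup Q L c (Wf m))).2, ?_, ?_, ?_, ?_⟩
  · exact AA_prim hc1 (fun _ => hcb) (fun _ => hb) hK0 hn hQ1 hL0 hq1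
  · intro m
    refine ⟨AA_prim hc1 (W1 m) (W2 m) hK0 hn hQ1 hL0 hq1, ?_⟩
    exact SZ.trans (AA_SZ (W3 m)) (AA_SZ (fun _ => hTb)).symm
  · have key : ∀ m m' : Fin N, m < m' →
        ¬ Relation.EqvGen EP (sig (AA q Sup Q L c (Wf m))) (sig (AA q Sup Q L c (Wf m'))) := by
      intro m m' hmm h
      set j : Fin K := m'.castSucc with hj
      obtain ⟨t, ht⟩ : ∃ t, q j = t + 1 := ⟨q j - 1, by have := hpos j; omega⟩
      have g1 := good_AA (c := c) x0 (W2 m) (W3 m) hpos hQ hcop hsup j (hL j) t ht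
      have g2 := (eqv_good x0 t _ _ h).2 g1
      rw [← ht, FI_sig x0 c (W2 m) (W3 m) hpos hQ hcop hsup j (hL j),
        FI_sig x0 c (W2 m') (W3 m') hpos hQ hcop hsup j (hL j),
        FI_split x0 c (W2 m) (W3 m) hpos hQ hcop hgrow hsup j (hL j) (hodd j),
        FI_split x0 c (W2 m') (W3 m') hpos hQ hcop hgrow hsup j (hL j) (hodd j)] at g2
      have w1 : Wf m j = Wb := by
        simp only [hWf]
        rw [if_neg]
        intro h
        exact hmm.ne' (Fin.castSucc_injective _ h)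
      have w2 : Wf m' j = Wa := by
        simp only [hWf, hj, if_true]
      have w3 : (fun i => if i ≤ j then (0 : Matrix (Fin n0 × Fin Q) (Fin n0 × Fin Q) (Lam G)) else
          (Bk Q (q i) (Wf m i)) ^ (q j)) = (fun i => if i ≤ j then 0 else
          (Bk Q (q i) (Wf m' i)) ^ (q j)) := by
        funext i
        by_cases hij : i ≤ j
        · rw [if_pos hij, if_pos hij]
        · rw [if_neg hij, if_neg hij]
          have v1 : Wf m i = Wb := by
            simp only [hWf]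
            rw [if_neg]
            rintro rfl
            exact hij (Fin.castSucc_le_castSucc_iff.mpr hmm.le)
          have v2 : Wf m' i = Wb := by
            simp only [hWf]
            rw [if_neg]
            rintro rfl
            exact hij le_rfl
          rw [v1, v2]
      rw [w1, w2, w3] at g2
      exact hne (add_right_cancel g2)
    intro m m' hmm
    rcases lt_or_gt_of_ne hmm with h | h
    · exact key m m' h
    · intro h'
      exact key m' m h (Relation.EqvGen.symm _ _ h')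
  · intro heq m i j
    change ∑ g, fn (AA q Sup Q L c (Wf m)) _ _ g = ∑ g, fn (AA q Sup Q L c (fun _ => Wb)) _ _ g
    simp only [AA_coeff, sum_add_distrib]
    congr 1
    rw [← mul_sum, ← mul_sum]
    congr 1
    set x := ((Fintype.equivFin (VV K n0 Q L × Fin 2)).symm i).1
    set y := ((Fintype.equivFin (VV K n0 Q L × Fin 2)).symm j).1
    unfold TT
    rcases x with x | a <;> rcases y with y | b <;> simp only [bdg_ll, bdg_lr, bdg_rl, bdg_rr]
    split_ifs
    · simp only [Bk, Bk2_apply]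
      split_ifs
      · rfl
      · rfl
      · simp only [hWf]
        split_ifs
        · exact heq _ _
        · rfl
      · rfl
    · rfl

end main

end Pool.Agent.Helper817_sse
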