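import Mathlib
import Pool.Agent.Helper817_sse.Main
import Pool.Agent.Helper817_sse.Gadget

set_option autoImplicit false
set_option linter.unusedSectionVars false

/-!
# The gadget with a group element as weight
-/

namespace Pool.Agent.Helper817_sse

open Matrix Finset

section gm

variable {G : Type} [Group G] [Fintype G]

/-- An integer matrix times an element of the group ring. -/
noncomputable def gm {α β : Type*} (γ : Lam G) (M : Matrix α β ℤ) : Matrix α β (Lam G) :=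
  Matrix.of fun i j => M i j • γ

theorem gm_mul {α β δ : Type*} [Fintype β] (γ γ' : Lam G) (M : Matrix α β ℤ) (N : Matrix β δ ℤ) :
    gm γ M * gm γ' N = gm (γ * γ') (M * N) := by
  ext1 i j
  rw [Matrix.mul_apply]
  change ∑ k, (M i k • γ) * (N k j • γ') = (M * N) i j • (γ * γ')
  rw [Matrix.mul_apply, sum_smul]
  apply sum_congr rfl; intro k _
  rw [smul_mul_smul_comm]

theorem gm_one {n : ℕ} : gm (1 : Lam G) (1 : Matrix (Fin n) (Fin n) ℤ) = 1 := by
  ext1 i j
  change (1 : Matrix (Fin n) (Fin n) ℤ) i j • (1 : Lam G) = _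
  by_cases h : i = j
  · subst h; simp
  · simp [Matrix.one_apply_ne h]

/-- Triangularizing matrix. -/
def P6 : Matrix (Fin 6) (Fin 6) ℤ :=
  !![0, 1, 0, 0, 0, 0; 1, 0, 0, 0, 0, 0; 0, 1, 0, 1, 0, 0; 0, 0, 1, 0, 0, 0; 1, 0, -1, -1, 0, 1;
    -1, -1, 1, 1, 1, 0]

/-- Its inverse. -/
def P6' : Matrix (Fin 6) (Fin 6) ℤ :=
  !![0, 1, 0, 0, 0, 0; 1, 0, 0, 0, 0, 0; 0, 0, 0, 1, 0, 0; -1, 0, 1, 0, 0, 0; 2, 1, -1, -1, 0, 1;
    -1, -1, 1, 1, 1, 0]

theorem P6_mul : P6 * P6' = 1 := by decide +kernel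
theorem P6_mul' : P6' * P6 = 1 := by decide +kernel
theorem P6_tri : ∀ k l, l ≤ k → (P6' * N6 * P6) k l = 0 := by decide +kernel

theorem TN_gm (γ : Lam G) : TN (gm γ N6) := by
  refine ⟨gm 1 P6, gm 1 P6', ?_, ?_, ?_⟩
  · rw [gm_mul, P6_mul, one_mul, gm_one]
  · rw [gm_mul, P6_mul', one_mul, gm_one]
  · intro k l h
    rw [gm_mul, gm_mul, one_mul, mul_one] at h
    by_contra h'
    apply h
    change (P6' * N6 * P6) k l • γ = 0
    rw [P6_tri k l (not_lt.mp h'), zero_smul]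

theorem TN_zero {n : ℕ} : TN (0 : Matrix (Fin n) (Fin n) (Lam G)) :=
  ⟨1, 1, by simp, by simp, fun k l h => absurd (by simp) h⟩

variable {X : Type} [Fintype X] [DecidableEq X] [MulAction G X]

theorem FI_gm (x0 : X) (g : G) : FI (rho x0 (fn (gm (MonoidAlgebra.single g 1) N6))) =
    ((∑ a, rr x0 g a a : ℤ) : ZMod 2) := by
  classical
  have h1 : rho x0 (fn (gm (MonoidAlgebra.single g 1) N6)) =
      Matrix.of fun (x y : Fin 6 × X) => N6 x.1 y.1 * rr x0 g x.2 y.2 := by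
    ext z w
    rw [rho_apply]
    change ∑ h, (N6 z.1 w.1 • (MonoidAlgebra.single g 1 : Lam G)).coeff h * rr x0 h z.2 w.2 =
      N6 z.1 w.1 * rr x0 g z.2 w.2
    rw [sum_eq_single g]
    · rw [coeff_zsmul, MonoidAlgebra.coeff_single, Finsupp.single_eq_same, mul_one]
    · intro h _ hh
      rw [coeff_zsmul, MonoidAlgebra.coeff_single, Finsupp.single_eq_of_ne hh, mul_zero, zero_mul]
    · intro h; exact absurd (mem_univ _) h
  rw [h1]
  have h3 := FI_kron N6 N6_nil N6_short (Matrix.of fun a b => rr x0 g a b)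
  have h2 : FI N6 = 1 := by
    rw [FI_eq_F (Equiv.refl (Fin 6)) N6 N6_nil N6_short]
    exact F_N6
  rw [h2, mul_one] at h3
  exact h3

theorem FI_zero' (x0 : X) [MulAction.IsPretransitive G X] {n : ℕ} :
    FI (rho x0 (fn (0 : Matrix (Fin n) (Fin n) (Lam G)))) = 0 := by
  have : rho x0 (fn (0 : Matrix (Fin n) (Fin n) (Lam G))) = 0 := by
    apply rho_const
    intro i j g g'
    rfl
  rw [this, FI_zero]

end gm

end Pool.Agent.Helper817_sse
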