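import Mathlib
import Pool.Agent.Helper817_sse.Gad
import Pool.Agent.Helper817_sse.Inst

set_option autoImplicit false
set_option linter.unusedSectionVars false
set_option synthInstance.maxSize 4000

/-!
# Delayed gadgets over the group ring
-/

namespace Pool.Agent.Helper817_sse

open Matrix Finset

section bkg

variable {A : Type*} [Ring A] {α : Type*} [Fintype α] [DecidableEq α]

/-- The delayed matrix. -/
def Bkg (q : ℕ) (W : Matrix α α A) : Matrix (α × Fin q) (α × Fin q) A :=
  Matrix.of fun x y => if x.2.val + 1 < q then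
    (if y.2.val = x.2.val + 1 then (1 : Matrix α α A) x.1 y.1 else 0)
    else (if y.2.val = 0 then W x.1 y.1 else 0)

/-- Block diagonal blow-up. -/
def Pq (q : ℕ) (P : Matrix α α A) : Matrix (α × Fin q) (α × Fin q) A :=
  Matrix.of fun x y => if x.2 = y.2 then P x.1 y.1 else 0

variable {q : ℕ}

theorem Pq_mul (u v : Matrix α α A) : Pq q u * Pq q v = Pq q (u * v) := by
  ext x y
  rw [Matrix.mul_apply, Fintype.sum_prod_type]
  simp only [Pq, Matrix.of_apply, Matrix.mul_apply]
  split_ifs with h
  · apply sum_congr rfl; intro l _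
    rw [sum_eq_single x.2]
    · simp [h]
    · intro b _ hb
      simp [Ne.symm hb]
    · intro h; exact absurd (mem_univ _) h
  · apply sum_eq_zero; intro l _
    apply sum_eq_zero; intro b _
    by_cases h1 : x.2 = b
    · have : ¬ b = y.2 := by rw [← h1]; exact h
      simp [this]
    · simp [h1]

theorem Pq_one : Pq q (1 : Matrix α α A) = 1 := by
  ext x y
  simp only [Pq, Matrix.of_apply, Matrix.one_apply, Prod.ext_iff]
  by_cases h1 : x.1 = y.1 <;> by_cases h2 : x.2 = y.2 <;> simp [h1, h2]

theorem Bkg_Pq (W P W' : Matrix α α A) (h : W * P = P * W') :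
    Bkg q W * Pq q P = Pq q P * Bkg q W' := by
  ext x y
  rw [Matrix.mul_apply, Matrix.mul_apply, Fintype.sum_prod_type, Fintype.sum_prod_type]
  have e1 : ∀ c, ∑ j, Bkg q W x (c, j) * Pq q P (c, j) y =
      if x.2.val + 1 < q then (if y.2.val = x.2.val + 1 then (1 : Matrix α α A) x.1 c * P c y.1 else 0)
        else (if y.2.val = 0 then W x.1 c * P c y.1 else 0) := by
    intro c
    rw [sum_eq_single y.2]
    · simp only [Bkg, Pq, Matrix.of_apply, if_true]
      split_ifs <;> simp
    · intro j _ hj
      simp [Pq, hj]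
    · intro h; exact absurd (mem_univ _) h
  have e2 : ∀ c, ∑ j, Pq q P x (c, j) * Bkg q W' (c, j) y =
      if x.2.val + 1 < q then (if y.2.val = x.2.val + 1 then P x.1 c * (1 : Matrix α α A) c y.1 else 0)
        else (if y.2.val = 0 then P x.1 c * W' c y.1 else 0) := by
    intro c
    rw [sum_eq_single x.2]
    · simp only [Bkg, Pq, Matrix.of_apply, if_true]
      split_ifs <;> simp
    · intro j _ hj
      simp [Pq, Ne.symm hj]
    · intro h; exact absurd (mem_univ _) h
  rw [sum_congr rfl (fun c _ => e1 c), sum_congr rfl (fun c _ => e2 c)]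
  split_ifs
  · rw [← Matrix.mul_apply, ← Matrix.mul_apply, Matrix.one_mul, Matrix.mul_one]
  · simp
  · have := congrFun (congrFun h x.1) y.1
    rw [Matrix.mul_apply, Matrix.mul_apply] at this
    exact this
  · simp

theorem Bkg_pow (W : Matrix α α A) : ∀ (a : ℕ), a + 1 ≤ q → ∀ x y : α × Fin q,
    ((Bkg q W) ^ (a + 1)) x y = if x.2.val + (a + 1) < q then
      (if y.2.val = x.2.val + (a + 1) then (1 : Matrix α α A) x.1 y.1 else 0)
      else if y.2.val + q = x.2.val + (a + 1) then W x.1 y.1 else 0 := by
  intro a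
  induction a with
  | zero =>
    intro _ x y
    rw [zero_add, pow_one]
    simp only [Bkg, Matrix.of_apply]
    have hx := x.2.isLt
    by_cases h1 : x.2.val + 1 < q
    · simp [h1]
    · rw [if_neg h1, if_neg h1]
      have : (y.2.val = 0) ↔ (y.2.val + q = x.2.val + 1) := by omega
      simp only [this]
  | succ a ih =>
    intro ha x y
    have hx := x.2.isLt
    rw [pow_succ', Matrix.mul_apply, Fintype.sum_prod_type]
    by_cases h1 : x.2.val + 1 < q
    · have h2 : ∀ l, ∑ b, Bkg q W x (l, b) * ((Bkg q W) ^ (a + 1)) (l, b) y =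
          (1 : Matrix α α A) x.1 l * ((Bkg q W) ^ (a + 1)) (l, ⟨x.2.val + 1, h1⟩) y := by
        intro l
        rw [sum_eq_single ⟨x.2.val + 1, h1⟩]
        · simp only [Bkg, Matrix.of_apply, if_pos h1, if_true]
        · intro b _ hb
          have hb' : b.val ≠ x.2.val + 1 := fun h => hb (Fin.ext h)
          simp only [Bkg, Matrix.of_apply, if_pos h1, if_neg hb', zero_mul]
        · intro h; exact absurd (mem_univ _) h
      rw [sum_congr rfl (fun l _ => h2 l), sum_eq_single x.1]
      · rw [Matrix.one_apply_eq, one_mul, ih (by omega)]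
        simp only
        by_cases h3 : x.2.val + (a + 1 + 1) < q
        · rw [if_pos h3, if_pos (by omega)]
          have : (y.2.val = x.2.val + 1 + (a + 1)) ↔ (y.2.val = x.2.val + (a + 1 + 1)) := by omega
          simp only [this]
        · rw [if_neg h3, if_neg (by omega)]
          have : (y.2.val + q = x.2.val + 1 + (a + 1)) ↔ (y.2.val + q = x.2.val + (a + 1 + 1)) := by
            omega
          simp only [this]
      · intro l _ hl
        rw [Matrix.one_apply_ne (Ne.symm hl), zero_mul]
      · intro h; exact absurd (mem_univ _) h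
    · have hq : 0 < q := by omega
      have h2 : ∀ l, ∑ b, Bkg q W x (l, b) * ((Bkg q W) ^ (a + 1)) (l, b) y =
          W x.1 l * ((Bkg q W) ^ (a + 1)) (l, ⟨0, hq⟩) y := by
        intro l
        rw [sum_eq_single ⟨0, hq⟩]
        · simp only [Bkg, Matrix.of_apply, if_neg h1, if_true]
        · intro b _ hb
          have hb' : b.val ≠ 0 := fun h => hb (Fin.ext h)
          simp only [Bkg, Matrix.of_apply, if_neg h1, if_neg hb', zero_mul]
        · intro h; exact absurd (mem_univ _) h
      rw [sum_congr rfl (fun l _ => h2 l), if_neg (by omega : ¬ x.2.val + (a + 1 + 1) < q)]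
      have h3 : ∀ l, ((Bkg q W) ^ (a + 1)) (l, ⟨0, hq⟩) y =
          if y.2.val = a + 1 then (1 : Matrix α α A) l y.1 else 0 := by
        intro l
        rw [ih (by omega)]
        simp only
        rw [if_pos (by omega), zero_add]
      simp only [h3]
      have : (y.2.val + q = x.2.val + (a + 1 + 1)) ↔ (y.2.val = a + 1) := by omega
      simp only [this]
      by_cases h5 : y.2.val = a + 1
      · simp only [if_pos h5]
        rw [← Matrix.mul_apply, Matrix.mul_one]
      · simp [h5]

theorem Bkg_full (hq : 0 < q) (W : Matrix α α A) : (Bkg q W) ^ q = Pq q W := by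
  obtain ⟨a, rfl⟩ : ∃ a, q = a + 1 := ⟨q - 1, by omega⟩
  ext x y
  rw [Bkg_pow W a le_rfl, if_neg (by omega)]
  simp only [Pq, Matrix.of_apply]
  have : (y.2.val + (a + 1) = x.2.val + (a + 1)) ↔ (x.2 = y.2) := by
    rw [Fin.ext_iff]; omega
  simp only [this]

theorem Bkg_grade (W : Matrix α α A) : ∀ (m : ℕ) (x y : α × Fin q), ((Bkg q W) ^ m) x y ≠ 0 →
    x.2.val + m ≡ y.2.val [MOD q] := by
  intro m
  induction m with
  | zero =>
    intro x y h
    have : x = y := by
      by_contra h'
      exact h (by rw [pow_zero, Matrix.one_apply_ne h'])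
    rw [this, add_zero]
  | succ m ih =>
    intro x y h
    rw [pow_succ, Matrix.mul_apply] at h
    obtain ⟨z, _, hz⟩ := exists_ne_zero_of_sum_ne_zero h
    have a1 := ih x z (fun h0 => hz (by rw [h0, zero_mul]))
    have a2 : Bkg q W z y ≠ 0 := fun h0 => hz (by rw [h0, mul_zero])
    have a3 : z.2.val + 1 ≡ y.2.val [MOD q] := by
      simp only [Bkg, Matrix.of_apply] at a2
      by_cases c1 : z.2.val + 1 < q
      · rw [if_pos c1] at a2
        by_cases c2 : y.2.val = z.2.val + 1
        · rw [c2]
        · rw [if_neg c2] at a2; exact absurd rfl a2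
      · rw [if_neg c1] at a2
        by_cases c2 : y.2.val = 0
        · have := z.2.isLt
          have c3 : z.2.val + 1 = q := by omega
          rw [c3, c2]
          unfold Nat.ModEq
          simp
        · rw [if_neg c2] at a2; exact absurd rfl a2
    have a4 := (a1.add_right 1).trans a3
    rwa [add_assoc] at a4

theorem Bkg_rank (W : Matrix α α A) (r : α → ℕ) (h : ∀ x y, W x y ≠ 0 → r x < r y)
    (x y : α × Fin q) (hxy : Bkg q W x y ≠ 0) : r x.1 * q + x.2.val < r y.1 * q + y.2.val := by
  simp only [Bkg, Matrix.of_apply] at hxy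
  by_cases c1 : x.2.val + 1 < q
  · rw [if_pos c1] at hxy
    by_cases c2 : y.2.val = x.2.val + 1
    · rw [if_pos c2] at hxy
      have : x.1 = y.1 := by
        by_contra h'
        exact hxy (Matrix.one_apply_ne h')
      rw [this, c2]; omega
    · rw [if_neg c2] at hxy; exact absurd rfl hxy
  · rw [if_neg c1] at hxy
    by_cases c2 : y.2.val = 0
    · rw [if_pos c2] at hxy
      have h3 : r x.1 + 1 ≤ r y.1 := h _ _ hxy
      have h4 := Nat.mul_le_mul_right q h3
      have h5 := x.2.isLt
      rw [add_mul, one_mul] at h4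
      omega
    · rw [if_neg c2] at hxy; exact absurd rfl hxy

end bkg

section modq

variable {β : Type*} [Fintype β] [DecidableEq β]

theorem modq_short (q m : ℕ) (hq : ¬ q ∣ 2 * m) (f : β → ℕ) (M : Matrix β β ℤ)
    (hM : ∀ x y, M x y ≠ 0 → f x + m ≡ f y [MOD q]) : ∀ i j, M i j * M j i = 0 := by
  intro i j
  by_contra h
  have h1 := hM i j (left_ne_zero_of_mul h)
  have h2 := hM j i (right_ne_zero_of_mul h)
  have h3 : f i + m + m ≡ f i [MOD q] := (h1.add_right m).trans h2
  have h4 : f i + 2 * m ≡ f i + 0 [MOD q] := by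
    have : f i + m + m = f i + 2 * m := by ring
    rw [this] at h3
    simpa using h3
  exact hq ((Nat.modEq_zero_iff_dvd).mp (Nat.ModEq.add_left_cancel' _ h4))

theorem FI_modq (q m : ℕ) (hq : ¬ q ∣ 2 * m) (f : β → ℕ) {U U' M M' : Matrix β β ℤ}
    (h1 : U * U' = 1) (hU : ∀ x y, U x y ≠ 0 → f x = f y) (hU' : ∀ x y, U' x y ≠ 0 → f x = f y)
    (hM : ∀ x y, M x y ≠ 0 → f x + m ≡ f y [MOD q]) (h2 : M * U = U * M') (hn : IsNilpotent M) :
    FI M' = FI M := by
  have h1' : U' * U = 1 := mul_eq_one_comm.mp h1
  have e1 : U * (U' * M) = M := by rw [← Matrix.mul_assoc, h1, Matrix.one_mul]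
  have e2 : (U' * M) * U = M' := by
    rw [Matrix.mul_assoc, h2, ← Matrix.mul_assoc, h1', Matrix.one_mul]
  have := FI_V U (U' * M) (by rw [e1]; exact hn) ?_
  · rwa [e1, e2] at this
  · intro i j k l
    by_contra h
    have hS : ∀ x y, (U' * M) x y ≠ 0 → f x + m ≡ f y [MOD q] := by
      intro x y hxy
      rw [Matrix.mul_apply] at hxy
      obtain ⟨z, _, hz⟩ := exists_ne_zero_of_sum_ne_zero hxy
      rw [hU' x z (left_ne_zero_of_mul hz)]
      exact hM z y (right_ne_zero_of_mul hz)
    have n1 : U i k ≠ 0 := by intro h0; apply h; rw [h0]; ring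
    have n2 : (U' * M) k j ≠ 0 := by intro h0; apply h; rw [h0]; ring
    have n3 : U j l ≠ 0 := by intro h0; apply h; rw [h0]; ring
    have n4 : (U' * M) l i ≠ 0 := by intro h0; apply h; rw [h0]; ring
    have a1 := hU i k n1
    have a2 := hS k j n2
    have a3 := hU j l n3
    have a4 := hS l i n4
    rw [← a1] at a2
    rw [← a3] at a4
    have h3 : f i + m + m ≡ f i [MOD q] := (a2.add_right m).trans a4
    have h4 : f i + 2 * m ≡ f i + 0 [MOD q] := by
      have : f i + m + m = f i + 2 * m := by ring
      rw [this] at h3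
      simpa using h3
    exact hq ((Nat.modEq_zero_iff_dvd).mp (Nat.ModEq.add_left_cancel' _ h4))

end modq

end Pool.Agent.Helper817_sse
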