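import Mathlib
import Pool.Agent.Helper817_sse.Gad2

set_option autoImplicit false
set_option linter.unusedSectionVars false
set_option synthInstance.maxSize 4000

/-!
# The delayed gadget over the group ring and its potentials
-/

namespace Pool.Agent.Helper817_sse

open Matrix Finset

section bk

variable {A : Type*} [Ring A] {α : Type*} [Fintype α] [DecidableEq α] {q : ℕ}

theorem Pq_zero : Pq q (0 : Matrix α α A) = 0 := by
  ext x y
  simp [Pq]

theorem Pq_pow (W : Matrix α α A) (k : ℕ) : (Pq q W) ^ k = Pq q (W ^ k) := by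
  induction k with
  | zero => rw [pow_zero, pow_zero, Pq_one]
  | succ k ih => rw [pow_succ, ih, Pq_mul, pow_succ]

theorem Bkg_nil (hq : 0 < q) (W : Matrix α α A) (h : IsNilpotent W) : IsNilpotent (Bkg q W) := by
  obtain ⟨k, hk⟩ := h
  exact ⟨q * k, by rw [pow_mul, Bkg_full hq, Pq_pow, hk, Pq_zero]⟩

end bk

section gw

variable {G : Type} [Group G] [Fintype G] {δ : Type*} [Fintype δ] [DecidableEq δ]

theorem th_zero {α β : Type*} (θ : G →* Matrix δ δ ℤ) : th θ (0 : Matrix α β (Lam G)) = 0 := by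
  ext u v
  rw [th_apply]
  apply sum_eq_zero; intro g _
  change (0 : ℤ) * _ = 0
  rw [zero_mul]

theorem th_nil {α : Type*} [Fintype α] [DecidableEq α] (θ : G →* Matrix δ δ ℤ)
    {A : Matrix α α (Lam G)} (h : IsNilpotent A) : IsNilpotent (th θ A) := by
  obtain ⟨k, hk⟩ := h
  exact ⟨k, by rw [← th_pow, hk, th_zero]⟩

theorem gm_nil {α : Type*} [Fintype α] [DecidableEq α] (γ : Lam G) {M : Matrix α α ℤ}
    (h : IsNilpotent M) : IsNilpotent (gm γ M) := by
  obtain ⟨k, hk⟩ := h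
  have h1 : ∀ m : ℕ, (gm γ M) ^ (m + 1) = gm (γ ^ (m + 1)) (M ^ (m + 1)) := by
    intro m
    induction m with
    | zero => simp
    | succ m ih => rw [pow_succ, ih, gm_mul, ← pow_succ, ← pow_succ]
  refine ⟨k + 1, ?_⟩
  rw [h1, pow_succ M, hk, zero_mul]
  ext1 i j
  change (0 : ℤ) • _ = (0 : Lam G)
  rw [zero_smul]

theorem gm_one' {α : Type*} [DecidableEq α] : gm (1 : Lam G) (1 : Matrix α α ℤ) = 1 := by
  ext1 i j
  change (1 : Matrix α α ℤ) i j • (1 : Lam G) = _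
  by_cases h : i = j
  · subst h; simp
  · simp [Matrix.one_apply_ne h]

/-- Weights along the delay lines. -/
def om (q : ℕ) (g0 : G) (i : ℕ) : G := if q ∣ (i + 1) then g0 else 1

/-- Exit weights. -/
noncomputable def wl (q : ℕ) (g0 : G) (w : ℕ → Matrix (Fin 2) (Fin 2) ℤ) (i : ℕ) (a b : Fin 2) :
    Lam G :=
  if q ∣ (i + 1) then w ((i + 1) / q - 1) a b • MonoidAlgebra.single g0 1 else 0

/-- The delayed gadget. -/
noncomputable def GW (q : ℕ) (g0 : G) (w : ℕ → Matrix (Fin 2) (Fin 2) ℤ) (T : ℕ) :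
    Matrix (Fin 2 × Fin T) (Fin 2 × Fin T) (Lam G) :=
  Matrix.of fun x y =>
    (if y.1 = x.1 ∧ y.2.val = x.2.val + 1 then MonoidAlgebra.single (om q g0 x.2.val) 1 else 0) +
    (if y.2.val = 0 then wl q g0 w x.2.val x.1 y.1 else 0)

/-- The reindexing. -/
def er (T q : ℕ) : Fin 2 × Fin (T * q) ≃ (Fin 2 × Fin T) × Fin q :=
  (Equiv.prodCongr (Equiv.refl _) finProdFinEquiv.symm).trans (Equiv.prodAssoc _ _ _).symm

theorem er_fst {T q : ℕ} (x : (Fin 2 × Fin T) × Fin q) : ((er T q).symm x).1 = x.1.1 := rfl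

theorem er_snd {T q : ℕ} (x : (Fin 2 × Fin T) × Fin q) :
    ((er T q).symm x).2.val = x.2.val + q * x.1.2.val := rfl

theorem GW_er (q : ℕ) (g0 : G) (w : ℕ → Matrix (Fin 2) (Fin 2) ℤ) (T : ℕ)
    (x y : (Fin 2 × Fin T) × Fin q) : GW q g0 w (T * q) ((er T q).symm x) ((er T q).symm y) =
      Bkg q (gm (MonoidAlgebra.single g0 1) (Cm T w)) x y := by
  have hx := x.2.isLt
  have hy := y.2.isLt
  have hq : 0 < q := by omega
  have hdvd : q ∣ (x.2.val + q * x.1.2.val + 1) ↔ x.2.val + 1 = q := by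
    have e : x.2.val + q * x.1.2.val + 1 = (x.2.val + 1) + q * x.1.2.val := by ring
    rw [e, Nat.dvd_add_left (Dvd.intro _ rfl)]
    constructor
    · intro h
      have := Nat.le_of_dvd (by omega) h
      omega
    · intro h; rw [h]
  change (if ((er T q).symm y).1 = ((er T q).symm x).1 ∧ ((er T q).symm y).2.val =
      ((er T q).symm x).2.val + 1 then MonoidAlgebra.single (om q g0 ((er T q).symm x).2.val) 1
      else 0) + (if ((er T q).symm y).2.val = 0 then
        wl q g0 w ((er T q).symm x).2.val ((er T q).symm x).1 ((er T q).symm y).1 else 0) = _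
  rw [er_fst, er_fst, er_snd, er_snd]
  have e0 : (y.2.val + q * y.1.2.val = 0) ↔ (y.2.val = 0 ∧ y.1.2.val = 0) := by
    constructor
    · intro h
      refine ⟨by omega, ?_⟩
      have : q * y.1.2.val = 0 := by omega
      rcases Nat.mul_eq_zero.mp this with h | h
      · omega
      · exact h
    · rintro ⟨h1, h2⟩
      rw [h1, h2]; simp
  by_cases c1 : x.2.val + 1 < q
  · have n1 : ¬ q ∣ (x.2.val + q * x.1.2.val + 1) := by rw [hdvd]; omega
    have e1 : (y.2.val + q * y.1.2.val = x.2.val + q * x.1.2.val + 1) ↔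
        (y.2.val = x.2.val + 1 ∧ y.1.2.val = x.1.2.val) := by
      constructor
      · intro h
        have h2 : y.1.2.val = x.1.2.val := by
          have a1 : (y.2.val + q * y.1.2.val) / q = y.1.2.val := by
            rw [Nat.add_mul_div_left _ _ hq, Nat.div_eq_of_lt hy, zero_add]
          have a2 : (x.2.val + 1 + q * x.1.2.val) / q = x.1.2.val := by
            rw [Nat.add_mul_div_left _ _ hq, Nat.div_eq_of_lt c1, zero_add]
          have a3 : x.2.val + q * x.1.2.val + 1 = x.2.val + 1 + q * x.1.2.val := by ring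
          rw [← a1, ← a2, h, a3]
        rw [h2] at h
        exact ⟨by omega, h2⟩
      · rintro ⟨h1, h2⟩
        rw [h1, h2]; ring
    simp only [Bkg, Matrix.of_apply, if_pos c1, om, wl, if_neg n1, ite_self, add_zero]
    simp only [e1]
    by_cases c2 : y.2.val = x.2.val + 1
    · rw [if_pos c2]
      by_cases c3 : y.1 = x.1
      · rw [if_pos ⟨by rw [c3], c2, by rw [c3]⟩, c3, Matrix.one_apply_eq]
        rfl
      · rw [Matrix.one_apply_ne (Ne.symm c3), if_neg]
        rintro ⟨h1, _, h2⟩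
        exact c3 (Prod.ext h1 (Fin.ext h2))
    · rw [if_neg c2, if_neg]
      rintro ⟨_, h1, _⟩
      exact c2 h1
  · have c1' : x.2.val + 1 = q := by omega
    have p1 : q ∣ (x.2.val + q * x.1.2.val + 1) := hdvd.mpr c1'
    have e2 : x.2.val + q * x.1.2.val + 1 = q * (x.1.2.val + 1) := by
      rw [mul_add, mul_one]; omega
    have e3 : (x.2.val + q * x.1.2.val + 1) / q - 1 = x.1.2.val := by
      rw [e2, Nat.mul_div_cancel_left _ hq]; rfl
    have e1 : (y.2.val + q * y.1.2.val = x.2.val + q * x.1.2.val + 1) ↔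
        (y.2.val = 0 ∧ y.1.2.val = x.1.2.val + 1) := by
      rw [e2]
      constructor
      · intro h
        have h2 : y.1.2.val = x.1.2.val + 1 := by
          have a1 : (y.2.val + q * y.1.2.val) / q = y.1.2.val := by
            rw [Nat.add_mul_div_left _ _ hq, Nat.div_eq_of_lt hy, zero_add]
          rw [← a1, h, Nat.mul_div_cancel_left _ hq]
        rw [h2] at h
        exact ⟨by omega, h2⟩
      · rintro ⟨h1, h2⟩
        rw [h1, h2]; ring
    simp only [Bkg, Matrix.of_apply, if_neg c1, om, wl, if_pos p1, e3]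
    simp only [e1, e0]
    by_cases c2 : y.2.val = 0
    · rw [if_pos c2]
      change _ = ((if y.1.1 = x.1.1 ∧ y.1.2.val = x.1.2.val + 1 then (1 : ℤ) else 0) +
        (if y.1.2.val = 0 then w x.1.2.val x.1.1 y.1.1 else 0)) • (MonoidAlgebra.single g0 1 : Lam G)
      rw [add_smul]
      congr 1
      · by_cases c3 : y.1.1 = x.1.1 ∧ y.1.2.val = x.1.2.val + 1
        · rw [if_pos c3, if_pos ⟨c3.1, c2, c3.2⟩, one_smul]
        · rw [if_neg c3, zero_smul, if_neg]
          rintro ⟨h1, _, h2⟩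
          exact c3 ⟨h1, h2⟩
      · by_cases c3 : y.1.2.val = 0
        · rw [if_pos c3, if_pos ⟨c2, c3⟩]
        · rw [if_neg c3, zero_smul, if_neg]
          rintro ⟨_, h2⟩
          exact c3 h2
    · rw [if_neg c2, if_neg (fun h => c2 h.2.1), if_neg (fun h => c2 h.1), add_zero]

theorem GW_sub (q : ℕ) (g0 : G) (w : ℕ → Matrix (Fin 2) (Fin 2) ℤ) (T : ℕ) :
    GW q g0 w (T * q) = (Bkg q (gm (MonoidAlgebra.single g0 1) (Cm T w))).submatrix (er T q)
      (er T q) := by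
  ext1 x y
  rw [submatrix_apply, ← GW_er, Equiv.symm_apply_apply, Equiv.symm_apply_apply]

theorem th_gm {α : Type*} (θ : G →* Matrix δ δ ℤ) (g : G) (M : Matrix α α ℤ) (u v : α × δ) :
    th θ (gm (MonoidAlgebra.single g 1) M) u v = M u.1 v.1 * θ g u.2 v.2 := by
  rw [th_apply]
  change ∑ h, (M u.1 v.1 • (MonoidAlgebra.single g 1 : Lam G)).coeff h * θ h u.2 v.2 = _
  classical
  rw [sum_eq_single g]
  · rw [coeff_zsmul, MonoidAlgebra.coeff_single, Finsupp.single_eq_same, mul_one]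
  · intro h _ hh
    rw [coeff_zsmul, MonoidAlgebra.coeff_single, Finsupp.single_eq_of_ne hh, mul_zero, zero_mul]
  · intro h; exact absurd (mem_univ _) h

variable {q T : ℕ} {g0 : G} {w : ℕ → Matrix (Fin 2) (Fin 2) ℤ}

theorem sub_pow_er {α β : Type*} [Fintype α] [Fintype β] [DecidableEq α] [DecidableEq β]
    (e : α ≃ β) (M : Matrix β β ℤ) (m : ℕ) : (M.submatrix e e) ^ m = (M ^ m).submatrix e e :=
  submatrix_pow_equiv e M m

theorem th_GW_pow (θ : G →* Matrix δ δ ℤ) (m : ℕ) : (th θ (GW q g0 w (T * q))) ^ m =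
    ((th θ (Bkg q (gm (MonoidAlgebra.single g0 1) (Cm T w)))) ^ m).submatrix
      (Equiv.prodCongr (er T q) (Equiv.refl δ)) (Equiv.prodCongr (er T q) (Equiv.refl δ)) := by
  rw [← sub_pow_er, GW_sub, th_sub]
  rfl

theorem Bk_nil (hq : 0 < q) (hn : IsNilpotent (Cm T w)) (γ : Lam G) :
    IsNilpotent (Bkg q (gm γ (Cm T w))) := Bkg_nil hq _ (gm_nil _ hn)

theorem pow_nil {A : Type*} [Ring A] {α : Type*} [Fintype α] [DecidableEq α] {M : Matrix α α A}
    (h : IsNilpotent M) {m : ℕ} (hm : 0 < m) : IsNilpotent (M ^ m) := by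
  obtain ⟨k, hk⟩ := h
  exact ⟨k, by rw [← pow_mul, mul_comm, pow_mul, hk, zero_pow hm.ne']⟩

theorem th_Bkg_grade {α : Type*} [Fintype α] [DecidableEq α] (θ : G →* Matrix δ δ ℤ)
    (W : Matrix α α (Lam G)) (m : ℕ) (x y : (α × Fin q) × δ)
    (h : ((th θ (Bkg q W)) ^ m) x y ≠ 0) : x.1.2.val + m ≡ y.1.2.val [MOD q] := by
  rw [← th_pow] at h
  exact Bkg_grade W m _ _ (th_ne θ _ _ _ h)

theorem th_Bkg_full (hq : 0 < q) (θ : G →* Matrix δ δ ℤ) (x y : ((Fin 2 × Fin T) × Fin q) × δ) :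
    ((th θ (Bkg q (gm (MonoidAlgebra.single g0 1) (Cm T w)))) ^ q) x y =
      Cm T w x.1.1 y.1.1 * (if x.1.2 = y.1.2 then θ g0 x.2 y.2 else 0) := by
  rw [← th_pow, Bkg_full hq]
  have h1 := th_gm θ g0 (Cm T w) (x.1.1, x.2) (y.1.1, y.2)
  rw [th_apply] at h1 ⊢
  simp only [Pq, Matrix.of_apply]
  by_cases h : x.1.2 = y.1.2
  · simp only [if_pos h]
    exact h1
  · simp only [if_neg h]
    rw [mul_zero]
    apply sum_eq_zero; intro g _
    change (0 : ℤ) * _ = 0
    rw [zero_mul]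

theorem odd_ndvd {q m : ℕ} (hq : q % 2 = 1) (h0 : 0 < m) (hm : m < q) : ¬ q ∣ 2 * m := by
  rintro ⟨c, hc⟩
  have h1 : c < 2 := by
    by_contra h
    have : q * 2 ≤ q * c := Nat.mul_le_mul_left q (by omega)
    omega
  interval_cases c
  · omega
  · omega

theorem Bk_short (hq : q % 2 = 1) (hs : ∀ i j, Cm T w i j * Cm T w j i = 0) {m : ℕ} (h0 : 0 < m)
    (hm : m ≤ q) (θ : G →* Matrix δ δ ℤ) (x y : ((Fin 2 × Fin T) × Fin q) × δ) :
    ((th θ (Bkg q (gm (MonoidAlgebra.single g0 1) (Cm T w)))) ^ m) x y *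
      ((th θ (Bkg q (gm (MonoidAlgebra.single g0 1) (Cm T w)))) ^ m) y x = 0 := by
  rcases hm.lt_or_eq with h | h
  · exact modq_short q m (odd_ndvd hq h0 h) (fun x => x.1.2.val) _
      (fun x y hxy => th_Bkg_grade θ _ m x y hxy) x y
  · subst h
    rw [th_Bkg_full h0, th_Bkg_full h0]
    have := hs x.1.1 y.1.1
    linear_combination ((if x.1.2 = y.1.2 then θ g0 x.2 y.2 else 0) *
      (if y.1.2 = x.1.2 then θ g0 y.2 x.2 else 0)) * this

theorem GW_short (hq : q % 2 = 1) (hs : ∀ i j, Cm T w i j * Cm T w j i = 0) {m : ℕ} (h0 : 0 < m)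
    (hm : m ≤ q) (θ : G →* Matrix δ δ ℤ) (x y : (Fin 2 × Fin (T * q)) × δ) :
    ((th θ (GW q g0 w (T * q))) ^ m) x y * ((th θ (GW q g0 w (T * q))) ^ m) y x = 0 := by
  rw [th_GW_pow]
  exact Bk_short hq hs h0 hm θ _ _

theorem GW_nil (hq : 0 < q) (hn : IsNilpotent (Cm T w)) (θ : G →* Matrix δ δ ℤ) :
    IsNilpotent (th θ (GW q g0 w (T * q))) := by
  have h := th_GW_pow (q := q) (T := T) (g0 := g0) (w := w) θ 1
  rw [pow_one, pow_one] at h
  rw [h]
  exact nil_submatrix _ (th_nil θ (Bk_nil hq hn _))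

theorem FI_GW_full (hq : q % 2 = 1) (hn : IsNilpotent (Cm T w))
    (hs : ∀ i j, Cm T w i j * Cm T w j i = 0) (h1 : FI (Cm T w) = 1) (θ : G →* Matrix δ δ ℤ)
    (htr : (θ g0).trace % 2 = 1) : FI ((th θ (GW q g0 w (T * q))) ^ q) = 1 := by
  have hq0 : 0 < q := by omega
  rw [th_GW_pow, FI_equiv _ _ (pow_nil (th_nil θ (Bk_nil hq0 hn _)) hq0)
    (fun x y => Bk_short hq hs hq0 le_rfl θ x y)]
  set M := (th θ (Bkg q (gm (MonoidAlgebra.single g0 1) (Cm T w)))) ^ q with hM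
  set B : Matrix (Fin q × δ) (Fin q × δ) ℤ :=
    Matrix.of fun x y => if x.1 = y.1 then θ g0 x.2 y.2 else 0 with hB
  have k1 := FI_kron (Cm T w) hn hs B
  have k2 : M.submatrix (Equiv.prodAssoc (Fin 2 × Fin T) (Fin q) δ).symm
      (Equiv.prodAssoc (Fin 2 × Fin T) (Fin q) δ).symm =
      Matrix.of fun (x y : (Fin 2 × Fin T) × (Fin q × δ)) => Cm T w x.1 y.1 * B x.2 y.2 := by
    ext x y
    exact th_Bkg_full hq0 θ _ _
  rw [← k2, FI_equiv _ _ (pow_nil (th_nil θ (Bk_nil hq0 hn _)) hq0)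
    (fun x y => Bk_short hq hs hq0 le_rfl θ x y)] at k1
  rw [k1, h1, mul_one]
  have k3 : B.trace = q * (θ g0).trace := by
    rw [Matrix.trace, Fintype.sum_prod_type]
    have : ∀ x : Fin q, ∑ y, B.diag (x, y) = (θ g0).trace := by
      intro x
      apply sum_congr rfl; intro y _
      simp [hB]
    rw [sum_congr rfl (fun x _ => this x), sum_const, card_univ, Fintype.card_fin, nsmul_eq_mul]
  rw [k3]
  have k4 : ((q : ℤ) * (θ g0).trace) % 2 = 1 := by
    rw [Int.mul_emod, htr]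
    have : (q : ℤ) % 2 = 1 := by omega
    rw [this]; rfl
  have k5 : (((q : ℤ) * (θ g0).trace : ℤ) : ZMod 2) = ((1 : ℤ) : ZMod 2) := by
    rw [ZMod.intCast_eq_intCast_iff_dvd_sub]
    omega
  rw [k5]; rfl

theorem FI_GW_lt (hq : q % 2 = 1) (hn : IsNilpotent (Cm T w))
    (hs : ∀ i j, Cm T w i j * Cm T w j i = 0) (θ : G →* Matrix δ δ ℤ) {m : ℕ} (h0 : 0 < m)
    (hm : m < q) : FI ((th θ (GW q g0 w (T * q))) ^ m) = 0 := by
  have hq0 : 0 < q := by omega
  rw [th_GW_pow, FI_equiv _ _ (pow_nil (th_nil θ (Bk_nil hq0 hn _)) h0)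
    (fun x y => Bk_short hq hs h0 hm.le θ x y)]
  obtain ⟨P, P', r, p1, p2, p3⟩ := TN_gen (Cm T w) hn
  set γ : Lam G := MonoidAlgebra.single g0 1 with hγ
  set Bk' := Bkg q (gm γ (P' * Cm T w * P)) with hBk'
  have e1 : Bkg q (gm γ (Cm T w)) * Pq q (gm 1 P) = Pq q (gm 1 P) * Bk' := by
    apply Bkg_Pq
    rw [gm_mul, gm_mul, mul_one, one_mul]
    congr 1
    rw [← Matrix.mul_assoc, ← Matrix.mul_assoc, p1, Matrix.one_mul]
  have e2 : ∀ k : ℕ, (th θ (Bkg q (gm γ (Cm T w)))) ^ k * th θ (Pq q (gm 1 P)) =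
      th θ (Pq q (gm 1 P)) * (th θ Bk') ^ k := by
    intro k
    induction k with
    | zero => rw [pow_zero, pow_zero, Matrix.one_mul, Matrix.mul_one]
    | succ k ih =>
      rw [pow_succ, Matrix.mul_assoc, ← th_mul, e1, th_mul, ← Matrix.mul_assoc, ih,
        Matrix.mul_assoc, ← pow_succ]
  have e3 : th θ (Pq q (gm 1 P)) * th θ (Pq q (gm 1 P')) = 1 := by
    rw [← th_mul, Pq_mul, gm_mul, one_mul, p1, gm_one', Pq_one, th_one]
  have hP : ∀ (R : Matrix (Fin 2 × Fin T) (Fin 2 × Fin T) ℤ)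
      (x y : ((Fin 2 × Fin T) × Fin q) × δ), th θ (Pq q (gm 1 R)) x y ≠ 0 →
      x.1.2.val = y.1.2.val := by
    intro R x y h
    have h1 := th_ne θ _ _ _ h
    by_contra h2
    apply h1
    simp only [Pq, Matrix.of_apply]
    rw [if_neg (fun h => h2 (by rw [h]))]
  have k1 := FI_modq q m (odd_ndvd hq h0 hm) (fun x : ((Fin 2 × Fin T) × Fin q) × δ => x.1.2.val)
    e3 (hP P) (hP P') (fun x y h => th_Bkg_grade θ _ m x y h) (e2 m)
    (pow_nil (th_nil θ (Bk_nil hq0 hn _)) h0)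
  rw [← k1]
  apply FI_rank (fun x => r x.1.1 * q + x.1.2.val)
  intro x y hxy
  have h1 := pow_rank (fun x : ((Fin 2 × Fin T) × Fin q) × δ => r x.1.1 * q + x.1.2.val) (th θ Bk')
    ?_ m x y hxy
  · change _ + m ≤ _ at h1
    change r x.1.1 * q + x.1.2.val < r y.1.1 * q + y.1.2.val
    change r x.1.1 * q + x.1.2.val + m ≤ r y.1.1 * q + y.1.2.val at h1
    omega
  · intro x y h
    have h2 := th_ne θ _ _ _ h
    apply Bkg_rank (gm γ (P' * Cm T w * P)) r _ x.1 y.1 h2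
    intro a b hab
    apply p3
    intro h3
    apply hab
    change (P' * Cm T w * P) a b • γ = 0
    rw [h3, zero_smul]

end gw

end Pool.Agent.Helper817_sse
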