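import Mathlib
import Pool.Agent.Helper817_sse.Gad3

set_option autoImplicit false
set_option linter.unusedSectionVars false
set_option synthInstance.maxSize 4000

/-!
# Removing a nilpotent sink block
-/

namespace Pool.Agent.Helper817_sse

open Matrix Finset

variable {G : Type} [Group G] [Fintype G]
variable {α β : Type*} [Fintype α] [Fintype β] [DecidableEq α] [DecidableEq β]

theorem SZ_tail_conj (A : Matrix α α (Lam G)) (Y : Matrix α β (Lam G)) (D P P' : Matrix β β (Lam G))
    (h : P * P' = 1) :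
    SZ (Matrix.fromBlocks A Y 0 D) (Matrix.fromBlocks A (Y * P) 0 (P' * D * P)) := by
  apply SZ_of_mul (Matrix.fromBlocks 1 0 0 P) (Matrix.fromBlocks A Y 0 (P' * D))
  · rw [Matrix.fromBlocks_multiply]
    simp only [Matrix.zero_mul, add_zero, Matrix.mul_zero, zero_add, Matrix.one_mul]
    rw [← Matrix.mul_assoc, h, Matrix.one_mul]
  · rw [Matrix.fromBlocks_multiply]
    simp only [Matrix.zero_mul, add_zero, Matrix.mul_zero, zero_add, Matrix.mul_one]

theorem SZ_tail_zero (A : Matrix α α (Lam G)) (Y : Matrix α β (Lam G)) :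
    SZ (Matrix.fromBlocks A Y 0 (0 : Matrix β β (Lam G))) A := by
  apply SZ_of_mul (Matrix.fromRows 1 (0 : Matrix β α (Lam G))) (Matrix.fromCols A Y)
  · rw [Matrix.fromRows_mul_fromCols]
    simp only [Matrix.zero_mul, Matrix.one_mul]
  · rw [Matrix.fromCols_mul_fromRows, Matrix.mul_one, Matrix.mul_zero, add_zero]

theorem SZ_tail_aux (A : Matrix α α (Lam G)) (r : β → ℕ) : ∀ (k : ℕ) (D : Matrix β β (Lam G)),
    (∀ x y, D x y ≠ 0 → r x < r y) → (∀ x y, D x y ≠ 0 → r y ≤ k) → ∀ Y : Matrix α β (Lam G),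
      SZ (Matrix.fromBlocks A Y 0 D) A := by
  intro k
  induction k with
  | zero =>
    intro D h1 h2 Y
    have : D = 0 := by
      ext1 x y
      by_contra h
      have := h2 x y h
      have := h1 x y h
      omega
    rw [this]
    exact SZ_tail_zero A Y
  | succ k ih =>
    intro D h1 h2 Y
    set e : Matrix β β (Lam G) := Matrix.diagonal (fun x => if r x ≤ k then 1 else 0) with he
    have hDe : e * D = D := by
      ext1 x y
      rw [he, Matrix.diagonal_mul]
      by_cases h : D x y = 0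
      · rw [h, mul_zero]
      · have a1 := h1 x y h
        have a2 := h2 x y h
        rw [if_pos (by omega), one_mul]
    have s1 : SZ (Matrix.fromBlocks A Y 0 D) (Matrix.fromBlocks A (Y * e) 0 (D * e)) := by
      apply SZ_of_mul (Matrix.fromBlocks 1 0 0 e) (Matrix.fromBlocks A Y 0 D)
      · rw [Matrix.fromBlocks_multiply]
        simp only [Matrix.zero_mul, add_zero, Matrix.mul_zero, zero_add, Matrix.one_mul, hDe]
      · rw [Matrix.fromBlocks_multiply]
        simp only [Matrix.zero_mul, add_zero, Matrix.mul_zero, zero_add, Matrix.mul_one]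
    have hk1 : ∀ x y, (D * e) x y ≠ 0 → D x y ≠ 0 ∧ r y ≤ k := by
      intro x y h
      rw [he, Matrix.mul_diagonal] at h
      refine ⟨fun h0 => h (by rw [h0, zero_mul]), ?_⟩
      by_contra h3
      exact h (by rw [if_neg h3, mul_zero])
    exact s1.trans (ih (D * e) (fun x y h => h1 x y (hk1 x y h).1)
      (fun x y h => (hk1 x y h).2) (Y * e))

/-- A sink block which is conjugate to a strictly triangular one can be removed. -/
theorem SZ_tail (A : Matrix α α (Lam G)) (Y : Matrix α β (Lam G)) (D P P' : Matrix β β (Lam G))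
    (h : P * P' = 1) (r : β → ℕ) (h1 : ∀ x y, (P' * D * P) x y ≠ 0 → r x < r y) :
    SZ (Matrix.fromBlocks A Y 0 D) A := by
  refine (SZ_tail_conj A Y D P P' h).trans ?_
  exact SZ_tail_aux A r (univ.sup r) _ h1 (fun x y _ => Finset.le_sup (f := r) (mem_univ y)) _

theorem SZ_GW (q : ℕ) (hq : 0 < q) (g0 : G) (w : ℕ → Matrix (Fin 2) (Fin 2) ℤ) (T : ℕ)
    (hn : IsNilpotent (Cm T w)) (A : Matrix α α (Lam G))
    (Y : Matrix α (Fin 2 × Fin (T * q)) (Lam G)) :
    SZ (Matrix.fromBlocks A Y 0 (GW q g0 w (T * q))) A := by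
  obtain ⟨P, P', r, p1, p2, p3⟩ := TN_gen (Cm T w) hn
  set γ : Lam G := MonoidAlgebra.single g0 1 with hγ
  set e := er T q
  refine SZ_tail A Y _ ((Pq q (gm 1 P)).submatrix e e) ((Pq q (gm 1 P')).submatrix e e) ?_
    (fun x => r (e x).1 * q + (e x).2.val) ?_
  · rw [submatrix_mul_equiv, Pq_mul, gm_mul, one_mul, p1, gm_one', Pq_one, submatrix_one_equiv]
  · intro x y hxy
    rw [GW_sub, submatrix_mul_equiv, submatrix_mul_equiv] at hxy
    have e1 : Bkg q (gm γ (Cm T w)) * Pq q (gm 1 P) = Pq q (gm 1 P) *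
        Bkg q (gm γ (P' * Cm T w * P)) := by
      apply Bkg_Pq
      rw [gm_mul, gm_mul, mul_one, one_mul]
      congr 1
      rw [← Matrix.mul_assoc, ← Matrix.mul_assoc, p1, Matrix.one_mul]
    rw [Matrix.mul_assoc, e1, ← Matrix.mul_assoc, Pq_mul, gm_mul, one_mul, p2, gm_one', Pq_one,
      Matrix.one_mul] at hxy
    apply Bkg_rank (gm γ (P' * Cm T w * P)) r _ (e x) (e y) hxy
    intro a b hab
    apply p3
    intro h3
    apply hab
    change (P' * Cm T w * P) a b • γ = 0
    rw [h3, zero_smul]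

end Pool.Agent.Helper817_sse
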