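import Mathlib
import Pool.Agent.Helper817_sse.Tail

set_option autoImplicit false
set_option linter.unusedSectionVars false
set_option synthInstance.maxSize 4000

/-!
# Positive matrices over the group ring, strong shift equivalence over the positive cone
-/

namespace Pool.Agent.Helper817_sse

open Matrix Finset

section pe

variable {G : Type} [Group G] [Fintype G]

/-- Nonnegative coefficients. -/
def pe (a : Lam G) : Prop := ∀ g, 0 ≤ a.coeff g

theorem cadd (a b : Lam G) (g : G) : (a + b).coeff g = a.coeff g + b.coeff g := rfl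

theorem csub (a b : Lam G) (g : G) : (a - b).coeff g = a.coeff g - b.coeff g := rfl

theorem czero (g : G) : (0 : Lam G).coeff g = 0 := rfl

theorem csum {ι : Type*} (s : Finset ι) (f : ι → Lam G) (g : G) :
    (∑ i ∈ s, f i).coeff g = ∑ i ∈ s, (f i).coeff g := by
  rw [MonoidAlgebra.coeff_sum, Finsupp.finsetSum_apply]

theorem csingle (g h : G) (z : ℤ) [Decidable (g = h)] :
    (MonoidAlgebra.single g z : Lam G).coeff h = if g = h then z else 0 := by
  rw [MonoidAlgebra.coeff_single]
  by_cases h1 : g = h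
  · subst h1; rw [Finsupp.single_eq_same, if_pos rfl]
  · rw [Finsupp.single_eq_of_ne (Ne.symm h1), if_neg h1]

theorem csm (g h : G) (a : Lam G) :
    (MonoidAlgebra.single g 1 * a).coeff h = a.coeff (g⁻¹ * h) := by
  rw [MonoidAlgebra.coeff_single_mul_apply, one_mul]

theorem cms (g h : G) (a : Lam G) :
    (a * MonoidAlgebra.single g 1).coeff h = a.coeff (h * g⁻¹) := by
  rw [MonoidAlgebra.coeff_mul_single_apply, mul_one]

theorem cmul (a b : Lam G) (g : G) : (a * b).coeff g = ∑ h, a.coeff h * b.coeff (h⁻¹ * g) := by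
  rw [MonoidAlgebra.coeff_mul_apply_left, Finsupp.sum_fintype]
  intro h
  rw [zero_mul]

theorem cext {a b : Lam G} (h : ∀ g, a.coeff g = b.coeff g) : a = b := by
  have : a.coeff = b.coeff := Finsupp.ext h
  exact MonoidAlgebra.coeff_injective this

theorem pe_zero : pe (0 : Lam G) := fun g => by rw [czero]

theorem pe_add {a b : Lam G} (ha : pe a) (hb : pe b) : pe (a + b) := fun g => by
  rw [cadd]; exact add_nonneg (ha g) (hb g)

theorem pe_sum {ι : Type*} (s : Finset ι) (f : ι → Lam G) (h : ∀ i ∈ s, pe (f i)) :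
    pe (∑ i ∈ s, f i) := fun g => by
  rw [csum]; exact sum_nonneg (fun i hi => h i hi g)

theorem pe_single (g : G) : pe (MonoidAlgebra.single g 1 : Lam G) := fun h => by
  classical
  rw [csingle]; split_ifs <;> norm_num

theorem pe_one : pe (1 : Lam G) := pe_single 1

theorem pe_mul {a b : Lam G} (ha : pe a) (hb : pe b) : pe (a * b) := fun g => by
  rw [cmul]; exact sum_nonneg (fun h _ => mul_nonneg (ha h) (hb _))

theorem pe_ite {a b : Lam G} {p : Prop} [Decidable p] (ha : pe a) (hb : pe b) :
    pe (if p then a else b) := by split_ifs <;> assumption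

theorem pe_pos {a : Lam G} (ha : pe a) (h : a ≠ 0) : ∃ g, 0 < a.coeff g := by
  by_contra h1
  push Not at h1
  apply h
  apply cext
  intro g
  rw [czero]
  exact le_antisymm (h1 g) (ha g)

/-- A product is positive at a product of points where both factors are positive. -/
theorem cmul_pos {a b : Lam G} (ha : pe a) (hb : pe b) {g h : G} (h1 : 0 < a.coeff g)
    (h2 : 0 < b.coeff h) : 0 < (a * b).coeff (g * h) := by
  rw [cmul]
  refine sum_pos' (fun k _ => mul_nonneg (ha k) (hb _)) ⟨g, mem_univ _, ?_⟩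
  rw [inv_mul_cancel_left]
  exact mul_pos h1 h2

theorem single_mul_single (g h : G) : (MonoidAlgebra.single g 1 : Lam G) * MonoidAlgebra.single h 1 =
    MonoidAlgebra.single (g * h) 1 := by
  rw [MonoidAlgebra.single_mul_single, mul_one]

end pe

section Pos

variable {G : Type} [Group G] [Fintype G] {α β γ : Type*}

/-- Matrices with nonnegative coefficients. -/
def Pos (A : Matrix α β (Lam G)) : Prop := ∀ i j, pe (A i j)

theorem Pos_mul [Fintype β] {A : Matrix α β (Lam G)} {B : Matrix β γ (Lam G)} (hA : Pos A)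
    (hB : Pos B) : Pos (A * B) := fun i j => by
  rw [Matrix.mul_apply]
  exact pe_sum _ _ (fun k _ => pe_mul (hA i k) (hB k j))

theorem Pos_one [DecidableEq α] : Pos (1 : Matrix α α (Lam G)) := fun i j => by
  rw [Matrix.one_apply]
  exact pe_ite pe_one pe_zero

theorem Pos_pow [Fintype α] [DecidableEq α] {A : Matrix α α (Lam G)} (hA : Pos A) (k : ℕ) :
    Pos (A ^ k) := by
  induction k with
  | zero => rw [pow_zero]; exact Pos_one
  | succ k ih => rw [pow_succ]; exact Pos_mul ih hA

theorem Pos_mul_apply [Fintype β] {A : Matrix α β (Lam G)} {B : Matrix β γ (Lam G)} (hA : Pos A)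
    (hB : Pos B) {i : α} {j : β} {k : γ} {g h : G} (h1 : 0 < (A i j).coeff g)
    (h2 : 0 < (B j k).coeff h) : 0 < ((A * B) i k).coeff (g * h) := by
  rw [Matrix.mul_apply, csum]
  refine sum_pos' (fun l _ => pe_mul (hA i l) (hB l k) _) ⟨j, mem_univ _, ?_⟩
  exact cmul_pos (hA i j) (hB j k) h1 h2

variable [Fintype α] [Fintype β] [Fintype γ]

/-- Strong shift equivalence over the positive cone. -/
def PZ (A : Matrix α α (Lam G)) (B : Matrix β β (Lam G)) : Prop :=
  Relation.EqvGen EP (sig A) (sig B)

theorem PZ.trans {A : Matrix α α (Lam G)} {B : Matrix β β (Lam G)} {C : Matrix γ γ (Lam G)}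
    (h1 : PZ A B) (h2 : PZ B C) : PZ A C := Relation.EqvGen.trans _ _ _ h1 h2

theorem PZ.symm {A : Matrix α α (Lam G)} {B : Matrix β β (Lam G)} (h : PZ A B) : PZ B A :=
  Relation.EqvGen.symm _ _ h

theorem PZ_mul {R : Matrix α β (Lam G)} {S : Matrix β α (Lam G)} (hR : Pos R) (hS : Pos S) :
    PZ (R * S) (S * R) := by
  apply Relation.EqvGen.rel
  exact ⟨fn (R.submatrix (Fintype.equivFin α).symm (Fintype.equivFin β).symm),
    fn (S.submatrix (Fintype.equivFin β).symm (Fintype.equivFin α).symm),
    fun i j g => hR _ _ _, fun i j g => hS _ _ _,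
    fn_mul_sub (Fintype.equivFin α).symm (Fintype.equivFin β).symm R S,
    fn_mul_sub (Fintype.equivFin β).symm (Fintype.equivFin α).symm S R⟩

theorem PZ_of_mul {A : Matrix α α (Lam G)} {B : Matrix β β (Lam G)} {R : Matrix α β (Lam G)}
    {S : Matrix β α (Lam G)} (hR : Pos R) (hS : Pos S) (h1 : A = R * S) (h2 : B = S * R) :
    PZ A B := by
  rw [h1, h2]; exact PZ_mul hR hS

theorem PZ.SZ {A : Matrix α α (Lam G)} {B : Matrix β β (Lam G)} (h : PZ A B) : SZ A B :=
  eqv_EZ _ _ h

/-- The matrix as an element of the space of all matrices. -/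
def sg {m : ℕ} (e : Fin m ≃ α) (A : Matrix α α (Lam G)) : SM G := ⟨m, fun i j => fn A (e i) (e j)⟩

theorem sg_sig [DecidableEq α] {m : ℕ} (e : Fin m ≃ α) {A : Matrix α α (Lam G)} (hA : Pos A) :
    Relation.EqvGen EP (sg e A) (sig A) := by
  apply Relation.EqvGen.rel
  refine ⟨fn (A.submatrix e (Fintype.equivFin α).symm),
    fn ((1 : Matrix α α (Lam G)).submatrix (Fintype.equivFin α).symm e),
    fun i j g => hA _ _ _, fun i j g => Pos_one _ _ _, ?_, ?_⟩
  · have := fn_mul_sub e (Fintype.equivFin α).symm A (1 : Matrix α α (Lam G))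
    rw [Matrix.mul_one] at this
    exact this
  · have := fn_mul_sub (Fintype.equivFin α).symm e (1 : Matrix α α (Lam G)) A
    rw [Matrix.one_mul] at this
    exact this

/-- The matrix over the group ring given by coefficient functions. -/
noncomputable def mk {α β : Type*} (A : α → β → G → ℤ) : Matrix α β (Lam G) :=
  Matrix.of fun i j => MonoidAlgebra.ofCoeff (Finsupp.equivFunOnFinite.symm (A i j))

theorem mk_coeff {α β : Type*} (A : α → β → G → ℤ) (i : α) (j : β) (g : G) :
    (mk A i j).coeff g = A i j g := by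
  change (MonoidAlgebra.ofCoeff (Finsupp.equivFunOnFinite.symm (A i j)) : Lam G).coeff g = _
  rw [MonoidAlgebra.coeff_ofCoeff]
  rfl

theorem fn_mk {α β : Type*} (A : α → β → G → ℤ) : fn (mk A) = A := by
  funext i j g
  exact mk_coeff A i j g

theorem sg_mk {n : ℕ} (A : Fin n → Fin n → G → ℤ) : sg (Equiv.refl (Fin n)) (mk A) = ⟨n, A⟩ := by
  unfold sg
  rw [fn_mk]
  rfl

end Pos

end Pool.Agent.Helper817_sse
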