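import Mathlib
import Pool.Agent.Helper817_sse.Pos

set_option autoImplicit false
set_option linter.unusedSectionVars false
set_option synthInstance.maxSize 4000

/-!
# Chains of states
-/

namespace Pool.Agent.Helper817_sse

open Matrix Finset

section chain

variable {G : Type} [Group G] [Fintype G]
variable {V C : Type*} [Fintype V] [DecidableEq V] [Fintype C] [DecidableEq C]
variable (H : Matrix V V (Lam G)) (a : C → V → Lam G) (v : V) (ω : ℕ → G)

/-- The row vectors attached to the states of the chains. -/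
noncomputable def rv : ℕ → V → Lam G
  | 0 => fun y => if y = v then 1 else 0
  | i + 1 => fun y => MonoidAlgebra.single (ω i)⁻¹ 1 * ∑ x, rv i x * H x y

/-- The exit weights. -/
noncomputable def exi (i : ℕ) (c : C) : Lam G := ∑ x, rv H v ω i x * a c x

/-- The matrix with chains of length `T`. -/
noncomputable def Tm (T : ℕ) : Matrix (V ⊕ (C × Fin T)) (V ⊕ (C × Fin T)) (Lam G) :=
  Matrix.fromBlocks H (Matrix.of fun x d => if d.2.val = 0 then a d.1 x else 0)
    (Matrix.of fun c y => if c.2.val + 1 = T then ∑ x, rv H v ω c.2.val x * H x y else 0)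
    (Matrix.of fun c d =>
      (if d.1 = c.1 ∧ d.2.val = c.2.val + 1 then MonoidAlgebra.single (ω c.2.val) 1 else 0) +
      (if d.2.val = 0 then exi H a v ω c.2.val d.1 else 0))

/-- The first factor. -/
noncomputable def RT (T : ℕ) : Matrix (V ⊕ (C × Fin (T + 1))) (V ⊕ (C × Fin T)) (Lam G) :=
  Matrix.fromBlocks 1 0 (Matrix.of fun c y => if c.2.val = T then rv H v ω T y else 0)
    (Matrix.of fun c d => if d.1 = c.1 ∧ d.2.val = c.2.val then 1 else 0)

/-- The second factor. -/
noncomputable def ST (T : ℕ) : Matrix (V ⊕ (C × Fin T)) (V ⊕ (C × Fin (T + 1))) (Lam G) :=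
  Matrix.fromBlocks H (Matrix.of fun x d => if d.2.val = 0 then a d.1 x else 0) 0
    (Matrix.of fun c d =>
      (if d.1 = c.1 ∧ d.2.val = c.2.val + 1 then MonoidAlgebra.single (ω c.2.val) 1 else 0) +
      (if d.2.val = 0 then exi H a v ω c.2.val d.1 else 0))

theorem sum_J {M : Type*} [AddCommMonoid M] {T : ℕ} (c : C × Fin (T + 1)) (hc : c.2.val < T)
    (f : C × Fin T → M) : (∑ d, if d.1 = c.1 ∧ d.2.val = c.2.val then f d else 0) =
      f (c.1, ⟨c.2.val, hc⟩) := by
  rw [sum_eq_single (c.1, ⟨c.2.val, hc⟩)]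
  · rw [if_pos ⟨rfl, rfl⟩]
  · intro b _ hb
    rw [if_neg]
    rintro ⟨h1, h2⟩
    exact hb (Prod.ext h1 (Fin.ext h2))
  · intro h; exact absurd (mem_univ _) h

theorem RT_ST (T : ℕ) : RT (C := C) H v ω T * ST H a v ω T = Tm H a v ω (T + 1) := by
  unfold RT ST Tm
  rw [fromBlocks_multiply]
  congr 1
  · rw [Matrix.one_mul, Matrix.zero_mul, add_zero]
  · rw [Matrix.one_mul, Matrix.zero_mul, add_zero]
  · rw [Matrix.mul_zero, add_zero]
    apply Matrix.ext; intro c y
    rw [Matrix.mul_apply]
    simp only [Matrix.of_apply]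
    by_cases h : c.2.val = T
    · rw [if_pos (by omega)]
      simp only [if_pos h]
      rw [h]
    · rw [if_neg (by omega)]
      simp only [if_neg h, zero_mul, sum_const_zero]
  · apply Matrix.ext; intro c d
    rw [Matrix.add_apply, Matrix.mul_apply, Matrix.mul_apply]
    simp only [Matrix.of_apply]
    have hd := d.2.isLt
    by_cases h : c.2.val = T
    · have e1 : ∀ x, (if c.2.val = T then rv H v ω T x else 0) * (if d.2.val = 0 then a d.1 x else 0)
          = if d.2.val = 0 then rv H v ω T x * a d.1 x else 0 := by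
        intro x
        rw [if_pos h]; split_ifs <;> simp
      rw [sum_congr rfl (fun x _ => e1 x)]
      have e2 : ∀ e : C × Fin T, (if e.1 = c.1 ∧ e.2.val = c.2.val then (1 : Lam G) else 0) = 0 := by
        intro e
        have := e.2.isLt
        rw [if_neg]
        rintro ⟨_, h2⟩
        omega
      simp only [e2, zero_mul, sum_const_zero, add_zero]
      rw [if_neg (by omega : ¬ (d.1 = c.1 ∧ d.2.val = c.2.val + 1)), zero_add]
      by_cases h3 : d.2.val = 0
      · simp only [if_pos h3]
        rw [h]; rfl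
      · simp only [if_neg h3, sum_const_zero]
    · have hc : c.2.val < T := by have := c.2.isLt; omega
      have e1 : ∀ x, (if c.2.val = T then rv H v ω T x else 0) * (if d.2.val = 0 then a d.1 x else 0)
          = (0 : Lam G) := by
        intro x
        rw [if_neg h, zero_mul]
      rw [sum_congr rfl (fun x _ => e1 x), sum_const_zero, zero_add]
      have e2 : ∀ e : C × Fin T, (if e.1 = c.1 ∧ e.2.val = c.2.val then (1 : Lam G) else 0) *
          ((if d.1 = e.1 ∧ d.2.val = e.2.val + 1 then MonoidAlgebra.single (ω e.2.val) 1 else 0) +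
            (if d.2.val = 0 then exi H a v ω e.2.val d.1 else 0)) =
          if e.1 = c.1 ∧ e.2.val = c.2.val then
          ((if d.1 = e.1 ∧ d.2.val = e.2.val + 1 then MonoidAlgebra.single (ω e.2.val) 1 else 0) +
            (if d.2.val = 0 then exi H a v ω e.2.val d.1 else 0)) else 0 := by
        intro e
        rw [ite_mul, one_mul, zero_mul]
      rw [sum_congr rfl (fun e _ => e2 e), sum_J c hc]

theorem ST_RT (T : ℕ) (hT : 1 ≤ T) : ST H a v ω T * RT (C := C) H v ω T = Tm H a v ω T := by
  unfold RT ST Tm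
  rw [fromBlocks_multiply]
  have lift : ∀ d : C × Fin T, d.2.val < T + 1 := fun d => by have := d.2.isLt; omega
  have sumJ' : ∀ (d : C × Fin T) (f : C × Fin (T + 1) → Lam G),
      (∑ e, f e * (if d.1 = e.1 ∧ d.2.val = e.2.val then (1 : Lam G) else 0)) =
        f (d.1, ⟨d.2.val, lift d⟩) := by
    intro d f
    rw [sum_eq_single (d.1, ⟨d.2.val, lift d⟩)]
    · rw [if_pos ⟨rfl, rfl⟩, mul_one]
    · intro b _ hb
      rw [if_neg, mul_zero]
      rintro ⟨h1, h2⟩
      exact hb (Prod.ext h1.symm (Fin.ext h2.symm))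
    · intro h; exact absurd (mem_univ _) h
  congr 1
  · rw [Matrix.mul_one]
    conv_rhs => rw [← add_zero H]
    congr 1
    apply Matrix.ext; intro x y
    rw [Matrix.mul_apply]
    simp only [Matrix.of_apply]
    apply sum_eq_zero; intro d _
    by_cases h : d.2.val = 0
    · rw [if_neg (by omega : ¬ d.2.val = T), mul_zero]
    · rw [if_neg h, zero_mul]
  · rw [Matrix.mul_zero, zero_add]
    apply Matrix.ext; intro x d
    rw [Matrix.mul_apply]
    simp only [Matrix.of_apply]
    exact sumJ' d _
  · rw [Matrix.zero_mul, zero_add]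
    apply Matrix.ext; intro c y
    rw [Matrix.mul_apply]
    simp only [Matrix.of_apply]
    have e1 : ∀ e : C × Fin (T + 1), ((if e.1 = c.1 ∧ e.2.val = c.2.val + 1 then
        MonoidAlgebra.single (ω c.2.val) 1 else 0) + (if e.2.val = 0 then exi H a v ω c.2.val e.1
          else 0)) * (if e.2.val = T then rv H v ω T y else 0) =
        if e.1 = c.1 ∧ e.2.val = T then (if c.2.val + 1 = T then
          MonoidAlgebra.single (ω c.2.val) 1 * rv H v ω T y else 0) else 0 := by
      intro e
      by_cases h1 : e.2.val = T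
      · rw [if_neg (by omega : ¬ e.2.val = 0), add_zero, if_pos h1]
        by_cases h2 : e.1 = c.1
        · by_cases h3 : c.2.val + 1 = T
          · rw [if_pos ⟨h2, by omega⟩, if_pos ⟨h2, h1⟩, if_pos h3]
          · rw [if_neg (fun h => h3 (by omega)), if_pos ⟨h2, h1⟩, if_neg h3, zero_mul]
        · rw [if_neg (fun h => h2 h.1), if_neg (fun h => h2 h.1), zero_mul]
      · rw [if_neg h1, mul_zero, if_neg (fun h => h1 h.2)]
    rw [sum_congr rfl (fun e _ => e1 e), sum_eq_single (c.1, ⟨T, Nat.lt_succ_self T⟩)]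
    · rw [if_pos ⟨rfl, rfl⟩]
      by_cases h3 : c.2.val + 1 = T
      · rw [if_pos h3, if_pos h3]
        have e3 : rv H v ω T y = rv H v ω (c.2.val + 1) y := by rw [h3]
        rw [e3]
        change _ * (MonoidAlgebra.single (ω c.2.val)⁻¹ 1 * ∑ x, rv H v ω c.2.val x * H x y) = _
        rw [← mul_assoc, single_mul_single, mul_inv_cancel]
        exact one_mul _
      · rw [if_neg h3, if_neg h3]
    · intro b _ hb
      rw [if_neg]
      rintro ⟨h1, h2⟩
      exact hb (Prod.ext h1 (Fin.ext h2))
    · intro h; exact absurd (mem_univ _) h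
  · rw [Matrix.zero_mul, zero_add]
    apply Matrix.ext; intro c d
    rw [Matrix.mul_apply]
    simp only [Matrix.of_apply]
    exact sumJ' d _

/-- The matrix without chains. -/
noncomputable def T0 : Matrix V V (Lam G) := Matrix.of fun x y => H x y + (if y = v then ∑ c, a c x else 0)

/-- The first factor of the initial step. -/
noncomputable def R0 : Matrix V (V ⊕ (C × Fin 1)) (Lam G) :=
  Matrix.fromCols H (Matrix.of fun x d => a d.1 x)

/-- The second factor of the initial step. -/
noncomputable def S0 : Matrix (V ⊕ (C × Fin 1)) V (Lam G) :=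
  Matrix.fromRows 1 (Matrix.of fun _ y => if y = v then 1 else 0)

theorem R0_S0 : R0 H a * S0 (G := G) (C := C) v = T0 H a v := by
  unfold R0 S0 T0
  rw [fromCols_mul_fromRows, Matrix.mul_one]
  apply Matrix.ext; intro x y
  rw [Matrix.add_apply, Matrix.mul_apply]
  simp only [Matrix.of_apply]
  congr 1
  rw [Fintype.sum_prod_type]
  by_cases h : y = v
  · simp [h]
  · simp [h]

theorem S0_R0 : S0 (G := G) (C := C) v * R0 H a = Tm H a v ω 1 := by
  unfold R0 S0 Tm
  rw [fromRows_mul_fromCols, Matrix.one_mul, Matrix.one_mul]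
  congr 1
  · apply Matrix.ext; intro x d
    simp only [Matrix.of_apply]
    rw [if_pos (by omega)]
  · apply Matrix.ext; intro c y
    rw [Matrix.mul_apply]
    have h0 : c.2.val = 0 := by omega
    simp only [Matrix.of_apply]
    rw [h0, if_pos (by norm_num)]
    rfl
  · apply Matrix.ext; intro c d
    rw [Matrix.mul_apply]
    have h0 : c.2.val = 0 := by omega
    have h1 : d.2.val = 0 := by omega
    simp only [Matrix.of_apply]
    rw [if_neg (by omega), zero_add, if_pos h1, h0]
    rfl

end chain

end Pool.Agent.Helper817_sse
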