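import Mathlib
import Pool.Agent.Helper817_sse.Chain

set_option autoImplicit false
set_option linter.unusedSectionVars false
set_option synthInstance.maxSize 4000

/-!
# Chains of states: positivity, primitivity
-/

namespace Pool.Agent.Helper817_sse

open Matrix Finset

section gp

variable {G : Type} [Group G] [Fintype G] {α β : Type*} [Fintype α] [DecidableEq α]
  [Fintype β] [DecidableEq β]

/-- All coefficients are at least `K`. -/
def Big (K : ℤ) (A : Matrix α α (Lam G)) : Prop := ∀ x y g, K ≤ (A x y).coeff g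

/-- `G`-primitive matrices. -/
def GP (A : Matrix α α (Lam G)) : Prop := Nonempty α ∧ Pos A ∧ ∃ k : ℕ, Big 1 (A ^ (k + 1))

theorem mul_pow_succ_lam (R : Matrix α β (Lam G)) (S : Matrix β α (Lam G)) (k : ℕ) :
    (S * R) ^ (k + 1) = S * (R * S) ^ k * R := by
  induction k with
  | zero => simp
  | succ k ih =>
    rw [pow_succ, ih, pow_succ (R * S) k]
    simp only [Matrix.mul_assoc]

theorem GP_transfer {R : Matrix α β (Lam G)} {S : Matrix β α (Lam G)} (hR : Pos R) (hS : Pos S)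
    (h : GP (R * S)) (h1 : ∀ y, ∃ x, R x y ≠ 0) (h2 : ∀ y, ∃ x, S y x ≠ 0) (hne : Nonempty β) :
    GP (S * R) := by
  obtain ⟨_, _, k, hk⟩ := h
  refine ⟨hne, Pos_mul hS hR, k + 1, ?_⟩
  intro x y g
  have e : (S * R) ^ (k + 1 + 1) = S * (R * S) ^ (k + 1) * R := mul_pow_succ_lam R S (k + 1)
  obtain ⟨a, ha⟩ := h2 x
  obtain ⟨b, hb⟩ := h1 y
  obtain ⟨g1, hg1⟩ := pe_pos (hS x a) ha
  obtain ⟨g2, hg2⟩ := pe_pos (hR b y) hb
  rw [e]
  have h3 := Pos_mul_apply (Pos_mul hS (Pos_pow (Pos_mul hR hS) (k + 1))) hR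
    (Pos_mul_apply hS (Pos_pow (Pos_mul hR hS) (k + 1)) hg1
      (lt_of_lt_of_le one_pos (hk a b (g1⁻¹ * g * g2⁻¹)))) hg2
  have e2 : g1 * (g1⁻¹ * g * g2⁻¹) * g2 = g := by group
  rw [e2] at h3
  exact h3

end gp

section chain

variable {G : Type} [Group G] [Fintype G]
variable {V C : Type*} [Fintype V] [DecidableEq V] [Fintype C] [DecidableEq C]
variable {H : Matrix V V (Lam G)} {a : C → V → Lam G} {v : V} {ω : ℕ → G}

theorem rv_pe (hH : Pos H) : ∀ i y, pe (rv H v ω i y) := by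
  intro i
  induction i with
  | zero => intro y; exact pe_ite pe_one pe_zero
  | succ i ih => intro y; exact pe_mul (pe_single _) (pe_sum _ _ (fun x _ => pe_mul (ih x) (hH x y)))

theorem exi_pe (hH : Pos H) (ha : ∀ c x, pe (a c x)) (i : ℕ) (c : C) : pe (exi H a v ω i c) :=
  pe_sum _ _ (fun x _ => pe_mul (rv_pe hH i x) (ha c x))

theorem Pos_blocks {α β γ δ : Type*} {A : Matrix α γ (Lam G)} {B : Matrix α δ (Lam G)}
    {C : Matrix β γ (Lam G)} {D : Matrix β δ (Lam G)} (hA : Pos A) (hB : Pos B) (hC : Pos C)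
    (hD : Pos D) : Pos (fromBlocks A B C D) := by
  rintro (i | i) (j | j)
  · exact hA i j
  · exact hB i j
  · exact hC i j
  · exact hD i j

theorem Pos_zero {α β : Type*} : Pos (0 : Matrix α β (Lam G)) := fun _ _ => pe_zero

theorem Pos_Tm (hH : Pos H) (ha : ∀ c x, pe (a c x)) (T : ℕ) : Pos (Tm H a v ω T) := by
  apply Pos_blocks hH
  · intro x d; exact pe_ite (ha _ _) pe_zero
  · intro c y; exact pe_ite (pe_sum _ _ (fun x _ => pe_mul (rv_pe hH _ x) (hH x y))) pe_zero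
  · intro c d
    exact pe_add (pe_ite (pe_single _) pe_zero) (pe_ite (exi_pe hH ha _ _) pe_zero)

theorem Pos_RT (hH : Pos H) (T : ℕ) : Pos (RT (C := C) H v ω T) := by
  apply Pos_blocks Pos_one Pos_zero
  · intro c y; exact pe_ite (rv_pe hH _ _) pe_zero
  · intro c d; exact pe_ite pe_one pe_zero

theorem Pos_ST (hH : Pos H) (ha : ∀ c x, pe (a c x)) (T : ℕ) : Pos (ST H a v ω T) := by
  apply Pos_blocks hH
  · intro x d; exact pe_ite (ha _ _) pe_zero
  · exact Pos_zero
  · intro c d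
    exact pe_add (pe_ite (pe_single _) pe_zero) (pe_ite (exi_pe hH ha _ _) pe_zero)

theorem Pos_R0 (hH : Pos H) (ha : ∀ c x, pe (a c x)) : Pos (R0 H a) := by
  rintro i (j | j)
  · exact hH i j
  · exact ha _ _

theorem Pos_S0 : Pos (S0 (G := G) (C := C) v) := by
  rintro (i | i) j
  · exact Pos_one i j
  · exact pe_ite pe_one pe_zero

theorem PZ_Tm (hH : Pos H) (ha : ∀ c x, pe (a c x)) (T : ℕ) :
    PZ (T0 H a v) (Tm H a v ω (T + 1)) := by
  induction T with
  | zero => exact PZ_of_mul (Pos_R0 hH ha) Pos_S0 (R0_S0 H a v).symm (S0_R0 H a v ω).symm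
  | succ T ih =>
    exact ih.trans (PZ_of_mul (Pos_ST hH ha (T + 1)) (Pos_RT hH (T + 1))
      (ST_RT H a v ω (T + 1) (by omega)).symm (RT_ST H a v ω (T + 1)).symm)

theorem single_ne (g : G) : (MonoidAlgebra.single g 1 : Lam G) ≠ 0 := by
  classical
  intro h
  have h1 : (MonoidAlgebra.single g 1 : Lam G).coeff g = 0 := by rw [h]; rfl
  rw [csingle, if_pos rfl] at h1
  exact one_ne_zero h1

theorem one_ne_lam : (1 : Lam G) ≠ 0 := single_ne 1

theorem GP_Tm (hH : Pos H) (ha : ∀ c x, pe (a c x)) (hG : GP (T0 H a v))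
    (h1 : ∀ y, ∃ x, H x y ≠ 0) (h2 : ∀ i, ∃ y, rv H v ω i y ≠ 0) (h3 : ∀ c, ∃ x, a c x ≠ 0)
    (T : ℕ) : GP (Tm H a v ω (T + 1)) := by
  induction T with
  | zero =>
    rw [zero_add, ← S0_R0]
    refine GP_transfer (Pos_R0 hH ha) Pos_S0 (by rw [R0_S0]; exact hG) ?_ ?_ ⟨Sum.inl v⟩
    · rintro (y | c)
      · obtain ⟨x, hx⟩ := h1 y; exact ⟨x, hx⟩
      · obtain ⟨x, hx⟩ := h3 c.1; exact ⟨x, hx⟩
    · rintro (x | c)
      · refine ⟨x, ?_⟩
        change (1 : Matrix V V (Lam G)) x x ≠ 0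
        rw [Matrix.one_apply_eq]; exact one_ne_lam
      · refine ⟨v, ?_⟩
        change (if v = v then (1 : Lam G) else 0) ≠ 0
        rw [if_pos rfl]; exact one_ne_lam
  | succ T ih =>
    rw [← RT_ST]
    refine GP_transfer (Pos_ST hH ha (T + 1)) (Pos_RT hH (T + 1))
      (by rw [ST_RT _ _ _ _ _ (by omega)]; exact ih) ?_ ?_ ⟨Sum.inl v⟩
    · rintro (y | d)
      · obtain ⟨x, hx⟩ := h1 y; exact ⟨Sum.inl x, hx⟩
      · rcases Nat.eq_zero_or_pos d.2.val with h0 | h0
        · obtain ⟨x, hx⟩ := h3 d.1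
          refine ⟨Sum.inl x, ?_⟩
          change (if d.2.val = 0 then a d.1 x else 0) ≠ 0
          rw [if_pos h0]; exact hx
        · have hlt : d.2.val - 1 < T + 1 := by have := d.2.isLt; omega
          refine ⟨Sum.inr (d.1, ⟨d.2.val - 1, hlt⟩), ?_⟩
          change ((if d.1 = d.1 ∧ d.2.val = d.2.val - 1 + 1 then
            MonoidAlgebra.single (ω (d.2.val - 1)) 1 else 0) +
            (if d.2.val = 0 then exi H a v ω (d.2.val - 1) d.1 else 0) : Lam G) ≠ 0
          rw [if_pos ⟨rfl, by omega⟩, if_neg (by omega), add_zero]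
          exact single_ne _
    · rintro (x | c)
      · refine ⟨Sum.inl x, ?_⟩
        change (1 : Matrix V V (Lam G)) x x ≠ 0
        rw [Matrix.one_apply_eq]; exact one_ne_lam
      · by_cases h0 : c.2.val = T + 1
        · obtain ⟨y, hy⟩ := h2 (T + 1)
          refine ⟨Sum.inl y, ?_⟩
          change (if c.2.val = T + 1 then rv H v ω (T + 1) y else 0) ≠ 0
          rw [if_pos h0]; exact hy
        · have hlt : c.2.val < T + 1 := by have := c.2.isLt; omega
          refine ⟨Sum.inr (c.1, ⟨c.2.val, hlt⟩), ?_⟩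
          change (if c.1 = c.1 ∧ c.2.val = c.2.val then (1 : Lam G) else 0) ≠ 0
          rw [if_pos ⟨rfl, rfl⟩]; exact one_ne_lam

/-- The normalization of the row vectors. -/
def pw (ω : ℕ → G) : ℕ → G
  | 0 => 1
  | i + 1 => (ω i)⁻¹ * pw ω i

theorem rv_pow (i : ℕ) (y : V) : rv H v ω i y = MonoidAlgebra.single (pw ω i) 1 * (H ^ i) v y := by
  induction i generalizing y with
  | zero =>
    change (if y = v then (1 : Lam G) else 0) = (1 : Lam G) * _
    rw [pow_zero, one_mul, Matrix.one_apply]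
    simp only [eq_comm]
  | succ i ih =>
    change MonoidAlgebra.single (ω i)⁻¹ 1 * ∑ x, rv H v ω i x * H x y =
      MonoidAlgebra.single ((ω i)⁻¹ * pw ω i) 1 * _
    rw [← single_mul_single, mul_assoc, pow_succ, Matrix.mul_apply, mul_sum (univ) _
      (MonoidAlgebra.single (pw ω i) 1)]
    congr 1
    apply sum_congr rfl; intro x _
    rw [ih, mul_assoc]

theorem rv_coeff (i : ℕ) (y : V) (g : G) :
    (rv H v ω i y).coeff g = ((H ^ i) v y).coeff ((pw ω i)⁻¹ * g) := by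
  rw [rv_pow, csm]

end chain

end Pool.Agent.Helper817_sse
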