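import Mathlib
import Pool.Agent.Helper817_sse.Chain2

set_option autoImplicit false
set_option linter.unusedSectionVars false
set_option synthInstance.maxSize 4000

/-!
# Walks in graphs labelled by a group, primitivity
-/

namespace Pool.Agent.Helper817_sse

open Matrix Finset

section wg

variable {G : Type} [Group G] {V : Type*}

/-- Walks in a graph labelled by a group. -/
def WG (E : V → V → G → Prop) : ℕ → V → V → G → Prop
  | 0, x, y, g => x = y ∧ g = 1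
  | n + 1, x, y, g => ∃ z h k, WG E n x z h ∧ E z y k ∧ g = h * k

theorem WG_trans {E : V → V → G → Prop} {a : ℕ} {x y : V} {g : G} (h1 : WG E a x y g) :
    ∀ (b : ℕ) (z : V) (h : G), WG E b y z h → WG E (a + b) x z (g * h) := by
  intro b
  induction b with
  | zero =>
    rintro z h ⟨rfl, rfl⟩
    rw [mul_one]; exact h1
  | succ b ih =>
    rintro z h ⟨w, h2, k, hw, he, rfl⟩
    exact ⟨w, g * h2, k, ih w h2 hw, he, (mul_assoc _ _ _).symm⟩

theorem WG_one {E : V → V → G → Prop} {x y : V} {g : G} (h : E x y g) : WG E 1 x y g :=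
  ⟨x, 1, g, ⟨rfl, rfl⟩, h, (one_mul g).symm⟩

theorem WG_map {V' : Type*} {E : V → V → G → Prop} {E' : V' → V' → G → Prop} (f : V → V')
    (hE : ∀ x y g, E x y g → E' (f x) (f y) g) : ∀ (n : ℕ) (x y : V) (g : G), WG E n x y g →
      WG E' n (f x) (f y) g := by
  intro n
  induction n with
  | zero => rintro x y g ⟨rfl, rfl⟩; exact ⟨rfl, rfl⟩
  | succ n ih =>
    rintro x y g ⟨z, h, k, hw, he, rfl⟩
    exact ⟨f z, h, k, ih x z h hw, hE _ _ _ he, rfl⟩

theorem WG_prefix {E : V → V → G → Prop} {a : ℕ} {x : V} : ∀ (b : ℕ) (y : V) (g : G),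
    WG E (a + b) x y g → ∃ z h, WG E a x z h := by
  intro b
  induction b with
  | zero => intro y g h; exact ⟨y, g, h⟩
  | succ b ih =>
    rintro y g ⟨z, h, k, hw, _, _⟩
    exact ih z h hw

theorem WG_rep {E : V → V → G → Prop} {x : V} {r : ℕ} {κ : G} (h : WG E r x x κ) (n : ℕ) :
    WG E (n * r) x x (κ ^ n) := by
  induction n with
  | zero => rw [zero_mul, pow_zero]; exact ⟨rfl, rfl⟩
  | succ n ih => rw [add_mul, one_mul, pow_succ]; exact WG_trans ih _ _ _ h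

theorem WG_expand {E E1 : V → V → G → Prop} {p q : V} {c : G} {D : ℕ}
    (h1 : ∀ x y g, E x y g → E1 x y g ∨ (x = p ∧ y = q ∧ g = c)) (h2 : WG E1 (1 + D) p q c) :
    ∀ (n : ℕ) (x y : V) (g : G), WG E n x y g → ∃ k, k ≤ n ∧ WG E1 (n + k * D) x y g := by
  intro n
  induction n with
  | zero => rintro x y g ⟨rfl, rfl⟩; exact ⟨0, le_rfl, by rw [zero_mul]; exact ⟨rfl, rfl⟩⟩
  | succ n ih =>
    rintro x y g ⟨z, h, k, hw, he, rfl⟩
    obtain ⟨m, hm, h3⟩ := ih x z h hw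
    rcases h1 z y k he with h4 | ⟨rfl, rfl, rfl⟩
    · refine ⟨m, by omega, ?_⟩
      rw [show n + 1 + m * D = n + m * D + 1 by ring]
      exact ⟨z, h, k, h3, h4, rfl⟩
    · refine ⟨m + 1, by omega, ?_⟩
      rw [show n + 1 + (m + 1) * D = n + m * D + (1 + D) by ring]
      exact WG_trans h3 _ _ _ h2

/-- Removing an edge keeps primitivity. -/
theorem REM {E E1 : V → V → G → Prop} {p q : V} {c : G} {D : ℕ}
    (h1 : ∀ x y g, E x y g → E1 x y g ∨ (x = p ∧ y = q ∧ g = c)) (h2 : WG E1 (1 + D) p q c)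
    {z : V} (h3 : WG E1 D z z 1) {N : ℕ} (hN : ∀ x y g, WG E (N + 1) x y g) :
    ∃ N', ∀ x y g, WG E1 (N' + 1) x y g := by
  refine ⟨2 * (N + 1) + 2 * (N + 1) * D - 1, ?_⟩
  intro x y g
  have hs : 2 * (N + 1) + 2 * (N + 1) * D - 1 + 1 = 2 * (N + 1) + 2 * (N + 1) * D := by omega
  rw [hs]
  obtain ⟨k1, hk1, w1⟩ := WG_expand h1 h2 _ _ _ _ (hN x z 1)
  obtain ⟨k2, hk2, w2⟩ := WG_expand h1 h2 _ _ _ _ (hN z y g)
  have w3 := WG_rep h3 (2 * (N + 1) - k1 - k2)
  rw [one_pow] at w3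
  have w4 := WG_trans (WG_trans w1 _ _ _ w3) _ _ _ w2
  rw [mul_one, one_mul] at w4
  obtain ⟨m, hm⟩ : ∃ m, 2 * (N + 1) = k1 + k2 + m := ⟨2 * (N + 1) - k1 - k2, by omega⟩
  have e1 : 2 * (N + 1) - k1 - k2 = m := by omega
  rw [e1] at w4
  have e2 : N + 1 + k1 * D + m * D + (N + 1 + k2 * D) = 2 * (N + 1) + 2 * (N + 1) * D := by
    have : 2 * (N + 1) * D = (k1 + k2 + m) * D := by rw [hm]
    rw [this]; ring
  rw [e2] at w4
  exact w4

theorem two_in [Nontrivial G] {E : V → V → G → Prop} {N : ℕ} (hN : ∀ x y g, WG E (N + 1) x y g)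
    (v0 : V) : ∃ v x1 γ1 x2 γ2, ¬ (x1 = x2 ∧ γ1 = γ2) ∧ E x1 v γ1 ∧ E x2 v γ2 := by
  by_contra hcon
  push Not at hcon
  have hu : ∀ v x1 γ1 x2 γ2, E x1 v γ1 → E x2 v γ2 → x1 = x2 ∧ γ1 = γ2 := by
    intro v x1 γ1 x2 γ2 h1 h2
    by_contra h
    exact hcon v x1 γ1 x2 γ2 (by tauto) h1 h2
  have key : ∀ (n : ℕ) (v x : V) (g : G) (x' : V) (g' : G), WG E n x v g → WG E n x' v g' →
      x = x' ∧ g = g' := by
    intro n
    induction n with
    | zero =>
      rintro v x g x' g' ⟨rfl, rfl⟩ ⟨rfl, rfl⟩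
      exact ⟨rfl, rfl⟩
    | succ n ih =>
      rintro v x g x' g' ⟨z, h, k, hw, he, rfl⟩ ⟨z', h', k', hw', he', rfl⟩
      obtain ⟨rfl, rfl⟩ := hu v z k z' k' he he'
      obtain ⟨rfl, rfl⟩ := ih z x h x' h' hw hw'
      exact ⟨rfl, rfl⟩
  obtain ⟨g, hg⟩ := exists_ne (1 : G)
  exact hg (key (N + 1) v0 v0 g v0 1 (hN _ _ _) (hN _ _ _)).2

theorem restart {E E0 : V → V → G → Prop} {x1 v : V} {γ1 : G}
    (h1 : ∀ x y g, E x y g → E0 x y g ∨ (x = x1 ∧ y = v ∧ g = γ1)) :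
    ∀ (n : ℕ) (b : V) (g : G), WG E n v b g → ∃ m h, WG E0 m v b h := by
  intro n
  induction n with
  | zero => rintro b g ⟨rfl, rfl⟩; exact ⟨0, 1, rfl, rfl⟩
  | succ n ih =>
    rintro b g ⟨z, h, k, hw, he, rfl⟩
    obtain ⟨m, h2, hm⟩ := ih z h hw
    rcases h1 z b k he with h4 | ⟨rfl, rfl, rfl⟩
    · exact ⟨m + 1, h2 * k, z, h2, k, hm, h4, rfl⟩
    · exact ⟨0, 1, rfl, rfl⟩

end wg

section ed

variable {G : Type} [Group G] [Fintype G] {V : Type*} [Fintype V] [DecidableEq V]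

/-- The edges of a matrix. -/
def ed {V : Type*} (A : Matrix V V (Lam G)) (x y : V) (g : G) : Prop := 0 < (A x y).coeff g

theorem WG_pos {A : Matrix V V (Lam G)} (hA : Pos A) : ∀ (n : ℕ) (x y : V) (g : G),
    WG (ed A) n x y g → 0 < ((A ^ n) x y).coeff g := by
  intro n
  induction n with
  | zero =>
    rintro x y g ⟨rfl, rfl⟩
    classical
    rw [pow_zero, Matrix.one_apply_eq]
    change 0 < (MonoidAlgebra.single (1 : G) 1 : Lam G).coeff 1
    rw [csingle, if_pos rfl]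
    exact one_pos
  | succ n ih =>
    rintro x y g ⟨z, h, k, hw, he, rfl⟩
    rw [pow_succ]
    exact Pos_mul_apply (Pos_pow hA n) hA (ih x z h hw) he

theorem pos_WG {A : Matrix V V (Lam G)} (hA : Pos A) : ∀ (n : ℕ) (x y : V) (g : G),
    0 < ((A ^ n) x y).coeff g → WG (ed A) n x y g := by
  intro n
  induction n with
  | zero =>
    intro x y g h
    classical
    rw [pow_zero, Matrix.one_apply] at h
    by_cases hxy : x = y
    · rw [if_pos hxy] at h
      change 0 < (MonoidAlgebra.single (1 : G) 1 : Lam G).coeff g at h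
      rw [csingle] at h
      by_cases hg : 1 = g
      · exact ⟨hxy, hg.symm⟩
      · rw [if_neg hg] at h; exact absurd h (lt_irrefl _)
    · rw [if_neg hxy, czero] at h; exact absurd h (lt_irrefl _)
  | succ n ih =>
    intro x y g h
    rw [pow_succ, Matrix.mul_apply, csum] at h
    obtain ⟨z, _, hz⟩ := exists_ne_zero_of_sum_ne_zero h.ne'
    rw [cmul] at hz
    obtain ⟨k, _, hk⟩ := exists_ne_zero_of_sum_ne_zero hz
    have n1 := lt_of_le_of_ne (Pos_pow hA n x z k) (Ne.symm (left_ne_zero_of_mul hk))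
    have n2 := lt_of_le_of_ne (hA z y (k⁻¹ * g)) (Ne.symm (right_ne_zero_of_mul hk))
    exact ⟨z, k, k⁻¹ * g, ih x z k n1, n2, (mul_inv_cancel_left k g).symm⟩

theorem GP_iff {A : Matrix V V (Lam G)} : GP A ↔ Nonempty V ∧ Pos A ∧
    ∃ k : ℕ, ∀ x y g, WG (ed A) (k + 1) x y g := by
  constructor
  · rintro ⟨h1, h2, k, h3⟩
    exact ⟨h1, h2, k, fun x y g => pos_WG h2 _ _ _ _ (lt_of_lt_of_le one_pos (h3 x y g))⟩
  · rintro ⟨h1, h2, k, h3⟩
    exact ⟨h1, h2, k, fun x y g => WG_pos h2 _ _ _ _ (h3 x y g)⟩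

theorem GP_of_supp {A B : Matrix V V (Lam G)} (hA : GP A) (hB : Pos B)
    (h : ∀ x y g, ed A x y g → ed B x y g) : GP B := by
  rw [GP_iff] at hA ⊢
  obtain ⟨h1, _, k, h3⟩ := hA
  exact ⟨h1, hB, k, fun x y g => WG_map id h _ _ _ _ (h3 x y g)⟩

theorem GP_in {A : Matrix V V (Lam G)} (hA : GP A) (y : V) : ∃ x g, ed A x y g := by
  rw [GP_iff] at hA
  obtain ⟨_, _, k, h3⟩ := hA
  obtain ⟨z, h, k', _, he, _⟩ := h3 y y 1
  exact ⟨z, k', he⟩

theorem WG_first {E : V → V → G → Prop} : ∀ (n : ℕ) (x y : V) (g : G), WG E (n + 1) x y g →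
    ∃ z k, E x z k := by
  intro n
  induction n with
  | zero =>
    rintro x y g ⟨z, h, k, ⟨rfl, rfl⟩, he, _⟩
    exact ⟨y, k, he⟩
  | succ n ih =>
    rintro x y g ⟨z, h, k, hw, _, _⟩
    exact ih x z h hw

theorem GP_out {A : Matrix V V (Lam G)} (hA : GP A) (x : V) : ∃ y g, ed A x y g := by
  rw [GP_iff] at hA
  obtain ⟨_, _, k, h3⟩ := hA
  exact WG_first k x x 1 (h3 x x 1)

theorem ne_of_ed {A : Matrix V V (Lam G)} {x y : V} {g : G} (h : ed A x y g) : A x y ≠ 0 := by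
  intro h0
  unfold ed at h
  rw [h0, czero] at h
  exact lt_irrefl _ h

theorem Big_step {H : Matrix V V (Lam G)} (hH : GP H) {K : ℤ} (hK : 0 ≤ K) {i : ℕ}
    (h : Big K (H ^ i)) : Big K (H ^ (i + 1)) := by
  intro x y g
  obtain ⟨z, k, hk⟩ := GP_out hH x
  have hP := hH.2.1
  rw [pow_succ', Matrix.mul_apply, csum]
  have s1 := single_le_sum (f := fun j => (H x j * (H ^ i) j y).coeff g)
    (fun j _ => pe_mul (hP x j) (Pos_pow hP i j y) g) (mem_univ z)
  refine le_trans ?_ s1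
  simp only [cmul]
  have s2 := single_le_sum (f := fun h => (H x z).coeff h * ((H ^ i) z y).coeff (h⁻¹ * g))
    (fun h _ => mul_nonneg (hP x z h) (Pos_pow hP i z y _)) (mem_univ k)
  refine le_trans ?_ s2
  have h1 : 1 ≤ (H x z).coeff k := hk
  have h2 := h z y (k⁻¹ * g)
  nlinarith

theorem Big_mul {H : Matrix V V (Lam G)} (hP : Pos H) {K : ℤ} (hK : 0 ≤ K) {i j : ℕ}
    (hi : Big K (H ^ i)) (hj : Big 1 (H ^ j)) : Big (K * Fintype.card G) (H ^ (i + j)) := by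
  intro x y g
  rw [pow_add, Matrix.mul_apply, csum]
  have s1 := single_le_sum (f := fun z => ((H ^ i) x z * (H ^ j) z y).coeff g)
    (fun z _ => pe_mul (Pos_pow hP i x z) (Pos_pow hP j z y) g) (mem_univ x)
  refine le_trans ?_ s1
  simp only [cmul]
  have s2 : ∑ _h : G, K ≤ ∑ h, ((H ^ i) x x).coeff h * ((H ^ j) x y).coeff (h⁻¹ * g) := by
    apply sum_le_sum
    intro h _
    have h1 := hi x x h
    have h2 := hj x y (h⁻¹ * g)
    nlinarith
  refine le_trans (le_of_eq ?_) s2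
  rw [sum_const, card_univ, nsmul_eq_mul, mul_comm]

/-- The coefficients of the powers tend to infinity. -/
theorem growth [Nontrivial G] {H : Matrix V V (Lam G)} (hH : GP H) (K : ℕ) :
    ∃ L0, ∀ i, L0 ≤ i → Big (K : ℤ) (H ^ i) := by
  obtain ⟨_, hP, N, hN⟩ := hH
  have hc : 2 ≤ Fintype.card G := Fintype.one_lt_card
  have h1 : ∀ m : ℕ, ∃ L, Big ((m : ℤ) + 1) (H ^ L) := by
    intro m
    induction m with
    | zero => exact ⟨N + 1, by simpa using hN⟩
    | succ m ih =>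
      obtain ⟨L, hL⟩ := ih
      refine ⟨L + (N + 1), ?_⟩
      intro x y g
      have h2 := Big_mul hP (by omega) hL hN x y g
      refine le_trans ?_ h2
      have h3 : (2 : ℤ) ≤ (Fintype.card G : ℤ) := by exact_mod_cast hc
      push_cast
      nlinarith
  obtain ⟨L, hL⟩ := h1 K
  have h2 : ∀ i, Big ((K : ℤ) + 1) (H ^ (L + i)) := by
    intro i
    induction i with
    | zero => exact hL
    | succ i ih => exact Big_step ⟨by assumption, hP, N, hN⟩ (by omega) ih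
  refine ⟨L, fun i hi => ?_⟩
  intro x y g
  have h3 := h2 (i - L) x y g
  rw [show L + (i - L) = i by omega] at h3
  omega

end ed

end Pool.Agent.Helper817_sse
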