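import Mathlib
import Pool.Agent.Helper817_sse.Prim

set_option autoImplicit false
set_option linter.unusedSectionVars false
set_option synthInstance.maxSize 4000

/-!
# Preparation: a removable edge, a large coefficient
-/

namespace Pool.Agent.Helper817_sse

open Matrix Finset

section rem

variable {G : Type} [Group G] [Fintype G] {V : Type} [Fintype V] [DecidableEq V]

/-- The column vector supported at one state. -/
noncomputable def av {V : Type} [DecidableEq V] {C : Type} (p : V) (c : G) (k : ℤ) : C → V → Lam G :=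
  fun _ x => if x = p then k • MonoidAlgebra.single c 1 else 0

/-- Subtract `k` times an edge. -/
noncomputable def rem (A : Matrix V V (Lam G)) (p q : V) (c : G) (k : ℤ) : Matrix V V (Lam G) :=
  Matrix.of fun x y => A x y - (if y = q then (if x = p then k • MonoidAlgebra.single c 1 else 0) else 0)

theorem av_coeff [DecidableEq G] {C : Type} (p : V) (c : G) (k : ℤ) (i : C) (x : V) (g : G) :
    (av p c k i x).coeff g = if x = p ∧ g = c then k else 0 := by
  unfold av
  by_cases h : x = p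
  · rw [if_pos h, coeff_zsmul, csingle]
    by_cases h2 : c = g
    · rw [if_pos h2, if_pos ⟨h, h2.symm⟩, mul_one]
    · rw [if_neg h2, if_neg (fun h3 => h2 h3.2.symm), mul_zero]
  · rw [if_neg h, if_neg (fun h3 => h h3.1), czero]

theorem rem_coeff [DecidableEq G] (A : Matrix V V (Lam G)) (p q : V) (c : G) (k : ℤ) (x y : V)
    (g : G) : (rem A p q c k x y).coeff g = (A x y).coeff g - if x = p ∧ y = q ∧ g = c then k else 0 := by
  unfold rem
  rw [Matrix.of_apply, csub]
  congr 1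
  have h1 := av_coeff (C := Unit) p c k () x g
  unfold av at h1
  by_cases h : y = q
  · rw [if_pos h, h1]
    simp only [h, true_and]
  · rw [if_neg h, if_neg (fun h3 => h h3.2.1), czero]

theorem T0_rem (A : Matrix V V (Lam G)) (p q : V) (c : G) (k : ℤ) :
    T0 (rem A p q c k) (av (C := Unit) p c k) q = A := by
  apply Matrix.ext; intro x y
  unfold T0 rem
  simp only [Matrix.of_apply, univ_unique, sum_singleton]
  unfold av
  rw [sub_add_cancel]

theorem pe_av {C : Type} (p : V) (c : G) {k : ℤ} (hk : 0 ≤ k) (i : C) (x : V) :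
    pe (av p c k i x) := by
  classical
  intro g
  rw [av_coeff]
  split_ifs
  · exact hk
  · exact le_rfl

theorem Pos_rem {A : Matrix V V (Lam G)} (hA : Pos A) {p q : V} {c : G} {k : ℤ}
    (h : k ≤ (A p q).coeff c) : Pos (rem A p q c k) := by
  classical
  intro x y g
  rw [rem_coeff]
  split_ifs with h1
  · obtain ⟨rfl, rfl, rfl⟩ := h1
    omega
  · rw [sub_zero]; exact hA x y g

theorem ed_rem (A : Matrix V V (Lam G)) (p q : V) (c : G) (k : ℤ) (x y : V) (g : G)
    (h : ed A x y g) : ed (rem A p q c k) x y g ∨ (x = p ∧ y = q ∧ g = c) := by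
  classical
  by_cases h1 : x = p ∧ y = q ∧ g = c
  · exact Or.inr h1
  · left
    unfold ed
    rw [rem_coeff, if_neg h1, sub_zero]
    exact h

theorem av_ne {C : Type} (p : V) (c : G) {k : ℤ} (hk : 0 < k) (i : C) :
    ∃ x, (av p c k i x : Lam G) ≠ 0 := by
  classical
  refine ⟨p, fun h => ?_⟩
  have h1 := av_coeff (C := C) p c k i p c
  rw [h, czero, if_pos ⟨rfl, rfl⟩] at h1
  omega

end rem

section chainwalk

variable {G : Type} [Group G] [Fintype G] {V C : Type} [Fintype V] [DecidableEq V] [Fintype C]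
  [DecidableEq C]
variable {H : Matrix V V (Lam G)} {a : C → V → Lam G} {v : V} {ω : ℕ → G}

theorem pw_one (i : ℕ) : pw (fun _ => (1 : G)) i = 1 := by
  induction i with
  | zero => rfl
  | succ i ih =>
    change (1 : G)⁻¹ * pw (fun _ => (1 : G)) i = 1
    rw [ih]; group

theorem exi_pos (hH : Pos H) (ha : ∀ c x, pe (a c x)) (i : ℕ) (c : C) (x : V) (g h : G)
    (h1 : 0 < (rv H v ω i x).coeff g) (h2 : 0 < (a c x).coeff h) :
    0 < (exi H a v ω i c).coeff (g * h) := by
  unfold exi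
  rw [csum]
  exact sum_pos' (fun x _ => pe_mul (rv_pe hH i x) (ha c x) _)
    ⟨x, mem_univ _, cmul_pos (rv_pe hH i x) (ha c x) h1 h2⟩

theorem rv_ne (hH : Pos H) (h : ∀ i : ℕ, ∃ z g, WG (ed H) i v z g) (i : ℕ) :
    ∃ y, rv H v ω i y ≠ 0 := by
  obtain ⟨z, g, hw⟩ := h i
  refine ⟨z, fun h0 => ?_⟩
  have h1 := WG_pos hH _ _ _ _ hw
  have h2 := rv_coeff (H := H) (v := v) (ω := ω) i z (pw ω i * g)
  rw [h0, czero, inv_mul_cancel_left] at h2
  rw [← h2] at h1
  exact lt_irrefl _ h1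

theorem Tm_chain {T : ℕ} (c : C) (i : ℕ) (hi : i + 1 < T) :
    ed (Tm H a v ω T) (Sum.inr (c, ⟨i, by omega⟩)) (Sum.inr (c, ⟨i + 1, hi⟩)) (ω i) := by
  classical
  change 0 < ((if c = c ∧ i + 1 = i + 1 then MonoidAlgebra.single (ω i) 1 else 0) +
    (if i + 1 = 0 then exi H a v ω i c else 0) : Lam G).coeff (ω i)
  rw [if_pos ⟨rfl, rfl⟩, if_neg (by omega), add_zero, csingle, if_pos rfl]
  exact one_pos

theorem Tm_exit {T : ℕ} (c d : C) (i : ℕ) (hi : i < T)
    (g : G) (h : 0 < (exi H a v ω i d).coeff g) :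
    ed (Tm H a v ω T) (Sum.inr (c, ⟨i, hi⟩)) (Sum.inr (d, ⟨0, by omega⟩)) g := by
  classical
  change 0 < ((if d = c ∧ 0 = i + 1 then MonoidAlgebra.single (ω i) 1 else 0) +
    (if 0 = 0 then exi H a v ω i d else 0) : Lam G).coeff g
  rw [if_neg (by omega), if_pos rfl, zero_add]
  exact h

end chainwalk

section lemma1

variable {G : Type} [Group G] [Fintype G] [Nontrivial G]

/-- Every `G`-primitive matrix is equivalent to one with a removable edge. -/
theorem removable {V : Type} [Fintype V] [DecidableEq V] (A : Matrix V V (Lam G)) (hA : GP A) :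
    ∃ (W : Type) (_ : Fintype W) (_ : DecidableEq W) (H : Matrix W W (Lam G)) (p q : W) (c : G),
      GP H ∧ GP (T0 H (av (C := Unit) p c 1) q) ∧ PZ A (T0 H (av (C := Unit) p c 1) q) := by
  classical
  obtain ⟨⟨v0⟩, hP, N, hN⟩ := GP_iff.mp hA
  obtain ⟨v, x1, γ1, x2, γ2, hne, he1, he2⟩ := two_in hN v0
  set H0 := rem A x1 v γ1 1 with hH0
  have hP0 : Pos H0 := Pos_rem hP he1
  have hed := ed_rem A x1 v γ1 1
  rw [← hH0] at hed
  have he2' : ed H0 x2 v γ2 := by
    rcases hed x2 v γ2 he2 with h | ⟨h3, _, h4⟩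
    · exact h
    · exact absurd ⟨h3.symm, h4.symm⟩ hne
  -- walks in H0
  obtain ⟨m0, w0, hw0⟩ := restart hed _ _ _ (hN v x1 1)
  obtain ⟨m2, h2, hw2⟩ := restart hed _ _ _ (hN v x2 1)
  have hcl : WG (ed H0) (m2 + 1) v v (h2 * γ2) := WG_trans hw2 _ _ _ (WG_one he2')
  have hD := WG_rep hcl (Fintype.card G)
  rw [pow_card_eq_one] at hD
  obtain ⟨D, hD1, hDw⟩ : ∃ D, 1 ≤ D ∧ WG (ed H0) D v v (1 : G) :=
    ⟨_, Nat.mul_pos Fintype.card_pos (Nat.succ_pos m2), hD⟩
  have hout : ∀ i : ℕ, ∃ z g, WG (ed H0) i v z g := by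
    intro i
    have h3 := WG_rep hDw i
    obtain ⟨m, hm⟩ : ∃ m, i * D = i + m := ⟨i * D - i, by
      have : i * 1 ≤ i * D := Nat.mul_le_mul_left i hD1
      omega⟩
    rw [hm] at h3
    exact WG_prefix m v _ h3
  have hcol : ∀ y, ∃ x, H0 x y ≠ 0 := by
    intro y
    obtain ⟨x, g, hx⟩ := GP_in hA y
    rcases hed x y g hx with h | ⟨_, rfl, _⟩
    · exact ⟨x, ne_of_ed h⟩
    · exact ⟨x2, ne_of_ed he2'⟩
  have hT0 : T0 H0 (av (C := Unit) x1 γ1 1) v = A := T0_rem A x1 v γ1 1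
  have hav : ∀ (c : Unit) (x : V), pe (av (C := Unit) x1 γ1 1 c x) := fun c x => pe_av x1 γ1 zero_le_one c x
  set A' := Tm H0 (av (C := Unit) x1 γ1 1) v (fun _ => (1 : G)) (m0 + D + 1) with hA'
  have hPZ : PZ A A' := by
    have := PZ_Tm (v := v) (ω := fun _ => (1 : G)) hP0 hav (m0 + D)
    rw [hT0] at this
    exact this
  have hGP' : GP A' := GP_Tm hP0 hav (by rw [hT0]; exact hA) hcol (rv_ne hP0 hout)
    (av_ne x1 γ1 one_pos) (m0 + D)
  set p : V ⊕ (Unit × Fin (m0 + D + 1)) := Sum.inr ((), ⟨m0, by omega⟩) with hp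
  set q : V ⊕ (Unit × Fin (m0 + D + 1)) := Sum.inr ((), ⟨0, by omega⟩) with hq
  have hrv : ∀ i g, WG (ed H0) i v x1 g → 0 < (rv H0 v (fun _ => (1 : G)) i x1).coeff g := by
    intro i g hw
    rw [rv_coeff, pw_one, inv_one, one_mul]
    exact WG_pos hP0 _ _ _ _ hw
  have hav1 : 0 < (av (C := Unit) x1 γ1 1 () x1 : Lam G).coeff γ1 := by
    rw [av_coeff, if_pos ⟨rfl, rfl⟩]; exact one_pos
  have hex : ∀ i g, WG (ed H0) i v x1 g →
      0 < (exi H0 (av (C := Unit) x1 γ1 1) v (fun _ => (1 : G)) i ()).coeff (g * γ1) :=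
    fun i g hw => exi_pos hP0 hav i () x1 g γ1 (hrv i g hw) hav1
  have hepq : ed A' p q (w0 * γ1) := Tm_exit () () m0 (by omega) _ (hex m0 w0 hw0)
  set H1 := rem A' p q (w0 * γ1) 1 with hH1
  have hP1 : Pos H1 := Pos_rem hGP'.2.1 hepq
  have hed1 := ed_rem A' p q (w0 * γ1) 1
  rw [← hH1] at hed1
  -- the walk along the chain
  have hchain : ∀ k (hk : k ≤ D), WG (ed H1) k p (Sum.inr ((), ⟨m0 + k, by omega⟩)) 1 := by
    intro k
    induction k with
    | zero => intro _; exact ⟨rfl, rfl⟩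
    | succ k ih =>
      intro hk
      refine ⟨_, 1, 1, ih (by omega), ?_, (one_mul 1).symm⟩
      rcases hed1 _ _ _ (Tm_chain (H := H0) (a := av (C := Unit) x1 γ1 1) (v := v) (ω := fun _ => (1 : G)) (T := m0 + D + 1) ()
        (m0 + k) (by omega)) with h | ⟨_, h3, _⟩
      · exact h
      · exfalso
        have h4 := Sum.inr_injective h3
        have h5 := congrArg (fun z : Unit × Fin (m0 + D + 1) => z.2.val) h4
        simp only at h5
        omega
  have hlast : ed H1 (Sum.inr ((), ⟨m0 + D, by omega⟩)) q (w0 * γ1) := by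
    have h5 : WG (ed H0) (D + m0) v x1 (1 * w0) := WG_trans hDw _ _ _ hw0
    rw [one_mul, add_comm] at h5
    rcases hed1 _ _ _ (Tm_exit (H := H0) (a := av (C := Unit) x1 γ1 1) (v := v) (ω := fun _ => (1 : G)) (T := m0 + D + 1) () ()
      (m0 + D) (by omega) _ (hex _ _ h5)) with h | ⟨h3, _, _⟩
    · exact h
    · exfalso
      have h4 := Sum.inr_injective h3
      have h6 := congrArg (fun z : Unit × Fin (m0 + D + 1) => z.2.val) h4
      simp only at h6
      omega
  have hback : WG (ed H1) (1 + D) p q (w0 * γ1) := by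
    have := WG_trans (hchain D le_rfl) _ _ _ (WG_one hlast)
    rw [one_mul] at this
    rw [show 1 + D = D + 1 by omega]
    exact this
  have hclosed : WG (ed H1) D (Sum.inl v) (Sum.inl v) 1 := by
    refine WG_map Sum.inl ?_ D v v 1 hDw
    intro x y g hxy
    have h6 : ed A' (Sum.inl x) (Sum.inl y) g := hxy
    rcases hed1 _ _ _ h6 with h | ⟨h3, _, _⟩
    · exact h
    · exact absurd h3 Sum.inl_ne_inr
  obtain ⟨_, _, N1, hN1⟩ := GP_iff.mp hGP'
  obtain ⟨N', hN'⟩ := REM hed1 hback hclosed hN1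
  have hGP1 : GP H1 := GP_iff.mpr ⟨⟨Sum.inl v⟩, hP1, N', hN'⟩
  have hT1 : T0 H1 (av (C := Unit) p (w0 * γ1) 1) q = A' := T0_rem A' p q (w0 * γ1) 1
  refine ⟨V ⊕ (Unit × Fin (m0 + D + 1)), inferInstance, inferInstance, H1, p, q, w0 * γ1, hGP1, ?_, ?_⟩
  · rw [hT1]; exact hGP'
  · rw [hT1]; exact hPZ

theorem T0_av {W : Type} [Fintype W] [DecidableEq W] {C : Type} [Fintype C] (H : Matrix W W (Lam G))
    (p q : W) (c : G) (k : ℤ) : T0 H (av (C := C) p c k) q =
      T0 H (av (C := Unit) p c (Fintype.card C * k)) q := by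
  apply Matrix.ext; intro x y
  unfold T0 av
  simp only [Matrix.of_apply, sum_const, card_univ, Fintype.card_unit, one_smul]
  congr 1
  split_ifs
  · rw [mul_smul, natCast_zsmul]
  · rw [smul_zero]
  · rfl

/-- Every `G`-primitive matrix is equivalent to one with a large coefficient, which can be
diminished. -/
theorem prep {V : Type} [Fintype V] [DecidableEq V] (A : Matrix V V (Lam G)) (hA : GP A) :
    ∃ (W : Type) (_ : Fintype W) (_ : DecidableEq W) (H : Matrix W W (Lam G)) (p q : W) (c : G),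
      GP H ∧ GP (T0 H (av (C := Unit) p c 4) q) ∧ PZ A (T0 H (av (C := Unit) p c 4) q) := by
  classical
  obtain ⟨W, _, _, H, p, q, c, h1, h2, h3⟩ := removable A hA
  obtain ⟨L0, hL0⟩ := growth h1 5
  have hav : ∀ (i : Unit) (x : W), pe (av (C := Unit) p c 1 i x) := fun i x => pe_av p c zero_le_one i x
  set A' := Tm H (av (C := Unit) p c 1) q (fun _ => (1 : G)) (L0 + 1) with hA'
  have hPZ : PZ (T0 H (av (C := Unit) p c 1) q) A' := PZ_Tm h1.2.1 hav L0
  have hrv : ∀ (i : ℕ), ∃ y, rv H q (fun _ => (1 : G)) i y ≠ 0 := by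
    apply rv_ne h1.2.1
    intro i
    obtain ⟨_, _, N, hN⟩ := GP_iff.mp h1
    have h4 := WG_rep (hN q q 1) i
    obtain ⟨m, hm⟩ : ∃ m, i * (N + 1) = i + m := ⟨i * (N + 1) - i, by
      have : i * 1 ≤ i * (N + 1) := Nat.mul_le_mul_left i (by omega)
      omega⟩
    rw [hm] at h4
    exact WG_prefix m q _ h4
  have hGP' : GP A' := GP_Tm h1.2.1 hav h2 (fun y => by
    obtain ⟨x, g, hx⟩ := GP_in h1 y
    exact ⟨x, ne_of_ed hx⟩) hrv (av_ne p c one_pos) L0
  set p' : W ⊕ (Unit × Fin (L0 + 1)) := Sum.inr ((), ⟨L0, by omega⟩) with hp'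
  set q' : W ⊕ (Unit × Fin (L0 + 1)) := Sum.inr ((), ⟨0, by omega⟩) with hq'
  have hbig : 5 ≤ (A' p' q').coeff c := by
    change 5 ≤ ((if () = () ∧ 0 = L0 + 1 then MonoidAlgebra.single (1 : G) 1 else 0) +
      (if 0 = 0 then exi H (av (C := Unit) p c 1) q (fun _ => (1 : G)) L0 () else 0) : Lam G).coeff c
    rw [if_neg (by omega), if_pos rfl, zero_add]
    unfold exi
    rw [csum]
    have s1 := single_le_sum (f := fun x => (rv H q (fun _ => (1 : G)) L0 x *
      av (C := Unit) p c 1 () x).coeff c)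
      (fun x _ => pe_mul (rv_pe h1.2.1 L0 x) (hav () x) c) (mem_univ p)
    refine le_trans ?_ s1
    have e1 : (av (C := Unit) p c 1 () p : Lam G) = MonoidAlgebra.single c 1 := by
      unfold av
      rw [if_pos rfl, one_smul]
    simp only [e1]
    rw [cms, mul_inv_cancel, rv_coeff, pw_one]
    exact hL0 L0 le_rfl q p _
  set H2 := rem A' p' q' c 4 with hH2
  have hP2 : Pos H2 := Pos_rem hGP'.2.1 (by omega)
  have hGP2 : GP H2 := by
    apply GP_of_supp hGP' hP2
    intro x y g hxy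
    rcases ed_rem A' p' q' c 4 x y g hxy with h | ⟨rfl, rfl, rfl⟩
    · exact h
    · unfold ed
      rw [hH2, rem_coeff, if_pos ⟨rfl, rfl, rfl⟩]
      omega
  have hT2 : T0 H2 (av (C := Unit) p' c 4) q' = A' := T0_rem A' p' q' c 4
  refine ⟨W ⊕ (Unit × Fin (L0 + 1)), inferInstance, inferInstance, H2, p', q', c, hGP2, ?_, ?_⟩
  · rw [hT2]; exact hGP'
  · rw [hT2]; exact h3.trans hPZ

end lemma1

end Pool.Agent.Helper817_sse
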