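import Mathlib
import Pool.Agent.Helper817_sse.Prep

set_option autoImplicit false
set_option linter.unusedSectionVars false
set_option synthInstance.maxSize 4000

/-!
# Insertion of a gadget
-/

namespace Pool.Agent.Helper817_sse

open Matrix Finset

section basis

variable {G : Type} [Group G] [Fintype G] {V : Type} [Fintype V] [DecidableEq V] {T : ℕ}

theorem fin2 (f : Fin 2) : f = 0 ∨ f = 1 := by fin_cases f <;> simp

/-- The states of the realization. -/
abbrev IB (V : Type) (T : ℕ) : Type := V ⊕ ((Fin 2 × Fin 2) × Fin T)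

/-- The states of the triangular form. -/
abbrev IM (V : Type) (T : ℕ) : Type := (V ⊕ (Fin 2 × Fin T)) ⊕ (Fin 2 × Fin T)

/-- The change of basis. -/
noncomputable def Uu (G : Type) [Group G] (V : Type) [DecidableEq V] (T : ℕ) : Matrix (IM V T) (IB V T) (Lam G) :=
  Matrix.of fun k z => match k with
    | Sum.inl (Sum.inl x) => if z = Sum.inl x then 1 else 0
    | Sum.inl (Sum.inr y) => if z = Sum.inr ((y.1, 1), y.2) then 1 else 0
    | Sum.inr y => (if z = Sum.inr ((y.1, 0), y.2) then 1 else 0) -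
        (if z = Sum.inr ((y.1, 1), y.2) then 1 else 0)

/-- Its inverse. -/
noncomputable def Ui (G : Type) [Group G] (V : Type) [DecidableEq V] (T : ℕ) : Matrix (IB V T) (IM V T) (Lam G) :=
  Matrix.of fun z k => match z with
    | Sum.inl x => if k = Sum.inl (Sum.inl x) then 1 else 0
    | Sum.inr y => (if k = Sum.inl (Sum.inr (y.1.1, y.2)) then 1 else 0) +
        (if y.1.2 = 0 then (if k = Sum.inr (y.1.1, y.2) then 1 else 0) else 0)

theorem Uu_mul {β : Type} (N : Matrix (IB V T) β (Lam G)) (k : IM V T) (w : β) :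
    (Uu G V T * N) k w = match k with
      | Sum.inl (Sum.inl x) => N (Sum.inl x) w
      | Sum.inl (Sum.inr y) => N (Sum.inr ((y.1, 1), y.2)) w
      | Sum.inr y => N (Sum.inr ((y.1, 0), y.2)) w - N (Sum.inr ((y.1, 1), y.2)) w := by
  rw [Matrix.mul_apply]
  rcases k with (x | y) | y
  · change ∑ z, (if z = Sum.inl x then (1 : Lam G) else 0) * N z w = N (Sum.inl x) w
    simp only [ite_mul, one_mul, zero_mul, sum_ite_eq', mem_univ, if_true]
  · change ∑ z, (if z = Sum.inr ((y.1, 1), y.2) then (1 : Lam G) else 0) * N z w =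
      N (Sum.inr ((y.1, 1), y.2)) w
    simp only [ite_mul, one_mul, zero_mul, sum_ite_eq', mem_univ, if_true]
  · change ∑ z, ((if z = Sum.inr ((y.1, 0), y.2) then (1 : Lam G) else 0) -
      (if z = Sum.inr ((y.1, 1), y.2) then 1 else 0)) * N z w = _
    simp only [sub_mul, sum_sub_distrib, ite_mul, one_mul, zero_mul, sum_ite_eq', mem_univ, if_true]

theorem Ui_mul {β : Type} (N : Matrix (IM V T) β (Lam G)) (z : IB V T) (w : β) :
    (Ui G V T * N) z w = match z with
      | Sum.inl x => N (Sum.inl (Sum.inl x)) w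
      | Sum.inr y => N (Sum.inl (Sum.inr (y.1.1, y.2))) w +
          (if y.1.2 = 0 then N (Sum.inr (y.1.1, y.2)) w else 0) := by
  rw [Matrix.mul_apply]
  rcases z with x | y
  · change ∑ k, (if k = Sum.inl (Sum.inl x) then (1 : Lam G) else 0) * N k w = N (Sum.inl (Sum.inl x)) w
    simp only [ite_mul, one_mul, zero_mul, sum_ite_eq', mem_univ, if_true]
  · change ∑ k, ((if k = Sum.inl (Sum.inr (y.1.1, y.2)) then (1 : Lam G) else 0) +
        (if y.1.2 = 0 then (if k = Sum.inr (y.1.1, y.2) then 1 else 0) else 0)) * N k w = _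
    simp only [add_mul, sum_add_distrib, ite_mul, one_mul, zero_mul, sum_ite_eq', mem_univ, if_true]
    congr 1
    split_ifs
    · simp only [sum_ite_eq', mem_univ, if_true]
    · rw [sum_const_zero]

theorem Uu_Ui : Uu G V T * Ui G V T = (1 : Matrix (IM V T) (IM V T) (Lam G)) := by
  apply Matrix.ext; intro k l
  rw [Uu_mul]
  rcases k with (x | y) | y
  · change (if l = Sum.inl (Sum.inl x) then (1 : Lam G) else 0) = _
    rw [Matrix.one_apply]
    simp only [eq_comm]
  · change ((if l = Sum.inl (Sum.inr (y.1, y.2)) then (1 : Lam G) else 0) +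
        (if (1 : Fin 2) = 0 then (if l = Sum.inr (y.1, y.2) then 1 else 0) else 0)) = _
    rw [Matrix.one_apply, if_neg (by decide : ¬ (1 : Fin 2) = 0), add_zero]
    simp only [eq_comm]
  · change ((if l = Sum.inl (Sum.inr (y.1, y.2)) then (1 : Lam G) else 0) +
        (if (0 : Fin 2) = 0 then (if l = Sum.inr (y.1, y.2) then 1 else 0) else 0)) -
        ((if l = Sum.inl (Sum.inr (y.1, y.2)) then (1 : Lam G) else 0) +
        (if (1 : Fin 2) = 0 then (if l = Sum.inr (y.1, y.2) then 1 else 0) else 0)) = _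
    rw [Matrix.one_apply, if_neg (by decide : ¬ (1 : Fin 2) = 0), if_pos rfl, add_zero,
      add_sub_cancel_left]
    simp only [eq_comm]

theorem Ui_Uu : Ui G V T * Uu G V T = (1 : Matrix (IB V T) (IB V T) (Lam G)) := by
  apply Matrix.ext; intro z w
  rw [Ui_mul]
  rcases z with x | ⟨⟨b, f⟩, j⟩
  · change (if w = Sum.inl x then (1 : Lam G) else 0) = _
    rw [Matrix.one_apply]
    simp only [eq_comm]
  · change (if w = Sum.inr ((b, 1), j) then (1 : Lam G) else 0) +
      (if f = 0 then ((if w = Sum.inr ((b, 0), j) then (1 : Lam G) else 0) -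
        (if w = Sum.inr ((b, 1), j) then 1 else 0)) else 0) = _
    rw [Matrix.one_apply]
    rcases fin2 f with rfl | rfl
    · rw [if_pos rfl, add_sub_cancel]
      simp only [eq_comm]
    · rw [if_neg (by decide : ¬ (1 : Fin 2) = 0), add_zero]
      simp only [eq_comm]

theorem inr_iff (b e f : Fin 2) (j : Fin T) (y : Fin 2 × Fin T) :
    ((Sum.inr ((b, f), j) : IB V T) = Sum.inr ((y.1, e), y.2)) ↔ ((b, j) = y ∧ f = e) := by
  obtain ⟨y1, y2⟩ := y
  simp only [Sum.inr.injEq, Prod.mk.injEq]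
  tauto

theorem mul_Uu_l {β : Type} (N : Matrix β (IM V T) (Lam G)) (x : β) (y : V) :
    (N * Uu G V T) x (Sum.inl y) = N x (Sum.inl (Sum.inl y)) := by
  rw [Matrix.mul_apply, Fintype.sum_sum_type, Fintype.sum_sum_type]
  have h1 : ∀ k : V, N x (Sum.inl (Sum.inl k)) * Uu G V T (Sum.inl (Sum.inl k)) (Sum.inl y) =
      if y = k then N x (Sum.inl (Sum.inl k)) else 0 := by
    intro k
    change _ * (if (Sum.inl y : IB V T) = Sum.inl k then (1 : Lam G) else 0) = _
    simp only [Sum.inl.injEq, mul_ite, mul_one, mul_zero]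
  have h2 : ∀ k : Fin 2 × Fin T, N x (Sum.inl (Sum.inr k)) *
      Uu G V T (Sum.inl (Sum.inr k)) (Sum.inl y) = 0 := by
    intro k
    change _ * (if (Sum.inl y : IB V T) = Sum.inr ((k.1, 1), k.2) then (1 : Lam G) else 0) = _
    rw [if_neg Sum.inl_ne_inr, mul_zero]
  have h3 : ∀ k : Fin 2 × Fin T, N x (Sum.inr k) * Uu G V T (Sum.inr k) (Sum.inl y) = 0 := by
    intro k
    change _ * ((if (Sum.inl y : IB V T) = Sum.inr ((k.1, 0), k.2) then (1 : Lam G) else 0) -
      (if (Sum.inl y : IB V T) = Sum.inr ((k.1, 1), k.2) then (1 : Lam G) else 0)) = _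
    rw [if_neg Sum.inl_ne_inr, if_neg Sum.inl_ne_inr, sub_zero, mul_zero]
  rw [sum_congr rfl (fun k _ => h1 k), sum_congr rfl (fun k _ => h2 k),
    sum_congr rfl (fun k _ => h3 k), sum_const_zero, add_zero, add_zero, sum_ite_eq,
    if_pos (mem_univ _)]

theorem mul_Uu_r {β : Type} (N : Matrix β (IM V T) (Lam G)) (x : β) (b f : Fin 2) (j : Fin T) :
    (N * Uu G V T) x (Sum.inr ((b, f), j)) = (if f = 1 then N x (Sum.inl (Sum.inr (b, j))) else 0) +
      ((if f = 0 then N x (Sum.inr (b, j)) else 0) - (if f = 1 then N x (Sum.inr (b, j)) else 0)) := by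
  rw [Matrix.mul_apply, Fintype.sum_sum_type, Fintype.sum_sum_type]
  have h1 : ∀ k : V, N x (Sum.inl (Sum.inl k)) *
      Uu G V T (Sum.inl (Sum.inl k)) (Sum.inr ((b, f), j)) = 0 := by
    intro k
    change _ * (if (Sum.inr ((b, f), j) : IB V T) = Sum.inl k then (1 : Lam G) else 0) = _
    rw [if_neg Sum.inr_ne_inl, mul_zero]
  have h2 : ∀ k : Fin 2 × Fin T, N x (Sum.inl (Sum.inr k)) *
      Uu G V T (Sum.inl (Sum.inr k)) (Sum.inr ((b, f), j)) =
      if (b, j) = k then (if f = 1 then N x (Sum.inl (Sum.inr k)) else 0) else 0 := by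
    intro k
    change _ * (if (Sum.inr ((b, f), j) : IB V T) = Sum.inr ((k.1, 1), k.2) then (1 : Lam G) else 0) = _
    simp only [inr_iff, ite_and, mul_ite, mul_one, mul_zero]
  have h3 : ∀ k : Fin 2 × Fin T, N x (Sum.inr k) * Uu G V T (Sum.inr k) (Sum.inr ((b, f), j)) =
      if (b, j) = k then ((if f = 0 then N x (Sum.inr k) else 0) -
        (if f = 1 then N x (Sum.inr k) else 0)) else 0 := by
    intro k
    change _ * ((if (Sum.inr ((b, f), j) : IB V T) = Sum.inr ((k.1, 0), k.2) then (1 : Lam G) else 0) -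
      (if (Sum.inr ((b, f), j) : IB V T) = Sum.inr ((k.1, 1), k.2) then (1 : Lam G) else 0)) = _
    simp only [inr_iff, ite_and, mul_sub, mul_ite, mul_one, mul_zero]
    by_cases h : (b, j) = k
    · rw [if_pos h, if_pos h, if_pos h]
    · rw [if_neg h, if_neg h, if_neg h, sub_zero]
  rw [sum_congr rfl (fun k _ => h1 k), sum_congr rfl (fun k _ => h2 k),
    sum_congr rfl (fun k _ => h3 k), sum_const_zero, sum_ite_eq, sum_ite_eq,
    if_pos (mem_univ _), if_pos (mem_univ _), zero_add]

end basis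

section build

variable {G : Type} [Group G] [Fintype G] {V : Type} [Fintype V] [DecidableEq V] {T : ℕ}
variable (H : Matrix V V (Lam G)) (x0 v : V) (c : G) (ω : ℕ → G) (ww : ℕ → Fin 2 → Fin 2 → Lam G)

/-- The gadget with general weights. -/
noncomputable def Gg (T : ℕ) : Matrix (Fin 2 × Fin T) (Fin 2 × Fin T) (Lam G) :=
  Matrix.of fun x y =>
    (if y.1 = x.1 ∧ y.2.val = x.2.val + 1 then MonoidAlgebra.single (ω x.2.val) 1 else 0) +
    (if y.2.val = 0 then ww x.2.val x.1 y.1 else 0)

/-- The perturbation. -/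
noncomputable def Del (V : Type) (T : ℕ) : Matrix (IB V T) (IB V T) (Lam G) :=
  Matrix.fromBlocks 0 0 0 (Matrix.of fun x y => if x.1.2 = 0 ∧ y.2.val = 0 then
    (if y.1.2 = 0 then ww x.2.val x.1.1 y.1.1 else - ww x.2.val x.1.1 y.1.1) else 0)

/-- The realization. -/
noncomputable def BB (T : ℕ) : Matrix (IB V T) (IB V T) (Lam G) :=
  Tm H (av (C := Fin 2 × Fin 2) x0 c 1) v ω T + Del ww V T

/-- The matrix with two chains. -/
noncomputable def At (T : ℕ) : Matrix (V ⊕ (Fin 2 × Fin T)) (V ⊕ (Fin 2 × Fin T)) (Lam G) :=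
  Tm H (av (C := Fin 2) x0 c 2) v ω T

/-- The connection. -/
noncomputable def Yt (T : ℕ) : Matrix (V ⊕ (Fin 2 × Fin T)) (Fin 2 × Fin T) (Lam G) :=
  Matrix.of fun k d => match k with
    | Sum.inl x => if d.2.val = 0 then av (C := Fin 2) x0 c 1 d.1 x else 0
    | Sum.inr y => if d.2.val = 0 then exi H (av (C := Fin 2) x0 c 1) v ω y.2.val d.1 else 0

/-- The triangular form. -/
noncomputable def MN (T : ℕ) : Matrix (IM V T) (IM V T) (Lam G) :=
  Matrix.fromBlocks (At H x0 v c ω T) (Yt H x0 v c ω T) 0 (Gg ω ww T)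

theorem av_two {C D : Type} (i : C) (j : D) (x : V) :
    av (G := G) x0 c 2 i x = av x0 c 1 j x + av x0 c 1 j x := by
  unfold av
  split_ifs
  · rw [← add_smul]; rfl
  · rw [add_zero]

theorem exi_two (i : ℕ) (d e : Fin 2) (f : Fin 2 × Fin 2) :
    exi H (av (C := Fin 2) x0 c 2) v ω i d = exi H (av (C := Fin 2) x0 c 1) v ω i e +
      exi H (av (C := Fin 2 × Fin 2) x0 c 1) v ω i f := by
  unfold exi
  rw [← sum_add_distrib]
  apply sum_congr rfl; intro x _
  rw [← mul_add]
  congr 1
  exact av_two x0 c d e x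

theorem exi_one (i : ℕ) (e : Fin 2) (f : Fin 2 × Fin 2) :
    exi H (av (C := Fin 2 × Fin 2) x0 c 1) v ω i f = exi H (av (C := Fin 2) x0 c 1) v ω i e := rfl

theorem U_BB : Uu G V T * BB H x0 v c ω ww T = MN H x0 v c ω ww T * Uu G V T := by
  apply Matrix.ext; intro k z
  rw [Uu_mul]
  have n10 : ¬ (1 : Fin 2) = 0 := by decide
  have n01 : ¬ (0 : Fin 2) = 1 := by decide
  rcases z with y | ⟨⟨b, f⟩, j⟩
  · rw [mul_Uu_l]
    rcases k with (x | d) | d
    · change H x y + 0 = H x y
      rw [add_zero]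
    · change (if d.2.val + 1 = T then ∑ x, rv H v ω d.2.val x * H x y else 0) + 0 =
        (if d.2.val + 1 = T then ∑ x, rv H v ω d.2.val x * H x y else 0)
      rw [add_zero]
    · change ((if d.2.val + 1 = T then ∑ x, rv H v ω d.2.val x * H x y else 0) + 0) -
        ((if d.2.val + 1 = T then ∑ x, rv H v ω d.2.val x * H x y else 0) + 0) = 0
      rw [sub_self]
  · rw [mul_Uu_r]
    rcases k with (x | d) | d
    · change (if j.val = 0 then av (C := Fin 2 × Fin 2) x0 c 1 (b, f) x else 0) + 0 =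
        (if f = 1 then (if j.val = 0 then av (C := Fin 2) x0 c 2 b x else 0) else 0) +
        ((if f = 0 then (if j.val = 0 then av (C := Fin 2) x0 c 1 b x else 0) else 0) -
        (if f = 1 then (if j.val = 0 then av (C := Fin 2) x0 c 1 b x else 0) else 0))
      rw [av_two x0 c b (b, f) x]
      have e : av (G := G) (C := Fin 2) x0 c 1 b x = av (C := Fin 2 × Fin 2) x0 c 1 (b, f) x := rfl
      rw [e]
      rcases fin2 f with rfl | rfl
      · rw [if_neg n01, if_neg n01, if_pos rfl]; simp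
      · rw [if_neg n10, if_pos rfl, if_pos rfl]
        split_ifs <;> simp
    · change ((if (b, f) = (d.1, (1 : Fin 2)) ∧ j.val = d.2.val + 1 then
          MonoidAlgebra.single (ω d.2.val) 1 else 0) +
        (if j.val = 0 then exi H (av (C := Fin 2 × Fin 2) x0 c 1) v ω d.2.val (b, f) else 0)) +
        (if (1 : Fin 2) = 0 ∧ j.val = 0 then
          (if f = 0 then ww d.2.val d.1 b else - ww d.2.val d.1 b) else 0) =
        (if f = 1 then ((if b = d.1 ∧ j.val = d.2.val + 1 then MonoidAlgebra.single (ω d.2.val) 1 else 0) +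
          (if j.val = 0 then exi H (av (C := Fin 2) x0 c 2) v ω d.2.val b else 0)) else 0) +
        ((if f = 0 then (if j.val = 0 then exi H (av (C := Fin 2) x0 c 1) v ω d.2.val b else 0) else 0) -
        (if f = 1 then (if j.val = 0 then exi H (av (C := Fin 2) x0 c 1) v ω d.2.val b else 0) else 0))
      rw [exi_two H x0 v c ω d.2.val b b (b, f), exi_one H x0 v c ω d.2.val b (b, f)]
      have a1 : ¬ ((1 : Fin 2) = 0 ∧ j.val = 0) := fun h => n10 h.1
      rw [if_neg a1, add_zero]
      rcases fin2 f with rfl | rfl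
      · have a2 : ¬ ((b, (0 : Fin 2)) = (d.1, (1 : Fin 2)) ∧ j.val = d.2.val + 1) := by
          rintro ⟨h, _⟩
          exact n01 (congrArg Prod.snd h)
        rw [if_neg n01, if_neg n01, if_pos rfl, if_neg a2]
        abel
      · rw [if_neg n10, if_pos rfl, if_pos rfl]
        simp only [Prod.mk.injEq, and_true]
        split_ifs <;> abel
    · change (((if (b, f) = (d.1, (0 : Fin 2)) ∧ j.val = d.2.val + 1 then
          MonoidAlgebra.single (ω d.2.val) 1 else 0) +
        (if j.val = 0 then exi H (av (C := Fin 2 × Fin 2) x0 c 1) v ω d.2.val (b, f) else 0)) +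
        (if (0 : Fin 2) = 0 ∧ j.val = 0 then
          (if f = 0 then ww d.2.val d.1 b else - ww d.2.val d.1 b) else 0)) -
        (((if (b, f) = (d.1, (1 : Fin 2)) ∧ j.val = d.2.val + 1 then
          MonoidAlgebra.single (ω d.2.val) 1 else 0) +
        (if j.val = 0 then exi H (av (C := Fin 2 × Fin 2) x0 c 1) v ω d.2.val (b, f) else 0)) +
        (if (1 : Fin 2) = 0 ∧ j.val = 0 then
          (if f = 0 then ww d.2.val d.1 b else - ww d.2.val d.1 b) else 0)) =
        (if f = 1 then (0 : Lam G) else 0) +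
        ((if f = 0 then ((if b = d.1 ∧ j.val = d.2.val + 1 then
          MonoidAlgebra.single (ω d.2.val) 1 else 0) +
          (if j.val = 0 then ww d.2.val d.1 b else 0)) else 0) -
        (if f = 1 then ((if b = d.1 ∧ j.val = d.2.val + 1 then
          MonoidAlgebra.single (ω d.2.val) 1 else 0) +
          (if j.val = 0 then ww d.2.val d.1 b else 0)) else 0))
      rw [ite_self, zero_add]
      have a1 : ¬ ((1 : Fin 2) = 0 ∧ j.val = 0) := fun h => n10 h.1
      rw [if_neg a1, add_zero]
      simp only [true_and]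
      rcases fin2 f with rfl | rfl
      · have a2 : ¬ ((b, (0 : Fin 2)) = (d.1, (1 : Fin 2)) ∧ j.val = d.2.val + 1) := by
          rintro ⟨h, _⟩
          exact n01 (congrArg Prod.snd h)
        rw [if_neg a2]
        simp only [Prod.mk.injEq, and_true, if_true, if_neg n01, zero_add, sub_zero]
        abel
      · have a2 : ¬ ((b, (1 : Fin 2)) = (d.1, (0 : Fin 2)) ∧ j.val = d.2.val + 1) := by
          rintro ⟨h, _⟩
          exact n10 (congrArg Prod.snd h)
        rw [if_neg a2]
        simp only [Prod.mk.injEq, and_true, if_true, if_neg n10, zero_add, zero_sub]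
        split_ifs <;> abel

theorem BB_eq : BB H x0 v c ω ww T = Ui G V T * (MN H x0 v c ω ww T * Uu G V T) := by
  rw [← U_BB, ← Matrix.mul_assoc, Ui_Uu, Matrix.one_mul]

theorem SZ_BB : SZ (BB H x0 v c ω ww T) (MN H x0 v c ω ww T) := by
  apply SZ_of_mul (Ui G V T) (MN H x0 v c ω ww T * Uu G V T)
  · exact BB_eq H x0 v c ω ww
  · rw [Matrix.mul_assoc, Uu_Ui, Matrix.mul_one]

end build

end Pool.Agent.Helper817_sse
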