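import Mathlib
import Pool.Agent.Helper817_sse.Build

set_option autoImplicit false
set_option linter.unusedSectionVars false
set_option synthInstance.maxSize 4000

/-!
# Potentials of the realization
-/

namespace Pool.Agent.Helper817_sse

open Matrix Finset

section supp

variable {G : Type} [Group G] [Fintype G]

theorem pe_add_ne {a b : Lam G} (ha : pe a) (hb : pe b) (h : a ≠ 0 ∨ b ≠ 0) : a + b ≠ 0 := by
  intro h0
  rcases h with h | h
  · obtain ⟨g, hg⟩ := pe_pos ha h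
    have h1 : (a + b).coeff g = 0 := by rw [h0]; rfl
    rw [cadd] at h1
    have := hb g
    omega
  · obtain ⟨g, hg⟩ := pe_pos hb h
    have h1 : (a + b).coeff g = 0 := by rw [h0]; rfl
    rw [cadd] at h1
    have := ha g
    omega

variable {V : Type} [Fintype V] [DecidableEq V] {T : ℕ}
variable {H : Matrix V V (Lam G)} {x0 v : V} {c : G} {ω : ℕ → G} {ww : ℕ → Fin 2 → Fin 2 → Lam G}

/-- The projection of the states. -/
def prM : IM V T → V ⊕ (Fin 2 × Fin T)
  | Sum.inl z => z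
  | Sum.inr y => Sum.inr y

/-- The projection of the states. -/
def prB : IB V T → V ⊕ (Fin 2 × Fin T)
  | Sum.inl x => Sum.inl x
  | Sum.inr y => Sum.inr (y.1.1, y.2)

theorem pr_Uu (k : IM V T) (z : IB V T) (h : Uu G V T k z ≠ 0) : prM k = prB z := by
  rcases k with (x | d) | d
  · change (if z = Sum.inl x then (1 : Lam G) else 0) ≠ 0 at h
    by_cases h1 : z = Sum.inl x
    · rw [h1]; rfl
    · rw [if_neg h1] at h; exact absurd rfl h
  · change (if z = Sum.inr ((d.1, 1), d.2) then (1 : Lam G) else 0) ≠ 0 at h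
    by_cases h1 : z = Sum.inr ((d.1, 1), d.2)
    · rw [h1]; rfl
    · rw [if_neg h1] at h; exact absurd rfl h
  · change ((if z = Sum.inr ((d.1, 0), d.2) then (1 : Lam G) else 0) -
      (if z = Sum.inr ((d.1, 1), d.2) then (1 : Lam G) else 0)) ≠ 0 at h
    by_cases h1 : z = Sum.inr ((d.1, 1), d.2)
    · rw [h1]; rfl
    · by_cases h2 : z = Sum.inr ((d.1, 0), d.2)
      · rw [h2]; rfl
      · rw [if_neg h1, if_neg h2, sub_zero] at h; exact absurd rfl h

theorem pr_Ui (z : IB V T) (k : IM V T) (h : Ui G V T z k ≠ 0) : prB z = prM k := by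
  rcases z with x | d
  · change (if k = Sum.inl (Sum.inl x) then (1 : Lam G) else 0) ≠ 0 at h
    by_cases h1 : k = Sum.inl (Sum.inl x)
    · rw [h1]; rfl
    · rw [if_neg h1] at h; exact absurd rfl h
  · change ((if k = Sum.inl (Sum.inr (d.1.1, d.2)) then (1 : Lam G) else 0) +
        (if d.1.2 = 0 then (if k = Sum.inr (d.1.1, d.2) then 1 else 0) else 0)) ≠ 0 at h
    by_cases h1 : k = Sum.inl (Sum.inr (d.1.1, d.2))
    · rw [h1]; rfl
    · by_cases h2 : k = Sum.inr (d.1.1, d.2)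
      · rw [h2]; rfl
      · rw [if_neg h1, if_neg h2, ite_self, add_zero] at h; exact absurd rfl h

theorem supp_MN (hH : Pos H) (hww : ∀ i a b, ww i a b ≠ 0 →
      exi H (av (C := Fin 2) x0 c 1) v ω i b ≠ 0) (k l : IM V T)
    (h : MN H x0 v c ω ww T k l ≠ 0) : At H x0 v c ω T (prM k) (prM l) ≠ 0 := by
  have hav : ∀ (i : Fin 2) (x : V), pe (av (C := Fin 2) x0 c 1 i x) :=
    fun i x => pe_av x0 c zero_le_one i x
  have hav2 : ∀ (i : Fin 2) (x : V), pe (av (C := Fin 2) x0 c 2 i x) :=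
    fun i x => pe_av x0 c (by norm_num) i x
  have key : ∀ (d y : Fin 2 × Fin T), (y.2.val = 0 ∧ exi H (av (C := Fin 2) x0 c 1) v ω d.2.val y.1 ≠ 0) →
      At H x0 v c ω T (Sum.inr d) (Sum.inr y) ≠ 0 := by
    rintro d y ⟨h1, h2⟩
    change (if y.1 = d.1 ∧ y.2.val = d.2.val + 1 then MonoidAlgebra.single (ω d.2.val) 1 else 0) +
      (if y.2.val = 0 then exi H (av (C := Fin 2) x0 c 2) v ω d.2.val y.1 else 0) ≠ 0
    rw [if_pos h1]
    apply pe_add_ne (pe_ite (pe_single _) pe_zero) (exi_pe hH hav2 _ _)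
    right
    rw [exi_two H x0 v c ω d.2.val y.1 y.1 (0, 0), exi_one H x0 v c ω d.2.val y.1 (0, 0)]
    exact pe_add_ne (exi_pe hH hav _ _) (exi_pe hH hav _ _) (Or.inl h2)
  rcases k with k | d <;> rcases l with l | y
  · exact h
  · rcases k with x | d
    · change (if y.2.val = 0 then av (C := Fin 2) x0 c 1 y.1 x else 0) ≠ 0 at h
      change (if y.2.val = 0 then av (C := Fin 2) x0 c 2 y.1 x else 0) ≠ 0
      by_cases h1 : y.2.val = 0
      · rw [if_pos h1] at h ⊢
        rw [av_two x0 c y.1 y.1 x]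
        exact pe_add_ne (hav _ _) (hav _ _) (Or.inl h)
      · rw [if_neg h1] at h; exact absurd rfl h
    · change (if y.2.val = 0 then exi H (av (C := Fin 2) x0 c 1) v ω d.2.val y.1 else 0) ≠ 0 at h
      by_cases h1 : y.2.val = 0
      · rw [if_pos h1] at h
        exact key d y ⟨h1, h⟩
      · rw [if_neg h1] at h; exact absurd rfl h
  · exact absurd rfl h
  · change ((if y.1 = d.1 ∧ y.2.val = d.2.val + 1 then MonoidAlgebra.single (ω d.2.val) 1 else 0) +
      (if y.2.val = 0 then ww d.2.val d.1 y.1 else 0)) ≠ 0 at h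
    by_cases h1 : y.2.val = 0
    · rw [if_pos h1, if_neg (fun h2 => by omega), zero_add] at h
      exact key d y ⟨h1, hww _ _ _ h⟩
    · rw [if_neg h1, add_zero] at h
      change (if y.1 = d.1 ∧ y.2.val = d.2.val + 1 then MonoidAlgebra.single (ω d.2.val) 1 else 0) +
        (if y.2.val = 0 then exi H (av (C := Fin 2) x0 c 2) v ω d.2.val y.1 else 0) ≠ 0
      rw [if_neg h1, add_zero]
      exact h

end supp

section pot

variable {G : Type} [Group G] [Fintype G] {δ : Type} [Fintype δ] [DecidableEq δ]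
variable {V : Type} [Fintype V] [DecidableEq V] {T : ℕ}
variable {H : Matrix V V (Lam G)} {x0 v : V} {c : G} {ω : ℕ → G} {ww : ℕ → Fin 2 → Fin 2 → Lam G}

/-- The graph of the matrix with two chains. -/
def Et (H : Matrix V V (Lam G)) (x0 v : V) (c : G) (ω : ℕ → G) (T : ℕ)
    (z w : V ⊕ (Fin 2 × Fin T)) : Prop := At H x0 v c ω T z w ≠ 0

theorem walk_MN (hH : Pos H) (hww : ∀ i a b, ww i a b ≠ 0 →
      exi H (av (C := Fin 2) x0 c 1) v ω i b ≠ 0) (m : ℕ) (k l : IM V T)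
    (h : ((MN H x0 v c ω ww T) ^ m) k l ≠ 0) : Wk (Et H x0 v c ω T) m (prM k) (prM l) := by
  have h1 := Wk_of_pow (E := fun k l : IM V T => Et H x0 v c ω T (prM k) (prM l))
    (M := MN H x0 v c ω ww T) (fun k l h => supp_MN hH hww k l h) m k l h
  exact Wk_proj (Et H x0 v c ω T) prM m k l h1

theorem U_pow (m : ℕ) : Uu G V T * (BB H x0 v c ω ww T) ^ m = (MN H x0 v c ω ww T) ^ m * Uu G V T := by
  induction m with
  | zero => rw [pow_zero, pow_zero, Matrix.mul_one, Matrix.one_mul]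
  | succ m ih => rw [pow_succ, ← Matrix.mul_assoc, ih, Matrix.mul_assoc, U_BB, ← Matrix.mul_assoc,
      ← pow_succ]

theorem BB_pow (m : ℕ) : (BB H x0 v c ω ww T) ^ m =
    Ui G V T * ((MN H x0 v c ω ww T) ^ m * Uu G V T) := by
  rw [← U_pow, ← Matrix.mul_assoc, Ui_Uu, Matrix.one_mul]

theorem FI_BM (θ : G →* Matrix δ δ ℤ) (hH : Pos H) (hww : ∀ i a b, ww i a b ≠ 0 →
      exi H (av (C := Fin 2) x0 c 1) v ω i b ≠ 0) (m : ℕ)
    (hcl : ∀ z, ¬ Wk (Et H x0 v c ω T) (2 * m) z z)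
    (hn : IsNilpotent ((th θ (BB H x0 v c ω ww T)) ^ m)) :
    FI ((th θ (MN H x0 v c ω ww T)) ^ m) = FI ((th θ (BB H x0 v c ω ww T)) ^ m) := by
  have e1 : (th θ (BB H x0 v c ω ww T)) ^ m =
      th θ (Ui G V T) * th θ ((MN H x0 v c ω ww T) ^ m * Uu G V T) := by
    rw [← th_pow, BB_pow, th_mul]
  have e2 : (th θ (MN H x0 v c ω ww T)) ^ m =
      th θ ((MN H x0 v c ω ww T) ^ m * Uu G V T) * th θ (Ui G V T) := by
    rw [← th_pow, ← th_mul, Matrix.mul_assoc, Uu_Ui, Matrix.mul_one]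
  rw [e1, e2]
  apply FI_V
  · rw [← e1]; exact hn
  · intro i j k l
    by_contra h
    have hS : ∀ (k : IM V T × δ) (j : IB V T × δ), th θ ((MN H x0 v c ω ww T) ^ m * Uu G V T) k j ≠ 0 →
        Wk (Et H x0 v c ω T) m (prM k.1) (prB j.1) := by
      intro k j hkj
      have h1 := th_ne θ _ _ _ hkj
      rw [Matrix.mul_apply] at h1
      obtain ⟨z, _, hz⟩ := exists_ne_zero_of_sum_ne_zero h1
      rw [← pr_Uu z j.1 (fun h0 => hz (by rw [h0, mul_zero]))]
      exact walk_MN hH hww m _ _ (fun h0 => hz (by rw [h0, zero_mul]))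
    have n1 : th θ (Ui G V T) i k ≠ 0 := by intro h0; apply h; rw [h0]; ring
    have n2 : th θ ((MN H x0 v c ω ww T) ^ m * Uu G V T) k j ≠ 0 := by intro h0; apply h; rw [h0]; ring
    have n3 : th θ (Ui G V T) j l ≠ 0 := by intro h0; apply h; rw [h0]; ring
    have n4 : th θ ((MN H x0 v c ω ww T) ^ m * Uu G V T) l i ≠ 0 := by intro h0; apply h; rw [h0]; ring
    have a1 := pr_Ui _ _ (th_ne θ _ _ _ n1)
    have a2 := hS _ _ n2
    have a3 := pr_Ui _ _ (th_ne θ _ _ _ n3)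
    have a4 := hS _ _ n4
    rw [← a1] at a2
    rw [← a3] at a4
    have a5 := Wk_trans a2 _ _ a4
    rw [← two_mul] at a5
    exact hcl _ a5

theorem FI_MN (θ : G →* Matrix δ δ ℤ) (hH : Pos H) (hww : ∀ i a b, ww i a b ≠ 0 →
      exi H (av (C := Fin 2) x0 c 1) v ω i b ≠ 0) (m : ℕ)
    (hcl : ∀ z, ¬ Wk (Et H x0 v c ω T) (2 * m) z z)
    (n1 : IsNilpotent ((th θ (At H x0 v c ω T)) ^ m)) (n2 : IsNilpotent ((th θ (Gg ω ww T)) ^ m)) :
    IsNilpotent ((th θ (MN H x0 v c ω ww T)) ^ m) ∧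
    FI ((th θ (MN H x0 v c ω ww T)) ^ m) = FI ((th θ (At H x0 v c ω T)) ^ m) +
      FI ((th θ (Gg ω ww T)) ^ m) := by
  obtain ⟨Y', hY'⟩ := tri_pow (At H x0 v c ω T) (Yt H x0 v c ω T) (Gg ω ww T) m
  have hMN : (MN H x0 v c ω ww T) ^ m = fromBlocks ((At H x0 v c ω T) ^ m) Y' 0 ((Gg ω ww T) ^ m) := hY'
  set f : (V ⊕ (Fin 2 × Fin T)) × δ → IM V T × δ := Prod.map Sum.inl id with hf
  set g : (Fin 2 × Fin T) × δ → IM V T × δ := Prod.map Sum.inr id with hg
  have e1 : ((th θ (MN H x0 v c ω ww T)) ^ m).submatrix f f = (th θ (At H x0 v c ω T)) ^ m := by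
    rw [← th_pow, ← th_pow, hMN]; rfl
  have e2 : ((th θ (MN H x0 v c ω ww T)) ^ m).submatrix g g = (th θ (Gg ω ww T)) ^ m := by
    rw [← th_pow, ← th_pow, hMN]; rfl
  have h := FI_two f g (Function.Injective.prodMap Sum.inl_injective Function.injective_id)
    (Function.Injective.prodMap Sum.inr_injective Function.injective_id) ?_ ?_
    ((th θ (MN H x0 v c ω ww T)) ^ m) ?_ (by rw [e1]; exact n1) (by rw [e2]; exact n2) ?_
  · rw [e1, e2] at h; exact h
  · intro x y hxy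
    exact Sum.inl_ne_inr (congrArg Prod.fst hxy)
  · rintro ⟨z | z, d⟩
    · exact Or.inl ⟨(z, d), rfl⟩
    · exact Or.inr ⟨(z, d), rfl⟩
  · intro x y
    rw [← th_pow, hMN]
    rw [th_apply]
    apply sum_eq_zero; intro g' _
    change (0 : ℤ) * _ = 0
    rw [zero_mul]
  · intro i j
    by_contra h
    have a1 := left_ne_zero_of_mul h
    have a2 := right_ne_zero_of_mul h
    rw [← th_pow] at a1 a2
    have b1 := walk_MN hH hww m _ _ (th_ne θ _ _ _ a1)
    have b2 := walk_MN hH hww m _ _ (th_ne θ _ _ _ a2)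
    have b3 := Wk_trans b1 _ _ b2
    rw [← two_mul] at b3
    exact hcl _ b3

end pot

end Pool.Agent.Helper817_sse
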