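import Mathlib
import Pool.Agent.Helper817_sse.Build2

set_option autoImplicit false
set_option linter.unusedSectionVars false
set_option synthInstance.maxSize 4000

/-!
# Changing one invariant
-/

namespace Pool.Agent.Helper817_sse

open Matrix Finset

section sigl

variable {G : Type} [Group G] [Fintype G] {δ : Type} [Fintype δ] [DecidableEq δ]
variable {α : Type} [Fintype α] [DecidableEq α]

theorem trq_sig (k : ℕ) (A : Matrix α α (Lam G)) : trq k (sig A) = ((eps (fn A)) ^ k).trace := by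
  have e1 : eps (sig A).2 = (eps (fn A)).submatrix (Fintype.equivFin α).symm
      (Fintype.equivFin α).symm := rfl
  unfold trq
  have e2 : ((eps (fn A)).submatrix (Fintype.equivFin α).symm (Fintype.equivFin α).symm) ^ k =
      ((eps (fn A)) ^ k).submatrix (Fintype.equivFin α).symm (Fintype.equivFin α).symm :=
    submatrix_pow_equiv _ _ k
  calc ((eps (sig A).2) ^ k).trace = (((eps (fn A)).submatrix (Fintype.equivFin α).symm
      (Fintype.equivFin α).symm) ^ k).trace := rfl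
    _ = (((eps (fn A)) ^ k).submatrix (Fintype.equivFin α).symm (Fintype.equivFin α).symm).trace := by
      rw [e2]
    _ = ((eps (fn A)) ^ k).trace := by
      rw [Matrix.trace, Matrix.trace, ← Equiv.sum_comp (Fintype.equivFin α).symm]
      rfl

theorem thf_sig (θ : G →* Matrix δ δ ℤ) (A : Matrix α α (Lam G)) : thf θ (sig A).2 =
    (th θ A).submatrix (Equiv.prodCongr (Fintype.equivFin α).symm (Equiv.refl δ))
      (Equiv.prodCongr (Fintype.equivFin α).symm (Equiv.refl δ)) := rfl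

theorem NilT_sig (θ : G →* Matrix δ δ ℤ) (A : Matrix α α (Lam G)) :
    NilT θ (sig A) ↔ IsNilpotent (th θ A) := by
  constructor
  · intro h
    have h1 := nil_submatrix (Equiv.prodCongr (Fintype.equivFin α).symm (Equiv.refl δ)).symm h
    rw [thf_sig, submatrix_submatrix, Equiv.self_comp_symm, submatrix_id_id] at h1
    exact h1
  · intro h
    exact nil_submatrix (Equiv.prodCongr (Fintype.equivFin α).symm (Equiv.refl δ)) h

theorem FQ_sig (θ : G →* Matrix δ δ ℤ) (m : ℕ) (A : Matrix α α (Lam G))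
    (hn : IsNilpotent ((th θ A) ^ m))
    (hs : ∀ i j, ((th θ A) ^ m) i j * ((th θ A) ^ m) j i = 0) :
    FQ θ m (sig A) = FI ((th θ A) ^ m) := by
  have h3 := FI_equiv (Equiv.prodCongr (Fintype.equivFin α).symm (Equiv.refl δ)) _ hn hs
  have h4 := submatrix_pow_equiv (Equiv.prodCongr (Fintype.equivFin α).symm (Equiv.refl δ))
    (th θ A) m
  rw [← h3, ← h4]
  rfl

theorem walk_eps {A : Matrix α α (Lam G)} (hA : Pos A) : ∀ (n : ℕ) (z w : α),
    Wk (fun z w => A z w ≠ 0) n z w → 0 < ((eps (fn A)) ^ n) z w := by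
  have h0 : ∀ i j, 0 ≤ eps (fn A) i j := eps_nonneg (fn A) (fun i j g => hA i j g)
  intro n
  induction n with
  | zero =>
    rintro z w rfl
    rw [pow_zero, Matrix.one_apply_eq]
    exact one_pos
  | succ n ih =>
    rintro z w ⟨y, hy, hyw⟩
    rw [pow_succ]
    refine pos_mul (nn_pow h0 n) h0 (ih z y hy) ?_
    obtain ⟨g, hg⟩ := pe_pos (hA y w) hyw
    exact sum_pos' (fun g _ => hA y w g) ⟨g, mem_univ _, hg⟩

theorem no_closed {A : Matrix α α (Lam G)} (hA : Pos A) {k : ℕ} (h : trq k (sig A) = 0) (z : α) :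
    ¬ Wk (fun z w => A z w ≠ 0) k z z := by
  intro hw
  have h1 := walk_eps hA k z z hw
  rw [trq_sig, Matrix.trace] at h
  have h2 : 0 < ∑ i, ((eps (fn A)) ^ k).diag i :=
    sum_pos' (fun i _ => nn_pow (eps_nonneg (fn A) (fun i j g => hA i j g)) k i i)
      ⟨z, mem_univ _, h1⟩
  rw [h] at h2
  exact lt_irrefl _ h2

theorem th_short (θ : G →* Matrix δ δ ℤ) {β : Type} {A : Matrix α α (Lam G)} {E : β → β → Prop}
    {π : α → β} {m : ℕ} (hE : ∀ i j, (A ^ m) i j ≠ 0 → Wk E m (π i) (π j))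
    (hcl : ∀ z, ¬ Wk E (2 * m) z z) (i j : α × δ) :
    ((th θ A) ^ m) i j * ((th θ A) ^ m) j i = 0 := by
  by_contra h
  have a1 := left_ne_zero_of_mul h
  have a2 := right_ne_zero_of_mul h
  rw [← th_pow] at a1 a2
  have b3 := Wk_trans (hE _ _ (th_ne θ _ _ _ a1)) _ _ (hE _ _ (th_ne θ _ _ _ a2))
  rw [← two_mul] at b3
  exact hcl _ b3

end sigl

section gadget

variable {G : Type} [Group G] [Fintype G]
variable {V : Type} [Fintype V] [DecidableEq V] {T : ℕ}
variable {H : Matrix V V (Lam G)} {x0 v : V} {c : G} {ω : ℕ → G} {ww : ℕ → Fin 2 → Fin 2 → Lam G}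

theorem exi_av_coeff {C : Type} [Fintype C] [DecidableEq C] (i : ℕ) (d : C) (g : G) :
    (exi H (av (C := C) x0 c 1) v ω i d).coeff g = ((H ^ i) v x0).coeff ((pw ω i)⁻¹ * (g * c⁻¹)) := by
  unfold exi
  have e : ∀ x, rv H v ω i x * av (C := C) x0 c 1 d x = if x = x0 then rv H v ω i x *
      MonoidAlgebra.single c 1 else 0 := by
    intro x
    unfold av
    rw [one_smul, mul_ite, mul_zero]
  rw [sum_congr rfl (fun x _ => e x), sum_ite_eq', if_pos (mem_univ _), cms, rv_coeff]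

theorem wl_ne {q : ℕ} {g0 : G} {w : ℕ → Matrix (Fin 2) (Fin 2) ℤ} {L0 : ℕ}
    (hw : ∀ i, i < L0 → w i = 0) {i : ℕ} {a b : Fin 2} (h : wl q g0 w i a b ≠ 0) : L0 ≤ i := by
  unfold wl at h
  by_cases h1 : q ∣ (i + 1)
  · rw [if_pos h1] at h
    have h2 : L0 ≤ (i + 1) / q - 1 := by
      by_contra h3
      apply h
      rw [hw _ (by omega)]
      change (0 : ℤ) • _ = (0 : Lam G)
      rw [zero_smul]
    have h3 : (i + 1) / q ≤ i + 1 := Nat.div_le_self _ _
    omega
  · rw [if_neg h1] at h; exact absurd rfl h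

theorem wl_bd {q : ℕ} {g0 : G} {w : ℕ → Matrix (Fin 2) (Fin 2) ℤ} (hw : ∀ i a b, |w i a b| ≤ 6)
    (i : ℕ) (a b : Fin 2) (g : G) : |(wl q g0 w i a b).coeff g| ≤ 6 := by
  classical
  unfold wl
  by_cases h1 : q ∣ (i + 1)
  · rw [if_pos h1, coeff_zsmul, csingle]
    split_ifs
    · rw [mul_one]; exact hw _ _ _
    · rw [mul_zero]; norm_num
  · rw [if_neg h1, czero]; norm_num

/-- The perturbation is dominated. -/
theorem Del_dom (hdom : ∀ i a b d g, ww i a b ≠ 0 → |(ww i a b).coeff g| <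
      (exi H (av (C := Fin 2 × Fin 2) x0 c 1) v ω i d).coeff g) (x y : IB V T) (g : G) :
    (Del ww V T x y).coeff g = 0 ∨ |(Del ww V T x y).coeff g| <
      (Tm H (av (C := Fin 2 × Fin 2) x0 c 1) v ω T x y).coeff g := by
  rcases x with x | x
  · left
    rcases y with y | y <;> rfl
  · rcases y with y | y
    · left; rfl
    · change (if x.1.2 = 0 ∧ y.2.val = 0 then (if y.1.2 = 0 then ww x.2.val x.1.1 y.1.1 else
          - ww x.2.val x.1.1 y.1.1) else 0 : Lam G).coeff g = 0 ∨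
        |(if x.1.2 = 0 ∧ y.2.val = 0 then (if y.1.2 = 0 then ww x.2.val x.1.1 y.1.1 else
          - ww x.2.val x.1.1 y.1.1) else 0 : Lam G).coeff g| <
        ((if y.1 = x.1 ∧ y.2.val = x.2.val + 1 then MonoidAlgebra.single (ω x.2.val) 1 else 0) +
          (if y.2.val = 0 then exi H (av (C := Fin 2 × Fin 2) x0 c 1) v ω x.2.val y.1 else 0) :
            Lam G).coeff g
      by_cases h1 : x.1.2 = 0 ∧ y.2.val = 0
      · by_cases h2 : ww x.2.val x.1.1 y.1.1 = 0
        · left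
          rw [h2, neg_zero, ite_self, ite_self, czero]
        · right
          have a1 : ¬ (y.1 = x.1 ∧ y.2.val = x.2.val + 1) := fun h => by omega
          rw [if_pos h1, if_pos h1.2, if_neg a1, zero_add]
          have h3 := hdom x.2.val x.1.1 y.1.1 y.1 g h2
          split_ifs
          · exact h3
          · have e : (- ww x.2.val x.1.1 y.1.1).coeff g = - (ww x.2.val x.1.1 y.1.1).coeff g := rfl
            rw [e, abs_neg]
            exact h3
      · left
        rw [if_neg h1, czero]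

theorem GP_BB (hG : GP (Tm H (av (C := Fin 2 × Fin 2) x0 c 1) v ω T))
    (hdom : ∀ i a b d g, ww i a b ≠ 0 → |(ww i a b).coeff g| <
      (exi H (av (C := Fin 2 × Fin 2) x0 c 1) v ω i d).coeff g) : GP (BB H x0 v c ω ww T) := by
  have h0 := hG.2.1
  apply GP_of_supp hG
  · intro x y g
    change 0 ≤ (Tm H (av (C := Fin 2 × Fin 2) x0 c 1) v ω T x y).coeff g + (Del ww V T x y).coeff g
    have h1 := h0 x y g
    rcases Del_dom hdom x y g with h | h
    · rw [h, add_zero]; exact h1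
    · have := (abs_lt.mp h).1; omega
  · intro x y g hxy
    change 0 < (Tm H (av (C := Fin 2 × Fin 2) x0 c 1) v ω T x y).coeff g + (Del ww V T x y).coeff g
    rcases Del_dom hdom x y g with h | h
    · rw [h, add_zero]; exact hxy
    · have := (abs_lt.mp h).1; omega

theorem walk_BB (hH : Pos H) (hww : ∀ i a b, ww i a b ≠ 0 →
      exi H (av (C := Fin 2) x0 c 1) v ω i b ≠ 0) (m : ℕ) (z w : IB V T)
    (h : ((BB H x0 v c ω ww T) ^ m) z w ≠ 0) : Wk (Et H x0 v c ω T) m (prB z) (prB w) := by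
  rw [BB_pow, Matrix.mul_apply] at h
  obtain ⟨k, _, hk⟩ := exists_ne_zero_of_sum_ne_zero h
  rw [pr_Ui z k (left_ne_zero_of_mul hk)]
  have h2 := right_ne_zero_of_mul hk
  rw [Matrix.mul_apply] at h2
  obtain ⟨l, _, hl⟩ := exists_ne_zero_of_sum_ne_zero h2
  rw [← pr_Uu l w (right_ne_zero_of_mul hl)]
  exact walk_MN hH hww m k l (left_ne_zero_of_mul hl)

end gadget

section kp

variable {G : Type} [Group G] [Fintype G] [Nontrivial G] {δ : Type} [Fintype δ] [DecidableEq δ]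

/-- The key proposition: one invariant can be changed while all smaller ones are kept. -/
theorem KP (θ : G →* Matrix δ δ ℤ) (g0 : G) (htr : (θ g0).trace % 2 = 1) {V : Type} [Fintype V]
    [DecidableEq V] (A : Matrix V V (Lam G)) (hA : GP A) (hn : NilT θ (sig A)) (r : ℕ)
    (hr : r % 2 = 1) (h0 : trq (2 * r) (sig A) = 0) :
    ∃ (W : Type) (_ : Fintype W) (_ : DecidableEq W) (B : Matrix W W (Lam G)), GP B ∧ SZ B A ∧
      FQ θ r (sig B) = FQ θ r (sig A) + 1 ∧
      ∀ m, 0 < m → m < r → trq (2 * m) (sig A) = 0 → FQ θ m (sig B) = FQ θ m (sig A) := by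
  classical
  obtain ⟨W, _, _, H, x0, v, c, h1, h2, h3⟩ := prep A hA
  obtain ⟨L0, hL0⟩ := growth h1 8
  obtain ⟨w, T1, hT1, hw0, _, hwb, hnil, hshort, hFI⟩ := gadget_exists L0
  have hr0 : 0 < r := by omega
  set ω := om r g0 with hω
  set ww := wl r g0 w with hww
  obtain ⟨T', hT'⟩ : ∃ T', T1 * r = T' + 1 := ⟨T1 * r - 1, by
    have := Nat.mul_pos hT1 hr0
    omega⟩
  have hP := h1.2.1
  have hPZ : PZ A (At H x0 v c ω (T1 * r)) := by
    refine h3.trans ?_
    have e : T0 H (av (C := Unit) x0 c 4) v = T0 H (av (C := Fin 2) x0 c 2) v := by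
      rw [T0_av (C := Fin 2)]
      norm_num
    rw [e, hT']
    exact PZ_Tm hP (fun i x => pe_av x0 c (by norm_num) i x) T'
  have hrv : ∀ (i : ℕ), ∃ y, rv H v ω i y ≠ 0 := by
    apply rv_ne hP
    intro i
    obtain ⟨_, _, N, hN⟩ := GP_iff.mp h1
    have h4 := WG_rep (hN v v 1) i
    obtain ⟨m, hm⟩ : ∃ m, i * (N + 1) = i + m := ⟨i * (N + 1) - i, by
      have : i * 1 ≤ i * (N + 1) := Nat.mul_le_mul_left i (by omega)
      omega⟩
    rw [hm] at h4
    exact WG_prefix m v _ h4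
  have hGT : GP (Tm H (av (C := Fin 2 × Fin 2) x0 c 1) v ω (T1 * r)) := by
    rw [hT']
    apply GP_Tm hP (fun i x => pe_av x0 c zero_le_one i x) _ _ hrv (av_ne x0 c one_pos) T'
    · have e : T0 H (av (C := Fin 2 × Fin 2) x0 c 1) v = T0 H (av (C := Unit) x0 c 4) v := by
        rw [T0_av (C := Fin 2 × Fin 2)]
        norm_num
      rw [e]; exact h2
    · intro y
      obtain ⟨x, g, hx⟩ := GP_in h1 y
      exact ⟨x, ne_of_ed hx⟩
  have hdom : ∀ i a b (d : Fin 2 × Fin 2) g, ww i a b ≠ 0 → |(ww i a b).coeff g| <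
      (exi H (av (C := Fin 2 × Fin 2) x0 c 1) v ω i d).coeff g := by
    intro i a b d g hne
    have a1 := wl_ne hw0 hne
    have a2 := wl_bd (q := r) (g0 := g0) hwb i a b g
    rw [exi_av_coeff]
    have a3 := hL0 i a1 v x0 ((pw ω i)⁻¹ * (g * c⁻¹))
    rw [← hww] at a2
    push_cast at a3
    omega
  have hwx : ∀ i a b, ww i a b ≠ 0 → exi H (av (C := Fin 2) x0 c 1) v ω i b ≠ 0 := by
    intro i a b hne h5
    have a1 := wl_ne hw0 hne
    have a3 := hL0 i a1 v x0 ((pw ω i)⁻¹ * (1 * c⁻¹))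
    have a4 := exi_av_coeff (H := H) (x0 := x0) (v := v) (c := c) (ω := ω) i b 1
    rw [h5, czero] at a4
    rw [← a4] at a3
    norm_num at a3
  set B := BB H x0 v c ω ww (T1 * r) with hB
  have hSB : SZ B (At H x0 v c ω (T1 * r)) := by
    refine (SZ_BB H x0 v c ω ww).trans ?_
    exact SZ_GW r hr0 g0 w T1 hnil _ _
  have hSA : SZ (At H x0 v c ω (T1 * r)) A := hPZ.symm.SZ
  have hAt : IsNilpotent (th θ (At H x0 v c ω (T1 * r))) :=
    (NilT_sig θ _).mp ((eqv_nil θ _ _ hSA).mpr hn)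
  have hBn : IsNilpotent (th θ B) := (NilT_sig θ _).mp ((eqv_nil θ _ _ (hSB.trans hSA)).mpr hn)
  have hGn : IsNilpotent (th θ (Gg ω ww (T1 * r))) := GW_nil hr0 hnil θ
  have hPA : Pos (At H x0 v c ω (T1 * r)) := Pos_Tm hP (fun i x => pe_av x0 c (by norm_num) i x) _
  have main : ∀ m, 0 < m → trq (2 * m) (sig A) = 0 → FQ θ m (sig B) = FQ θ m (sig A) +
      FI ((th θ (Gg ω ww (T1 * r))) ^ m) := by
    intro m hm htm
    obtain ⟨m', rfl⟩ : ∃ m', m = m' + 1 := ⟨m - 1, by omega⟩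
    have htA : trq (2 * (m' + 1)) (sig (At H x0 v c ω (T1 * r))) = 0 := by
      have e : 2 * (m' + 1) = (2 * m' + 1) + 1 := by ring
      rw [e] at htm ⊢
      rw [eqv_tr _ _ _ hSA]; exact htm
    have hcl : ∀ z, ¬ Wk (Et H x0 v c ω (T1 * r)) (2 * (m' + 1)) z z := no_closed hPA htA
    obtain ⟨_, b2⟩ := FI_MN (T := T1 * r) (ww := ww) θ hP hwx (m' + 1) hcl (pow_nil hAt hm)
      (pow_nil hGn hm)
    have b3 := FI_BM (T := T1 * r) (ww := ww) θ hP hwx (m' + 1) hcl (pow_nil hBn hm)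
    have b4 : FQ θ (m' + 1) (sig B) = FI ((th θ B) ^ (m' + 1)) :=
      FQ_sig θ _ B (pow_nil hBn hm) (th_short θ (walk_BB hP hwx (m' + 1)) hcl)
    have b5 : FQ θ (m' + 1) (sig (At H x0 v c ω (T1 * r))) =
        FI ((th θ (At H x0 v c ω (T1 * r))) ^ (m' + 1)) := by
      apply FQ_sig θ _ _ (pow_nil hAt hm)
      apply th_short θ (E := Et H x0 v c ω (T1 * r)) (π := id) _ hcl
      intro i j hij
      exact Wk_of_pow (E := Et H x0 v c ω (T1 * r)) (fun x y h => h) _ _ _ hij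
    have b6 : FQ θ (m' + 1) (sig (At H x0 v c ω (T1 * r))) = FQ θ (m' + 1) (sig A) :=
      eqv_FQ θ m' _ _ hPZ htm hn
    rw [b4, ← b3, b2, ← b5, b6]
  refine ⟨IB W (T1 * r), inferInstance, inferInstance, B, GP_BB hGT hdom, hSB.trans hSA, ?_, ?_⟩
  · rw [main r hr0 h0]
    congr 1
    exact FI_GW_full hr hnil hshort hFI θ htr
  · intro m hm hmr htm
    rw [main m hm htm]
    have : FI ((th θ (Gg ω ww (T1 * r))) ^ m) = 0 := FI_GW_lt hr hnil hshort θ hm hmr
    rw [this, add_zero]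

end kp

end Pool.Agent.Helper817_sse
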