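import Mathlib
import Pool.Agent.Helper817_sse.KP

set_option autoImplicit false
set_option linter.unusedSectionVars false
set_option synthInstance.maxSize 4000

/-!
# Many classes for a prescribed matrix
-/

namespace Pool.Agent.Helper817_sse

open Matrix Finset

section gprim

variable {G : Type} [Group G] [Fintype G]

theorem sub_pow_lam {α β : Type} [Fintype α] [Fintype β] [DecidableEq α] [DecidableEq β]
    (e : α ≃ β) (N : Matrix β β (Lam G)) (k : ℕ) : (N.submatrix e e) ^ k = (N ^ k).submatrix e e := by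
  induction k with
  | zero => rw [pow_zero, pow_zero, submatrix_one_equiv]
  | succ k ih => rw [pow_succ, ih, submatrix_mul_equiv, ← pow_succ]

theorem iter_fn {n : ℕ} (A : Matrix (Fin n) (Fin n) (Lam G)) (k : ℕ) :
    (fun M : Fin n → Fin n → G → ℤ => cv M (fn A))^[k] (fn A) = fn (A ^ (k + 1)) := by
  induction k with
  | zero => rw [zero_add, pow_one]; rfl
  | succ k ih => rw [Function.iterate_succ_apply', ih, ← fn_mul, ← pow_succ]

theorem GPrim_sig {α : Type} [Fintype α] [DecidableEq α] {A : Matrix α α (Lam G)} (h : GP A) :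
    GPrim (sig A) := by
  obtain ⟨h1, h2, k, h3⟩ := h
  refine ⟨Fintype.card_pos, fun i j g => h2 _ _ g, k, ?_⟩
  intro i j g
  set e := (Fintype.equivFin α).symm
  have h4 := iter_fn (A.submatrix e e) k
  rw [sub_pow_lam] at h4
  have h5 : ((fun M : Fin (sig A).1 → Fin (sig A).1 → G → ℤ => cv M (sig A).2)^[k] (sig A).2) =
      fn ((A ^ (k + 1)).submatrix e e) := h4
  rw [h5]
  exact lt_of_lt_of_le one_pos (h3 (e i) (e j) g)

theorem GP_mk {n : ℕ} {A : Fin n → Fin n → G → ℤ} (h : GPrim (⟨n, A⟩ : SM G)) : GP (mk A) := by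
  obtain ⟨h1, h2, k, h3⟩ := h
  refine ⟨⟨⟨0, h1⟩⟩, fun i j g => ?_, k, ?_⟩
  · rw [mk_coeff]; exact h2 i j g
  · intro i j g
    have h4 := iter_fn (mk A) k
    rw [fn_mk] at h4
    have h5 := h3 i j g
    have h6 : ((fun M : Fin n → Fin n → G → ℤ => cv M A)^[k] A) i j g = fn ((mk A) ^ (k + 1)) i j g := by
      rw [h4]
    have h7 : 0 < fn ((mk A) ^ (k + 1)) i j g := by rw [← h6]; exact h5
    exact h7

end gprim

section fin

variable {G : Type} [Group G] [Fintype G] [Nontrivial G] {δ : Type} [Fintype δ] [DecidableEq δ]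

theorem realize (θ : G →* Matrix δ δ ℤ) (g0 : G) (htr : (θ g0).trace % 2 = 1) {V : Type} [Fintype V]
    [DecidableEq V] (A : Matrix V V (Lam G)) (hA : GP A) (hn : NilT θ (sig A)) (ν : ℕ → ZMod 2)
    (J : Finset ℕ) : (∀ q ∈ J, q % 2 = 1 ∧ trq (2 * q) (sig A) = 0) →
    ∃ (W : Type) (_ : Fintype W) (_ : DecidableEq W) (B : Matrix W W (Lam G)), GP B ∧ SZ B A ∧
      ∀ q ∈ J, FQ θ q (sig B) = ν q := by
  induction J using Finset.induction_on_max with
  | empty => intro _; exact ⟨V, inferInstance, inferInstance, A, hA, SZ.refl A, by simp⟩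
  | insert r s hs ih =>
    intro hJ
    obtain ⟨W, _, _, B, b1, b2, b3⟩ := ih (fun q hq => hJ q (mem_insert_of_mem hq))
    have hr := hJ r (mem_insert_self _ _)
    by_cases hc : FQ θ r (sig B) = ν r
    · refine ⟨W, inferInstance, inferInstance, B, b1, b2, ?_⟩
      intro q hq
      rcases mem_insert.mp hq with rfl | hq
      · exact hc
      · exact b3 q hq
    · have tr : ∀ q, 0 < q → trq (2 * q) (sig A) = 0 → trq (2 * q) (sig B) = 0 := by
        intro q hq h
        obtain ⟨q', rfl⟩ : ∃ q', q = q' + 1 := ⟨q - 1, by omega⟩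
        have e : 2 * (q' + 1) = (2 * q' + 1) + 1 := by ring
        rw [e] at h ⊢
        rw [eqv_tr _ _ _ b2]; exact h
      obtain ⟨W', _, _, B', c1, c2, c3, c4⟩ := KP θ g0 htr B b1 ((eqv_nil θ _ _ b2).mpr hn) r hr.1
        (tr r (by omega) hr.2)
      refine ⟨W', inferInstance, inferInstance, B', c1, c2.trans b2, ?_⟩
      intro q hq
      rcases mem_insert.mp hq with rfl | hq
      · rw [c3]
        revert hc
        generalize FQ θ q (sig B) = a
        generalize ν q = b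
        revert a b
        decide
      · have h5 := hJ q (mem_insert_of_mem hq)
        rw [c4 q (by omega) (hs q hq) (tr q (by omega) h5.2)]
        exact b3 q hq

theorem many (θ : G →* Matrix δ δ ℤ) (g0 : G) (htr : (θ g0).trace % 2 = 1) {n : ℕ}
    (A : Fin n → Fin n → G → ℤ) (hA : GPrim (⟨n, A⟩ : SM G)) (hn : IsNilpotent (thf θ A))
    (J : Finset ℕ) (hJ : ∀ q ∈ J, q % 2 = 1 ∧ ((eps A) ^ (2 * q)).trace = 0) :
    ∃ f : Fin (2 ^ J.card) → SM G, (∀ m, GPrim (f m) ∧ Relation.EqvGen EZ (f m) (⟨n, A⟩ : SM G)) ∧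
      ∀ m m', m ≠ m' → ¬ Relation.EqvGen EP (f m) (f m') := by
  classical
  have hG := GP_mk hA
  have hn' : NilT θ (sig (mk A)) := by
    rw [NilT_sig]
    unfold th
    rw [fn_mk]; exact hn
  have hJ' : ∀ q ∈ J, q % 2 = 1 ∧ trq (2 * q) (sig (mk A)) = 0 := by
    intro q hq
    refine ⟨(hJ q hq).1, ?_⟩
    rw [trq_sig, fn_mk]
    exact (hJ q hq).2
  have hcard : Fintype.card (J → ZMod 2) = 2 ^ J.card := by
    rw [Fintype.card_fun, ZMod.card, Fintype.card_coe]
  set e : (J → ZMod 2) ≃ Fin (2 ^ J.card) := Fintype.equivFinOfCardEq hcard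
  have hex : ∀ m : Fin (2 ^ J.card), ∃ P : SM G, GPrim P ∧ Relation.EqvGen EZ P (sig (mk A)) ∧
      ∀ q (hq : q ∈ J), FQ θ q P = e.symm m ⟨q, hq⟩ := by
    intro m
    obtain ⟨W, _, _, B, b1, b2, b3⟩ := realize θ g0 htr (mk A) hG hn'
      (fun q => if h : q ∈ J then e.symm m ⟨q, h⟩ else 0) J hJ'
    refine ⟨sig B, GPrim_sig b1, b2, ?_⟩
    intro q hq
    rw [b3 q hq, dif_pos hq]
  choose f hf1 hf2 hf3 using hex
  refine ⟨f, ?_, ?_⟩
  · intro m
    refine ⟨hf1 m, Relation.EqvGen.trans _ _ _ (hf2 m) ?_⟩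
    have h := sg_sig (Equiv.refl (Fin n)) hG.2.1
    rw [sg_mk] at h
    exact Relation.EqvGen.symm _ _ (eqv_EZ _ _ h)
  · intro m m' hmm h
    apply hmm
    apply e.symm.injective
    funext ⟨q, hq⟩
    rw [← hf3 m q hq, ← hf3 m' q hq]
    have hq1 := (hJ' q hq).1
    obtain ⟨q', hq'⟩ : ∃ q', q = q' + 1 := ⟨q - 1, by omega⟩
    have h2 := (hJ' q hq).2
    rw [hq'] at h2 ⊢
    have e1 : 2 * (q' + 1) = (2 * q' + 1) + 1 := by ring
    refine (eqv_FQ θ q' _ _ h ?_ ?_).symm
    · rw [e1] at h2 ⊢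
      rw [eqv_tr _ _ _ (hf2 m)]; exact h2
    · exact (eqv_nil θ _ _ (hf2 m)).mpr hn'

end fin

end Pool.Agent.Helper817_sse
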