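import Mathlib
import Pool.Agent.Helper817_sse.Inst

set_option autoImplicit false
set_option linter.unusedSectionVars false

/-!
# A gadget with mixed weights
-/

namespace Pool.Agent.Helper817_sse

open Matrix Finset

section gadget

variable {R : Type*} [CommRing R]

/-- The mixed gadget. -/
def Wx (x : R) : Matrix (Fin 6) (Fin 6) R :=
  !![0, x * (x - 1), 0, 0, -(x ^ 3 * (x - 1) ^ 2), 0;
    0, 0, x * (x - 1) ^ 2, 0, -(x ^ 2 * (x - 1) ^ 2), -(x ^ 3 * (x - 1) ^ 3);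
    1, 0, 0, 0, 0, 0; 0, 1, 0, 0, 0, 0; 0, 0, 1, -1, 0, 0; 0, 0, 0, 0, 1, 0]

/-- Triangularizing matrix. -/
def Px (x : R) : Matrix (Fin 6) (Fin 6) R :=
  !![0, x ^ 2 * (x - 1), x * (x - 1), 0, 0, 1;
    0, x ^ 2 * (x - 1), x * (x - 1), x - 1, 1, 0;
    x ^ 2 * (x - 1), x, x, 1, 0, 0;
    x ^ 2 * (x - 1), x, 1, 0, 0, 0;
    0, 1, 0, 0, 0, 0; 1, 0, 0, 0, 0, 0]

/-- Its inverse. -/
def Px' (x : R) : Matrix (Fin 6) (Fin 6) R :=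
  !![0, 0, 0, 0, 0, 1; 0, 0, 0, 0, 1, 0;
    0, 0, 0, 1, -x, -(x ^ 2 * (x - 1));
    0, 0, 1, -x, x * (x - 1), x ^ 2 * (x - 1) ^ 2;
    0, 1, -(x - 1), 0, -(x * (x - 1) ^ 2), x ^ 2 * (x - 1) ^ 2;
    1, 0, 0, -(x * (x - 1)), 0, x ^ 3 * (x - 1) ^ 2]

/-- The triangular form. -/
def Ux (x : R) : Matrix (Fin 6) (Fin 6) R :=
  !![0, 1, 0, 0, 0, 0; 0, 0, x - 1, 1, 0, 0; 0, 0, 0, -1, 1, 0; 0, 0, 0, 0, -x, 1;
    0, 0, 0, 0, 0, -(x - 1); 0, 0, 0, 0, 0, 0]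

theorem Px_mul (x : R) : Px x * Px' x = 1 := by
  ext i j
  fin_cases i <;> fin_cases j <;>
    simp [Px, Px', Matrix.mul_apply, Fin.sum_univ_succ] <;> ring

theorem WP (x : R) : Wx x * Px x = Px x * Ux x := by
  ext i j
  fin_cases i <;> fin_cases j <;>
    simp [Px, Wx, Ux, Matrix.mul_apply, Fin.sum_univ_succ] <;> ring

theorem Ux_tri (x : R) (k l : Fin 6) (h : l ≤ k) : Ux x k l = 0 := by
  fin_cases k <;> fin_cases l <;> first | rfl | exact absurd h (by decide)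

theorem TN_Wx (x : R) : TN (Wx x) := by
  have h1 := Px_mul x
  have h2 : Px' x * Px x = 1 := mul_eq_one_comm.mp h1
  refine ⟨Px x, Px' x, h1, h2, ?_⟩
  intro k l h
  rw [mul_assoc, WP, ← mul_assoc, h2, one_mul] at h
  by_contra h'
  exact h (Ux_tri x k l (not_lt.mp h'))

theorem TN_map {A B : Type*} [Ring A] [Ring B] (f : A →+* B) {n : ℕ} {W : Matrix (Fin n) (Fin n) A}
    (h : TN W) : TN (W.map f) := by
  obtain ⟨P, P', h1, h2, h3⟩ := h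
  refine ⟨P.map f, P'.map f, ?_, ?_, ?_⟩
  · rw [← Matrix.map_mul, h1, Matrix.map_one f (map_zero f) (map_one f)]
  · rw [← Matrix.map_mul, h2, Matrix.map_one f (map_zero f) (map_one f)]
  · intro k l h
    rw [← Matrix.map_mul, ← Matrix.map_mul, Matrix.map_apply] at h
    apply h3
    intro h0
    exact h (by rw [h0, map_zero])

theorem Wx_map {S : Type*} [CommRing S] (f : R →+* S) (x : R) : (Wx x).map f = Wx (f x) := by
  ext i j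
  fin_cases i <;> fin_cases j <;> simp [Wx]

theorem Wx_short (x : R) (k l : Fin 6) : Wx x k l = 0 ∨ Wx x l k = 0 := by
  fin_cases k <;> fin_cases l <;> simp [Wx]

end gadget

section values

/-- The value at minus one. -/
def Wm : Matrix (Fin 6) (Fin 6) ℤ :=
  !![0, 2, 0, 0, 4, 0; 0, 0, -4, 0, -4, -8; 1, 0, 0, 0, 0, 0; 0, 1, 0, 0, 0, 0; 0, 0, 1, -1, 0, 0;
    0, 0, 0, 0, 1, 0]

/-- The value at one. -/
def Wp : Matrix (Fin 6) (Fin 6) ℤ :=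
  !![0, 0, 0, 0, 0, 0; 0, 0, 0, 0, 0, 0; 1, 0, 0, 0, 0, 0; 0, 1, 0, 0, 0, 0; 0, 0, 1, -1, 0, 0;
    0, 0, 0, 0, 1, 0]

theorem Wx_neg_one : Wx (-1 : ℤ) = Wm := by
  ext i j
  fin_cases i <;> fin_cases j <;> simp [Wx, Wm]

theorem Wx_one : Wx (1 : ℤ) = Wp := by
  ext i j
  fin_cases i <;> fin_cases j <;> simp [Wx, Wp]

theorem Wm_nil : IsNilpotent Wm := ⟨6, by decide +kernel⟩
theorem Wp_nil : IsNilpotent Wp := ⟨6, by decide +kernel⟩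
theorem Wm_short : ∀ i j, Wm i j * Wm j i = 0 := by decide +kernel
theorem Wp_short : ∀ i j, Wp i j * Wp j i = 0 := by decide +kernel

/-- Left factor. -/
def mR1 : Matrix (Fin 6) (Fin 5) ℤ :=
  !![2, 0, 0, 4, 0; 0, 0, 0, -4, -4; 0, 1, 0, 0, 0; 1, 0, 0, 0, 0; 0, 0, -1, 0, 0; 0, 0, 0, 1, 0]
/-- Right factor. -/
def mS1 : Matrix (Fin 5) (Fin 6) ℤ :=
  !![0, 1, 0, 0, 0, 0; 1, 0, 0, 0, 0, 0; 0, 0, -1, 1, 0, 0; 0, 0, 0, 0, 1, 0; 0, 0, 1, 0, 0, 2]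
/-- Left factor. -/
def mR2 : Matrix (Fin 5) (Fin 4) ℤ :=
  !![0, 0, 0, -4; 0, 0, 2, 0; -1, 0, 0, 0; 0, -1, 0, 0; 1, 0, 1, 0]
/-- Right factor. -/
def mS2 : Matrix (Fin 4) (Fin 5) ℤ :=
  !![-1, 1, 0, 0, 0; 0, 0, 1, 0, 0; 1, 0, 0, 2, 0; 0, 0, 0, 1, 1]
/-- Left factor. -/
def mR3 : Matrix (Fin 4) (Fin 3) ℤ := !![0, 2, 2; -1, 0, 0; 0, 0, -2; 1, 1, 0]
/-- Right factor. -/
def mS3 : Matrix (Fin 3) (Fin 4) ℤ := !![1, 0, 0, 0; 0, -1, 1, 0; 0, 1, 0, 2]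
/-- Left factor. -/
def mR4 : Matrix (Fin 3) (Fin 2) ℤ := !![0, 2; 1, -2; 1, 0]
/-- Right factor. -/
def mS4 : Matrix (Fin 2) (Fin 3) ℤ := !![1, 2, 0; 0, 1, 1]
/-- Left factor. -/
def mR5 : Matrix (Fin 2) (Fin 1) ℤ := !![-2; -2]
/-- Right factor. -/
def mS5 : Matrix (Fin 1) (Fin 2) ℤ := !![-1, 1]

theorem F_Wm : F 6 Wm = 1 := by
  have e1 : mR1 * mS1 = Wm := by decide +kernel
  have e2 : mR2 * mS2 = mS1 * mR1 := by decide +kernel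
  have e3 : mR3 * mS3 = mS2 * mR2 := by decide +kernel
  have e4 : mR4 * mS4 = mS3 * mR3 := by decide +kernel
  have e5 : mR5 * mS5 = mS4 * mR4 := by decide +kernel
  have e6 : mS5 * mR5 = 0 := by decide +kernel
  have q1 : Q mR1 mS1 = 0 := by decide +kernel
  have q2 : Q mR2 mS2 = 0 := by decide +kernel
  have q3 : Q mR3 mS3 = 0 := by decide +kernel
  have q4 : Q mR4 mS4 = 1 := by decide +kernel
  have q5 : Q mR5 mS5 = 0 := by decide +kernel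
  have n1 : IsNilpotent (mR1 * mS1) := by rw [e1]; exact Wm_nil
  have n2 : IsNilpotent (mR2 * mS2) := by rw [e2]; exact nil_swap n1
  have n3 : IsNilpotent (mR3 * mS3) := by rw [e3]; exact nil_swap n2
  have n4 : IsNilpotent (mR4 * mS4) := by rw [e4]; exact nil_swap n3
  have n5 : IsNilpotent (mR5 * mS5) := by rw [e5]; exact nil_swap n4
  have f1 := F_elem mR1 mS1 n1
  have f2 := F_elem mR2 mS2 n2
  have f3 := F_elem mR3 mS3 n3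
  have f4 := F_elem mR4 mS4 n4
  have f5 := F_elem mR5 mS5 n5
  rw [e6, F_zero, q5, e5] at f5
  rw [q4, e4] at f4
  rw [q3, e3] at f3
  rw [q2, e2] at f2
  rw [q1, e1] at f1
  have h1 : (1 : ZMod 2) + 1 = 0 := by decide
  linear_combination (-1 : ZMod 2) * f1 - f2 - f3 - f4 - f5 - h1

/-- Left factor. -/
def pR1 : Matrix (Fin 6) (Fin 5) ℤ :=
  !![0, 0, 0, 0, 0; 0, 0, 0, 0, 0; 0, 0, 0, 0, 1; 1, 0, 0, 0, 0; 0, 1, -1, 0, 0; 0, 0, 0, 1, 0]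
/-- Right factor. -/
def pS1 : Matrix (Fin 5) (Fin 6) ℤ :=
  !![0, 1, 0, 0, 0, 0; 0, 0, 1, 0, 0, 0; 0, 0, 0, 1, 0, 0; 0, 0, 0, 0, 1, 0; 1, 0, 0, 0, 0, 0]
/-- Left factor. -/
def pR2 : Matrix (Fin 5) (Fin 4) ℤ :=
  !![0, 0, 0, 0; 0, 0, 0, 1; 0, 0, 1, 0; 1, -1, 0, 0; 0, 0, 0, 0]
/-- Right factor. -/
def pS2 : Matrix (Fin 4) (Fin 5) ℤ :=
  !![0, 1, 0, 0, 0; 0, 0, 1, 0, 0; 1, 0, 0, 0, 0; 0, 0, 0, 0, 1]
/-- Left factor. -/
def pR3 : Matrix (Fin 4) (Fin 3) ℤ := !![0, 0, 1; 0, 1, 0; 0, 0, 0; 0, 0, 0]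
/-- Right factor. -/
def pS3 : Matrix (Fin 3) (Fin 4) ℤ := !![0, 1, 0, 0; 0, 0, 1, 0; 0, 0, 0, 1]
/-- Left factor. -/
def pR4 : Matrix (Fin 3) (Fin 2) ℤ := !![1, 0; 0, 0; 0, 0]
/-- Right factor. -/
def pS4 : Matrix (Fin 2) (Fin 3) ℤ := !![0, 1, 0; 0, 0, 1]

theorem F_Wp : F 6 Wp = 0 := by
  have e1 : pR1 * pS1 = Wp := by decide +kernel
  have e2 : pR2 * pS2 = pS1 * pR1 := by decide +kernel
  have e3 : pR3 * pS3 = pS2 * pR2 := by decide +kernel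
  have e4 : pR4 * pS4 = pS3 * pR3 := by decide +kernel
  have e5 : pS4 * pR4 = 0 := by decide +kernel
  have q1 : Q pR1 pS1 = 0 := by decide +kernel
  have q2 : Q pR2 pS2 = 0 := by decide +kernel
  have q3 : Q pR3 pS3 = 0 := by decide +kernel
  have q4 : Q pR4 pS4 = 0 := by decide +kernel
  have n1 : IsNilpotent (pR1 * pS1) := by rw [e1]; exact Wp_nil
  have n2 : IsNilpotent (pR2 * pS2) := by rw [e2]; exact nil_swap n1
  have n3 : IsNilpotent (pR3 * pS3) := by rw [e3]; exact nil_swap n2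
  have n4 : IsNilpotent (pR4 * pS4) := by rw [e4]; exact nil_swap n3
  have f1 := F_elem pR1 pS1 n1
  have f2 := F_elem pR2 pS2 n2
  have f3 := F_elem pR3 pS3 n3
  have f4 := F_elem pR4 pS4 n4
  rw [e5, F_zero, q4, e4] at f4
  rw [q3, e3] at f3
  rw [q2, e2] at f2
  rw [q1, e1] at f1
  linear_combination (-1 : ZMod 2) * f1 - f2 - f3 - f4

end values

end Pool.Agent.Helper817_sse
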