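import Mathlib
import Pool.Agent.Helper817_sse.TwoGadget

set_option autoImplicit false
set_option linter.unusedSectionVars false

/-!
# Pairs of gadgets with the same augmentation, for every nontrivial finite group
-/

namespace Pool.Agent.Helper817_sse

open Matrix Finset

/-- The statement of the main theorem for a group. -/
def Conc (G : Type) [Group G] [Fintype G] (N : ℕ) : Prop :=
  ∃ (n : ℕ) (A : Fin n → Fin n → G → ℤ) (f : Fin N → Fin n → Fin n → G → ℤ),
    GPrim (⟨n, A⟩ : SM G) ∧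
    (∀ m, GPrim (⟨n, f m⟩ : SM G) ∧ Relation.EqvGen EZ (⟨n, f m⟩ : SM G) ⟨n, A⟩) ∧
    (∀ m m', m ≠ m' → ¬ Relation.EqvGen EP (⟨n, f m⟩ : SM G) ⟨n, f m'⟩) ∧
    (∀ m i j, ∑ g, f m i j g = ∑ g, A i j g)

theorem z2_aux (c : ℕ) (h : c % 2 = 1) :
    (((0 : ℤ) - 1 : ℤ) : ZMod 2) ≠ (((c : ℤ) - 1 : ℤ) : ZMod 2) := by
  have h3 : (c : ℤ) = 2 * ((c / 2 : ℕ) : ℤ) + 1 := by omega
  rw [h3]
  have h4 : ((2 * ((c / 2 : ℕ) : ℤ) + 1 - 1 : ℤ) : ZMod 2) = 0 := by
    push_cast
    have : (2 : ZMod 2) = 0 := by decide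
    rw [this]; ring
  rw [h4]
  decide

section odd

variable {G : Type} [Group G] [Fintype G]

theorem rr_trace {X : Type} [Fintype X] [DecidableEq X] [MulAction G X] (x0 : X) (g : G) :
    ∑ a, rr x0 g a a = (∑ a : X, if g • a = a then (1 : ℤ) else 0) - 1 := by
  unfold rr
  rw [sum_sub_distrib]
  congr 1
  rw [sum_eq_single (g⁻¹ • x0)]
  · simp
  · intro b _ hb
    rw [if_neg]
    intro h
    apply hb
    rw [← h]; simp
  · intro h; exact absurd (mem_univ _) h

theorem conc_odd (p : ℕ) (hp : p.Prime) (hodd : Odd p) (hdvd : p ∣ Fintype.card G) (N : ℕ) :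
    Conc G N := by
  classical
  have : Fact p.Prime := ⟨hp⟩
  have : Fact (Nat.Prime 2) := ⟨Nat.prime_two⟩
  obtain ⟨g, hg⟩ := exists_prime_orderOf_dvd_card p hdvd
  obtain ⟨P⟩ : Nonempty (Sylow 2 G) := inferInstance
  let X := G ⧸ (P : Subgroup G)
  have : Fintype X := Fintype.ofFinite X
  let x0 : X := ((1 : G) : G ⧸ (P : Subgroup G))
  have hcard : Fintype.card X % 2 = 1 := by
    have h1 : ¬ 2 ∣ (P : Subgroup G).index := P.not_dvd_index
    have h2 : Fintype.card X = (P : Subgroup G).index := by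
      rw [Subgroup.index, Nat.card_eq_fintype_card]
    rw [h2]
    omega
  have hfix : ∀ a : X, g • a ≠ a := by
    intro a
    induction a using Quotient.inductionOn with
    | _ b =>
      intro h
      have h1 : ((g * b : G) : G ⧸ (P : Subgroup G)) = (b : G ⧸ (P : Subgroup G)) := h
      rw [QuotientGroup.eq] at h1
      have h2 : b⁻¹ * g * b ∈ (P : Subgroup G) := by
        have h3 := (P : Subgroup G).inv_mem h1
        have h4 : ((g * b)⁻¹ * b)⁻¹ = b⁻¹ * g * b := by group
        rwa [h4] at h3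
      obtain ⟨k, hk⟩ := P.isPGroup' ⟨_, h2⟩
      have h5 : (b⁻¹ * g * b) ^ 2 ^ k = 1 := by
        have := congrArg Subtype.val hk
        simpa using this
      have h6 : g ^ 2 ^ k = 1 := by
        have h7 : (b⁻¹ * g * b) ^ 2 ^ k = b⁻¹ * g ^ 2 ^ k * b := by
          have := conj_pow (i := 2 ^ k) (a := b⁻¹) (b := g)
          simpa using this
        rw [h7] at h5
        have h8 : b⁻¹ * g ^ 2 ^ k = b⁻¹ := mul_eq_one_iff_eq_inv.mp h5
        exact mul_eq_left.mp h8
      have h9 := orderOf_dvd_of_pow_eq_one h6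
      rw [hg] at h9
      have h10 := (Nat.prime_dvd_prime_iff_eq hp Nat.prime_two).mp (hp.dvd_of_dvd_pow h9)
      rw [h10] at hodd
      exact absurd hodd (by decide)
  have hne : FI (rho x0 (fn (gm (MonoidAlgebra.single g 1) N6))) ≠
      FI (rho x0 (fn (gm (MonoidAlgebra.single (1 : G) 1) N6))) := by
    rw [FI_gm, FI_gm, rr_trace, rr_trace]
    have h1 : (∑ a : X, if g • a = a then (1 : ℤ) else 0) = 0 :=
      sum_eq_zero (fun a _ => if_neg (hfix a))
    have h2 : (∑ a : X, if (1 : G) • a = a then (1 : ℤ) else 0) = Fintype.card X := by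
      rw [sum_congr rfl (fun a _ => if_pos (one_smul G a)), sum_const, card_univ]
      simp
    rw [h1, h2]
    exact z2_aux _ hcard
  have hsupp : ∀ (γ : Lam G) (k l : Fin 6), gm γ N6 k l ≠ 0 → N6 k l ≠ 0 := by
    intro γ k l h h0
    apply h
    change N6 k l • γ = 0
    rw [h0, zero_smul]
  obtain ⟨n, A, f, h1, h2, h3, h4⟩ := family_main x0 (by norm_num : 0 < 6)
    (gm (MonoidAlgebra.single g 1) N6) (gm (MonoidAlgebra.single (1 : G) 1) N6)
    (fun k l => N6 k l ≠ 0) (hsupp _) (hsupp _)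
    (fun k l h1 h2 => by
      rcases mul_eq_zero.mp (N6_short k l) with h | h
      · exact h1 h
      · exact h2 h)
    (TN_gm _) (TN_gm _) hne N
  refine ⟨n, A, f, h1, h2, h3, h4 ?_⟩
  intro k l
  have h5 : ∀ γ : G, ∑ h, (gm (MonoidAlgebra.single γ 1 : Lam G) N6 k l).coeff h = N6 k l := by
    intro γ
    change ∑ h, (N6 k l • (MonoidAlgebra.single γ 1 : Lam G)).coeff h = N6 k l
    rw [sum_eq_single γ]
    · rw [coeff_zsmul, MonoidAlgebra.coeff_single, Finsupp.single_eq_same, mul_one]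
    · intro h _ hh
      rw [coeff_zsmul, MonoidAlgebra.coeff_single, Finsupp.single_eq_of_ne hh, mul_zero]
    · intro h; exact absurd (mem_univ _) h
  rw [h5, h5]

end odd

section two

variable {G : Type} [Group G] [Fintype G]

open Polynomial

/-- Evaluation of integer polynomials in the group ring. -/
noncomputable def ph (γ : Lam G) : ℤ[X] →+* Lam G := (Polynomial.aeval γ).toRingHom

theorem ph_X (γ : Lam G) : ph γ X = γ := by
  unfold ph
  exact Polynomial.aeval_X γ

/-- The ring homomorphism attached to a character. -/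
noncomputable def lf (F : G →* ℤ) : Lam G →+* ℤ := (MonoidAlgebra.lift ℤ ℤ G F).toRingHom

theorem lf_apply (F : G →* ℤ) (a : Lam G) : lf F a = ∑ g, a.coeff g * F g := by
  change MonoidAlgebra.lift ℤ ℤ G F a = _
  rw [MonoidAlgebra.lift_apply, Finsupp.sum_fintype]
  · rfl
  · intro g; rw [zero_smul]

theorem lf_single (F : G →* ℤ) (g : G) : lf F (MonoidAlgebra.single g 1) = F g := by
  change MonoidAlgebra.lift ℤ ℤ G F _ = _
  rw [MonoidAlgebra.lift_single, one_smul]

/-- The gadget over the group ring. -/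
noncomputable def Wg (γ : Lam G) : Matrix (Fin 6) (Fin 6) (Lam G) := (Wx (X : ℤ[X])).map (ph γ)

theorem Wg_lf (F : G →* ℤ) (γ : Lam G) (k l : Fin 6) : lf F (Wg γ k l) = Wx (lf F γ) k l := by
  have h1 : (Wx (X : ℤ[X])).map ((lf F).comp (ph γ)) = Wx (((lf F).comp (ph γ)) X) := Wx_map _ _
  have h2 : ((lf F).comp (ph γ)) X = lf F γ := by
    rw [RingHom.comp_apply, ph_X]
  rw [h2] at h1
  exact congrFun (congrFun h1 k) l

theorem conc_two (σ : G →* ℤˣ) (h : G) (hh : σ h = -1) (N : ℕ) : Conc G N := by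
  classical
  let _ : MulAction G ℤˣ := MulAction.compHom ℤˣ σ
  have hsm : ∀ (g : G) (u : ℤˣ), g • u = σ g * u := fun g u => rfl
  have : MulAction.IsPretransitive G ℤˣ := by
    refine ⟨fun a b => ?_⟩
    by_cases hab : a = b
    · exact ⟨1, by rw [hab, hsm]; simp⟩
    · refine ⟨h, ?_⟩
      rw [hsm, hh]
      rcases Int.units_eq_one_or a with ha | ha <;> rcases Int.units_eq_one_or b with hb | hb <;>
        subst ha <;> subst hb <;> first | rfl | exact absurd rfl hab
  set F : G →* ℤ := (Units.coeHom ℤ).comp σ with hF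
  set E' : Matrix ℤˣ ℤˣ ℤ := Matrix.of fun a b => if a = 1 then 0 else -(b : ℤ) with hE'
  have hrr : ∀ (g : G) (a b : ℤˣ), rr (1 : ℤˣ) g a b = F g * E' a b := by
    intro g a b
    have hFg : F g = (σ g : ℤ) := rfl
    rw [hFg]
    unfold rr
    rw [hsm]
    generalize σ g = s
    simp only [hE', Matrix.of_apply]
    revert s a b
    decide
  have htrE : E'.trace = 1 := by
    rw [Matrix.trace]
    simp only [hE']
    decide
  have key : ∀ γ : Lam G, FI (rho (1 : ℤˣ) (fn (Wg γ))) = FI (Wx (lf F γ)) := by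
    intro γ
    have h1 : rho (1 : ℤˣ) (fn (Wg γ)) = Matrix.of fun (x y : Fin 6 × ℤˣ) =>
        Wx (lf F γ) x.1 y.1 * E' x.2 y.2 := by
      ext z w
      rw [rho_apply]
      change _ = Wx (lf F γ) z.1 w.1 * E' z.2 w.2
      rw [← Wg_lf, lf_apply, sum_mul]
      apply sum_congr rfl; intro g _
      rw [hrr]
      change (Wg γ z.1 w.1).coeff g * _ = _
      ring
    have hnil : IsNilpotent (Wx (lf F γ)) := ⟨7, TN_pow _ (TN_Wx _)⟩
    have hsh : ∀ i j, Wx (lf F γ) i j * Wx (lf F γ) j i = 0 := by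
      intro i j
      rcases Wx_short (lf F γ) i j with h | h <;> rw [h] <;> simp
    rw [h1, FI_kron _ hnil hsh, htrE]
    simp
  have hne : FI (rho (1 : ℤˣ) (fn (Wg (MonoidAlgebra.single h 1 : Lam G)))) ≠
      FI (rho (1 : ℤˣ) (fn (Wg (MonoidAlgebra.single 1 1 : Lam G)))) := by
    rw [key, key, lf_single, lf_single]
    have h1 : F h = -1 := by
      change ((σ h : ℤˣ) : ℤ) = -1
      rw [hh]; rfl
    have h2 : F 1 = 1 := map_one F
    rw [h1, h2, Wx_neg_one, Wx_one, FI_eq_F (Equiv.refl (Fin 6)) Wm Wm_nil Wm_short,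
      FI_eq_F (Equiv.refl (Fin 6)) Wp Wp_nil Wp_short]
    have h3 : F (1 : G) = 1 := map_one F
    change Pool.Agent.Helper817_sse.F 6 Wm ≠ Pool.Agent.Helper817_sse.F 6 Wp
    rw [F_Wm, F_Wp]
    decide
  have hsupp : ∀ (γ : Lam G) (k l : Fin 6), Wg γ k l ≠ 0 → Wx (X : ℤ[X]) k l ≠ 0 := by
    intro γ k l hk h0
    apply hk
    change ph γ (Wx (X : ℤ[X]) k l) = 0
    rw [h0, map_zero]
  obtain ⟨n, A, f, h1, h2, h3, h4⟩ := family_main (1 : ℤˣ) (by norm_num : 0 < 6)
    (Wg (MonoidAlgebra.single h 1 : Lam G)) (Wg (MonoidAlgebra.single 1 1 : Lam G))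
    (fun k l => Wx (X : ℤ[X]) k l ≠ 0) (hsupp _) (hsupp _)
    (fun k l h1 h2 => by
      rcases Wx_short (X : ℤ[X]) k l with h | h
      · exact h1 h
      · exact h2 h)
    (TN_map _ (TN_Wx _)) (TN_map _ (TN_Wx _)) hne N
  refine ⟨n, A, f, h1, h2, h3, h4 ?_⟩
  intro k l
  have h5 : ∀ γ : G, ∑ g, (Wg (MonoidAlgebra.single γ 1 : Lam G) k l).coeff g = Wx (1 : ℤ) k l := by
    intro γ
    have h6 := Wg_lf (1 : G →* ℤ) (MonoidAlgebra.single γ 1) k l
    rw [lf_single, lf_apply] at h6
    simpa using h6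
  rw [h5, h5]

end two

/-- The main theorem. -/
theorem conc_all (G : Type) [Group G] [Fintype G] [Nontrivial G] (N : ℕ) : Conc G N := by
  classical
  rcases Nat.eq_two_pow_or_exists_odd_prime_and_dvd (Fintype.card G) with ⟨k, hk⟩ | ⟨p, hp, hd, ho⟩
  · have : Fact (Nat.Prime 2) := ⟨Nat.prime_two⟩
    have hk0 : k ≠ 0 := by
      rintro rfl
      have := Fintype.one_lt_card (α := G)
      rw [hk] at this
      simp at this
    obtain ⟨k, rfl⟩ := Nat.exists_eq_succ_of_ne_zero hk0
    obtain ⟨H, hH⟩ := Sylow.exists_subgroup_card_pow_prime (G := G) 2 (n := k)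
      (by rw [Nat.card_eq_fintype_card, hk]; exact pow_dvd_pow 2 (Nat.le_succ k))
    have hidx : H.index = 2 := by
      have h1 := H.card_mul_index
      rw [hH, Nat.card_eq_fintype_card, hk, pow_succ] at h1
      exact Nat.eq_of_mul_eq_mul_left (pow_pos (by norm_num) k) h1
    let σ : G →* ℤˣ :=
      { toFun := fun g => if g ∈ H then 1 else -1
        map_one' := by simp [H.one_mem]
        map_mul' := by
          intro a b
          have := Subgroup.mul_mem_iff_of_index_two hidx (a := a) (b := b)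
          by_cases ha : a ∈ H <;> by_cases hb : b ∈ H <;> simp [this, ha, hb] }
    have hex : ∃ h : G, h ∉ H := by
      by_contra hcon
      push Not at hcon
      have : H = ⊤ := Subgroup.eq_top_iff' H |>.mpr hcon
      rw [this, Subgroup.index_top] at hidx
      exact absurd hidx (by norm_num)
    obtain ⟨h, hh⟩ := hex
    exact conc_two σ h (if_neg hh) N
  · exact conc_odd p hp ho hd N

end Pool.Agent.Helper817_sse
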